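import Pool.Agent.Lib.H65F.D1

/-! Chunk A1: algebra of `kap` and closure properties of `AA`. -/

set_option autoImplicit false

namespace Pool.Agent.Lib.H65F

open Subgroup Pool.Agent.H69

variable {F : Formation} (S : BSys F)

/-- PROOF. `Finsupp.prod_add_index'` (`zpow_zero`, `zpow_add`). -/
theorem kap_add (y y' : LFn S →₀ ℤ) (ρ : Fr) : kap S (y + y') ρ = kap S y ρ * kap S y' ρ := by
  classical
  unfold kap
  exact Finsupp.prod_add_index' (fun g => zpow_zero _) (fun g m n => zpow_add _ _ _)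

theorem kap_zero (ρ : Fr) : kap S 0 ρ = 1 := by
  unfold kap
  exact Finsupp.prod_zero_index

/-- PROOF. Induction or `Finsupp.prod_smul_index`-type lemma; or from `kap_add` (a homomorphism of the additive
group of measures to the multiplicative group `center G`). -/
theorem kap_smul (n : ℤ) (y : LFn S →₀ ℤ) (ρ : Fr) : kap S (n • y) ρ = (kap S y ρ) ^ n := by
  let φ : (LFn S →₀ ℤ) →+ Additive (center S.G) :=
    { toFun := fun y => Additive.ofMul (kap S y ρ)
      map_zero' := by rw [kap_zero]; rfl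
      map_add' := fun y y' => by rw [kap_add]; rfl }
  have h : φ (n • y) = n • φ y := map_zsmul φ n y
  exact congrArg Additive.toMul h

theorem kap_single (g : LFn S) (n : ℤ) (ρ : Fr) :
    kap S (Finsupp.single g n) ρ = (cz (bl S g ρ)) ^ n := by
  unfold kap
  exact Finsupp.prod_single_index (zpow_zero _)

theorem a1_cz_mul {G : Type} [Group G] {x x' : G} (h : x ∈ center G) (h' : x' ∈ center G) :
    cz (x * x') = cz x * cz x' := by
  apply Subtype.ext
  rw [cz_coe (mul_mem h h')]
  change x * x' = (cz x : G) * (cz x' : G)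
  rw [cz_coe h, cz_coe h']

theorem a1_bl_mem {g : LFn S} {ρ : Fr} (h : bt S g ρ = 1) : bl S g ρ ∈ center S.G := by
  apply S.kG
  rw [MonoidHom.mem_ker, bl_spec, h]

/-- PROOF. For `g` in the support, `bl S g ρ` and `bl S g ρ'` are central, so
`cz (x * x') = cz x * cz x'` for central `x`, `x'`; `Finsupp.prod`, `mul_zpow`, `Finset.prod_mul_distrib`. -/
theorem kap_mul (y : LFn S →₀ ℤ) {ρ ρ' : Fr} (h : ∀ g ∈ y.support, bt S g ρ = 1)
    (h' : ∀ g ∈ y.support, bt S g ρ' = 1) : kap S y (ρ * ρ') = kap S y ρ * kap S y ρ' := by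
  unfold kap Finsupp.prod
  rw [← Finset.prod_mul_distrib]
  refine Finset.prod_congr rfl fun g hg => ?_
  change cz (bl S g (ρ * ρ')) ^ (y g) = cz (bl S g ρ) ^ (y g) * cz (bl S g ρ') ^ (y g)
  rw [map_mul, a1_cz_mul (a1_bl_mem S (h g hg)) (a1_bl_mem S (h' g hg)), mul_zpow]

variable {H : Formation}

end Pool.Agent.Lib.H65F
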