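import Pool.Agent.Lib.H65F.D1
import Pool.Agent.Lib.H65F.A1

/-! Chunk A2: lemma CL1 and the abstract lemma CL2. -/

set_option autoImplicit false

namespace Pool.Agent.Lib.H65F

open Subgroup Pool.Agent.H69

/-- PROOF. `R₁ := R' ⊓ ⨅ g ∈ y.support, (bt S g).ker`, `R₂ := R₁ ⊓ ⨅ g ∈ y.support, ker (hh g)`; both `GoodQ` (`BSys.goodQ_inf'`,
`BSys.goodQ_inf`), in particular normal.  `ρ ∈ R₁` (`⁅R', R'⁆ ≤ R'`).  `le_commutator_sup`: `ρ = ρ₁ * ρ₂`, `ρ₁ ∈ ⁅R₁, R₁⁆`, `ρ₂ ∈ R₂`.  For `g` in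
the support `bl S g ρ₁ = 1` (`lift_comm_eq_one` along `S.aG`), so `kap S y ρ₁ = 1`; `kap_mul` (chunk A1, prove it here again if you like: only
`mul_zpow`) gives `kap S y ρ = kap S y ρ₂`.  `ρ₂ = ρ₁⁻¹ * ρ ∈ ⁅R', R'⁆ ≤ commutator Fr`, and `hh g ρ₂ = 1` for `g` in the support.  `central_product'` with
`s := y.support`, `h := hh`, `v := bl S` gives `∏ g ∈ y.support, cz (bl S g ρ₂) ^ (y g) = 1`, which is `kap S y ρ₂`
(`Finsupp.prod`); hypothesis `hco`: `R' ≤ β.ker` and `lf S.a₀ S.ha₀ β ρ₂ = 1` by `lift_comm_eq_one` (`ρ₂ ∈ ⁅R', R'⁆`). -/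
theorem kap_eq_one {F : Formation} (S : BSys F) {y : LFn S →₀ ℤ}
    (hy : ∀ g ∈ y.support, Function.Injective g) {R' : Subgroup Fr} (hR' : GoodQ F R')
    (hco : ∀ (i : S.I) (β : Fr →* S.Y),
      coef y (fun g => (S.π' i).comp (hh g)) β ≠ 0 → R' ≤ β.ker)
    {ρ : Fr} (hρ : ρ ∈ ⁅R', R'⁆) (hρ1 : ∀ g ∈ y.support, bt S g ρ = 1) : kap S y ρ = 1 := by
  classical
  have hG1 := S.goodQ_inf' hR' y.support hy
  have hG2 := S.goodQ_inf hG1 y.support hy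
  obtain ⟨hn1, -, -⟩ := id hG1
  obtain ⟨hn2, -, -⟩ := id hG2
  have hmem : ∀ r ∈ (R' ⊓ ⨅ g ∈ y.support, (S.p'.comp (hh g)).ker : Subgroup Fr),
      ∀ g ∈ y.support, bt S g r = 1 := by
    intro r hr g hg
    have h := (Subgroup.mem_inf.mp hr).2
    rw [Subgroup.mem_iInf] at h
    have h' := h g
    rw [Subgroup.mem_iInf] at h'
    exact h' hg
  have hself : ⁅R', R'⁆ ≤ R' := by
    rw [Subgroup.commutator_le]
    intro a ha b hb
    rw [commutatorElement_def]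
    exact mul_mem (mul_mem (mul_mem ha hb) (inv_mem ha)) (inv_mem hb)
  have hρR : ρ ∈ (R' ⊓ ⨅ g ∈ y.support, (S.p'.comp (hh g)).ker : Subgroup Fr) := by
    refine Subgroup.mem_inf.mpr ⟨hself hρ, ?_⟩
    rw [Subgroup.mem_iInf]
    intro g
    rw [Subgroup.mem_iInf]
    intro hg
    exact hρ1 g hg
  have hsup := le_commutator_sup S.h1 S.h2 hn1 hG2 hρR
  rw [Subgroup.mem_sup_of_normal_right] at hsup
  obtain ⟨ρ₁, hρ₁, ρ₂, hρ₂, hmul⟩ := hsup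
  have hb1 : ∀ g ∈ y.support, bl S g ρ₁ = 1 := by
    intro g hg
    refine lift_comm_eq_one S.aG S.kG (bl S g) (fun r hr => ?_) hρ₁
    rw [bl_spec]
    exact hmem r hr g hg
  have hbt1 : ∀ g ∈ y.support, bt S g ρ₁ = 1 := by
    intro g hg
    rw [← bl_spec, hb1 g hg, map_one]
  have hbt2 : ∀ g ∈ y.support, bt S g ρ₂ = 1 := fun g hg => hmem ρ₂ hρ₂.1 g hg
  have hk1 : kap S y ρ₁ = 1 := by
    unfold kap Finsupp.prod
    refine Finset.prod_eq_one fun g hg => ?_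
    change cz (bl S g ρ₁) ^ (y g) = 1
    have h1 : (cz (1 : S.G)) = 1 := Subtype.ext (cz_coe (one_mem _))
    rw [hb1 g hg, h1, one_zpow]
  have hkm := kap_mul S y hbt1 hbt2
  rw [hmul, hk1, one_mul] at hkm
  rw [hkm]
  have hρ₁' : ρ₁ ∈ ⁅R', R'⁆ := Subgroup.commutator_mono inf_le_left inf_le_left hρ₁
  have hρ₂e : ρ₂ = ρ₁⁻¹ * ρ := by rw [← hmul, inv_mul_cancel_left]
  have hρ₂R : ρ₂ ∈ ⁅R', R'⁆ := by
    rw [hρ₂e]
    exact mul_mem (inv_mem hρ₁') hρ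
  have hρ₂c : ρ₂ ∈ _root_.commutator Fr := by
    rw [_root_.commutator_def]
    exact Subgroup.commutator_mono le_top le_top hρ₂R
  have hhh : ∀ g ∈ y.support, hh g ρ₂ = 1 := by
    intro g hg
    have h := (Subgroup.mem_inf.mp hρ₂).2
    rw [Subgroup.mem_iInf] at h
    have h' := h g
    rw [Subgroup.mem_iInf] at h'
    exact h' hg
  exact central_product' S y.support (fun g => y g) (fun g => hh g) (fun g => bl S g)
    (fun g _ f => bl_spec S g f) hρ₂c hhh (fun i β hne => by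
      have hle : R' ≤ β.ker := hco i β hne
      refine lift_comm_eq_one S.a₀ S.k₀ _ (fun r hr => ?_) hρ₂R
      rw [lf_spec]
      exact hle hr)

end Pool.Agent.Lib.H65F
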