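import Pool.Agent.Lib.H65F.D1
import Pool.Agent.Lib.H65F.A2

/-! Chunk A2b: lemma CL1 and the abstract lemma CL2. -/

set_option autoImplicit false

namespace Pool.Agent.Lib.H65F

open Subgroup Pool.Agent.H69

/-- The abstract lemma.
PROOF. `K₀` is normal as a central subgroup.  `Q := P ⧸ (N ⊔ K₀)` is perfect (image of `P`), `Z₁` := image of `Z` in `Q` is central of index
`(Z ⊔ (N ⊔ K₀)).index = (Z ⊔ N).index ≤ b` (`K₀ ≤ Z`; `Subgroup.index_map_of_surjective`-type lemma), so `|Q| ≤ schurB b` (`card_le_schurB`) and `Q ∈ H` by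
`hH`.  `Z ⊓ (N ⊔ K₀) = (Z ⊓ N) ⊔ K₀ = K₀` (modular law, `K₀ ≤ Z`; elementwise: `z = n k`, `n = z k⁻¹ ∈ N ⊓ Z ≤ K₀`).  So
`P ⧸ K₀ = P ⧸ (Z ⊓ (N ⊔ K₀)) ∈ H` by `H.inter` (`QuotientGroup.quotientMulEquivOfEq`). -/
theorem abs_lemma (H : Formation) {P : Type} [Group P] [Finite P]
    (hP : _root_.commutator P = ⊤) {Z N K₀ : Subgroup P} (hZ : Z ≤ center P) (hN : N.Normal)
    (hZn : Z.Normal) (hK₀ : K₀.Normal) (hK : K₀ ≤ Z) (hNZ : N ⊓ Z ≤ K₀) (hPZ : H.mem (P ⧸ Z))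
    {b : ℕ} (hb : (Z ⊔ N).index ≤ b)
    (hH : ∀ (Q : Type) [Group Q] [Finite Q] (f : P →* Q), Function.Surjective f →
      Nat.card Q ≤ schurB b → H.mem Q) : H.mem (P ⧸ K₀) := by
  have hM : (N ⊔ K₀).Normal := Subgroup.sup_normal N K₀
  have hs : Function.Surjective (QuotientGroup.mk' (N ⊔ K₀)) := QuotientGroup.mk'_surjective _
  have hQ : _root_.commutator (P ⧸ (N ⊔ K₀)) = ⊤ := by
    have h1 := Subgroup.map_commutator (⊤ : Subgroup P) ⊤ (QuotientGroup.mk' (N ⊔ K₀))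
    rw [Subgroup.map_top_of_surjective _ hs, ← _root_.commutator_def, ← _root_.commutator_def,
      hP, Subgroup.map_top_of_surjective _ hs] at h1
    exact h1.symm
  have hZ1 : Z.map (QuotientGroup.mk' (N ⊔ K₀)) ≤ center (P ⧸ (N ⊔ K₀)) := by
    rintro _ ⟨z, hz, rfl⟩
    rw [Subgroup.mem_center_iff]
    intro g
    obtain ⟨x, rfl⟩ := hs g
    rw [← map_mul, ← map_mul, Subgroup.mem_center_iff.1 (hZ hz) x]
  have hidx : (Z.map (QuotientGroup.mk' (N ⊔ K₀))).index ≤ b := by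
    rw [← Subgroup.index_comap_of_surjective _ hs, Subgroup.comap_map_eq, QuotientGroup.ker_mk',
      ← sup_assoc, sup_eq_left.2 (hK.trans le_sup_left)]
    exact hb
  have hQm : H.mem (P ⧸ (N ⊔ K₀)) :=
    hH _ (QuotientGroup.mk' (N ⊔ K₀)) hs (card_le_schurB hQ hZ1 hidx)
  have hint : Z ⊓ (N ⊔ K₀) = K₀ := by
    apply le_antisymm
    · intro z hz
      obtain ⟨hz1, hz2⟩ := Subgroup.mem_inf.1 hz
      obtain ⟨n, hn, k, hk, rfl⟩ := Subgroup.mem_sup_of_normal_right.1 hz2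
      have : n ∈ N ⊓ Z := by
        refine ⟨hn, ?_⟩
        have := Z.mul_mem hz1 (Z.inv_mem (hK hk))
        rwa [mul_inv_cancel_right] at this
      exact K₀.mul_mem (hNZ this) hk
    · exact le_inf hK le_sup_right
  have := H.inter P Z (N ⊔ K₀) hPZ hQm
  exact H.iso _ _ (QuotientGroup.quotientMulEquivOfEq hint) this

end Pool.Agent.Lib.H65F
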