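import Pool.Agent.Lib.H65F.A1
import Pool.Agent.Lib.H65F.A1b
import Pool.Agent.Lib.H65F.A1c
import Pool.Agent.Lib.H65F.A2
import Pool.Agent.Lib.H65F.A2b
import Pool.Agent.Lib.H65F.A3a

/-! Chunk A3b: lemma CL of Theorem A. -/

set_option autoImplicit false

namespace Pool.Agent.Lib.H65F

open Subgroup Pool.Agent.H69

variable {F : Formation} (S : BSys F)

/-- The subgroup of `PP` of elements which vanish in all `G'`. -/
noncomputable def ZZ (s : Finset (LFn S)) : Subgroup ↥(PP S s) :=
  (MonoidHom.pi fun g : s => (S.aG.comp (Pi.evalMonoidHom (fun _ => S.G) g)).comp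
    (PP S s).subtype : ↥(PP S s) →* (s → S.G')).ker

/-- PROOF. Coordinates in `S.aG.ker ≤ center G`; `PP ⧸ ZZ` embeds in `s → G'` with surjective coordinates: `mem_of_family` with
`hX := hG'`. -/
theorem ZZ_spec (H : Formation) (hG' : H.mem S.G') (s : Finset (LFn S))
    (hs : ∀ g ∈ s, Function.Injective g) :
    ZZ S s ≤ center ↥(PP S s) ∧ ∃ _ : (ZZ S s).Normal, H.mem (↥(PP S s) ⧸ ZZ S s) := by
  classical
  have hmem : ∀ z : ↥(PP S s), z ∈ ZZ S s ↔ ∀ g : s, S.aG (z.1 g) = 1 := by
    intro z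
    constructor
    · intro h g
      exact congrFun h g
    · intro h
      exact funext h
  have hn : (ZZ S s).Normal := by
    unfold ZZ
    infer_instance
  refine ⟨?_, hn, ?_⟩
  · intro z hz
    rw [Subgroup.mem_center_iff]
    intro w
    apply Subtype.ext
    funext g
    have h1 : z.1 g ∈ center S.G := S.kG ((hmem z).mp hz g)
    exact Subgroup.mem_center_iff.mp h1 (w.1 g)
  · refine H.mem_of_family hG' (ι := ↥s) (fun _ => S.G')
      (fun g => QuotientGroup.lift (ZZ S s)
        ((S.aG.comp (Pi.evalMonoidHom (fun _ : ↥s => S.G) g)).comp (PP S s).subtype)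
        (fun z hz => (hmem z).mp hz g))
      (fun g b => ?_) (fun _ => hG') (fun q hq => ?_)
    · obtain ⟨x, rfl⟩ := S.haG b
      obtain ⟨z, hz, rfl⟩ := PP_subdirect S s hs g x
      exact ⟨QuotientGroup.mk ⟨z, hz⟩, rfl⟩
    · obtain ⟨z, rfl⟩ := QuotientGroup.mk_surjective q
      rw [QuotientGroup.eq_one_iff, hmem]
      intro g
      exact hq g

end Pool.Agent.Lib.H65F
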