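import Pool.Agent.Lib.H65F.A1
import Pool.Agent.Lib.H65F.A1b
import Pool.Agent.Lib.H65F.A1c
import Pool.Agent.Lib.H65F.A2
import Pool.Agent.Lib.H65F.A2b
import Pool.Agent.Lib.H65F.A3a
import Pool.Agent.Lib.H65F.A3b

/-! Chunk A3c: lemma CL of Theorem A. -/

set_option autoImplicit false

namespace Pool.Agent.Lib.H65F

open Subgroup Pool.Agent.H69

variable {F : Formation} (S : BSys F)

/-- The image of `⁅R', R'⁆` in `PP`. -/
noncomputable def NN (s : Finset (LFn S)) (R' : Subgroup Fr) : Subgroup ↥(PP S s) :=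
  (⁅R', R'⁆.map (UU S s)).subgroupOf (PP S s)

/-- PROOF. Normal: `⁅R', R'⁆` is normal in `Fr`, so its image is normal in `(UU).range ≥ PP`.  Index: consider the composition
`commutator Fr → PP → PP ⧸ (ZZ ⊔ NN)`, surjective.  Its kernel contains `commutator Fr ⊓ R'`: let `ρ` be in it, `R₂ := R' ⊓ ⨅ g ∈ s, (bt S g).ker`
(`GoodQ`, `BSys.goodQ_inf'`), `le_commutator_sup` (`R₁ := R'`): `ρ = ρ₁ * ρ₂`, `ρ₁ ∈ ⁅R', R'⁆`, `ρ₂ ∈ R₂`; `UU ρ₁ ∈ NN`, and
`ρ₂ = ρ₁⁻¹ ρ ∈ commutator Fr`, so `UU ρ₂ ∈ ZZ`.  So the index is at most the index of `commutator Fr ⊓ R'` in `commutator Fr`, which is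
`≤ R'.index` (`Subgroup.relIndex_le_index`-type lemma; `R'` has finite index). -/
theorem NN_spec (s : Finset (LFn S)) (hs : ∀ g ∈ s, Function.Injective g) {R' : Subgroup Fr}
    (hR' : GoodQ F R') {b : ℕ} (hb : R'.index ≤ b) :
    (NN S s R').Normal ∧ (ZZ S s ⊔ NN S s R').index ≤ b := by
  obtain ⟨hRn, hRF, -⟩ := id hR'
  have hfin : Finite (Fr ⧸ R') := F.finite _ hRF
  have hidx : R'.index ≠ 0 := Subgroup.index_ne_zero_of_finite
  have hcn : (⁅R', R'⁆ : Subgroup Fr).Normal := inferInstance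
  have hNN : (NN S s R').Normal := by
    refine ⟨fun n hn x => ?_⟩
    obtain ⟨y, hy, hyx⟩ := x.2
    obtain ⟨r, hr, hrn⟩ := (Subgroup.mem_subgroupOf.mp hn : ((n : ↥(PP S s)) : s → S.G) ∈ _)
    rw [NN, Subgroup.mem_subgroupOf]
    refine ⟨y * r * y⁻¹, hcn.conj_mem r hr y, ?_⟩
    rw [map_mul, map_mul, map_inv, hyx, hrn]
    rfl
  refine ⟨hNN, ?_⟩
  set W : Subgroup ↥(PP S s) := ZZ S s ⊔ NN S s R' with hW
  let φ : ↥(_root_.commutator Fr) →* ↥(PP S s) :=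
    { toFun := fun ρ => ⟨UU S s ρ, ⟨ρ, ρ.2, rfl⟩⟩
      map_one' := by
        apply Subtype.ext
        change UU S s ((1 : ↥(_root_.commutator Fr)) : Fr) = 1
        rw [OneMemClass.coe_one, map_one]
      map_mul' := fun a c => by
        apply Subtype.ext
        change UU S s ((a * c : ↥(_root_.commutator Fr)) : Fr) = UU S s a * UU S s c
        rw [Subgroup.coe_mul, map_mul] }
  have hφ : Function.Surjective φ := by
    rintro ⟨x, y, hy, rfl⟩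
    exact ⟨⟨y, hy⟩, rfl⟩
  have hle : R'.subgroupOf (_root_.commutator Fr) ≤ W.comap φ := by
    intro ρ hρ
    rw [Subgroup.mem_subgroupOf] at hρ
    rw [Subgroup.mem_comap]
    have hR₂ : GoodQ F (R' ⊓ ⨅ g ∈ s, (S.p'.comp (hh g)).ker) := BSys.goodQ_inf' S hR' s hs
    obtain ⟨hR₂n, -, -⟩ := id hR₂
    have h1 : (ρ : Fr) ∈ ⁅R', R'⁆ ⊔ (R' ⊓ ⨅ g ∈ s, (S.p'.comp (hh g)).ker) :=
      le_commutator_sup S.h1 S.h2 hRn hR₂ hρ
    obtain ⟨ρ₁, hρ₁, ρ₂, hρ₂, hmul⟩ := Subgroup.mem_sup_of_normal_right.mp h1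
    have hc1 : ρ₁ ∈ _root_.commutator Fr := by
      rw [_root_.commutator]
      exact Subgroup.commutator_mono le_top le_top hρ₁
    have hc2 : ρ₂ ∈ _root_.commutator Fr := by
      have : ρ₂ = ρ₁⁻¹ * ρ := by rw [← hmul]; group
      rw [this]
      exact mul_mem (inv_mem hc1) ρ.2
    have hm1 : φ ⟨ρ₁, hc1⟩ ∈ NN S s R' := by
      rw [NN, Subgroup.mem_subgroupOf]
      exact ⟨ρ₁, hρ₁, rfl⟩
    have hm2 : φ ⟨ρ₂, hc2⟩ ∈ ZZ S s := by
      rw [ZZ, MonoidHom.mem_ker]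
      funext g
      change S.aG (bl S g.1 ρ₂) = 1
      rw [bl_spec]
      have h2 : ρ₂ ∈ ⨅ g ∈ s, (S.p'.comp (hh g)).ker := (Subgroup.mem_inf.mp hρ₂).2
      rw [Subgroup.mem_iInf] at h2
      have h3 := h2 g.1
      rw [Subgroup.mem_iInf] at h3
      exact h3 g.2
    have hρe : ρ = ⟨ρ₁, hc1⟩ * ⟨ρ₂, hc2⟩ := Subtype.ext hmul.symm
    rw [hρe, map_mul]
    exact mul_mem (Subgroup.mem_sup_right hm1) (Subgroup.mem_sup_left hm2)
  have hd : R'.relIndex (_root_.commutator Fr) ∣ R'.index := Subgroup.relIndex_dvd_index_of_normal _ _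
  have hr0 : R'.relIndex (_root_.commutator Fr) ≠ 0 := fun h0 => hidx (by
    rw [h0] at hd
    exact Nat.eq_zero_of_zero_dvd hd)
  have h5 : W.index ∣ R'.relIndex (_root_.commutator Fr) := by
    rw [← Subgroup.index_comap_of_surjective W hφ]
    exact Subgroup.index_dvd_of_le hle
  exact ((Nat.le_of_dvd (Nat.pos_of_ne_zero hr0) h5).trans
    (Nat.le_of_dvd (Nat.pos_of_ne_zero hidx) hd)).trans hb

end Pool.Agent.Lib.H65F
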