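import Pool.Agent.Lib.H65F.A1
import Pool.Agent.Lib.H65F.A1b
import Pool.Agent.Lib.H65F.A1c
import Pool.Agent.Lib.H65F.A2
import Pool.Agent.Lib.H65F.A2b
import Pool.Agent.Lib.H65F.A3a
import Pool.Agent.Lib.H65F.A3b
import Pool.Agent.Lib.H65F.A3c

/-! Chunk A3d: lemma CL of Theorem A. -/

set_option autoImplicit false

namespace Pool.Agent.Lib.H65F

open Subgroup Pool.Agent.H69

variable {F : Formation} (S : BSys F)

theorem a3d_cz_one {G : Type} [Group G] : cz (1 : G) = 1 :=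
  Subtype.ext (cz_coe (one_mem _))

theorem a3d_cz_mul {G : Type} [Group G] {a b : G} (ha : a ∈ center G) (hb : b ∈ center G) :
    cz (a * b) = cz a * cz b := by
  apply Subtype.ext
  rw [cz_coe (mul_mem ha hb), Subgroup.coe_mul, cz_coe ha, cz_coe hb]

theorem a3d_cz_inv {G : Type} [Group G] {a : G} (ha : a ∈ center G) :
    cz a⁻¹ = (cz a)⁻¹ := by
  apply Subtype.ext
  rw [cz_coe (inv_mem ha), Subgroup.coe_inv, cz_coe ha]

theorem a3d_mem_ZZ {s : Finset (LFn S)} {x : ↥(PP S s)} :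
    x ∈ ZZ S s ↔ ∀ g : s, S.aG (x.1 g) = 1 := by
  rw [ZZ, MonoidHom.mem_ker]
  constructor
  · intro h g
    exact congrFun h g
  · intro h
    funext g
    exact h g

theorem a3d_cen {s : Finset (LFn S)} {x : ↥(PP S s)} (hx : x ∈ ZZ S s) (g : s) :
    x.1 g ∈ center S.G := S.kG ((a3d_mem_ZZ S).1 hx g)

/-- The kernel of `kap y` on `ZZ`.
PROOF. `K₀ := {x ∈ ZZ | ∏ g ∈ s.attach, cz (x g) ^ (y g) = 1}`; for `x ∈ ZZ` the coordinates are central, so `x ↦ ∏ cz (x g) ^ (y g)` is multiplicative on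
`ZZ`.  It is central, so normal.  The last claim: `UU ρ ∈ K₀`, `s = y.support`. -/
theorem exists_K0 {y : LFn S →₀ ℤ} : ∃ K₀ : Subgroup ↥(PP S y.support), K₀.Normal ∧
    K₀ ≤ ZZ S y.support ∧ ∀ ρ : Fr, ∀ hρ : ρ ∈ _root_.commutator Fr,
      ((⟨UU S y.support ρ, mem_map_of_mem _ hρ⟩ : ↥(PP S y.support)) ∈ K₀ ↔
        (∀ g ∈ y.support, bt S g ρ = 1) ∧ kap S y ρ = 1) := by
  let K₀ : Subgroup ↥(PP S y.support) :=
    { carrier := {x | x ∈ ZZ S y.support ∧ ∏ g : y.support, (cz (x.1 g)) ^ (y g.1) = 1}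
      one_mem' := by
        refine ⟨one_mem _, ?_⟩
        apply Finset.prod_eq_one
        intro g _
        have : cz ((1 : ↥(PP S y.support)).1 g) = 1 := a3d_cz_one
        rw [this, one_zpow]
      mul_mem' := by
        rintro a b ⟨ha, ha'⟩ ⟨hb, hb'⟩
        refine ⟨mul_mem ha hb, ?_⟩
        have h1 : ∀ g : y.support, (cz ((a * b).1 g)) ^ (y g.1) =
            (cz (a.1 g)) ^ (y g.1) * (cz (b.1 g)) ^ (y g.1) := by
          intro g
          have : cz ((a * b).1 g) = cz (a.1 g) * cz (b.1 g) :=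
            a3d_cz_mul (a3d_cen S ha g) (a3d_cen S hb g)
          rw [this, mul_zpow]
        rw [Finset.prod_congr rfl (fun g _ => h1 g), Finset.prod_mul_distrib, ha', hb', one_mul]
      inv_mem' := by
        rintro a ⟨ha, ha'⟩
        refine ⟨inv_mem ha, ?_⟩
        have h1 : ∀ g : y.support, (cz ((a⁻¹).1 g)) ^ (y g.1) = ((cz (a.1 g)) ^ (y g.1))⁻¹ := by
          intro g
          have : cz ((a⁻¹).1 g) = (cz (a.1 g))⁻¹ := a3d_cz_inv (a3d_cen S ha g)
          rw [this, inv_zpow]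
        rw [Finset.prod_congr rfl (fun g _ => h1 g), Finset.prod_inv_distrib, ha', inv_one] }
  refine ⟨K₀, ?_, fun x hx => hx.1, ?_⟩
  · refine ⟨fun k hk g => ?_⟩
    have hkc : g * k * g⁻¹ = k := by
      apply Subtype.ext
      funext i
      have h1 := mem_center_iff.1 (a3d_cen S hk.1 i) (g.1 i)
      change g.1 i * k.1 i * (g.1 i)⁻¹ = k.1 i
      rw [h1, mul_inv_cancel_right]
    rw [hkc]
    exact hk
  · intro ρ hρ
    have e1 : (⟨UU S y.support ρ, mem_map_of_mem _ hρ⟩ : ↥(PP S y.support)) ∈ ZZ S y.support ↔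
        ∀ g ∈ y.support, bt S g ρ = 1 := by
      rw [a3d_mem_ZZ]
      constructor
      · intro h g hg
        have := h ⟨g, hg⟩
        rw [← bl_spec]
        exact this
      · intro h g
        have := h g.1 g.2
        rw [← bl_spec] at this
        exact this
    have e2 : ∏ g : y.support, (cz ((⟨UU S y.support ρ, mem_map_of_mem _ hρ⟩ :
        ↥(PP S y.support)).1 g)) ^ (y g.1) = kap S y ρ := by
      rw [kap, Finsupp.prod]
      exact Finset.prod_coe_sort y.support (fun g => (cz (bl S g ρ)) ^ (y g))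
    constructor
    · rintro ⟨h1, h2⟩
      exact ⟨e1.1 h1, e2.symm.trans h2⟩
    · rintro ⟨h1, h2⟩
      exact ⟨e1.2 h1, e2.trans h2⟩

end Pool.Agent.Lib.H65F
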