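import Pool.Agent.Lib.H65F.A1
import Pool.Agent.Lib.H65F.A1b
import Pool.Agent.Lib.H65F.A1c
import Pool.Agent.Lib.H65F.A2
import Pool.Agent.Lib.H65F.A2b
import Pool.Agent.Lib.H65F.A3a
import Pool.Agent.Lib.H65F.A3b
import Pool.Agent.Lib.H65F.A3c
import Pool.Agent.Lib.H65F.A3d

/-! Chunk A3: lemma CL of Theorem A. -/

set_option autoImplicit false

namespace Pool.Agent.Lib.H65F

open Subgroup Pool.Agent.H69

variable {F : Formation} (S : BSys F)

/-- Lemma CL.
PROOF. `s := y.support`, `P := PP S s`, `Z := ZZ S s`, `N := NN S s R'`, `K₀` from `exists_K0`.  `abs_lemma`: `PP_perfect`, `ZZ_spec`,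
`NN_spec`; `N ⊓ Z ≤ K₀`: an element of `N` is `UU ρ` with `ρ ∈ ⁅R', R'⁆ ≤ commutator Fr`; in `Z` means `bt S g ρ = 1` for all `g ∈ s`
(`bl_spec`), `kap_eq_one` gives `kap S y ρ = 1`, so it is in `K₀`.  `hH` of `abs_lemma`: `Q` is an image of `P`, so it is perfect and
`InForm S.G Q` (`PP_inForm`, `InForm.of_surjective`).  So `T := P ⧸ K₀ ∈ H`, `u : commutator Fr → P → P ⧸ K₀` surjective; `u ρ = 1` iff
`UU ρ ∈ K₀`. -/
theorem lemmaCL {H : Formation} (hG' : H.mem S.G') {y : LFn S →₀ ℤ}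
    (hy : ∀ g ∈ y.support, Function.Injective g) {R' : Subgroup Fr} (hR' : GoodQ F R')
    {b : ℕ} (hb : R'.index ≤ b)
    (hH : ∀ (Q : Type) [Group Q] [Finite Q], InForm S.G Q → _root_.commutator Q = ⊤ →
      Nat.card Q ≤ schurB b → H.mem Q)
    (hco : ∀ (i : S.I) (β : Fr →* S.Y),
      coef y (fun g => (S.π' i).comp (hh g)) β ≠ 0 → R' ≤ β.ker) : AA S H y := by
  classical
  obtain ⟨K₀, hK₀n, hK₀Z, hK₀⟩ := exists_K0 S (y := y)
  obtain ⟨hZc, hZn, hPZ⟩ := ZZ_spec S H hG' y.support hy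
  obtain ⟨hNn, hidx⟩ := NN_spec S y.support hy hR' hb
  have hNZ : NN S y.support R' ⊓ ZZ S y.support ≤ K₀ := by
    rintro ⟨x, hx⟩ ⟨h1, h2⟩
    have h1' : x ∈ ⁅R', R'⁆.map (UU S y.support) := h1
    obtain ⟨ρ, hρ, rfl⟩ := h1'
    have hρc : ρ ∈ _root_.commutator Fr := by
      rw [_root_.commutator_def]
      exact Subgroup.commutator_mono le_top le_top hρ
    have hbt : ∀ g ∈ y.support, bt S g ρ = 1 := by
      intro g hg
      rw [← bl_spec]
      exact congrFun h2 ⟨g, hg⟩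
    exact (hK₀ ρ hρc).mpr ⟨hbt, kap_eq_one S hy hR' hco hρ hbt⟩
  have hmem : H.mem (↥(PP S y.support) ⧸ K₀) :=
    abs_lemma H (PP_perfect S y.support hy) hZc hNn hZn hK₀n hK₀Z hNZ hPZ hidx
      (fun Q _ _ f hf hQ => by
        refine hH Q ((PP_inForm S y.support hy).of_surjective f hf) ?_ hQ
        have h1 := PP_perfect S y.support hy
        have h2 : (_root_.commutator ↥(PP S y.support)).map f ≤ _root_.commutator Q := by
          rw [_root_.commutator_def, _root_.commutator_def, Subgroup.map_commutator]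
          exact Subgroup.commutator_mono le_top le_top
        rw [eq_top_iff]
        intro q _
        obtain ⟨x, rfl⟩ := hf q
        exact h2 (mem_map_of_mem _ (by rw [h1]; trivial)))
  let v : ↥(_root_.commutator Fr) →* ↥(PP S y.support) :=
    ((UU S y.support).comp (_root_.commutator Fr).subtype).codRestrict (PP S y.support)
      (fun ρ => mem_map_of_mem _ ρ.2)
  refine ⟨↥(PP S y.support) ⧸ K₀, inferInstance, (QuotientGroup.mk' K₀).comp v, ?_, hmem, ?_⟩
  · intro q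
    obtain ⟨⟨z, hz⟩, rfl⟩ := QuotientGroup.mk_surjective q
    obtain ⟨ρ, hρ, rfl⟩ := hz
    exact ⟨⟨ρ, hρ⟩, rfl⟩
  · intro ρ hρ
    have h1 : v ρ ∈ K₀ := (QuotientGroup.eq_one_iff (v ρ)).mp hρ
    exact (hK₀ ρ.1 ρ.2).mp h1

end Pool.Agent.Lib.H65F
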