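import Pool.Agent.Lib.H65F.S0

/-! Chunk A4: alternating sums `dl` and fibre masses `coef` (pure combinatorics). -/

set_option autoImplicit false

namespace Pool.Agent.Lib.H65F

variable {Ω T : Type}

open Classical in
/-- `coef` as a `Finsupp.sum`. -/
theorem a4_coef_eq (y : (Ω → ℕ) →₀ ℤ) (F : (Ω → ℕ) → T) (t : T) :
    coef y F t = y.sum fun g n => if F g = t then n else 0 := by
  unfold coef Finsupp.sum
  rw [Finset.sum_filter]

/-- PROOF. `coef y F t = y.sum fun g n => if F g = t then n else 0`; `Finsupp.sum_add_index'`. -/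
theorem coef_add (y y' : (Ω → ℕ) →₀ ℤ) (F : (Ω → ℕ) → T) (t : T) :
    coef (y + y') F t = coef y F t + coef y' F t := by
  classical
  rw [a4_coef_eq, a4_coef_eq, a4_coef_eq]
  apply Finsupp.sum_add_index'
  · intro a
    split_ifs <;> rfl
  · intro a b c
    split_ifs <;> simp

/-- `coef` as an additive homomorphism. -/
noncomputable def a4_hom (F : (Ω → ℕ) → T) (t : T) : ((Ω → ℕ) →₀ ℤ) →+ ℤ where
  toFun y := coef y F t
  map_zero' := by simp [coef]
  map_add' y y' := coef_add y y' F t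

theorem coef_smul (n : ℤ) (y : (Ω → ℕ) →₀ ℤ) (F : (Ω → ℕ) → T) (t : T) :
    coef (n • y) F t = n * coef y F t := by
  have h := map_zsmul (a4_hom F t) n y
  rw [smul_eq_mul] at h
  exact h

theorem coef_sum {ι : Type} (s : Finset ι) (y : ι → ((Ω → ℕ) →₀ ℤ)) (F : (Ω → ℕ) → T)
    (t : T) : coef (∑ i ∈ s, y i) F t = ∑ i ∈ s, coef (y i) F t :=
  map_sum (a4_hom F t) y s

open Classical in
theorem coef_single (g : Ω → ℕ) (n : ℤ) (F : (Ω → ℕ) → T) (t : T) :
    coef (Finsupp.single g n) F t = if F g = t then n else 0 := by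
  rw [a4_coef_eq, Finsupp.sum_single_index]
  split_ifs <;> rfl

end Pool.Agent.Lib.H65F
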