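import Pool.Agent.Lib.H65F.S0
import Pool.Agent.Lib.H65F.A4

/-! Chunk A4b: alternating sums `dl` and fibre masses `coef` (pure combinatorics). -/

set_option autoImplicit false

namespace Pool.Agent.Lib.H65F

variable {Ω T : Type}

/-- PROOF. `A = ∅`: the powerset is `{∅}`, `cmb ∅ z' g = g`. -/
theorem dl_empty (g z' : Ω → ℕ) : dl ∅ g z' = Finsupp.single g 1 := by
  classical
  have h : cmb ∅ z' g = g := by
    funext v
    rw [cmb_of_notMem _ _ (Finset.notMem_empty v)]
  rw [dl, Finset.powerset_empty, Finset.sum_singleton, Finset.card_empty, pow_zero, one_smul, h]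

open Classical in
theorem a4b_cmb1 {T' : Finset Ω} {v : Ω} (hv : v ∉ T') (g z' : Ω → ℕ) (w : ℕ) :
    cmb T' (Function.update z' v w) g = cmb T' z' g := by
  funext u
  by_cases hu : u ∈ T'
  · rw [cmb_of_mem _ _ hu, cmb_of_mem _ _ hu, Function.update_of_ne]
    rintro rfl
    exact hv hu
  · rw [cmb_of_notMem _ _ hu, cmb_of_notMem _ _ hu]

open Classical in
theorem a4b_cmb2 {T' : Finset Ω} {v : Ω} (hv : v ∉ T') (g z' : Ω → ℕ) (w : ℕ) :
    cmb (insert v T') (Function.update z' v w) g = cmb T' z' (Function.update g v w) := by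
  funext u
  by_cases huv : u = v
  · subst huv
    rw [cmb_of_mem _ _ (Finset.mem_insert_self u T'), cmb_of_notMem _ _ hv,
      Function.update_self, Function.update_self]
  · by_cases hu : u ∈ T'
    · rw [cmb_of_mem _ _ (Finset.mem_insert_of_mem hu), cmb_of_mem _ _ hu,
        Function.update_of_ne huv]
    · have h' : u ∉ insert v T' := by
        rw [Finset.mem_insert]
        rintro (h | h)
        · exact huv h
        · exact hu h
      rw [cmb_of_notMem _ _ hu, cmb_of_notMem _ _ h', Function.update_of_ne huv]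

open Classical in
/-- PROOF. The subsets of `insert v A` are the `T ⊆ A` and the `insert v T` (`Finset.sum_powerset_insert`).  For `T ⊆ A`:
`cmb T (Function.update z' v w) g = cmb T z' g` (`v ∉ T`), and
`cmb (insert v T) (Function.update z' v w) g = cmb T z' (Function.update g v w)`; the sign changes. -/
theorem dl_step {A : Finset Ω} {v : Ω} (hv : v ∉ A) (g z' : Ω → ℕ) (w : ℕ) :
    dl A g z' - dl A (Function.update g v w) z' =
      dl (insert v A) g (Function.update z' v w) := by
  have e1 : dl (insert v A) g (Function.update z' v w) =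
      ∑ T' ∈ A.powerset, (((-1 : ℤ) ^ T'.card) • Finsupp.single (cmb T' z' g) 1) +
      ∑ T' ∈ A.powerset, (-(((-1 : ℤ) ^ T'.card) •
        Finsupp.single (cmb T' z' (Function.update g v w)) 1)) := by
    rw [dl, Finset.sum_powerset_insert hv]
    congr 1
    · apply Finset.sum_congr rfl
      intro T' hT'
      have hvT : v ∉ T' := fun h => hv (Finset.mem_powerset.mp hT' h)
      rw [a4b_cmb1 hvT]
    · apply Finset.sum_congr rfl
      intro T' hT'
      have hvT : v ∉ T' := fun h => hv (Finset.mem_powerset.mp hT' h)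
      rw [a4b_cmb2 hvT, Finset.card_insert_of_notMem hvT, pow_succ, mul_neg_one, neg_smul]
  rw [e1, Finset.sum_neg_distrib, ← sub_eq_add_neg]
  rfl

/-- PROOF. Support of a finite sum of multiples of `single`. -/
theorem dl_support {A : Finset Ω} {g z' g' : Ω → ℕ} (h : g' ∈ (dl A g z').support) :
    ∃ T ⊆ A, g' = cmb T z' g := by
  classical
  rw [dl] at h
  have h1 := Finsupp.support_finsetSum h
  rw [Finset.mem_biUnion] at h1
  obtain ⟨T', hT', h2⟩ := h1
  have h3 := Finsupp.support_smul h2
  have h4 := Finsupp.support_single_subset h3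
  rw [Finset.mem_singleton] at h4
  exact ⟨T', Finset.mem_powerset.mp hT', h4⟩

end Pool.Agent.Lib.H65F
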