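import Pool.Agent.Lib.H65F.S0
import Pool.Agent.Lib.H65F.A4
import Pool.Agent.Lib.H65F.A4b

/-! Chunk A4c: alternating sums `dl` and fibre masses `coef` (pure combinatorics). -/

set_option autoImplicit false

namespace Pool.Agent.Lib.H65F

variable {Ω T : Type}

/-- `g` injective, `z'` injective on `A` with values outside the range of `g`. -/
structure Adm (A : Finset Ω) (g z' : Ω → ℕ) : Prop where
  inj : Function.Injective g
  inj' : Set.InjOn z' A
  out : ∀ v ∈ A, ∀ u, z' v ≠ g u

/-- PROOF. Case distinction. -/
theorem Adm.cmb_inj {A : Finset Ω} {g z' : Ω → ℕ} (h : Adm A g z') {T : Finset Ω}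
    (hT : T ⊆ A) : Function.Injective (cmb T z' g) := by
  intro u v huv
  by_cases hu : u ∈ T
  · by_cases hv : v ∈ T
    · rw [cmb_of_mem _ _ hu, cmb_of_mem _ _ hv] at huv
      exact h.inj' (Finset.mem_coe.mpr (hT hu)) (Finset.mem_coe.mpr (hT hv)) huv
    · rw [cmb_of_mem _ _ hu, cmb_of_notMem _ _ hv] at huv
      exact absurd huv (h.out u (hT hu) v)
  · by_cases hv : v ∈ T
    · rw [cmb_of_notMem _ _ hu, cmb_of_mem _ _ hv] at huv
      exact absurd huv.symm (h.out v (hT hv) u)
    · rw [cmb_of_notMem _ _ hu, cmb_of_notMem _ _ hv] at huv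
      exact h.inj huv

open Classical in
/-- PROOF. Case distinction. -/
theorem Adm.insert {A : Finset Ω} {g z' : Ω → ℕ} (h : Adm A g z') {v : Ω} (hv : v ∉ A) {w : ℕ}
    (hw : ∀ u, g u ≠ w) (hw' : ∀ u ∈ A, z' u ≠ w) :
    Adm (insert v A) g (Function.update z' v w) ∧ Adm A (Function.update g v w) z' := by
  constructor
  · refine ⟨h.inj, ?_, ?_⟩
    · intro a ha b hb hab
      rw [Finset.mem_coe, Finset.mem_insert] at ha hb
      by_cases hav : a = v
      · by_cases hbv : b = v
        · rw [hav, hbv]
        · have hbA : b ∈ A := hb.resolve_left hbv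
          rw [hav, Function.update_self, Function.update_of_ne hbv] at hab
          exact absurd hab.symm (hw' b hbA)
      · have haA : a ∈ A := ha.resolve_left hav
        by_cases hbv : b = v
        · rw [hbv, Function.update_self, Function.update_of_ne hav] at hab
          exact absurd hab (hw' a haA)
        · have hbA : b ∈ A := hb.resolve_left hbv
          rw [Function.update_of_ne hav, Function.update_of_ne hbv] at hab
          exact h.inj' (Finset.mem_coe.mpr haA) (Finset.mem_coe.mpr hbA) hab
    · intro a ha u
      rw [Finset.mem_insert] at ha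
      by_cases hav : a = v
      · rw [hav, Function.update_self]
        exact (hw u).symm
      · have haA : a ∈ A := ha.resolve_left hav
        rw [Function.update_of_ne hav]
        exact h.out a haA u
  · refine ⟨?_, h.inj', ?_⟩
    · intro a b hab
      by_cases hav : a = v
      · by_cases hbv : b = v
        · rw [hav, hbv]
        · rw [hav, Function.update_self, Function.update_of_ne hbv] at hab
          exact absurd hab.symm (hw b)
      · by_cases hbv : b = v
        · rw [hbv, Function.update_self, Function.update_of_ne hav] at hab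
          exact absurd hab (hw a)
        · rw [Function.update_of_ne hav, Function.update_of_ne hbv] at hab
          exact h.inj hab
    · intro a ha u
      by_cases huv : u = v
      · rw [huv, Function.update_self]
        exact hw' a ha
      · rw [Function.update_of_ne huv]
        exact h.out a ha u

/-- PROOF. `F (cmb (insert v T) z' g) = F (cmb T z' g)` for `v ∉ T`, `v ∈ A`, so the terms of `dl` cancel in pairs:
`A = insert v (A.erase v)`, `dl` = the sum over the powerset of `A.erase v` of differences (`Finset.sum_powerset_insert`). -/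
theorem coef_dl_eq_zero {A : Finset Ω} {v : Ω} (hv : v ∈ A) (g z' : Ω → ℕ)
    (F : (Ω → ℕ) → T)
    (hF : ∀ g₁ g₂ : Ω → ℕ, (∀ u, u ≠ v → g₁ u = g₂ u) → F g₁ = F g₂) (t : T) :
    coef (dl A g z') F t = 0 := by
  classical
  rw [dl, coef_sum]
  have hA : A = insert v (A.erase v) := (Finset.insert_erase hv).symm
  rw [hA, Finset.sum_powerset_insert (Finset.notMem_erase v A), ← Finset.sum_add_distrib]
  apply Finset.sum_eq_zero
  intro T' hT'
  have hvT : v ∉ T' := fun h => Finset.notMem_erase v A (Finset.mem_powerset.mp hT' h)
  have hFe : F (cmb (insert v T') z' g) = F (cmb T' z' g) := by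
    apply hF
    intro u hu
    by_cases h : u ∈ T'
    · rw [cmb_of_mem _ _ h, cmb_of_mem _ _ (Finset.mem_insert_of_mem h)]
    · have h' : u ∉ insert v T' := by
        rw [Finset.mem_insert]
        rintro (h1 | h1)
        · exact hu h1
        · exact h h1
      rw [cmb_of_notMem _ _ h, cmb_of_notMem _ _ h']
  rw [coef_smul, coef_smul, coef_single, coef_single, hFe, Finset.card_insert_of_notMem hvT,
    pow_succ]
  ring

end Pool.Agent.Lib.H65F
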