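import Pool.Agent.Lib.H65F.S0
import Pool.Agent.Lib.H65F.A4
import Pool.Agent.Lib.H65F.A4b
import Pool.Agent.Lib.H65F.A4c

/-! Chunk A4d: alternating sums `dl` and fibre masses `coef` (pure combinatorics). -/

set_option autoImplicit false

namespace Pool.Agent.Lib.H65F

variable {Ω T : Type}

open Classical in
/-- The coefficients of the averaged measure.  If the coefficient of `t` is not zero there is a subset `U` of `A` and a
bounded letter function `ω` with `F (cmb U z' (cmb A g ω)) = t`.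
PROOF. By `coef_sum`, `coef_smul`, `coef_single` the coefficient is
`∑ ω ∈ c.support, c ω * ∑ U ∈ A.powerset, (-1) ^ |U| * (if F (cmb U z' (cmb A g ω)) = t then 1 else 0)`.  Exchange the sums; for some
`U ⊆ A` the sum `∑ ω ∈ c.support, c ω * (if F_U ω = t then 1 else 0) = ∑ ω ∈ c.support with F_U ω = t, c ω` is not zero, where
`F_U ω := F (cmb U z' (cmb A g ω))`.  `F_U` depends only on `B` (as `F` does).  By `Meas.marg` (contrapositive) there is an `ω` as
claimed. -/
theorem coef_avg {d : ℕ} {Z Λ : Finset ℕ} {c : (Ω → ℕ) →₀ ℤ} (hc : Meas Ω d Z Λ c)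
    (A B : Finset Ω) (hB : B.card ≤ d) (g z' : Ω → ℕ) (F : (Ω → ℕ) → T) (hF : DepOn F B)
    {t : T} (h : coef (∑ ω ∈ c.support, c ω • dl A (cmb A g ω) z') F t ≠ 0) :
    ∃ U ⊆ A, ∃ ω : Ω → ℕ, Function.Injective ω ∧ (∀ v, ω v ∉ Z) ∧ (∀ v ∈ B, ω v ∈ Λ) ∧
      F (cmb U z' (cmb A g ω)) = t := by
  have e1 : coef (∑ ω ∈ c.support, c ω • dl A (cmb A g ω) z') F t =
      ∑ U ∈ A.powerset, ((-1 : ℤ) ^ U.card) *
        ∑ ω ∈ c.support with F (cmb U z' (cmb A g ω)) = t, c ω := by
    rw [coef_sum]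
    have e2 : ∀ ω ∈ c.support, coef (c ω • dl A (cmb A g ω) z') F t =
        ∑ U ∈ A.powerset, ((-1 : ℤ) ^ U.card) *
          (if F (cmb U z' (cmb A g ω)) = t then c ω else 0) := by
      intro ω _
      rw [coef_smul, dl, coef_sum, Finset.mul_sum]
      apply Finset.sum_congr rfl
      intro U _
      rw [coef_smul, coef_single]
      split_ifs
      · ring
      · ring
    rw [Finset.sum_congr rfl e2, Finset.sum_comm]
    apply Finset.sum_congr rfl
    intro U _
    rw [← Finset.mul_sum, Finset.sum_filter]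
  rw [e1] at h
  obtain ⟨U, hU, hne⟩ := Finset.exists_ne_zero_of_sum_ne_zero h
  have hne2 : ∑ ω ∈ c.support with F (cmb U z' (cmb A g ω)) = t, c ω ≠ 0 := by
    intro h0
    rw [h0, mul_zero] at hne
    exact hne rfl
  have hdep : DepOn (fun ω : Ω → ℕ => F (cmb U z' (cmb A g ω))) B := by
    intro g₁ g₂ h12
    apply hF
    intro u hu
    by_cases h1 : u ∈ U
    · rw [cmb_of_mem _ _ h1, cmb_of_mem _ _ h1]
    · rw [cmb_of_notMem _ _ h1, cmb_of_notMem _ _ h1]
      by_cases h2 : u ∈ A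
      · rw [cmb_of_mem _ _ h2, cmb_of_mem _ _ h2]
      · rw [cmb_of_notMem _ _ h2, cmb_of_notMem _ _ h2]
        exact h12 u hu
  by_contra hcon
  push Not at hcon
  apply hne2
  exact hc.marg B hB T (fun ω : Ω → ℕ => F (cmb U z' (cmb A g ω))) hdep t
    fun ω h1 h2 h3 => hcon U (Finset.mem_powerset.mp hU) ω h1 h2 h3

end Pool.Agent.Lib.H65F
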