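import Pool.Agent.Lib.H65F.A1
import Pool.Agent.Lib.H65F.A1b
import Pool.Agent.Lib.H65F.A1c
import Pool.Agent.Lib.H65F.A4
import Pool.Agent.Lib.H65F.A4b
import Pool.Agent.Lib.H65F.A4c
import Pool.Agent.Lib.H65F.A4d
import Pool.Agent.Lib.H65F.A5
import Pool.Agent.Lib.H65F.A5b

/-! Chunk A5c: moving letters.  `A ⊆ sigP S` is the set of doubled nodes. -/

set_option autoImplicit false

namespace Pool.Agent.Lib.H65F

open Subgroup Pool.Agent.H69

variable {F : Formation} (S : BSys F) {H : Formation}

open Classical in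
theorem a5c_step {k : ℕ} (hG' : H.mem S.G') (ih : IHk S H (k + 1))
    {A : Finset (Subgroup S.D')} (hA : A ⊆ sigP S) (hk : A.card = k) {g z' g₃ : LFn S}
    (h : Adm A g z') (h3 : Function.Injective g₃) (h3g : ∀ u u', g₃ u ≠ g u')
    (h3z : ∀ u, ∀ u' ∈ A, g₃ u ≠ z' u') (U : Finset (Subgroup S.D')) :
    Disjoint U A → Adm A (cmb U g₃ g) z' ∧ AA S H (dl A g z' - dl A (cmb U g₃ g) z') := by
  induction U using Finset.induction_on with
  | empty =>
    intro _
    have he : cmb ∅ g₃ g = g := by
      funext u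
      rw [cmb_of_notMem _ _ (Finset.notMem_empty u)]
    rw [he, sub_self]
    exact ⟨h, AA.zero S hG'⟩
  | insert v U hv IH =>
    intro hd
    rw [Finset.disjoint_insert_left] at hd
    obtain ⟨hvA, hd'⟩ := hd
    obtain ⟨hadm, hAA⟩ := IH hd'
    have he : cmb (insert v U) g₃ g = Function.update (cmb U g₃ g) v (g₃ v) := by
      funext u
      by_cases huv : u = v
      · subst huv
        rw [cmb_of_mem _ _ (Finset.mem_insert_self u U), Function.update_self]
      · rw [Function.update_of_ne huv]
        by_cases hu : u ∈ U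
        · rw [cmb_of_mem _ _ hu, cmb_of_mem _ _ (Finset.mem_insert_of_mem hu)]
        · have h' : u ∉ insert v U := by
            rw [Finset.mem_insert]
            rintro (h1 | h1)
            · exact huv h1
            · exact hu h1
          rw [cmb_of_notMem _ _ hu, cmb_of_notMem _ _ h']
    have hw : ∀ u, cmb U g₃ g u ≠ g₃ v := by
      intro u
      by_cases hu : u ∈ U
      · rw [cmb_of_mem _ _ hu]
        intro heq
        have := h3 heq
        subst this
        exact hv hu
      · rw [cmb_of_notMem _ _ hu]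
        exact (h3g v u).symm
    have hw' : ∀ u ∈ A, z' u ≠ g₃ v := fun u hu => (h3z v u hu).symm
    have h1 := AA_move S hG' ih hA hk hadm hvA hw hw'
    have h2 := (Adm.insert hadm hvA hw hw').2
    rw [he]
    refine ⟨h2, ?_⟩
    have h4 := AA.add S hAA h1
    rw [sub_add_sub_cancel] at h4
    exact h4

open Classical in
/-- All letters outside `A` are replaced by new ones.
PROOF. `g₃` injective, all values of `g₃` different from all values of `g` and from `z'` on `A`.  For a finite set `U` disjoint from `A`,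
by induction on `U` (`Finset.induction_on`): with `g_U := cmb U g₃ g` we have `Adm A g_U z'` and
`AA S H (dl A g z' - dl A g_U z')`: `g_{insert v U} = update g_U v (g₃ v)`, and `g₃ v` is not a value of `g_U` (`v ∉ U`, `g₃` injective); `AA_move`,
`AA.add`.  Take `U := Aᶜ` (finite): `g_U = cmb A g g₃`. -/
theorem AA_fresh {k : ℕ} (hG' : H.mem S.G') (ih : IHk S H (k + 1))
    {A : Finset (Subgroup S.D')} (hA : A ⊆ sigP S) (hk : A.card = k) {g z' g₃ : LFn S}
    (h : Adm A g z') (h3 : Function.Injective g₃) (h3g : ∀ u u', g₃ u ≠ g u')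
    (h3z : ∀ u, ∀ u' ∈ A, g₃ u ≠ z' u') :
    AA S H (dl A g z' - dl A (cmb A g g₃) z') := by
  letI := Fintype.ofFinite (Subgroup S.D')
  have h1 := (a5c_step S hG' ih hA hk h h3 h3g h3z (Finset.univ \ A)
    Finset.sdiff_disjoint).2
  have he : cmb (Finset.univ \ A) g₃ g = cmb A g g₃ := by
    funext u
    by_cases hu : u ∈ A
    · rw [cmb_of_mem _ _ hu, cmb_of_notMem]
      rw [Finset.mem_sdiff]
      exact fun h => h.2 hu
    · rw [cmb_of_notMem _ _ hu, cmb_of_mem]
      rw [Finset.mem_sdiff]
      exact ⟨Finset.mem_univ _, hu⟩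
  rw [he] at h1
  exact h1

end Pool.Agent.Lib.H65F
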