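import Pool.Agent.Lib.H65F.S1

/-! Chunk S2: existence of a consistent family of measures. -/

set_option autoImplicit false

namespace Pool.Agent.Lib.H65F

/-- Override `g` on the set `B` by the values `l`. -/
def ovr {Ω : Type} [DecidableEq Ω] (B : Finset Ω) (l : Ω → ℕ) (g : Ω → ℕ) : Ω → ℕ :=
  fun v => if v ∈ B then l v else g v

/-- One step of the recursion. -/
noncomputable def s2_step {Ω : Type} [DecidableEq Ω] (zs : Ω → ℕ) (lam : Finset Ω → Ω → ℕ)
    (A : Finset Ω) (rec : ∀ t : Finset Ω, t ⊂ A → ((Ω → ℕ) →₀ ℤ)) : (Ω → ℕ) →₀ ℤ :=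
  if A = ∅ then Finsupp.single zs 1 else ∑ A' ∈ A.ssubsets.attach,
    ((-1 : ℤ) ^ ((A \ A'.1).card + 1)) •
      (rec A'.1 (Finset.mem_ssubsets.mp A'.2)).mapDomain (ovr (A \ A'.1) (lam A))

/-- The recursion defining the family: `lam k A v` is the letter of `v ∈ A` on level `k = |A|`.
PROOF. Define `ν` by well-founded recursion on `⊂` (`Finset.strongInduction`, or strong
recursion on `A.card`): `ν ∅ = single zs 1`, and for `A ≠ ∅`
`ν A = ∑ A' ∈ A.ssubsets, (-1) ^ ((A \ A').card + 1) • (ν A').mapDomain (ovr (A \ A') (lam A))`. -/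
theorem exists_nu {Ω : Type} [DecidableEq Ω] (zs : Ω → ℕ) (lam : Finset Ω → Ω → ℕ) :
    ∃ ν : Finset Ω → ((Ω → ℕ) →₀ ℤ), ν ∅ = Finsupp.single zs 1 ∧
      ∀ A : Finset Ω, A ≠ ∅ → ν A = ∑ A' ∈ A.ssubsets,
        ((-1 : ℤ) ^ ((A \ A').card + 1)) • (ν A').mapDomain (ovr (A \ A') (lam A)) := by
  refine ⟨Finset.strongInduction (s2_step zs lam), ?_, fun A hA => ?_⟩
  · rw [Finset.strongInduction_eq, s2_step, if_pos rfl]
  · rw [Finset.strongInduction_eq, s2_step, if_neg hA]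
    exact Finset.sum_attach A.ssubsets fun A' =>
      ((-1 : ℤ) ^ ((A \ A').card + 1)) •
        (Finset.strongInduction (s2_step zs lam) A').mapDomain (ovr (A \ A') (lam A))

end Pool.Agent.Lib.H65F
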