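import Pool.Agent.Lib.H65F.S1
import Pool.Agent.Lib.H65F.S2

/-! Chunk S2b: existence of a consistent family of measures. -/

set_option autoImplicit false

namespace Pool.Agent.Lib.H65F

/-- Consistency.
PROOF. Strong induction on `A.card`.  Let `v ∈ A`, `f` independent of `v`.  By `hν`, `pr1_sum`, `pr1_smul`,
`pr1_mapDomain`: `pr1 (ν A) f = ∑ A' ∈ A.ssubsets, (-1) ^ (|A \ A'| + 1) * pr1 (ν A') (f ∘ ovr (A \ A') (lam A))`.
Split the `A'` into: `A' = A.erase v` (contribution `(-1) ^ 2 * pr1 (ν (A.erase v)) (f ∘ ovr {v} _) = pr1 (ν (A.erase v)) f`, as `f` is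
independent of `v`), and pairs `A' ∌ v`, `A' ≠ A.erase v` with `insert v A'` (which is a proper subset of `A`; every
proper subset containing `v` is of this form).  For such a pair put `f' := f ∘ ovr (A \ insert v A') (lam A)`; `f'` is independent of `v`
(as `v ∉ A \ insert v A'`), and `f ∘ ovr (A \ A') (lam A) = f'` since `f` is independent of `v` and
`A \ A' = insert v (A \ insert v A')`.  By induction (`|insert v A'| < |A|`) `pr1 (ν (insert v A')) f' = pr1 (ν A') f'`.  The signs are
opposite (`|A \ A'| = |A \ insert v A'| + 1`), so the pair cancels.  Use `Finset.sum_involution` on the set of `A' ∈ A.ssubsets`,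
`A' ≠ A.erase v`, with the involution `A' ↦ if v ∈ A' then A'.erase v else insert v A'`. -/
theorem nu_cons {Ω : Type} [DecidableEq Ω] (zs : Ω → ℕ) (lam : Finset Ω → Ω → ℕ)
    (ν : Finset Ω → ((Ω → ℕ) →₀ ℤ)) (h0 : ν ∅ = Finsupp.single zs 1)
    (hν : ∀ A : Finset Ω, A ≠ ∅ → ν A = ∑ A' ∈ A.ssubsets,
        ((-1 : ℤ) ^ ((A \ A').card + 1)) • (ν A').mapDomain (ovr (A \ A') (lam A)))
    (A : Finset Ω) (v : Ω) (hv : v ∈ A) (f : (Ω → ℕ) → ℤ) (hf : Indep f v) :
    pr1 (ν A) f = pr1 (ν (A.erase v)) f := by
  classical
  induction' hn : A.card using Nat.strong_induction_on with n ih generalizing A v f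
  have hA : A ≠ ∅ := fun h => by simp [h] at hv
  rw [hν A hA, pr1_sum]
  have h1 : ∀ A' : Finset Ω, pr1 (((-1 : ℤ) ^ ((A \ A').card + 1)) •
        (ν A').mapDomain (ovr (A \ A') (lam A))) f
      = (-1 : ℤ) ^ ((A \ A').card + 1) * pr1 (ν A') (fun g => f (ovr (A \ A') (lam A) g)) := by
    intro A'
    rw [pr1_smul, pr1_mapDomain]
  rw [Finset.sum_congr rfl fun A' _ => h1 A']
  have hss : A.erase v ∈ A.ssubsets := Finset.mem_ssubsets.mpr (Finset.erase_ssubset hv)
  rw [← Finset.add_sum_erase _ _ hss]
  have h2 : A \ A.erase v = {v} := by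
    ext u
    simp only [Finset.mem_sdiff, Finset.mem_erase, Finset.mem_singleton]
    constructor
    · rintro ⟨a, b⟩
      by_contra h
      exact b ⟨h, a⟩
    · rintro rfl
      exact ⟨hv, fun h => h.1 rfl⟩
  have h3 : pr1 (ν (A.erase v)) (fun g => f (ovr {v} (lam A) g)) = pr1 (ν (A.erase v)) f := by
    refine pr1_congr _ fun g _ => hf _ _ fun u hu => ?_
    simp only [ovr, Finset.mem_singleton, if_neg hu]
  have key : ∀ A' : Finset Ω, v ∉ A' → insert v A' ⊂ A →
      (-1 : ℤ) ^ ((A \ A').card + 1) * pr1 (ν A') (fun g => f (ovr (A \ A') (lam A) g))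
      + (-1 : ℤ) ^ ((A \ insert v A').card + 1) *
        pr1 (ν (insert v A')) (fun g => f (ovr (A \ insert v A') (lam A) g)) = 0 := by
    intro A' hvA' hss'
    have hnot : v ∉ A \ insert v A' := by simp
    have hI : Indep (fun g => f (ovr (A \ insert v A') (lam A) g)) v := by
      intro g g' hgg
      refine hf _ _ fun u hu => ?_
      simp only [ovr]
      rw [hgg u hu]
    have h4 := ih (insert v A').card (hn ▸ Finset.card_lt_card hss') (insert v A') v
      (Finset.mem_insert_self v A') _ hI rfl
    rw [Finset.erase_insert hvA'] at h4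
    have h5 : A \ A' = insert v (A \ insert v A') := by
      ext u
      simp only [Finset.mem_sdiff, Finset.mem_insert, not_or]
      constructor
      · rintro ⟨a, b⟩
        by_cases h : u = v
        · exact Or.inl h
        · exact Or.inr ⟨a, h, b⟩
      · rintro (rfl | ⟨a, _, b⟩)
        · exact ⟨hv, hvA'⟩
        · exact ⟨a, b⟩
    have h6 : pr1 (ν A') (fun g => f (ovr (A \ A') (lam A) g))
        = pr1 (ν A') (fun g => f (ovr (A \ insert v A') (lam A) g)) := by
      refine pr1_congr _ fun g _ => hf _ _ fun u hu => ?_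
      rw [h5]
      simp only [ovr, Finset.mem_insert, hu, false_or]
    have h7 : (A \ A').card = (A \ insert v A').card + 1 := by
      rw [h5, Finset.card_insert_of_notMem hnot]
    rw [h4, h6, h7, pow_succ]
    ring
  have h8 : ∑ A' ∈ A.ssubsets.erase (A.erase v), (-1 : ℤ) ^ ((A \ A').card + 1) *
      pr1 (ν A') (fun g => f (ovr (A \ A') (lam A) g)) = 0 := by
    refine Finset.sum_involution (fun A' _ => if v ∈ A' then A'.erase v else insert v A') ?_ ?_ ?_ ?_
    · intro A' hA'
      rw [Finset.mem_erase, Finset.mem_ssubsets] at hA'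
      by_cases h : v ∈ A'
      · rw [if_pos h]
        have h9 := key (A'.erase v) (Finset.notMem_erase v A') (by rw [Finset.insert_erase h]; exact hA'.2)
        rw [Finset.insert_erase h] at h9
        rw [add_comm]
        exact h9
      · rw [if_neg h]
        refine key A' h ?_
        rw [Finset.ssubset_iff_subset_ne]
        refine ⟨Finset.insert_subset hv hA'.2.1, ?_⟩
        intro h10
        apply hA'.1
        rw [← h10, Finset.erase_insert h]
    · intro A' hA' _
      by_cases h : v ∈ A'
      · rw [if_pos h]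
        intro h10
        have := Finset.notMem_erase v A'
        rw [h10] at this
        exact this h
      · rw [if_neg h]
        intro h10
        exact h (h10 ▸ Finset.mem_insert_self v A')
    · intro A' hA'
      rw [Finset.mem_erase, Finset.mem_ssubsets] at hA'
      rw [Finset.mem_erase, Finset.mem_ssubsets]
      by_cases h : v ∈ A'
      · rw [if_pos h]
        refine ⟨?_, ?_⟩
        · intro h10
          have h11 : A' = A := by
            rw [← Finset.insert_erase h, h10, Finset.insert_erase hv]
          exact hA'.2.ne h11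
        · exact (Finset.erase_subset v A').trans_ssubset hA'.2
      · rw [if_neg h]
        refine ⟨?_, ?_⟩
        · intro h10
          exact Finset.notMem_erase v A (h10 ▸ Finset.mem_insert_self v A')
        · rw [Finset.ssubset_iff_subset_ne]
          refine ⟨Finset.insert_subset hv hA'.2.1, ?_⟩
          intro h10
          apply hA'.1
          rw [← h10, Finset.erase_insert h]
    · intro A' hA'
      by_cases h : v ∈ A'
      · simp only [if_pos h]
        rw [if_neg (Finset.notMem_erase v A'), Finset.insert_erase h]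
      · simp only [if_neg h]
        rw [if_pos (Finset.mem_insert_self v A'), Finset.erase_insert h]
  rw [h8, h2, h3]
  simp

end Pool.Agent.Lib.H65F
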