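import Pool.Agent.Lib.H65F.S1
import Pool.Agent.Lib.H65F.S2
import Pool.Agent.Lib.H65F.S2b

/-! Chunk S2c: existence of a consistent family of measures. -/

set_option autoImplicit false

namespace Pool.Agent.Lib.H65F

/-- Support.
PROOF. Strong induction on `A.card`, for the statement: for `g` in the support of `ν A`: `g v = zs v` for `v ∉ A`, and for `v ∈ A` there are
`k ≤ |A|` and `j` with `g v = L k j`, and `g` is injective.  The support of the sum lies in the union of the images
`ovr (A \ A') (lam A) g'`, `g'` in the support of `ν A'` (`Finsupp.support_finsetSum`, `Finsupp.mapDomain_support`).  On `A'` the letters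
have level `k ≤ |A'| < |A|`, on `A \ A'` they are `lam A v = L |A| (r A v)` with `r A` injective on `A`; outside `A` the values are
`zs v`, and `zs` is injective with values outside the range of `L`. -/
theorem nu_supp {Ω : Type} [DecidableEq Ω] (zs : Ω → ℕ) (hzs : Function.Injective zs)
    (L : ℕ → ℕ → ℕ) (hL : ∀ k j k' j' : ℕ, j < k → j' < k' → L k j = L k' j' → k = k' ∧ j = j')
    (hzL : ∀ v k j, zs v ≠ L k j) (r : Finset Ω → Ω → ℕ)
    (hr : ∀ A : Finset Ω, Set.InjOn (r A) A) (hr' : ∀ A : Finset Ω, ∀ v ∈ A, r A v < A.card)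
    (ν : Finset Ω → ((Ω → ℕ) →₀ ℤ)) (h0 : ν ∅ = Finsupp.single zs 1)
    (hν : ∀ A : Finset Ω, A ≠ ∅ → ν A = ∑ A' ∈ A.ssubsets,
        ((-1 : ℤ) ^ ((A \ A').card + 1)) •
          (ν A').mapDomain (ovr (A \ A') (fun v => L A.card (r A v))))
    (A : Finset Ω) (g : Ω → ℕ) (hg : g ∈ (ν A).support) :
    Function.Injective g ∧ (∀ v, v ∉ A → g v = zs v) ∧
      ∀ v ∈ A, ∃ k j : ℕ, k ≤ A.card ∧ j < k ∧ g v = L k j := by
  classical
  induction' hn : A.card using Nat.strong_induction_on with n ih generalizing A g
  by_cases hA : A = ∅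
  · subst hA
    rw [h0] at hg
    have h1 := Finsupp.support_single_subset hg
    rw [Finset.mem_singleton] at h1
    subst h1
    exact ⟨hzs, fun _ _ => rfl, fun v hv => absurd hv (Finset.notMem_empty v)⟩
  · rw [hν A hA] at hg
    have h1 := Finsupp.support_finsetSum hg
    rw [Finset.mem_biUnion] at h1
    obtain ⟨A', hA', h2⟩ := h1
    have h3 := Finsupp.support_smul h2
    have h4 := Finsupp.mapDomain_support h3
    rw [Finset.mem_image] at h4
    obtain ⟨g', hg', rfl⟩ := h4
    rw [Finset.mem_ssubsets] at hA'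
    have hlt : A'.card < A.card := Finset.card_lt_card hA'
    obtain ⟨i1, i2, i3⟩ := ih A'.card (hn ▸ hlt) A' g' hg' rfl
    have hin : ∀ v, v ∈ A \ A' → ovr (A \ A') (fun v => L A.card (r A v)) g' v
        = L A.card (r A v) := by
      intro v hv
      simp only [ovr, if_pos hv]
    have hout : ∀ v, v ∉ A \ A' → ovr (A \ A') (fun v => L A.card (r A v)) g' v = g' v := by
      intro v hv
      simp only [ovr, if_neg hv]
    have hne : ∀ u, u ∈ A \ A' → ∀ v, v ∉ A \ A' → L A.card (r A u) ≠ g' v := by
      intro u hu v hv h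
      have hu' := (Finset.mem_sdiff.mp hu).1
      by_cases hvA : v ∈ A'
      · obtain ⟨k, j, hk, hj, hgv⟩ := i3 v hvA
        rw [hgv] at h
        have := (hL _ _ _ _ (hr' A u hu') hj h).1
        omega
      · rw [i2 v hvA] at h
        exact hzL v _ _ h.symm
    refine ⟨?_, ?_, ?_⟩
    · intro u v huv
      by_cases hu : u ∈ A \ A'
      · by_cases hv : v ∈ A \ A'
        · rw [hin u hu, hin v hv] at huv
          have hu' := (Finset.mem_sdiff.mp hu).1
          have hv' := (Finset.mem_sdiff.mp hv).1
          exact hr A hu' hv' (hL _ _ _ _ (hr' A u hu') (hr' A v hv') huv).2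
        · rw [hin u hu, hout v hv] at huv
          exact absurd huv (hne u hu v hv)
      · by_cases hv : v ∈ A \ A'
        · rw [hout u hu, hin v hv] at huv
          exact absurd huv.symm (hne v hv u hu)
        · rw [hout u hu, hout v hv] at huv
          exact i1 huv
    · intro v hv
      rw [hout v (fun h => hv (Finset.mem_sdiff.mp h).1)]
      exact i2 v (fun h => hv (hA'.1 h))
    · intro v hv
      by_cases hv' : v ∈ A \ A'
      · exact ⟨A.card, r A v, hn ▸ le_rfl, hr' A v hv, hin v hv'⟩
      · have hvA' : v ∈ A' := by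
          by_contra h
          exact hv' (Finset.mem_sdiff.mpr ⟨hv, h⟩)
        obtain ⟨k, j, hk, hj, hgv⟩ := i3 v hvA'
        exact ⟨k, j, by omega, hj, by rw [hout v hv', hgv]⟩

end Pool.Agent.Lib.H65F
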