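import Pool.Agent.Lib.H65F.S1
import Pool.Agent.Lib.H65F.S2
import Pool.Agent.Lib.H65F.S2b
import Pool.Agent.Lib.H65F.S2c

/-! Chunk S2d: existence of a consistent family of measures. -/

set_option autoImplicit false

namespace Pool.Agent.Lib.H65F

/-- PROOF. Let `m` be a bound for all elements of `Z` (`m := Z.sup id + 1`), `L k j := m + 2 * Nat.pair k j` (injective in `(k, j)`),
`zs v := m + 2 * (e v) + 1` with `e : Ω → ℕ` injective (`Finite`, `Encodable`), so `zs` is injective and avoids `L` (parity).  `r A v` := the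
position of `v` in `A` (any function with `hr`, `hr'`: e.g. from `A.equivFin`, `0` outside `A`).  `Λ` := all `L k j` with `k ≤ d`, `j < d`
(`(d + 1) * d ≤ (d + 1) ^ 2` elements).  Take `ν` from `exists_nu` with `lam A v := L A.card (r A v)`; `nu_cons`, `nu_supp`.  Mass: `pr1_single`.
Values are not in `Z` since all letters are `≥ m`.  The last part: for `|B| ≤ d` the mass of `ν B` is `1` by consistency (remove elements one
by one with the constant function `1`), so its support is not empty. -/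
theorem exists_nuFam (Ω : Type) [Finite Ω] [DecidableEq Ω] (d : ℕ) (Z : Finset ℕ) :
    ∃ Λ : Finset ℕ, Λ.card ≤ (d + 1) ^ 2 ∧ ∃ ν : Finset Ω → ((Ω → ℕ) →₀ ℤ),
      NuFam Ω d Z Λ ν := by
  obtain ⟨e, he⟩ : ∃ e : Ω → ℕ, Function.Injective e := by
    haveI := Fintype.ofFinite Ω
    exact ⟨fun v => (Fintype.equivFin Ω v : ℕ), fun a b h => (Fintype.equivFin Ω).injective (Fin.ext h)⟩
  obtain ⟨m, hm⟩ : ∃ m : ℕ, ∀ z ∈ Z, z < m :=
    ⟨Z.sup id + 1, fun z hz => Nat.lt_succ_of_le (Finset.le_sup (f := id) hz)⟩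
  obtain ⟨L, hLdef⟩ : ∃ L : ℕ → ℕ → ℕ, ∀ k j, L k j = m + 2 * Nat.pair k j := ⟨_, fun _ _ => rfl⟩
  obtain ⟨zs, hzdef⟩ : ∃ zs : Ω → ℕ, ∀ v, zs v = m + 2 * e v + 1 := ⟨_, fun _ => rfl⟩
  have hzs : Function.Injective zs := by
    intro a b h
    rw [hzdef, hzdef] at h
    exact he (by omega)
  have hL : ∀ k j k' j' : ℕ, j < k → j' < k' → L k j = L k' j' → k = k' ∧ j = j' := by
    intro k j k' j' _ _ h
    rw [hLdef, hLdef] at h
    exact Nat.pair_eq_pair.mp (by omega)
  have hzL : ∀ v k j, zs v ≠ L k j := by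
    intro v k j h
    rw [hzdef, hLdef] at h
    omega
  obtain ⟨r, hrdef⟩ : ∃ r : Finset Ω → Ω → ℕ, ∀ A v (h : v ∈ A), r A v = (A.equivFin ⟨v, h⟩ : ℕ) :=
    ⟨fun A v => if h : v ∈ A then (A.equivFin ⟨v, h⟩ : ℕ) else 0, fun A v h => dif_pos h⟩
  have hr : ∀ A : Finset Ω, Set.InjOn (r A) A := by
    intro A u hu v hv h
    rw [hrdef A u hu, hrdef A v hv] at h
    exact congrArg Subtype.val (A.equivFin.injective (Fin.ext h))
  have hr' : ∀ A : Finset Ω, ∀ v ∈ A, r A v < A.card := by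
    intro A v hv
    rw [hrdef A v hv]
    exact Fin.isLt _
  obtain ⟨ν, h0, hν⟩ := exists_nu zs (fun A v => L A.card (r A v))
  refine ⟨((Finset.range (d + 1)) ×ˢ (Finset.range (d + 1))).image (fun p => L p.1 p.2), ?_, ν, ?_, ?_, ?_⟩
  · refine Finset.card_image_le.trans ?_
    rw [Finset.card_product, Finset.card_range, sq]
  · rw [h0, pr1_single]
    norm_num
  · intro A hA g hg
    obtain ⟨i1, i2, i3⟩ := nu_supp zs hzs L hL hzL r hr hr' ν h0 hν A g hg
    refine ⟨i1, ?_, ?_⟩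
    · intro v hz
      have h1 := hm _ hz
      by_cases hv : v ∈ A
      · obtain ⟨k, j, _, _, hgv⟩ := i3 v hv
        rw [hgv, hLdef] at h1
        omega
      · rw [i2 v hv, hzdef] at h1
        omega
    · intro v hv
      obtain ⟨k, j, hk, hj, hgv⟩ := i3 v hv
      rw [Finset.mem_image]
      refine ⟨(k, j), ?_, hgv.symm⟩
      rw [Finset.mem_product, Finset.mem_range, Finset.mem_range]
      exact ⟨by simp only; omega, by simp only; omega⟩
  · intro A v hv f hf
    exact nu_cons zs (fun A v => L A.card (r A v)) ν h0 hν A v hv f hf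

end Pool.Agent.Lib.H65F
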