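import Pool.Agent.Lib.H65F.S2
import Pool.Agent.Lib.H65F.S2b
import Pool.Agent.Lib.H65F.S2c
import Pool.Agent.Lib.H65F.S2d

/-! Chunk S3: the signed measure. -/

set_option autoImplicit false

namespace Pool.Agent.Lib.H65F

open Classical in
/-- PROOF. Induction on `(T \ B).card`: if `T ⊆ B` then `T ∩ B = T`; otherwise take `v ∈ T \ B`; `f` is independent of `v`, so
`pr1 (ν T) f = pr1 (ν (T.erase v)) f` (`NuFam.cons`) and `T.erase v ∩ B = T ∩ B`. -/
theorem NuFam.inter {Ω : Type} {d : ℕ} {Z Λ : Finset ℕ}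
    {ν : Finset Ω → ((Ω → ℕ) →₀ ℤ)} (h : NuFam Ω d Z Λ ν) (B T : Finset Ω)
    (f : (Ω → ℕ) → ℤ) (hf : DepOn f B) : pr1 (ν T) f = pr1 (ν (T ∩ B)) f := by
  induction' hn : (T \ B).card with n ih generalizing T
  · have h1 : T \ B = ∅ := Finset.card_eq_zero.mp hn
    have h2 : T ∩ B = T := Finset.inter_eq_left.mpr (Finset.sdiff_eq_empty_iff_subset.mp h1)
    rw [h2]
  · obtain ⟨v, hv⟩ : (T \ B).Nonempty := by
      rw [← Finset.card_pos]; omega
    have hv' := hv
    rw [Finset.mem_sdiff] at hv'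
    have hI : Indep f v := by
      intro g g' hg
      refine hf g g' fun u hu => hg u ?_
      rintro rfl
      exact hv'.2 hu
    have h1 : T.erase v \ B = (T \ B).erase v := by
      ext u; simp only [Finset.mem_sdiff, Finset.mem_erase]; tauto
    have h2 : T.erase v ∩ B = T ∩ B := by
      ext u
      simp only [Finset.mem_inter, Finset.mem_erase]
      constructor
      · rintro ⟨⟨_, a⟩, b⟩; exact ⟨a, b⟩
      · rintro ⟨a, b⟩
        refine ⟨⟨?_, a⟩, b⟩
        rintro rfl
        exact hv'.2 b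
    rw [h.cons T v hv'.1 f hI, ih (T.erase v), h2]
    rw [h1, Finset.card_erase_of_mem hv, hn]
    rfl

open Classical in
theorem s3_mobius {Ω : Type} (B : Finset Ω) : ∀ x : Finset Ω → ℤ,
    ∑ A ∈ B.powerset, ∑ T ∈ A.powerset, (-1 : ℤ) ^ (A \ T).card * x T = x B := by
  induction B using Finset.induction_on with
  | empty => intro x; simp
  | insert v B hv ih =>
    intro x
    rw [Finset.sum_powerset_insert hv]
    have h1 : ∀ A ∈ B.powerset, ∑ T ∈ (insert v A).powerset, (-1 : ℤ) ^ (insert v A \ T).card * x T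
        = -(∑ T ∈ A.powerset, (-1 : ℤ) ^ (A \ T).card * x T)
          + ∑ T ∈ A.powerset, (-1 : ℤ) ^ (A \ T).card * x (insert v T) := by
      intro A hA
      rw [Finset.mem_powerset] at hA
      have hvA : v ∉ A := fun h => hv (hA h)
      rw [Finset.sum_powerset_insert hvA, ← Finset.sum_neg_distrib]
      congr 1
      · refine Finset.sum_congr rfl fun T hT => ?_
        rw [Finset.mem_powerset] at hT
        have hvT : v ∉ T := fun h => hvA (hT h)
        rw [Finset.insert_sdiff_of_notMem _ hvT, Finset.card_insert_of_notMem, pow_succ]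
        · ring
        · simp [hvA]
      · refine Finset.sum_congr rfl fun T hT => ?_
        rw [Finset.mem_powerset] at hT
        have hvT : v ∉ T := fun h => hvA (hT h)
        have h2 : insert v A \ insert v T = A \ T := by
          ext u
          simp only [Finset.mem_sdiff, Finset.mem_insert, not_or]
          constructor
          · rintro ⟨a | a, b, c⟩
            · exact absurd a b
            · exact ⟨a, c⟩
          · rintro ⟨a, b⟩
            refine ⟨Or.inr a, ?_, b⟩
            rintro rfl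
            exact hvA a
        rw [h2]
    rw [Finset.sum_congr rfl h1, Finset.sum_add_distrib, Finset.sum_neg_distrib,
      ih (fun T => x (insert v T))]
    ring

open Classical in
/-- The measure `c = ∑ |A| ≤ d, ∑ T ⊆ A, (-1) ^ |A \ T| ν T`.
PROOF. `pr1` is linear: `pr1 c f = ∑ A, ∑ T ∈ A.powerset, (-1) ^ |A \ T| * pr1 (ν (T ∩ B)) f` (`NuFam.inter`).  If `A` is not contained in
`B` the inner sum vanishes: take `v ∈ A \ B`; pair `T` with `insert v T` (`Finset.sum_involution`, or
`Finset.sum_powerset_insert` for `A = insert v (A.erase v)`), since `insert v T ∩ B = T ∩ B`.  So only `A ⊆ B` remain (all have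
`|A| ≤ |B| ≤ d`), and there `T ∩ B = T`.  `∑ A ∈ B.powerset, ∑ T ∈ A.powerset, (-1) ^ |A \ T| x T = x B` for any function `x`
(exchange the sums: `∑ T ∈ B.powerset, x T * ∑ T ⊆ A ⊆ B, (-1) ^ |A \ T|`, and the inner sum is `0` unless `T = B`;
Moebius inversion on the Boolean lattice, `Finset.sum_powerset_neg_one_pow_card`; a proof by induction on `B` is also easy). -/
theorem NuFam.pr1_c {Ω : Type} [Fintype Ω] {d : ℕ} {Z Λ : Finset ℕ}
    {ν : Finset Ω → ((Ω → ℕ) →₀ ℤ)} (h : NuFam Ω d Z Λ ν) (B : Finset Ω) (hB : B.card ≤ d)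
    (f : (Ω → ℕ) → ℤ) (hf : DepOn f B) :
    pr1 (∑ A ∈ (Finset.univ : Finset (Finset Ω)) with A.card ≤ d, ∑ T ∈ A.powerset,
      ((-1 : ℤ) ^ (A \ T).card) • ν T) f = pr1 (ν B) f := by
  rw [pr1_sum]
  have h1 : ∀ A : Finset Ω, pr1 (∑ T ∈ A.powerset, ((-1 : ℤ) ^ (A \ T).card) • ν T) f
      = ∑ T ∈ A.powerset, (-1 : ℤ) ^ (A \ T).card * pr1 (ν (T ∩ B)) f := by
    intro A
    rw [pr1_sum]
    refine Finset.sum_congr rfl fun T _ => ?_
    rw [pr1_smul, h.inter B T f hf]
  rw [Finset.sum_congr rfl fun A _ => h1 A]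
  have h2 : ∀ A : Finset Ω, ¬ A ⊆ B →
      ∑ T ∈ A.powerset, (-1 : ℤ) ^ (A \ T).card * pr1 (ν (T ∩ B)) f = 0 := by
    intro A hA
    obtain ⟨v, hvA, hvB⟩ := Finset.not_subset.mp hA
    obtain ⟨A', hvA', rfl⟩ : ∃ A', v ∉ A' ∧ insert v A' = A :=
      ⟨A.erase v, Finset.notMem_erase v A, Finset.insert_erase hvA⟩
    rw [Finset.sum_powerset_insert hvA', ← Finset.sum_add_distrib]
    refine Finset.sum_eq_zero fun T hT => ?_
    rw [Finset.mem_powerset] at hT
    have hvT : v ∉ T := fun h => hvA' (hT h)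
    have h3 : insert v A' \ insert v T = A' \ T := by
      ext u
      simp only [Finset.mem_sdiff, Finset.mem_insert, not_or]
      constructor
      · rintro ⟨a | a, b, c⟩
        · exact absurd a b
        · exact ⟨a, c⟩
      · rintro ⟨a, b⟩
        refine ⟨Or.inr a, ?_, b⟩
        rintro rfl
        exact hvA' a
    have h4 : insert v T ∩ B = T ∩ B := by
      rw [Finset.insert_inter_of_notMem hvB]
    rw [h3, h4, Finset.insert_sdiff_of_notMem _ hvT, Finset.card_insert_of_notMem, pow_succ]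
    · ring
    · simp [hvA']
  have h5 : ∑ A ∈ B.powerset, ∑ T ∈ A.powerset, (-1 : ℤ) ^ (A \ T).card * pr1 (ν (T ∩ B)) f
      = pr1 (ν B) f := by
    rw [← s3_mobius B (fun T => pr1 (ν T) f)]
    refine Finset.sum_congr rfl fun A hA => Finset.sum_congr rfl fun T hT => ?_
    rw [Finset.mem_powerset] at hA hT
    rw [Finset.inter_eq_left.mpr (hT.trans hA)]
  rw [← h5]
  symm
  refine Finset.sum_subset ?_ ?_
  · intro A hA
    rw [Finset.mem_powerset] at hA
    simp only [Finset.mem_filter, Finset.mem_univ, true_and]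
    exact (Finset.card_le_card hA).trans hB
  · intro A _ hA
    rw [Finset.mem_powerset] at hA
    exact h2 A hA

end Pool.Agent.Lib.H65F
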