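import Pool.Agent.Lib.H65F.S2
import Pool.Agent.Lib.H65F.S2b
import Pool.Agent.Lib.H65F.S2c
import Pool.Agent.Lib.H65F.S2d
import Pool.Agent.Lib.H65F.S3

/-! Chunk S3b: the signed measure. -/

set_option autoImplicit false

namespace Pool.Agent.Lib.H65F

open Classical in
/-- The signed measure (5.1 of PROOF.md).
PROOF. `exists_nuFam`; `c` is the sum in `NuFam.pr1_c`.  Mass: `B := ∅`, `f := 1` and `NuFam.mass`.  Support: each `g` in the support of
`c` is in the support of some `ν T`, `T ⊆ A`, `|A| ≤ d`; `NuFam.supp`.  Last claim: with `f g := if F g = t then 1 else 0` (depends only on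
`B`), `pr1_indicator` and `NuFam.pr1_c` the sum is `pr1 (ν B) f = ∑ g ∈ (ν B).support with F g = t, ν B g`, and there is no such `g` by the hypothesis
`hne` and `NuFam.supp` (`|B| ≤ d`).  Existence of `g` for `|B| ≤ d`: the mass of `ν B` is `1` (`NuFam.inter` with
`B := ∅` and the constant function), so the support of `ν B` is not empty. -/
theorem exists_measure (Ω : Type) [Finite Ω] (d : ℕ) (Z : Finset ℕ) :
    ∃ (Λ : Finset ℕ) (c : (Ω → ℕ) →₀ ℤ), Λ.card ≤ (d + 1) ^ 2 ∧ Meas Ω d Z Λ c := by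
  have _ : Fintype Ω := Fintype.ofFinite Ω
  obtain ⟨Λ, hΛ, ν, h⟩ := exists_nuFam Ω d Z
  refine ⟨Λ, ∑ A ∈ (Finset.univ : Finset (Finset Ω)) with A.card ≤ d, ∑ T ∈ A.powerset,
      ((-1 : ℤ) ^ (A \ T).card) • ν T, hΛ, ?_, ?_, ?_, ?_⟩
  · have h1 := h.pr1_c ∅ (by simp) (fun _ => 1) (fun _ _ _ => rfl)
    rw [h.mass, pr1, Finsupp.sum] at h1
    simpa only [mul_one] using h1
  · intro g hg
    have h2 := Finsupp.support_finsetSum hg
    rw [Finset.mem_biUnion] at h2
    obtain ⟨A, hA, h3⟩ := h2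
    rw [Finset.mem_filter] at hA
    have h4 := Finsupp.support_finsetSum h3
    rw [Finset.mem_biUnion] at h4
    obtain ⟨T, hT, h5⟩ := h4
    rw [Finset.mem_powerset] at hT
    obtain ⟨i1, i2, _⟩ := h.supp T ((Finset.card_le_card hT).trans hA.2) g (Finsupp.support_smul h5)
    exact ⟨i1, i2⟩
  · intro B hB
    have h1 := h.inter ∅ B (fun _ => 1) (fun _ _ _ => rfl)
    rw [Finset.inter_empty, h.mass] at h1
    have h2 : (ν B).support.Nonempty := by
      rw [Finset.nonempty_iff_ne_empty]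
      intro h3
      rw [Finsupp.support_eq_empty] at h3
      rw [h3] at h1
      simp [pr1] at h1
    obtain ⟨g, hg⟩ := h2
    exact ⟨g, h.supp B hB g hg⟩
  · intro B hB T F hF t hne
    have hd : DepOn (fun g => if F g = t then (1 : ℤ) else 0) B := by
      intro g g' hgg
      simp only [hF g g' hgg]
    have h1 := h.pr1_c B hB _ hd
    rw [pr1_indicator, pr1_indicator] at h1
    rw [h1]
    refine Finset.sum_eq_zero fun g hg => ?_
    rw [Finset.mem_filter] at hg
    obtain ⟨i1, i2, i3⟩ := h.supp B hB g hg.1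
    exact absurd hg.2 (hne g i1 i2 i3)

end Pool.Agent.Lib.H65F
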