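import Pool.Agent.Lib.H65F.D1
import Pool.Agent.Lib.H65F.S3
import Pool.Agent.Lib.H65F.S3b

/-! Chunk B1: the tests. -/

set_option autoImplicit false

namespace Pool.Agent.Lib.H65F

open Subgroup Pool.Agent.H69

variable {F : Formation} (S : BSys F)

/-- PROOF. `β ∈ tests` factors through `Fr ⧸ RB`, a finite group of order `(RB S.Y Λ).index ≤ quotB |Y| |Λ|` (`RB_index`; it is finite since `RB_goodQ`
and `F.finite`, so the index is positive); `β ↦` the induced function `Fr ⧸ RB → Y` is injective, and there are `|Y| ^ index` functions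
(`Nat.card_fun`, `Nat.card_pi`). -/
theorem tests_card (Λ : Finset ℕ) : (tests S Λ).Finite ∧
    (tests S Λ).ncard ≤ Nat.card S.Y ^ quotB (Nat.card S.Y) Λ.card := by
  classical
  obtain ⟨hn, hmem, -⟩ := RB_goodQ S.mY Λ
  have hfin : Finite (Fr ⧸ RB S.Y Λ) := F.finite _ hmem
  let Φ : ↥(tests S Λ) → ((Fr ⧸ RB S.Y Λ) → S.Y) := fun β =>
    QuotientGroup.lift (RB S.Y Λ) β.1 (fun x hx => β.2.2 hx)
  have hΦ : Function.Injective Φ := by
    intro β β' h
    apply Subtype.ext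
    apply MonoidHom.ext
    intro f
    exact congrFun h (QuotientGroup.mk f)
  have hf : Finite ↥(tests S Λ) := Finite.of_injective Φ hΦ
  refine ⟨Set.toFinite _, ?_⟩
  have h1 : Nat.card ↥(tests S Λ) ≤ Nat.card ((Fr ⧸ RB S.Y Λ) → S.Y) :=
    Nat.card_le_card_of_injective Φ hΦ
  rw [Nat.card_fun] at h1
  have h2 : Nat.card (Fr ⧸ RB S.Y Λ) ≤ quotB (Nat.card S.Y) Λ.card := RB_index Λ
  exact h1.trans (Nat.pow_le_pow_right Nat.card_pos h2)

/-- PROOF. `GoodQ.sInf` for the finite set of kernels, `goodQ_ker` with `S.mY`, `S.zY`. -/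
theorem tker_goodQ (Λ : Finset ℕ) : GoodQ F (tker S Λ) := by
  unfold tker
  refine GoodQ.sInf S.mY ?_ ?_
  · refine ((tests_card S Λ).1.image fun β => β.ker).subset ?_
    rintro K ⟨β, hβ, rfl⟩
    exact ⟨β, hβ, rfl⟩
  · rintro K ⟨β, hβ, rfl⟩
    exact goodQ_ker S.mY S.zY β hβ.1

/-- PROOF. `|Y| ≤ |G₀|` (surjection `a₀`), `card_unodes_above`. -/
theorem sigI_card (i : S.I) : (sigI S i).card ≤ 2 ^ Nat.card S.Y :=
  card_unodes_above (S.π' i) (S.hπ' i) (sigI S i) fun M hM => ((mem_sigI S i M).mp hM).2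

theorem sigP_card : (sigP S).card ≤ 2 ^ Nat.card S.G :=
  (card_unodes_above S.p' S.hp' (sigP S) fun M hM => ((mem_sigP S M).mp hM).2).trans
    (Nat.pow_le_pow_right (by norm_num) (Nat.card_le_card_of_surjective S.aG S.haG))

end Pool.Agent.Lib.H65F
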