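import Pool.Agent.Lib.H65F.D1
import Pool.Agent.Lib.H65F.S3
import Pool.Agent.Lib.H65F.S3b
import Pool.Agent.Lib.H65F.B1

/-! Chunk B1b: the tests. -/

set_option autoImplicit false

namespace Pool.Agent.Lib.H65F

open Subgroup Pool.Agent.H69

variable {F : Formation} (S : BSys F)

/-- PROOF. Case distinction on membership in `A`; values on `A` lie in `Z`, values of `ω` do not. -/
theorem cmb_inj {Ω : Type} {A : Finset Ω} {g₁ ω : Ω → ℕ} {Z : Finset ℕ}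
    (h1 : Function.Injective g₁) (h2 : Function.Injective ω) (hZ : ∀ v ∈ A, g₁ v ∈ Z)
    (hω : ∀ v, ω v ∉ Z) : Function.Injective (cmb A g₁ ω) := by
  intro v w hvw
  by_cases hv : v ∈ A
  · by_cases hw : w ∈ A
    · rw [cmb_of_mem _ _ hv, cmb_of_mem _ _ hw] at hvw
      exact h1 hvw
    · rw [cmb_of_mem _ _ hv, cmb_of_notMem _ _ hw] at hvw
      exact absurd (hvw ▸ hZ v hv) (hω w)
  · by_cases hw : w ∈ A
    · rw [cmb_of_notMem _ _ hv, cmb_of_mem _ _ hw] at hvw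
      exact absurd (hvw ▸ hZ w hw) (hω v)
    · rw [cmb_of_notMem _ _ hv, cmb_of_notMem _ _ hw] at hvw
      exact h2 hvw

/-- PROOF. `BSys.local` (second part), the functions agree on `sigP` (`cmb_of_mem`). -/
theorem bt_cmb (g₁ ω : LFn S) : bt S (cmb (sigP S) g₁ ω) = bt S g₁ := by
  exact (BSys.local S _ _).2 fun M hU hk => cmb_of_mem _ _ ((mem_sigP S M).2 ⟨hU, hk⟩)

/-- PROOF. `BSys.RB_le`: for `M ∈ sigI i` the letter of `cmb (sigP S) g₁ ω` is in `Λ ∪ Z`.  Surjective: `BSys.surj`, `cmb_inj`. -/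
theorem cmb_mem_tests (i : S.I) {Λ Z : Finset ℕ} {g₁ ω : LFn S} (h1 : Function.Injective g₁)
    (hZ : ∀ v ∈ sigP S, g₁ v ∈ Z) (h2 : Function.Injective ω) (hω : ∀ v, ω v ∉ Z)
    (hΛ : ∀ v ∈ sigI S i, ω v ∈ Λ) :
    (S.π' i).comp (hh (cmb (sigP S) g₁ ω)) ∈ tests S (Λ ∪ Z) := by
  refine ⟨(BSys.surj S i (cmb_inj h1 h2 hZ hω)).1, BSys.RB_le S i (Λ ∪ Z) _ fun M hU hk => ?_⟩
  by_cases hM : M ∈ sigP S
  · rw [cmb_of_mem _ _ hM]
    exact Finset.mem_union_right _ (hZ M hM)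
  · rw [cmb_of_notMem _ _ hM]
    exact Finset.mem_union_left _ (hΛ M ((mem_sigI S i M).2 ⟨hU, hk⟩))

/-- PROOF. By `ker_comp_hh` (with `f := S.p'`, `g := g₁`) it is enough that
`tker S (Λ ∪ Z) ≤ N.comap (bt S g₁)` for every `UNode` `N` of `G'`.  Let `C := N.comap S.p'` (a `UNode` of `D'`, `comap_comp_hh`), `i` with
`(S.π' i).ker ≤ C` (`BSys.exists_ker_le`), `ω` from `hex (sigI S i) (sigI_card S i)`, `β := (S.π' i).comp (hh (cmb (sigP S) g₁ ω)) ∈ tests`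
(`cmb_mem_tests`), so `tker ≤ β.ker` (`sInf_le`).  If `β x = 1` then `hh (cmb ..) x ∈ (S.π' i).ker ≤ C`, so
`S.p' (hh (cmb ..) x) ∈ N`, that is `bt S g₁ x ∈ N` (`bt_cmb`). -/
theorem tker_le {Λ Z : Finset ℕ} {g₁ : LFn S} (h1 : Function.Injective g₁)
    (hZ : ∀ v ∈ sigP S, g₁ v ∈ Z)
    (hex : ∀ B : Finset (Subgroup S.D'), B.card ≤ 2 ^ Nat.card S.Y → ∃ ω : LFn S,
      Function.Injective ω ∧ (∀ v, ω v ∉ Z) ∧ ∀ v ∈ B, ω v ∈ Λ) :
    tker S (Λ ∪ Z) ≤ (bt S g₁).ker := by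
  refine ker_comp_hh (BSys.sepG S) S.p' g₁ fun N hN => ?_
  obtain ⟨hC, hkC, -⟩ := comap_comp_hh (BSys.sepD S) S.p' S.hp' g₁ hN
  obtain ⟨i, hi⟩ := BSys.exists_ker_le S hC
  obtain ⟨ω, hω1, hω2, hω3⟩ := hex (sigI S i) (sigI_card S i)
  have hβ := cmb_mem_tests S i h1 hZ hω1 hω2 hω3
  intro x hx
  have hx1 : x ∈ ((S.π' i).comp (hh (cmb (sigP S) g₁ ω))).ker := by
    have h3 : tker S (Λ ∪ Z) ≤ ((S.π' i).comp (hh (cmb (sigP S) g₁ ω))).ker :=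
      sInf_le ⟨_, hβ, rfl⟩
    exact h3 hx
  have hx2 : hh (cmb (sigP S) g₁ ω) x ∈ (S.π' i).ker := by
    rw [MonoidHom.mem_ker] at hx1 ⊢
    exact hx1
  have hx3 : hh (cmb (sigP S) g₁ ω) x ∈ N.comap S.p' := hi hx2
  rw [Subgroup.mem_comap] at hx3 ⊢
  have h4 : S.p' (hh (cmb (sigP S) g₁ ω) x) = (bt S g₁) x := by
    rw [← bt_cmb S g₁ ω]
    rfl
  rw [h4] at hx3
  exact hx3

end Pool.Agent.Lib.H65F
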