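import Pool.Agent.Lib.H65F.A3a
import Pool.Agent.Lib.H65F.A3b
import Pool.Agent.Lib.H65F.A3c
import Pool.Agent.Lib.H65F.A3d
import Pool.Agent.Lib.H65F.A3
import Pool.Agent.Lib.H65F.A5
import Pool.Agent.Lib.H65F.A5b
import Pool.Agent.Lib.H65F.A5c
import Pool.Agent.Lib.H65F.A5d
import Pool.Agent.Lib.H65F.B1
import Pool.Agent.Lib.H65F.B1b

/-! Chunk A6: the induction in Theorem A. -/

set_option autoImplicit false

namespace Pool.Agent.Lib.H65F

open Subgroup Pool.Agent.H69

variable {F : Formation} (S : BSys F) {H : Formation}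

/-- PROOF. The functions `g₁`, `g₂` agree on the `UNode`s above the kernel (`mem_sigI`); `BSys.local`. -/
theorem depOn_comp (i : S.I) : DepOn (fun g : LFn S => (S.π' i).comp (hh g)) (sigI S i) := by
  intro g g' h
  exact (BSys.local S g g').1 i fun M hM hle => h M ((mem_sigI S i M).mpr ⟨hM, hle⟩)

/-- Large sets.
PROOF. `lemmaCL` with `R' := ⊤` (`GoodQ.top`, index `1`), `b := 1`; `hH` from `hH'` and `schurB_mono`.  Coefficients: let `i`; `|sigI S i| ≤ 2 ^ |Y|` (`sigI_card`) `< |A|`,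
so there is `v ∈ A`, `v ∉ sigI S i`; `coef_dl_eq_zero` with `depOn_comp`.  The support of `dl` consists of injective functions
(`dl_support`, `Adm.cmb_inj`). -/
theorem AA_large {b : ℕ} (hb : 1 ≤ b) (hG' : H.mem S.G')
    (hH' : ∀ (Q : Type) [Group Q] [Finite Q], InForm S.G Q → _root_.commutator Q = ⊤ →
      Nat.card Q ≤ schurB b → H.mem Q) {A : Finset (Subgroup S.D')}
    (hA : 2 ^ Nat.card S.Y < A.card) {g z' : LFn S} (h : Adm A g z') :
    AA S H (dl A g z') := by
  refine lemmaCL S hG' (R' := ⊤) (b := 1) ?_ (GoodQ.top S.mY) ?_ ?_ ?_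
  · intro g' hg'
    obtain ⟨T, hT, rfl⟩ := dl_support hg'
    exact h.cmb_inj hT
  · rw [Subgroup.index_top]
  · intro Q _ _ h1 h2 h3
    exact hH' Q h1 h2 (h3.trans (schurB_mono le_rfl hb))
  · intro i β hne
    exfalso
    apply hne
    have hex : ∃ v ∈ A, v ∉ sigI S i := by
      by_contra hcon
      push Not at hcon
      have h5 := Finset.card_le_card (show A ⊆ sigI S i from hcon)
      have h6 := sigI_card S i
      omega
    obtain ⟨v, hvA, hv⟩ := hex
    refine coef_dl_eq_zero hvA g z' _ (fun g₁ g₂ h12 => ?_) β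
    refine depOn_comp S i g₁ g₂ fun u hu => h12 u ?_
    rintro rfl
    exact hv hu

end Pool.Agent.Lib.H65F
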