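import Pool.Agent.Lib.H65F.A3a
import Pool.Agent.Lib.H65F.A3b
import Pool.Agent.Lib.H65F.A3c
import Pool.Agent.Lib.H65F.A3d
import Pool.Agent.Lib.H65F.A3
import Pool.Agent.Lib.H65F.A5
import Pool.Agent.Lib.H65F.A5b
import Pool.Agent.Lib.H65F.A5c
import Pool.Agent.Lib.H65F.A5d
import Pool.Agent.Lib.H65F.B1
import Pool.Agent.Lib.H65F.B1b
import Pool.Agent.Lib.H65F.A6

/-! Chunk A6b: the induction in Theorem A. -/

set_option autoImplicit false

namespace Pool.Agent.Lib.H65F

open Subgroup Pool.Agent.H69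

variable {F : Formation} (S : BSys F) {H : Formation}

open Classical in
theorem a6b_adm {A : Finset (Subgroup S.D')} {g z' ω : LFn S} (h : Adm A g z')
    (h1 : Function.Injective ω) (h2 : ∀ v, ω v ∉ A.image g ∪ A.image z') :
    Adm A (cmb A g ω) z' := by
  refine ⟨?_, h.inj', ?_⟩
  · exact cmb_inj h.inj h1 (fun v hv => Finset.mem_union_left _ (Finset.mem_image_of_mem g hv)) h2
  · intro v hv u
    by_cases hu : u ∈ A
    · rw [cmb_of_mem _ _ hu]
      exact h.out v hv u
    · rw [cmb_of_notMem _ _ hu]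
      intro he
      apply h2 u
      rw [← he]
      exact Finset.mem_union_right _ (Finset.mem_image_of_mem z' hv)

open Classical in
/-- The averaged measure.
PROOF. `y := ∑ ω ∈ c.support, c ω • dl A (cmb A g ω) z'`.  Support: injective functions: for `ω ∈ c.support`, `cmb A g ω` is injective (`cmb_inj` with
`Z`) and `Adm A (cmb A g ω) z'` (values of `ω` avoid `Z ⊇ z' '' A`, values of `g` on `A` avoid `z'` by `h.out`); `dl_support`, `Adm.cmb_inj`.  `lemmaCL` with
`R' := RB S.Y (Λ ∪ Z)` (`RB_goodQ`, `RB_index`, `quotB_mono`, `Finset.card_union_le`).  Coefficients: if `coef y F β ≠ 0` for `F g := (S.π' i).comp (hh g)`, then by `coef_avg`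
(`B := sigI S i`, `sigI_card`, `depOn_comp`) `β = F (cmb U z' (cmb A g ω))` with `U ⊆ A`, `ω` with letters in `Λ` on `sigI S i`; all letters of
`cmb U z' (cmb A g ω)` on `sigI S i` lie in `Λ ∪ Z`, so `RB S.Y (Λ ∪ Z) ≤ β.ker` (`BSys.RB_le`). -/
theorem AA_avg (hG' : H.mem S.G')
    (hH' : ∀ (Q : Type) [Group Q] [Finite Q], InForm S.G Q → _root_.commutator Q = ⊤ →
      Nat.card Q ≤ schurB (quotB (Nat.card S.Y) ((2 ^ Nat.card S.Y + 1) ^ 2 +
        2 * 2 ^ Nat.card S.Y)) → H.mem Q)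
    {A : Finset (Subgroup S.D')} {g z' : LFn S} (h : Adm A g z')
    (hA : A.card ≤ 2 ^ Nat.card S.Y) {Λ : Finset ℕ} (hΛ : Λ.card ≤ (2 ^ Nat.card S.Y + 1) ^ 2)
    {c : (Subgroup S.D' → ℕ) →₀ ℤ}
    (hc : Meas (Subgroup S.D') (2 ^ Nat.card S.Y) (A.image g ∪ A.image z') Λ c) :
    AA S H (∑ ω ∈ c.support, c ω • dl A (cmb A g ω) z') := by
  refine lemmaCL S hG' (R' := RB S.Y (Λ ∪ (A.image g ∪ A.image z')))
    (b := quotB (Nat.card S.Y) ((2 ^ Nat.card S.Y + 1) ^ 2 + 2 * 2 ^ Nat.card S.Y)) ?_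
    (RB_goodQ S.mY _) ?_ hH' ?_
  · intro g' hg'
    have h2 := Finsupp.support_finsetSum hg'
    rw [Finset.mem_biUnion] at h2
    obtain ⟨ω, hω, h3⟩ := h2
    obtain ⟨T, hT, rfl⟩ := dl_support (Finsupp.support_smul h3)
    obtain ⟨h4, h5⟩ := hc.supp ω hω
    exact (a6b_adm S h h4 h5).cmb_inj hT
  · refine (RB_index _).trans (quotB_mono Nat.card_pos le_rfl ?_)
    refine (Finset.card_union_le _ _).trans (Nat.add_le_add hΛ ?_)
    refine (Finset.card_union_le _ _).trans ?_
    have h6 : (A.image g).card ≤ A.card := Finset.card_image_le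
    have h7 : (A.image z').card ≤ A.card := Finset.card_image_le
    omega
  · intro i β hne
    obtain ⟨U, hU, ω, h1, h2, h3, h4⟩ := coef_avg hc A (sigI S i) (sigI_card S i) g z'
      (fun g : LFn S => (S.π' i).comp (hh g)) (depOn_comp S i) hne
    rw [← h4]
    refine BSys.RB_le S i _ _ fun M hM hle => ?_
    by_cases hMU : M ∈ U
    · rw [cmb_of_mem _ _ hMU]
      exact Finset.mem_union_right _ (Finset.mem_union_right _
        (Finset.mem_image_of_mem z' (hU hMU)))
    · rw [cmb_of_notMem _ _ hMU]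
      by_cases hMA : M ∈ A
      · rw [cmb_of_mem _ _ hMA]
        exact Finset.mem_union_right _ (Finset.mem_union_left _ (Finset.mem_image_of_mem g hMA))
      · rw [cmb_of_notMem _ _ hMA]
        exact Finset.mem_union_left _ (h3 M ((mem_sigI S i M).mpr ⟨hM, hle⟩))

end Pool.Agent.Lib.H65F
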