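import Pool.Agent.Lib.H65F.B1
import Pool.Agent.Lib.H65F.B1b

/-! Chunk B2: the claim in the proof of Theorem B. -/

set_option autoImplicit false

namespace Pool.Agent.Lib.H65F

open Subgroup Pool.Agent.H69

variable {F : Formation} (S : BSys F)

theorem b2_prod_zpow {A W : Type} [CommGroup A] (s : Finset W) (a : A) (f : W → ℤ) :
    ∏ w ∈ s, a ^ f w = a ^ ∑ w ∈ s, f w := by
  classical
  induction s using Finset.induction_on with
  | empty => simp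
  | insert w s hw ih => rw [Finset.prod_insert hw, Finset.sum_insert hw, zpow_add, ih]

/-- PROOF. `R' := tker S (Λ ∪ Z)`, `G ω := cmb (sigP S) g₁ ω` (injective for `ω ∈ c.support`: `cmb_inj`, `Meas.supp`).
`β ρ = S.a₀ (lf _ _ β ρ) = 1` for `β ∈ tests` (`lf_spec`), so `ρ ∈ R'`.  `R := R' ⊓ ⨅ ω ∈ c.support, ker (hh (G ω))` is `GoodQ`
(`BSys.goodQ_inf` for the finite set of the `G ω`, `tker_goodQ`).  `le_commutator_sup` (`R'` normal by `GoodQ`): `ρ ∈ R' ≤ ⁅R', R'⁆ ⊔ R`, so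
`ρ = ρ₁ * ρ₂` with `ρ₁ ∈ ⁅R', R'⁆`, `ρ₂ ∈ R` (`Subgroup.mem_sup_of_normal_right`).  `v ρ₁ = 1` by `lift_comm_eq_one` for `v` (along `S.aG`,
`R' ≤ (bt S g₁).ker` by `tker_le`, `Meas.ex`), and `lf _ _ β ρ₁ = 1` for `β ∈ tests` (`lift_comm_eq_one` along `S.a₀`).  So `lf _ _ β ρ₂ = 1` for
`β ∈ tests`.  `ρ₂ = ρ₁⁻¹ * ρ ∈ commutator Fr` (`⁅R', R'⁆ ≤ commutator Fr`).  `central_product'` with `W := LFn S`, `s := c.support`, `y := c`,
`h ω := hh (G ω)`, `v ω := v` (constant; `hv`: `S.aG (v f) = bt S g₁ f = bt S (G ω) f = S.p' (hh (G ω) f)`, `bt_cmb`), `ρ := ρ₂`.  Hypothesis `hco`: if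
the sum over `ω ∈ c.support` with `(S.π' i).comp (hh (G ω)) = β` is not `0`, then by `Meas.marg` for `B := sigI S i`
(`sigI_card`; the function `ω ↦ (S.π' i).comp (hh (G ω))` depends only on `sigI S i` by `BSys.local`), there is an injective `ω` outside `Z` with letters in
`Λ` on `sigI S i` and `(S.π' i).comp (hh (G ω)) = β`; so `β ∈ tests` (`cmb_mem_tests`) and `lf _ _ β ρ₂ = 1`.  Result:
`∏ ω ∈ c.support, cz (v ρ₂) ^ (c ω) = 1`, that is `cz (v ρ₂) ^ (∑ c) = cz (v ρ₂) = 1` (`Meas.mass`), and `v ρ₂` is central (`S.aG (v ρ₂) = bt S g₁ ρ₂ = 1`), so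
`v ρ₂ = 1`, `v ρ = 1`. -/
theorem claimB {Λ Z : Finset ℕ} {g₁ : LFn S} (h1 : Function.Injective g₁)
    (hZ : ∀ v ∈ sigP S, g₁ v ∈ Z) {c : (Subgroup S.D' → ℕ) →₀ ℤ}
    (hc : Meas (Subgroup S.D') (2 ^ Nat.card S.Y) Z Λ c) {ρ : Fr}
    (hρ : ρ ∈ _root_.commutator Fr)
    (hρ1 : ∀ β ∈ tests S (Λ ∪ Z), lf S.a₀ S.ha₀ β ρ = 1)
    (v : Fr →* S.G) (hv : ∀ f, S.aG (v f) = bt S g₁ f) : v ρ = 1 := by
  classical
  have hgood' : GoodQ F (tker S (Λ ∪ Z)) := tker_goodQ S _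
  have hR'n : (tker S (Λ ∪ Z)).Normal := hgood'.1
  have hinjG : ∀ ω ∈ c.support, Function.Injective (cmb (sigP S) g₁ ω) := fun ω hω =>
    cmb_inj h1 (hc.supp ω hω).1 hZ (hc.supp ω hω).2
  have hρR' : ρ ∈ tker S (Λ ∪ Z) := by
    rw [tker, mem_sInf]
    rintro K ⟨β, hβ, rfl⟩
    rw [MonoidHom.mem_ker, ← lf_spec S.a₀ S.ha₀ β ρ, hρ1 β hβ, map_one]
  have htest : ∀ β ∈ tests S (Λ ∪ Z), ∀ r ∈ tker S (Λ ∪ Z), β r = 1 := by
    intro β hβ r hr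
    rw [tker, mem_sInf] at hr
    exact hr β.ker ⟨β, hβ, rfl⟩
  have hgood := S.goodQ_inf hgood' (c.support.image (cmb (sigP S) g₁)) (by
    intro g hg
    rw [Finset.mem_image] at hg
    obtain ⟨ω, hω, rfl⟩ := hg
    exact hinjG ω hω)
  obtain ⟨R, hR⟩ : ∃ R, R = tker S (Λ ∪ Z) ⊓ ⨅ g ∈ c.support.image (cmb (sigP S) g₁),
    (hh g : Fr →* S.D').ker := ⟨_, rfl⟩
  rw [← hR] at hgood
  have hle := le_commutator_sup S.h1 S.h2 hR'n hgood
  have hρ' := hle hρR'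
  have hRn : R.Normal := hgood.1
  rw [Subgroup.mem_sup_of_normal_right] at hρ'
  obtain ⟨ρ₁, hρ₁, ρ₂, hρ₂, hmul⟩ := hρ'
  rw [hR, mem_inf] at hρ₂
  obtain ⟨hρ₂a, hρ₂b⟩ := hρ₂
  have hker := tker_le S h1 hZ hc.ex
  have hbt : ∀ r ∈ tker S (Λ ∪ Z), S.aG (v r) = 1 := by
    intro r hr
    rw [hv]
    exact hker hr
  have hvρ₁ : v ρ₁ = 1 := lift_comm_eq_one S.aG S.kG v hbt hρ₁
  have hβρ₂ : ∀ β ∈ tests S (Λ ∪ Z), lf S.a₀ S.ha₀ β ρ₂ = 1 := by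
    intro β hβ
    have h2 : lf S.a₀ S.ha₀ β ρ₁ = 1 := lift_comm_eq_one S.a₀ S.k₀ _ (fun r hr => by
      rw [lf_spec]; exact htest β hβ r hr) hρ₁
    have h3 := hρ1 β hβ
    rw [← hmul, map_mul, h2, one_mul] at h3
    exact h3
  have hcomm1 : ρ₁ ∈ _root_.commutator Fr := by
    rw [commutator_def]
    exact Subgroup.commutator_mono le_top le_top hρ₁
  have hcomm2 : ρ₂ ∈ _root_.commutator Fr := by
    have h2 : ρ₂ = ρ₁⁻¹ * ρ := by rw [← hmul]; group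
    rw [h2]
    exact mul_mem (inv_mem hcomm1) hρ
  have hprod := central_product' S (W := LFn S) c.support c
    (fun ω => hh (cmb (sigP S) g₁ ω)) (fun _ => v) (by
      intro w _ f
      rw [hv, ← bt_cmb S g₁ w]
      rfl) hcomm2 (by
      intro w hw
      rw [mem_iInf] at hρ₂b
      have h2 := hρ₂b (cmb (sigP S) g₁ w)
      rw [mem_iInf] at h2
      exact h2 (Finset.mem_image_of_mem _ hw)) (by
      intro i β hne
      by_contra hcon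
      apply hne
      refine hc.marg (sigI S i) (sigI_card S i) (Fr →* S.Y)
        (fun ω => (S.π' i).comp (hh (cmb (sigP S) g₁ ω))) ?_ β ?_
      · intro g g' hgg
        refine (S.local (cmb (sigP S) g₁ g) (cmb (sigP S) g₁ g')).1 i fun M hM hM' => ?_
        simp only [cmb]
        rw [hgg M ((mem_sigI S i M).mpr ⟨hM, hM'⟩)]
      · intro ω i1 i2 i3 heq
        apply hcon
        rw [← heq]
        exact hβρ₂ _ (cmb_mem_tests S i h1 hZ i1 i2 i3))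
  rw [b2_prod_zpow, hc.mass, zpow_one] at hprod
  have hcen : v ρ₂ ∈ center S.G := S.kG (MonoidHom.mem_ker.mpr (hbt ρ₂ hρ₂a))
  have hvρ₂ : v ρ₂ = 1 := by
    rw [← cz_coe hcen, hprod]
    rfl
  rw [← hmul, map_mul, hvρ₁, hvρ₂, mul_one]

end Pool.Agent.Lib.H65F
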