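import Pool.Agent.Lib.H65F.B2

/-! Chunk B3: Theorem B. -/

set_option autoImplicit false

namespace Pool.Agent.Lib.H65F

open Subgroup Pool.Agent.H69

variable {F : Formation} (S : BSys F)

/-- Theorem B for a `BSys`.
PROOF. Choose an injective `g₁ : Subgroup S.D' → ℕ` (finite type), `Z := (sigP S).image g₁`, `|Z| ≤ 2 ^ |G|` (`sigP_card`).  `Λ`, `c` from
`exists_measure (Subgroup S.D') (2 ^ |Y|) Z`.  `𝒯 := tests S (Λ ∪ Z)` is finite with at most `|Y| ^ quotB |Y| |Λ ∪ Z|` elements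
(`tests_card`); with `|Λ ∪ Z| ≤ (2 ^ |Y| + 1) ^ 2 + 2 ^ |G|` and the monotonicity lemmas this is `≤ powB |Y| |G| ≤ powB |G₀| |G|`
(`|Y| ≤ |G₀|`; `powB_mono`, `quotB_mono`, `1 ≤ |Y|`).  Let `v := lf S.aG S.haG (bt S g₁)`.  Homomorphism
`Ψ : ↥(commutator Fr) →* (𝒯 → G₀)`, `Ψ ρ β := lf S.a₀ S.ha₀ β ρ`; `J := Ψ.range`.  `J` is subdirect: `lift_surj_commutator` with `a := S.a₀`, `A := G₀`,
`S.pG₀`, `β` surjective.  If `Ψ ρ = 1` then `v ρ = 1` (`claimB`), so `v` induces `θ : J →* G` (`QuotientGroup.lift` and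
`QuotientGroup.quotientKerEquivRange`), surjective by `lift_surj_commutator` (`S.pG`, `bt S g₁` is surjective by `BSys.surj`).
`ImageOfSubdirectPowerLE.of_index` with `ι := 𝒯` (as a subtype, `Nat.card` = `ncard`). -/
theorem thmB_sys : ImageOfSubdirectPowerLE (powB (Nat.card S.G₀) (Nat.card S.G)) S.G₀ S.G := by
  classical
  obtain ⟨g₁, h1⟩ : ∃ g₁ : LFn S, Function.Injective g₁ := by
    have _ : Fintype (Subgroup S.D') := Fintype.ofFinite _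
    exact ⟨fun v => (Fintype.equivFin (Subgroup S.D') v : ℕ),
      fun a b h => (Fintype.equivFin (Subgroup S.D')).injective (Fin.ext h)⟩
  obtain ⟨Z, hZdef⟩ : ∃ Z, Z = (sigP S).image g₁ := ⟨_, rfl⟩
  have hZcard : Z.card ≤ 2 ^ Nat.card S.G := hZdef ▸ Finset.card_image_le.trans (sigP_card S)
  have hZ : ∀ v ∈ sigP S, g₁ v ∈ Z := fun v hv => hZdef ▸ Finset.mem_image_of_mem _ hv
  obtain ⟨Λ, c, hΛ, hc⟩ := exists_measure (Subgroup S.D') (2 ^ Nat.card S.Y) Z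
  obtain ⟨hfin, hcard⟩ := tests_card S (Λ ∪ Z)
  have hY1 : 1 ≤ Nat.card S.Y := Nat.card_pos
  have hYG : Nat.card S.Y ≤ Nat.card S.G₀ := Nat.card_le_card_of_surjective S.a₀ S.ha₀
  have hbound : Nat.card (tests S (Λ ∪ Z)) ≤ powB (Nat.card S.G₀) (Nat.card S.G) := by
    rw [Nat.card_coe_set_eq]
    refine hcard.trans ?_
    have h2 : (Λ ∪ Z).card ≤ (2 ^ Nat.card S.Y + 1) ^ 2 + 2 ^ Nat.card S.G :=
      (Finset.card_union_le _ _).trans (Nat.add_le_add hΛ hZcard)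
    refine (Nat.pow_le_pow_right hY1 (quotB_mono hY1 le_rfl h2)).trans ?_
    exact powB_mono hY1 hYG le_rfl
  obtain ⟨v, hv⟩ : ∃ v : Fr →* S.G, ∀ f, S.aG (v f) = bt S g₁ f :=
    ⟨lf S.aG S.haG (bt S g₁), lf_spec _ _ _⟩
  have _ : Finite (tests S (Λ ∪ Z)) := hfin
  let Ψ : ↥(_root_.commutator Fr) →* (tests S (Λ ∪ Z) → S.G₀) :=
    MonoidHom.pi fun β => (lf S.a₀ S.ha₀ β.1).comp (_root_.commutator Fr).subtype
  let w : ↥(_root_.commutator Fr) →* S.G := v.comp (_root_.commutator Fr).subtype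
  have hker : Ψ.ker ≤ w.ker := by
    intro ρ h
    exact claimB S h1 hZ hc ρ.2 (fun β hβ => congrFun h ⟨β, hβ⟩) v hv
  let θ : Ψ.range →* S.G := (QuotientGroup.lift Ψ.ker w hker).comp
    (QuotientGroup.quotientKerEquivRange Ψ).symm.toMonoidHom
  have hθ : ∀ ρ, θ (Ψ.rangeRestrict ρ) = w ρ := by
    intro ρ
    have h2 : (QuotientGroup.quotientKerEquivRange Ψ).symm (Ψ.rangeRestrict ρ)
        = QuotientGroup.mk ρ := by
      rw [MulEquiv.symm_apply_eq]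
      rfl
    change QuotientGroup.lift Ψ.ker w hker
      ((QuotientGroup.quotientKerEquivRange Ψ).symm (Ψ.rangeRestrict ρ)) = w ρ
    rw [h2]
    rfl
  have hbt : ∀ b : S.G', ∃ f, bt S g₁ f = b := by
    intro b
    rcases isEmpty_or_nonempty S.I with hI | ⟨⟨i⟩⟩
    · obtain ⟨d, rfl⟩ := S.hp' b
      have h2 : d = 1 := S.inj' d fun i => hI.elim i
      exact ⟨1, by rw [h2, map_one, map_one]⟩
    · exact (S.surj i h1).2.1 b
  refine ImageOfSubdirectPowerLE.of_index hbound Ψ.range ?_ θ ?_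
  · intro β g
    obtain ⟨ρ, hρ, h⟩ := lift_surj_commutator S.a₀ S.k₀ S.pG₀ (lf S.a₀ S.ha₀ β.1) (fun b => by
      obtain ⟨f, hf⟩ := β.2.1 b
      exact ⟨f, by rw [lf_spec, hf]⟩) g
    exact ⟨Ψ ⟨ρ, hρ⟩, ⟨_, rfl⟩, h⟩
  · intro x
    obtain ⟨ρ, hρ, h⟩ := lift_surj_commutator S.aG S.kG S.pG v (fun b => by
      obtain ⟨f, hf⟩ := hbt b
      exact ⟨f, by rw [hv, hf]⟩) x
    exact ⟨Ψ.rangeRestrict ⟨ρ, hρ⟩, by rw [hθ]; exact h⟩

end Pool.Agent.Lib.H65F
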