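import Pool.Agent.Lib.H65F.D0

/-! Chunk C1: lifts from the free group along central extensions. -/

set_option autoImplicit false

namespace Pool.Agent.Lib.H65F

open Subgroup Pool.Agent.H69
open scoped commutatorElement

variable {A B : Type} [Group A] [Group B]

/-- Central factors do not change a commutator. -/
theorem c1_cc {G : Type} [Group G] {x y z z' : G} (hz : z ∈ center G) (hz' : z' ∈ center G) :
    ⁅x * z, y * z'⁆ = ⁅x, y⁆ := by
  rw [mem_center_iff] at hz hz'
  rw [commutatorElement_def, commutatorElement_def, mul_inv_rev, mul_inv_rev]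
  calc x * z * (y * z') * (z⁻¹ * x⁻¹) * (z'⁻¹ * y⁻¹)
      = x * (z * (y * z') * z⁻¹) * x⁻¹ * (z'⁻¹ * y⁻¹) := by group
    _ = x * (y * z') * x⁻¹ * (z'⁻¹ * y⁻¹) := by rw [← hz (y * z'), mul_inv_cancel_right]
    _ = x * y * (z' * x⁻¹ * z'⁻¹) * y⁻¹ := by group
    _ = x * y * x⁻¹ * y⁻¹ := by rw [← hz' x⁻¹, mul_inv_cancel_right]

/-- Two elements with the same image differ by a central element. -/
theorem c1_z (a : A →* B) (hk : a.ker ≤ center A) {x y : A} (h : a x = a y) :
    ∃ z ∈ center A, y = x * z := by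
  refine ⟨x⁻¹ * y, hk ?_, ?_⟩
  · rw [MonoidHom.mem_ker, map_mul, map_inv, h, inv_mul_cancel]
  · rw [mul_inv_cancel_left]

/-- PROOF. For `f : Fr` the element `z f := (u f)⁻¹ * v f` lies in `a.ker ≤ center A`, so
`v f = u f * z f` with `z f` central and `v ⁅f, f'⁆ = u ⁅f, f'⁆`.  So the two homomorphisms agree on all
commutators, hence on the subgroup generated by them (`Subgroup.closure_induction`, or: the equalizer
`u.eqLocus v` is a subgroup containing the commutators, `Subgroup.commutator_le`). -/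
theorem lift_agree (a : A →* B) (hk : a.ker ≤ center A) (u v : Fr →* A)
    (h : ∀ f, a (u f) = a (v f)) {ρ : Fr} (hρ : ρ ∈ _root_.commutator Fr) : u ρ = v ρ := by
  have hle : _root_.commutator Fr ≤ u.eqLocus v := by
    rw [_root_.commutator_def, Subgroup.commutator_le]
    intro f _ f' _
    change u ⁅f, f'⁆ = v ⁅f, f'⁆
    rw [map_commutatorElement, map_commutatorElement]
    obtain ⟨z, hz, e1⟩ := c1_z a hk (h f)
    obtain ⟨z', hz', e2⟩ := c1_z a hk (h f')
    rw [e1, e2, c1_cc hz hz']
  exact hle hρ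

/-- PROOF. For `r ∈ R` the element `u r` lies in `a.ker`, so it is central; `u ⁅r, r'⁆ = ⁅u r, u r'⁆ = 1`.  `Subgroup.commutator_le`
for the subgroup `u.ker`. -/
theorem lift_comm_eq_one (a : A →* B) (hk : a.ker ≤ center A) (u : Fr →* A) {R : Subgroup Fr}
    (hR : ∀ r ∈ R, a (u r) = 1) {ρ : Fr} (hρ : ρ ∈ ⁅R, R⁆) : u ρ = 1 := by
  have hle : ⁅R, R⁆ ≤ u.ker := by
    rw [Subgroup.commutator_le]
    intro f hf f' _
    rw [MonoidHom.mem_ker, map_commutatorElement, commutatorElement_eq_one_iff_mul_comm]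
    have h1 : u f ∈ center A := hk (by rw [MonoidHom.mem_ker]; exact hR f hf)
    exact (mem_center_iff.1 h1 (u f')).symm
  exact hle hρ

/-- PROOF. `u.range ⊔ center A = ⊤`: for `x : A` choose `f` with `a (u f) = a x`; `(u f)⁻¹ * x ∈ a.ker ≤ center A`.  So every
commutator of `A` is `u ⁅f, f'⁆`, and `⊤ = commutator A ≤ (commutator Fr).map u`
(`Subgroup.commutator_le`, `map_commutator`). -/
theorem lift_surj_commutator (a : A →* B) (hk : a.ker ≤ center A)
    (hA : _root_.commutator A = ⊤) (u : Fr →* A) (hs : ∀ b : B, ∃ f, a (u f) = b) (x : A) :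
    ∃ ρ ∈ _root_.commutator Fr, u ρ = x := by
  have hle : _root_.commutator A ≤ (_root_.commutator Fr).map u := by
    rw [_root_.commutator_def, Subgroup.commutator_le]
    intro x _ y _
    obtain ⟨f, hf⟩ := hs (a x)
    obtain ⟨f', hf'⟩ := hs (a y)
    obtain ⟨z, hz, e1⟩ := c1_z a hk hf
    obtain ⟨z', hz', e2⟩ := c1_z a hk hf'
    rw [e1, e2, c1_cc hz hz', ← map_commutatorElement]
    refine Subgroup.mem_map_of_mem u ?_
    rw [_root_.commutator_def]
    exact Subgroup.commutator_mem_commutator (mem_top _) (mem_top _)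
  have h1 : x ∈ (_root_.commutator Fr).map u := hle (by rw [hA]; exact mem_top x)
  exact Subgroup.mem_map.1 h1

end Pool.Agent.Lib.H65F
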