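import Pool.Agent.Lib.H65F.D0
import Pool.Agent.Lib.H65F.C1

/-! Chunk C1b: lifts from the free group along central extensions. -/

set_option autoImplicit false

namespace Pool.Agent.Lib.H65F

open Subgroup Pool.Agent.H69

variable {A B : Type} [Group A] [Group B]

/-- PROOF. The image of `R₁` in the centreless member `Fr ⧸ R₂` of `F` is normal, so it is perfect
(`perfect_of_noCP`, `noCP_of_center_eq_bot`, H69 Suff1): `⁅R₁, R₁⁆ ⊔ R₂ = R₁ ⊔ R₂`
(`map_commutator`, `Subgroup.comap_map_eq`, `QuotientGroup.ker_mk'`). -/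
theorem le_commutator_sup {F : Formation} (h1 : CondAbelian F) (h2 : CondTower' F)
    {R₁ R₂ : Subgroup Fr} (hR₁ : R₁.Normal) (hR₂ : GoodQ F R₂) :
    R₁ ≤ ⁅R₁, R₁⁆ ⊔ R₂ := by
  obtain ⟨hn, hmem, hc⟩ := hR₂
  have hp := perfect_of_noCP h1 (Fr ⧸ R₂) hmem
    (fun p hp => noCP_of_center_eq_bot h1 h2 (Fr ⧸ R₂) hmem hc hp)
    (R₁.map (QuotientGroup.mk' R₂)) (hR₁.map _ (QuotientGroup.mk'_surjective _))
  rw [← Subgroup.map_commutator] at hp
  have h3 := congrArg (Subgroup.comap (QuotientGroup.mk' R₂)) hp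
  rw [Subgroup.comap_map_eq, Subgroup.comap_map_eq, QuotientGroup.ker_mk'] at h3
  rw [h3]
  exact le_sup_left

/-- PROOF. `le_commutator_sup` with `R₁ := ⊤`. -/
theorem top_le_commutator_sup {F : Formation} (h1 : CondAbelian F) (h2 : CondTower' F)
    {R : Subgroup Fr} (hR : GoodQ F R) : _root_.commutator Fr ⊔ R = ⊤ := by
  rw [_root_.commutator_def]
  exact top_le_iff.1 (le_commutator_sup h1 h2 (R₁ := ⊤) inferInstance hR)

end Pool.Agent.Lib.H65F
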