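import Pool.Agent.Lib.H65F.C1
import Pool.Agent.Lib.H65F.C1b

/-! Chunk C2: (CO), the product formula in the central kernel of `D → D'`. -/

set_option autoImplicit false

namespace Pool.Agent.Lib.H65F

open Subgroup Pool.Agent.H69

/-- The homomorphism of the centres. -/
def c2_cen {A B : Type} [Group A] [Group B] (f : A →* B) (hf : Function.Surjective f) :
    center A →* center B :=
  (f.comp (center A).subtype).codRestrict (center B) (by
    intro z
    rw [mem_center_iff]
    intro b
    obtain ⟨a, rfl⟩ := hf b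
    change f a * f (z : A) = f (z : A) * f a
    rw [← map_mul, ← map_mul, mem_center_iff.1 z.2 a])

theorem c2_coe {A B : Type} [Group A] [Group B] (f : A →* B) (hf : Function.Surjective f)
    (z : center A) : ((c2_cen f hf z : center B) : B) = f (z : A) := rfl

theorem c2_cz {A B : Type} [Group A] [Group B] (f : A →* B) (hf : Function.Surjective f)
    {x : A} (hx : x ∈ center A) {y : B} (h : f x = y) : c2_cen f hf (cz x) = cz y := by
  apply Subtype.ext
  have h1 : ((c2_cen f hf (cz x) : center B) : B) = y := by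
    rw [c2_coe, cz_coe hx, h]
  have hy : y ∈ center B := by
    rw [← h1]
    exact (c2_cen f hf (cz x)).2
  rw [h1, cz_coe hy]

theorem c2_cz_one {A : Type} [Group A] : cz (1 : A) = 1 := by
  apply Subtype.ext
  rw [cz_coe (one_mem _)]
  rfl

theorem c2_prod {W C : Type} [CommGroup C] (s : Finset W) (y : W → ℤ) (g : C) :
    ∏ w ∈ s, g ^ (y w) = g ^ (∑ w ∈ s, y w) := by
  classical
  induction s using Finset.induction_on with
  | empty => simp
  | insert a s ha ih => rw [Finset.prod_insert ha, Finset.sum_insert ha, ih, zpow_add]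

/-- (4.2 of PROOF.md.)  `cz x` is `x` as an element of the centre (`1` if `x` is not central).
PROOF. `aD (u w ρ) = h w ρ = 1`, so `u w ρ ∈ S.aD.ker ≤ center D` and `(cz (u w ρ) : D) = u w ρ`.  Let `P` be the
product.  By `S.inj` it is enough that `S.π i (P : D) = 1` for all `i`.  `S.π i` maps the centre of `D` to the centre of
`G₀` (surjective), so `S.π i P = ∏ w ∈ W, (cz (S.π i (u w ρ)))^(y w)` in the centre of `G₀` (use the induced homomorphism of centres,
or `map_prod`-type lemma for the homomorphism `center D → center G₀`).  The homomorphisms `(S.π i).comp (u w)` and `lf S.a₀ S.ha₀ β` with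
`β := (S.π' i).comp (h w)` have the same composition with `S.a₀` (`S.sqπ`, `hu`, `lf_spec`), so by `lift_agree` they agree at
`ρ`.  So the factor for `w` is `cz (lf S.a₀ S.ha₀ β ρ) ^ (y w)` with `β = (S.π' i).comp (h w)`; collect the `w` with the same `β`
(`Finset.prod_fiberwise` over the finite image of `w ↦ β`): the product is `∏ β, cz (lf _ _ β ρ) ^ (∑ w with .. = β, y w)`
(`Finset.prod_zpow_eq_zpow_sum`-type lemma), and each factor is `1` by `hco` (exponent `0` or base `1`). -/
theorem central_product {F : Formation} (S : BSys F) {W : Type} (s : Finset W) (y : W → ℤ)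
    (h : W → (Fr →* S.D')) (u : W → (Fr →* S.D)) (hu : ∀ w ∈ s, ∀ f, S.aD (u w f) = h w f)
    {ρ : Fr} (hρ : ρ ∈ _root_.commutator Fr) (hρ1 : ∀ w ∈ s, h w ρ = 1)
    (hco : ∀ (i : S.I) (β : Fr →* S.Y),
      (open Classical in ∑ w ∈ s with (S.π' i).comp (h w) = β, y w) ≠ 0 →
        lf S.a₀ S.ha₀ β ρ = 1) :
    ∏ w ∈ s, (cz (u w ρ)) ^ (y w) = 1 := by
  classical
  apply Subtype.ext
  apply S.inj
  intro i
  have key : c2_cen (S.π i) (S.hπ i) (∏ w ∈ s, (cz (u w ρ)) ^ (y w)) = 1 := by
    rw [map_prod]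
    have h1 : ∀ w ∈ s, c2_cen (S.π i) (S.hπ i) ((cz (u w ρ)) ^ (y w)) =
        (cz (lf S.a₀ S.ha₀ ((S.π' i).comp (h w)) ρ)) ^ (y w) := by
      intro w hw
      rw [map_zpow]
      congr 1
      have hc : u w ρ ∈ center S.D := S.kD (by
        rw [MonoidHom.mem_ker, hu w hw]
        exact hρ1 w hw)
      refine c2_cz (S.π i) (S.hπ i) hc ?_
      refine lift_agree S.a₀ S.k₀ ((S.π i).comp (u w)) (lf S.a₀ S.ha₀ ((S.π' i).comp (h w)))
        (fun f => ?_) hρ
      rw [lf_spec, MonoidHom.comp_apply, MonoidHom.comp_apply, S.sqπ, hu w hw]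
    rw [Finset.prod_congr rfl h1, ← Finset.prod_fiberwise_of_maps_to
      (t := s.image fun w => (S.π' i).comp (h w)) (g := fun w => (S.π' i).comp (h w))
      (fun w hw => Finset.mem_image_of_mem _ hw)]
    apply Finset.prod_eq_one
    intro β _
    have h2 : ∏ w ∈ s with (S.π' i).comp (h w) = β,
        (cz (lf S.a₀ S.ha₀ ((S.π' i).comp (h w)) ρ)) ^ (y w) =
        ∏ w ∈ s with (S.π' i).comp (h w) = β, (cz (lf S.a₀ S.ha₀ β ρ)) ^ (y w) := by
      refine Finset.prod_congr rfl fun w hw => ?_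
      rw [(Finset.mem_filter.1 hw).2]
    rw [h2, c2_prod]
    by_cases h0 : ∑ w ∈ s with (S.π' i).comp (h w) = β, y w = 0
    · rw [h0, zpow_zero]
    · rw [hco i β h0, c2_cz_one, one_zpow]
  have h3 := congrArg (Subtype.val) key
  rw [c2_coe] at h3
  exact h3

/-- PROOF. `S.p` maps the centre of `D` to the centre of `G`; apply the induced homomorphism of centres to
`central_product`.  `S.p (u w ρ)` and `v w ρ` agree: both `(S.p).comp (u w)` and `v w` lift
`(S.p').comp (h w)` along `S.aG` (`S.sqp`, `hu`, `hv`), so `lift_agree` at `ρ`; and `cz (S.p x) = S.p (cz x)` for central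
`x`. -/
theorem central_product' {F : Formation} (S : BSys F) {W : Type} (s : Finset W) (y : W → ℤ)
    (h : W → (Fr →* S.D')) (v : W → (Fr →* S.G))
    (hv : ∀ w ∈ s, ∀ f, S.aG (v w f) = S.p' (h w f))
    {ρ : Fr} (hρ : ρ ∈ _root_.commutator Fr) (hρ1 : ∀ w ∈ s, h w ρ = 1)
    (hco : ∀ (i : S.I) (β : Fr →* S.Y),
      (open Classical in ∑ w ∈ s with (S.π' i).comp (h w) = β, y w) ≠ 0 →
        lf S.a₀ S.ha₀ β ρ = 1) :
    ∏ w ∈ s, (cz (v w ρ)) ^ (y w) = 1 := by
  classical
  have h1 := central_product S s y h (fun w => lf S.aD S.haD (h w)) (fun w _ f => lf_spec _ _ _ _)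
    hρ hρ1 hco
  have h2 := congrArg (c2_cen S.p S.hp) h1
  rw [map_one, map_prod] at h2
  rw [← h2]
  refine Finset.prod_congr rfl fun w hw => ?_
  rw [map_zpow]
  congr 1
  have hc : lf S.aD S.haD (h w) ρ ∈ center S.D := S.kD (by
    rw [MonoidHom.mem_ker, lf_spec]
    exact hρ1 w hw)
  symm
  refine c2_cz S.p S.hp hc ?_
  refine lift_agree S.aG S.kG (S.p.comp (lf S.aD S.haD (h w))) (v w) (fun f => ?_) hρ
  rw [hv w hw, MonoidHom.comp_apply, S.sqp, lf_spec]

end Pool.Agent.Lib.H65F
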