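import Pool.Agent.Lib.H65F.L0

/-! Chunk L1: existence of lifts with a given letter. -/

set_option autoImplicit false

namespace Pool.Agent.Lib.H65F

open Subgroup Pool.Agent.H69

variable {X : Type} [Group X]

/-- PROOF. Put `K₀ := (up C).comap φ`, `n := n0 K₀`; by `hfs` and `Nat.sInf_mem`: `x_i ∈ K₀` (that is
`φ x_i ∈ up C`) for all `i ≥ n`.  The group `up C` is finite; choose `c₀ ∈ up C`, `c₀ ∉ C` and an
enumeration `c : ℕ → X` with `c 0 = c₀`, all `c j ∈ up C`, and every element of `up C` is a `c j`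
with `j < m` for some `m` (e.g. a list of the elements of `up C` with `c₀` put in front, and `1`
afterwards).  Define `a : ℕ → X` by: `a i := φ x_i` if `φ x_i ∉ up C`; otherwise `a i := c (i - (n + z))` if
`n + z ≤ i < n + z + m` and `a i := 1` in the remaining cases.  `ψ := FreeGroup.lift a`.
* `(φ f)⁻¹ * ψ f ∈ up C`: `agree_of_gen` (`up_normal`), on generators clear.
* `ψ.range ⊔ C = ⊤`: for `i ≥ n` we have `φ x_i ∈ up C`, so `a (n + z + j) = c j` for `j < m`, so
  `up C ≤ ψ.range`; and `ψ.range ⊔ up C = ⊤` by `range_sup_of_agree`.  So `ψ.range = ⊤`.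
* `FS (C.comap ψ)`: `a i = 1` for `i ≥ n + z + m`.
* `pos K₀ (C.comap ψ) = n + z`: `n + z` is in the set (`x_{n+z} ∈ K₀`, `a (n + z) = c₀ ∉ C`), and if
  `i < n + z`, `x_i ∈ K₀`, then `φ x_i ∈ up C`, so `a i = 1 ∈ C` (`Nat.sInf_le`, `le_antisymm`,
  `Nat.sInf_mem`). -/
theorem LSet_nonempty [Finite X] {C : Subgroup X} (hC : C.Normal) (hlt : C < up C)
    (φ : Fr →* X) (hφ : φ.range ⊔ up C = ⊤) (hfs : FS ((up C).comap φ)) (z : ℕ) :
    (LSet C φ z).Nonempty := by
  classical
  have hn : ∀ i : ℕ, n0 ((up C).comap φ) ≤ i → FreeGroup.of i ∈ (up C).comap φ :=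
    Nat.sInf_mem hfs
  set n := n0 ((up C).comap φ) with hndef
  obtain ⟨c₀, hc₀, hc₀'⟩ := SetLike.exists_of_lt hlt
  let l : List X := c₀ :: (Set.toFinite (up C : Set X)).toFinset.toList
  have hlmem : ∀ x, x ∈ l → x ∈ up C := by
    intro x hx
    rcases List.mem_cons.mp hx with h | h
    · rw [h]; exact hc₀
    · simpa using h
  have hmeml : ∀ x, x ∈ up C → x ∈ l := by
    intro x hx
    apply List.mem_cons_of_mem
    simpa using hx
  have hgetD : ∀ j, l.getD j 1 ∈ up C := by
    intro j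
    rcases lt_or_ge j l.length with h | h
    · rw [List.getD_eq_getElem _ _ h]
      exact hlmem _ (List.getElem_mem h)
    · rw [List.getD_eq_default _ _ h]
      exact one_mem _
  let a : ℕ → X := fun i =>
    if φ (FreeGroup.of i) ∉ up C then φ (FreeGroup.of i)
    else if n + z ≤ i then l.getD (i - (n + z)) 1 else 1
  have ha1 : ∀ i, φ (FreeGroup.of i) ∉ up C → a i = φ (FreeGroup.of i) := by
    intro i hi
    simp only [a]
    rw [if_pos hi]
  have ha2 : ∀ i, φ (FreeGroup.of i) ∈ up C → n + z ≤ i → a i = l.getD (i - (n + z)) 1 := by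
    intro i hi h
    simp only [a]
    rw [if_neg (not_not.mpr hi), if_pos h]
  have ha3 : ∀ i, φ (FreeGroup.of i) ∈ up C → ¬ (n + z ≤ i) → a i = 1 := by
    intro i hi h
    simp only [a]
    rw [if_neg (not_not.mpr hi), if_neg h]
  have hψ : ∀ i, (FreeGroup.lift a) (FreeGroup.of i) = a i := fun i => FreeGroup.lift_apply_of
  have hovr : ∀ f : Fr, (φ f)⁻¹ * (FreeGroup.lift a) f ∈ up C := by
    apply agree_of_gen (up_normal C)
    intro i
    rw [hψ]
    by_cases hi : φ (FreeGroup.of i) ∈ up C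
    · apply mul_mem (inv_mem hi)
      by_cases h : n + z ≤ i
      · rw [ha2 i hi h]; exact hgetD _
      · rw [ha3 i hi h]; exact one_mem _
    · rw [ha1 i hi, inv_mul_cancel]; exact one_mem _
  have hup : up C ≤ (FreeGroup.lift a : Fr →* X).range := by
    intro x hx
    obtain ⟨j, hj, hjx⟩ := List.getElem_of_mem (hmeml x hx)
    refine ⟨FreeGroup.of (n + z + j), ?_⟩
    rw [hψ, ha2 _ (hn _ (by omega)) (by omega)]
    have : n + z + j - (n + z) = j := by omega
    rw [this, List.getD_eq_getElem _ _ hj, hjx]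
  have hrange : (FreeGroup.lift a : Fr →* X).range = ⊤ := by
    have h1 := range_sup_of_agree (up_normal C) φ (FreeGroup.lift a) hovr le_rfl hφ
    rwa [sup_eq_left.mpr hup] at h1
  refine ⟨C.comap (FreeGroup.lift a), FreeGroup.lift a, ⟨?_, hovr⟩, rfl, ?_, ?_⟩
  · rw [hrange, top_sup_eq]
  · refine ⟨n + z + l.length, fun i hi => ?_⟩
    rw [mem_comap, hψ, ha2 _ (hn _ (by omega)) (by omega), List.getD_eq_default _ _ (by omega)]
    exact one_mem _
  · have hmemset : (n + z) ∈ {i : ℕ | FreeGroup.of i ∈ (up C).comap φ ∧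
        FreeGroup.of i ∉ C.comap (FreeGroup.lift a)} := by
      refine ⟨hn _ (by omega), ?_⟩
      rw [mem_comap, hψ, ha2 _ (hn _ (by omega)) le_rfl, Nat.sub_self]
      exact hc₀'
    apply le_antisymm
    · exact Nat.sInf_le hmemset
    · by_contra hcon
      rw [not_le] at hcon
      have hm := Nat.sInf_mem (⟨_, hmemset⟩ : {i : ℕ | FreeGroup.of i ∈ (up C).comap φ ∧
        FreeGroup.of i ∉ C.comap (FreeGroup.lift a)}.Nonempty)
      apply hm.2
      rw [mem_comap, hψ]
      rw [ha3 _ hm.1 (not_le.mpr hcon)]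
      exact one_mem _

end Pool.Agent.Lib.H65F
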