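import Pool.Agent.Lib.H65F.D0

/-! Chunk N3: nodes and preimages.  `Δ` is a group, `ψ : Δ →* Γ` a homomorphism which is onto
modulo the normal subgroup `N` of `Γ`. -/

set_option autoImplicit false

namespace Pool.Agent.Lib.H65F

open Subgroup Pool.Agent.H69

variable {Γ Δ : Type} [Group Γ] [Group Δ]

/-- Every element is `ψ x * n`. -/
theorem n3_decomp {N : Subgroup Γ} (hN : N.Normal) (ψ : Δ →* Γ) (hψ : ψ.range ⊔ N = ⊤) (g : Γ) :
    ∃ x : Δ, ∃ n ∈ N, ψ x * n = g := by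
  have h : g ∈ ψ.range ⊔ N := by rw [hψ]; trivial
  rw [Subgroup.mem_sup_of_normal_right] at h
  obtain ⟨y, ⟨x, rfl⟩, n, hn, h2⟩ := h
  exact ⟨x, n, hn, h2⟩

/-- PROOF. Take `M := M'.map ψ ⊔ N`.  Normal: an element `g` of `Γ` is `ψ x * n` with `n ∈ N`
(`hψ`, `Subgroup.mem_sup`, `N` normal); `M` is stable under conjugation by `ψ x` (as `M'` and `N` are
normal) and by elements of `N` (they lie in `M`).  `M.comap ψ = M'`: if `ψ x = ψ m * n` with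
`m ∈ M'`, `n ∈ N` then `m⁻¹ x ∈ N.comap ψ ≤ M'`, so `x ∈ M'`; the other inclusion is clear. -/
theorem exists_eq_comap {N : Subgroup Γ} (hN : N.Normal) (ψ : Δ →* Γ) (hψ : ψ.range ⊔ N = ⊤)
    {M' : Subgroup Δ} (hM' : M'.Normal) (h : N.comap ψ ≤ M') :
    ∃ M : Subgroup Γ, M.Normal ∧ N ≤ M ∧ M.comap ψ = M' := by
  refine ⟨M'.map ψ ⊔ N, ?_, le_sup_right, ?_⟩
  · constructor
    intro m hm g
    obtain ⟨x, n, hn, rfl⟩ := n3_decomp hN ψ hψ g
    have h1 : n * m * n⁻¹ ∈ M'.map ψ ⊔ N :=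
      mul_mem (mul_mem (mem_sup_right hn) hm) (inv_mem (mem_sup_right hn))
    rw [Subgroup.mem_sup_of_normal_right] at h1
    obtain ⟨y, ⟨m', hm', rfl⟩, k, hk, h2⟩ := h1
    have h3 : ψ x * n * m * (ψ x * n)⁻¹ =
        ψ (x * m' * x⁻¹) * (ψ x * k * (ψ x)⁻¹) := by
      have h4 : ψ x * n * m * (ψ x * n)⁻¹ = ψ x * (n * m * n⁻¹) * (ψ x)⁻¹ := by group
      rw [h4, ← h2, map_mul, map_mul, map_inv]
      group
    rw [h3]
    exact mul_mem (mem_sup_left (mem_map_of_mem ψ (hM'.conj_mem m' hm' x)))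
      (mem_sup_right (hN.conj_mem k hk _))
  · apply le_antisymm
    · intro x hx
      rw [Subgroup.mem_comap, Subgroup.mem_sup_of_normal_right] at hx
      obtain ⟨y, ⟨m, hm, rfl⟩, n, hn, h2⟩ := hx
      have h3 : m⁻¹ * x ∈ N.comap ψ := by
        rw [Subgroup.mem_comap, map_mul, map_inv, ← h2]
        have h5 : (ψ m)⁻¹ * (ψ m * n) = n := by group
        rw [h5]
        exact hn
      have h4 := mul_mem hm (h h3)
      rwa [mul_inv_cancel_left] at h4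
    · intro x hx
      exact mem_sup_left (mem_map_of_mem ψ hx)

/-- PROOF. If `m ∈ M₁`, write `m = ψ x * n` with `n ∈ N`; then `ψ x ∈ M₁`, so
`x ∈ M₁.comap ψ ≤ M₂.comap ψ`, `ψ x ∈ M₂`, `m ∈ M₂`. -/
theorem comap_le_comap_of_range {N : Subgroup Γ} (hN : N.Normal) (ψ : Δ →* Γ)
    (hψ : ψ.range ⊔ N = ⊤) {M₁ M₂ : Subgroup Γ} (h₁ : N ≤ M₁) (h₂ : N ≤ M₂) :
    M₁.comap ψ ≤ M₂.comap ψ ↔ M₁ ≤ M₂ := by
  constructor
  · intro h m hm
    obtain ⟨x, n, hn, rfl⟩ := n3_decomp hN ψ hψ m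
    have h3 : x ∈ M₁.comap ψ := by
      rw [Subgroup.mem_comap]
      have h5 := mul_mem hm (inv_mem (h₁ hn))
      rwa [mul_inv_cancel_right] at h5
    exact mul_mem (h h3) (h₂ hn)
  · intro h
    exact Subgroup.comap_mono h

/-- PROOF. From `comap_le_comap_of_range` with `M₁ := ⊤`, `M₂ := M`. -/
theorem comap_eq_top_iff_of_range {N : Subgroup Γ} (hN : N.Normal) (ψ : Δ →* Γ)
    (hψ : ψ.range ⊔ N = ⊤) {M : Subgroup Γ} (h : N ≤ M) : M.comap ψ = ⊤ ↔ M = ⊤ := by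
  have h1 := comap_le_comap_of_range hN ψ hψ (le_top : N ≤ (⊤ : Subgroup Γ)) h
  rw [Subgroup.comap_top, top_le_iff, top_le_iff] at h1
  exact h1

end Pool.Agent.Lib.H65F
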