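import Pool.Agent.Lib.H65F.N3

/-! Chunk N3b: nodes and preimages.  `Δ` is a group, `ψ : Δ →* Γ` a homomorphism which is onto
modulo the normal subgroup `N` of `Γ`. -/

set_option autoImplicit false

namespace Pool.Agent.Lib.H65F

open Subgroup Pool.Agent.H69
open scoped commutatorElement

variable {Γ Δ : Type} [Group Γ] [Group Δ]

/-- PROOF. `≤`: if `N < M`, `M` normal, then `N.comap ψ < M.comap ψ` (by
`comap_le_comap_of_range`) and `M.comap ψ` is normal, so `up (N.comap ψ) ≤ M.comap ψ`; take the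
infimum over all these `M` (`Subgroup.mem_comap`, `Subgroup.mem_sInf`).  `≥`: if `M'` is normal and
`N.comap ψ < M'` then `M' = M.comap ψ` with `N ≤ M` normal (`exists_eq_comap`), `N ≠ M`, so `N < M` and
`up N ≤ M`, `(up N).comap ψ ≤ M'`; now `le_sInf`. -/
theorem up_comap {N : Subgroup Γ} (hN : N.Normal) (ψ : Δ →* Γ) (hψ : ψ.range ⊔ N = ⊤) :
    up (N.comap ψ) = (up N).comap ψ := by
  apply le_antisymm
  · intro x hx
    rw [Subgroup.mem_comap, up, Subgroup.mem_sInf]
    intro M hM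
    have hMn : M.Normal := hM.1
    have h1 : N.comap ψ < M.comap ψ := by
      refine lt_of_le_not_ge (Subgroup.comap_mono hM.2.le) fun h => ?_
      exact hM.2.not_ge ((comap_le_comap_of_range hN ψ hψ hM.2.le le_rfl).mp h)
    have h2 : up (N.comap ψ) ≤ M.comap ψ := up_le inferInstance h1
    exact h2 hx
  · refine le_sInf fun M' hM' => ?_
    obtain ⟨hM'n, hlt⟩ := hM'
    obtain ⟨M, hM, hNM, rfl⟩ := exists_eq_comap hN ψ hψ hM'n hlt.le
    have hne : N < M := lt_of_le_of_ne hNM fun he => by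
      rw [he] at hlt
      exact lt_irrefl _ hlt
    exact Subgroup.comap_mono (up_le hM hne)

/-- PROOF. Both directions from `up_comap` and `comap_le_comap_of_range`.  `N.comap ψ < (up N).comap ψ`
iff `N < up N`.  `⁅(up N).comap ψ, (up N).comap ψ⁆ ≤ N.comap ψ` iff `⁅up N, up N⁆ ≤ N`: elements
`a, b` of `up N` are `ψ x * n`, `ψ y * m` with `n, m ∈ N` and `x, y ∈ (up N).comap ψ`, and
`⁅a, b⁆ ≡ ψ ⁅x, y⁆` modulo `N`. -/
theorem isNode_comap_iff {N : Subgroup Γ} (hN : N.Normal) (ψ : Δ →* Γ) (hψ : ψ.range ⊔ N = ⊤) :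
    IsNode (N.comap ψ) ↔ IsNode N := by
  have hup := up_comap hN ψ hψ
  have hle : N.comap ψ < (up N).comap ψ ↔ N < up N := by
    rw [lt_iff_le_not_ge, lt_iff_le_not_ge, comap_le_comap_of_range hN ψ hψ le_rfl (le_up N),
      comap_le_comap_of_range hN ψ hψ (le_up N) le_rfl]
  have hcom : ⁅(up N).comap ψ, (up N).comap ψ⁆ ≤ N.comap ψ ↔ ⁅up N, up N⁆ ≤ N := by
    constructor
    · intro h
      rw [Subgroup.commutator_le]
      intro a ha b hb
      obtain ⟨x, n, hn, rfl⟩ := n3_decomp hN ψ hψ a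
      obtain ⟨y, m, hm, rfl⟩ := n3_decomp hN ψ hψ b
      have hx : x ∈ (up N).comap ψ := by
        rw [Subgroup.mem_comap]
        have h5 := mul_mem ha (inv_mem (le_up N hn))
        rwa [mul_inv_cancel_right] at h5
      have hy : y ∈ (up N).comap ψ := by
        rw [Subgroup.mem_comap]
        have h5 := mul_mem hb (inv_mem (le_up N hm))
        rwa [mul_inv_cancel_right] at h5
      have h6 : ⁅x, y⁆ ∈ N.comap ψ := h (Subgroup.commutator_mem_commutator hx hy)
      rw [Subgroup.mem_comap, map_commutatorElement] at h6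
      rw [← QuotientGroup.eq_one_iff] at h6 hn hm ⊢
      have h7 : ((ψ x * n : Γ) : Γ ⧸ N) = (ψ x : Γ ⧸ N) := by
        rw [QuotientGroup.mk_mul, hn, mul_one]
      have h8 : ((ψ y * m : Γ) : Γ ⧸ N) = (ψ y : Γ ⧸ N) := by
        rw [QuotientGroup.mk_mul, hm, mul_one]
      have h9 : ((⁅ψ x * n, ψ y * m⁆ : Γ) : Γ ⧸ N) = ((⁅ψ x, ψ y⁆ : Γ) : Γ ⧸ N) := by
        simp only [commutatorElement_def, QuotientGroup.mk_mul, QuotientGroup.mk_inv, hn, hm,
          mul_one]
      rw [h9, h6]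
    · intro h
      rw [Subgroup.commutator_le]
      intro a ha b hb
      rw [Subgroup.mem_comap, map_commutatorElement]
      exact h (Subgroup.commutator_mem_commutator ha hb)
  constructor
  · intro h
    refine ⟨hN, hle.mp (hup ▸ h.lt_up), fun h1 => h.nab ?_⟩
    rw [hup]
    exact hcom.mpr h1
  · intro h
    refine ⟨hN.comap ψ, ?_, fun h1 => h.nab ?_⟩
    · rw [hup]
      exact hle.mpr h.lt_up
    · rw [hup] at h1
      exact hcom.mp h1

/-- PROOF. `exists_eq_comap`: normal subgroups above `N.comap ψ` are the `M.comap ψ`, `N ≤ M` normal (and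
`ψ.range ⊔ M = ⊤`), and `M.comap ψ ≠ ⊤ ↔ M ≠ ⊤`; apply `isNode_comap_iff` to each `M`. -/
theorem unode_comap_iff {N : Subgroup Γ} (hN : N.Normal) (ψ : Δ →* Γ) (hψ : ψ.range ⊔ N = ⊤) :
    UNode (N.comap ψ) ↔ UNode N := by
  have hsup : ∀ M : Subgroup Γ, N ≤ M → ψ.range ⊔ M = ⊤ := by
    intro M hNM
    rw [eq_top_iff, ← hψ]
    exact sup_le_sup_left hNM _
  constructor
  · intro h
    refine ⟨hN, fun ht => h.ne_top ?_, ?_⟩
    · rw [ht, Subgroup.comap_top]
    · intro M hM hNM hMt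
      rw [← isNode_comap_iff hM ψ (hsup M hNM)]
      refine h.node (M.comap ψ) (hM.comap ψ) (Subgroup.comap_mono hNM) fun ht => hMt ?_
      exact (comap_eq_top_iff_of_range hN ψ hψ hNM).mp ht
  · intro h
    refine ⟨hN.comap ψ, fun ht => h.ne_top ?_, ?_⟩
    · exact (comap_eq_top_iff_of_range hN ψ hψ le_rfl).mp ht
    · intro M' hM' hle hMt
      obtain ⟨M, hM, hNM, rfl⟩ := exists_eq_comap hN ψ hψ hM' hle
      rw [isNode_comap_iff hM ψ (hsup M hNM)]
      refine h.node M hM hNM fun ht => hMt ?_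
      rw [ht, Subgroup.comap_top]

/-- Images under surjections.
PROOF. `(N'.map f).comap f = N'` since `f.ker ≤ N'` (`Subgroup.comap_map_eq`); the image is
normal; use `unode_comap_iff` with `ψ := f`, `f.range = ⊤`. -/
theorem UNode.map_of_surjective {N' : Subgroup Δ} (hN' : UNode N') (f : Δ →* Γ)
    (hf : Function.Surjective f) (hk : f.ker ≤ N') :
    UNode (N'.map f) ∧ (N'.map f).comap f = N' := by
  have h1 : (N'.map f).comap f = N' := by
    rw [Subgroup.comap_map_eq, sup_eq_left]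
    exact hk
  have h2 : (N'.map f).Normal := hN'.normal.map f hf
  refine ⟨?_, h1⟩
  rw [← unode_comap_iff h2 f (by rw [MonoidHom.range_eq_top.mpr hf, top_sup_eq]), h1]
  exact hN'

end Pool.Agent.Lib.H65F
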