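import Pool.Agent.Lib.H65F.L0
import Pool.Agent.Lib.H65F.N3
import Pool.Agent.Lib.H65F.N3b

/-! Chunk L2: the sets `LSet` depend only on the quotient. -/

set_option autoImplicit false

namespace Pool.Agent.Lib.H65F

open Subgroup Pool.Agent.H69

variable {X Y T : Type} [Group X] [Group Y] [Group T]

/-- PROOF. `C = u.ker = (⊥ : Subgroup T).comap u`, so `up C = (up ⊥).comap u` by `up_comap` (with `N := ⊥`,
`u.range = ⊤`). -/
theorem up_ker (u : X →* T) (hu : Function.Surjective u) :
    up u.ker = (up (⊥ : Subgroup T)).comap u := by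
  have h := up_comap (N := (⊥ : Subgroup T)) inferInstance u
    (by rw [MonoidHom.range_eq_top.mpr hu, top_sup_eq])
  rwa [MonoidHom.comap_bot] at h

/-- PROOF. Choose `y i` with `v (y i) = u (φ x_i)`, `β := FreeGroup.lift y`. -/
theorem exists_transfer_hom (u : X →* T) (v : Y →* T) (hv : Function.Surjective v)
    (φ : Fr →* X) : ∃ β : Fr →* Y, ∀ f, v (β f) = u (φ f) := by
  choose y hy using fun i : ℕ => hv (u (φ (FreeGroup.of i)))
  refine ⟨FreeGroup.lift y, fun f => ?_⟩
  have he : v.comp (FreeGroup.lift y) = u.comp φ := by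
    apply FreeGroup.ext_hom
    intro i
    simp [hy]
  exact DFunLike.congr_fun he f

end Pool.Agent.Lib.H65F
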