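import Pool.Agent.Lib.H65F.L0
import Pool.Agent.Lib.H65F.N3
import Pool.Agent.Lib.H65F.N3b
import Pool.Agent.Lib.H65F.L2

/-! Chunk L2b: the sets `LSet` depend only on the quotient. -/

set_option autoImplicit false

namespace Pool.Agent.Lib.H65F

open Subgroup Pool.Agent.H69

variable {X Y T : Type} [Group X] [Group Y] [Group T]

theorem l2b_comap_eq (u : X →* T) (v : Y →* T) (hu : Function.Surjective u)
    (hv : Function.Surjective v) (φ : Fr →* X) (β : Fr →* Y)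
    (h : ∀ f, (u (φ f))⁻¹ * v (β f) ∈ up (⊥ : Subgroup T)) :
    (up u.ker).comap φ = (up v.ker).comap β := by
  ext f
  rw [up_ker u hu, up_ker v hv, mem_comap, mem_comap, mem_comap, mem_comap]
  constructor
  · intro h1
    have := mul_mem h1 (h f)
    rwa [mul_inv_cancel_left] at this
  · intro h1
    have := mul_mem h1 (inv_mem (h f))
    rwa [mul_inv_rev, inv_inv, mul_inv_cancel_left] at this

theorem l2b_sub (u : X →* T) (v : Y →* T) (hu : Function.Surjective u)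
    (hv : Function.Surjective v) (φ : Fr →* X) (β : Fr →* Y)
    (h : ∀ f, (u (φ f))⁻¹ * v (β f) ∈ up (⊥ : Subgroup T)) (z : ℕ) :
    LSet u.ker φ z ⊆ LSet v.ker β z := by
  rintro K ⟨ψ, hl, hK, hfs, hpos⟩
  obtain ⟨ψ', hψ'⟩ := exists_transfer_hom u v hv ψ
  have hker : v.ker.comap ψ' = u.ker.comap ψ := by
    ext f
    rw [mem_comap, mem_comap, MonoidHom.mem_ker, MonoidHom.mem_ker, hψ']
  have hc := l2b_comap_eq u v hu hv φ β h
  refine ⟨ψ', ⟨?_, ?_⟩, ?_, hfs, ?_⟩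
  · rw [eq_top_iff]
    intro t _
    obtain ⟨x, hx⟩ := hu (v t)
    have hx2 : x ∈ ψ.range ⊔ u.ker := by rw [hl.surj]; exact mem_top x
    rw [mem_sup_of_normal_right] at hx2
    obtain ⟨_, ⟨f, rfl⟩, c, hc', rfl⟩ := hx2
    have h1 : v (ψ' f) = v t := by
      rw [hψ', ← hx, map_mul, (MonoidHom.mem_ker).mp hc', mul_one]
    have h2 : (ψ' f)⁻¹ * t ∈ v.ker := by
      rw [MonoidHom.mem_ker, map_mul, map_inv, h1, inv_mul_cancel]
    have h3 : ψ' f * ((ψ' f)⁻¹ * t) ∈ ψ'.range ⊔ v.ker := mul_mem_sup ⟨f, rfl⟩ h2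
    rwa [mul_inv_cancel_left] at h3
  · intro f
    rw [up_ker v hv, mem_comap, map_mul, map_inv, hψ']
    have h1 := hl.ovr f
    rw [up_ker u hu, mem_comap, map_mul, map_inv] at h1
    have := mul_mem (inv_mem (h f)) h1
    rwa [mul_inv_rev, inv_inv, mul_assoc, mul_inv_cancel_left] at this
  · rw [hker, hK]
  · rw [← hc]; exact hpos

/-- Transfer along a common quotient `T`.
PROOF. By symmetry it is enough to prove `⊆`.  Let `ψ : Fr →* X` be as in the definition of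
`LSet u.ker φ z`.  Choose (`v` surjective) `y i : Y` with `v (y i) = u (ψ x_i)` and `ψ' := FreeGroup.lift y`; then
`v (ψ' f) = u (ψ f)` for all `f` (`FreeGroup.ext_hom`).  `v.ker.comap ψ' = u.ker.comap ψ`.
`up u.ker = (up ⊥).comap u`, `up v.ker = (up ⊥).comap v` (`up_ker`).  `(β f)⁻¹ * ψ' f ∈ up v.ker` iff
`(v (β f))⁻¹ * u (ψ f) ∈ up ⊥` (in `T`), and this is the product of `(v (β f))⁻¹ * u (φ f) ∈ up ⊥`
(hypothesis `h`, up to inverses) and
`(u (φ f))⁻¹ * u (ψ f) ∈ up ⊥`.  `ψ'.range ⊔ v.ker = ⊤`: given `t : Y`, choose `x : X` with `u x = v t`,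
`x = ψ f * c` with `c ∈ u.ker`; `v (ψ' f) = u (ψ f) = v t`.  Finally
`(up v.ker).comap β = (up u.ker).comap φ`: `v (β f) ∈ up ⊥ ↔ u (φ f) ∈ up ⊥` by `h`. -/
theorem LSet_transfer (u : X →* T) (v : Y →* T) (hu : Function.Surjective u)
    (hv : Function.Surjective v) (φ : Fr →* X) (β : Fr →* Y)
    (h : ∀ f, (u (φ f))⁻¹ * v (β f) ∈ up (⊥ : Subgroup T)) (z : ℕ) :
    LSet u.ker φ z = LSet v.ker β z := by
  apply Set.Subset.antisymm (l2b_sub u v hu hv φ β h z)
  apply l2b_sub v u hv hu β φ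
  intro f
  have := inv_mem (h f)
  rwa [mul_inv_rev, inv_inv] at this

end Pool.Agent.Lib.H65F
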