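import Pool.Agent.Lib.H65F.K0
import Pool.Agent.Lib.H65F.L2
import Pool.Agent.Lib.H65F.L2b
import Pool.Agent.Lib.H65F.L1

/-! Chunk K2: the number of kernels in `ks`. -/

set_option autoImplicit false

namespace Pool.Agent.Lib.H65F

open Subgroup Pool.Agent.H69

variable {Y : Type} [Group Y] [Finite Y]

/-- For a fixed kernel `K₀` and a fixed `N` the number of sets `LSet N β z` with
`β.range ⊔ up N = ⊤`, `(up N).comap β = K₀`, `z ∈ Λ` is at most `|Y| ^ |Y| * |Λ|`.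
PROOF. `LSet N β z` depends only on `z` and on the homomorphism `β̄ : Fr → Y ⧸ up N`, `f ↦ β f` (`LSet_congr`).  If such a
`β` exists, `K₀ = β̄.ker` and `Fr ⧸ K₀ ≃* Y ⧸ up N` has order at most `|Y|`; each `β̄` factors through `Fr ⧸ K₀`, so there are at most
`|Y ⧸ up N| ^ |Fr ⧸ K₀| ≤ |Y| ^ |Y|` of them.  Concretely: fix one such `β₀` and representatives; e.g. map the set to
`Λ × ((Y ⧸ up N) → (Y ⧸ up N))`: for `β` let `F_β : Y ⧸ up N → Y ⧸ up N` be the function with `F_β (β̄₀ f) = β̄ f` (well defined as both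
have kernel `K₀`, defined everywhere as `β̄₀` is onto); `(z, F_β)` determines `LSet N β z`. -/
theorem LSet_family_card (N : Subgroup Y) (K₀ : Subgroup Fr) (Λ : Finset ℕ) :
    {S : Set (Subgroup Fr) | ∃ β : Fr →* Y, β.range ⊔ up N = ⊤ ∧ (up N).comap β = K₀ ∧
      ∃ z ∈ Λ, S = LSet N β z}.Finite ∧
    {S : Set (Subgroup Fr) | ∃ β : Fr →* Y, β.range ⊔ up N = ⊤ ∧ (up N).comap β = K₀ ∧
      ∃ z ∈ Λ, S = LSet N β z}.ncard ≤ Nat.card Y ^ Nat.card Y * Λ.card := by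
  classical
  have hup : (up N).Normal := up_normal N
  by_cases hex : ∃ β : Fr →* Y, β.range ⊔ up N = ⊤ ∧ (up N).comap β = K₀
  swap
  · have h0 : {S : Set (Subgroup Fr) | ∃ β : Fr →* Y, β.range ⊔ up N = ⊤ ∧
        (up N).comap β = K₀ ∧ ∃ z ∈ Λ, S = LSet N β z} = ∅ := by
      rw [Set.eq_empty_iff_forall_notMem]
      rintro S ⟨β, h1, h2, -⟩
      exact hex ⟨β, h1, h2⟩
    rw [h0]
    exact ⟨Set.finite_empty, by simp⟩
  obtain ⟨β₀, hβ₀, hK₀⟩ := hex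
  -- a section of the reduction of `β₀`
  have hs : ∀ q : Y ⧸ up N, ∃ f : Fr, (QuotientGroup.mk (β₀ f) : Y ⧸ up N) = q := by
    intro q
    obtain ⟨y, rfl⟩ := QuotientGroup.mk_surjective q
    have hy : y ∈ β₀.range ⊔ up N := by rw [hβ₀]; trivial
    rw [Subgroup.mem_sup_of_normal_right] at hy
    obtain ⟨a, ⟨f, rfl⟩, b, hb, rfl⟩ := hy
    refine ⟨f, ?_⟩
    rw [QuotientGroup.eq]
    rw [← mul_assoc, inv_mul_cancel, one_mul]
    exact hb
  choose σ hσ using hs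
  let κ : (Fr →* Y) → ((Y ⧸ up N) → (Y ⧸ up N)) := fun β q => QuotientGroup.mk (β (σ q))
  have hκ : ∀ β β' : Fr →* Y, (up N).comap β = K₀ → (up N).comap β' = K₀ → κ β = κ β' →
      ∀ f, (β f)⁻¹ * β' f ∈ up N := by
    intro β β' h1 h2 h3 f
    have h4 : (σ (QuotientGroup.mk (β₀ f)))⁻¹ * f ∈ K₀ := by
      rw [← hK₀, mem_comap, map_mul, map_inv]
      exact QuotientGroup.eq.mp (hσ (QuotientGroup.mk (β₀ f)))
    have h5 : ∀ γ : Fr →* Y, (up N).comap γ = K₀ →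
        (QuotientGroup.mk (γ f) : Y ⧸ up N) = κ γ (QuotientGroup.mk (β₀ f)) := by
      intro γ hγ
      symm
      change (QuotientGroup.mk (γ (σ _)) : Y ⧸ up N) = QuotientGroup.mk (γ f)
      rw [QuotientGroup.eq]
      rw [← hγ, mem_comap, map_mul, map_inv] at h4
      exact h4
    rw [← QuotientGroup.eq, h5 β h1, h5 β' h2, h3]
  let g : ((Y ⧸ up N) → (Y ⧸ up N)) × ℕ → Set (Subgroup Fr) := fun p =>
    if h : ∃ β : Fr →* Y, (up N).comap β = K₀ ∧ κ β = p.1 then LSet N h.choose p.2 else ∅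
  let A : Set (((Y ⧸ up N) → (Y ⧸ up N)) × ℕ) := Set.univ ×ˢ (Λ : Set ℕ)
  have hA : A.Finite := Set.finite_univ.prod Λ.finite_toSet
  have hsub : {S : Set (Subgroup Fr) | ∃ β : Fr →* Y, β.range ⊔ up N = ⊤ ∧
      (up N).comap β = K₀ ∧ ∃ z ∈ Λ, S = LSet N β z} ⊆ g '' A := by
    rintro S ⟨β, h1, h2, z, hz, rfl⟩
    refine ⟨(κ β, z), ⟨Set.mem_univ _, hz⟩, ?_⟩
    have h : ∃ β' : Fr →* Y, (up N).comap β' = K₀ ∧ κ β' = κ β := ⟨β, h2, rfl⟩
    change (if h : ∃ β' : Fr →* Y, (up N).comap β' = K₀ ∧ κ β' = κ β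
      then LSet N h.choose z else ∅) = _
    rw [dif_pos h]
    exact LSet_congr (hκ _ _ h.choose_spec.1 h2 h.choose_spec.2) z
  have hfin : (g '' A).Finite := hA.image g
  refine ⟨hfin.subset hsub, ?_⟩
  refine (Set.ncard_le_ncard hsub hfin).trans ?_
  refine (Set.ncard_image_le hA).trans ?_
  have h1 : A.ncard = Nat.card ((Y ⧸ up N) → (Y ⧸ up N)) * Λ.card := by
    rw [Set.ncard_prod, Set.ncard_univ, Set.ncard_coe_finset]
  rw [h1]
  refine Nat.mul_le_mul ?_ le_rfl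
  have h2 : Nat.card (Y ⧸ up N) ≤ Nat.card Y :=
    Nat.card_le_card_of_surjective (QuotientGroup.mk : Y → Y ⧸ up N) QuotientGroup.mk_surjective
  rw [Nat.card_fun]
  exact (Nat.pow_le_pow_left h2 _).trans (Nat.pow_le_pow_right Nat.card_pos h2)

end Pool.Agent.Lib.H65F
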