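import Pool.Agent.Lib.H65F.K0
import Pool.Agent.Lib.H65F.L2
import Pool.Agent.Lib.H65F.L2b
import Pool.Agent.Lib.H65F.L1
import Pool.Agent.Lib.H65F.K2

/-! Chunk K2b: the number of kernels in `ks`. -/

set_option autoImplicit false

namespace Pool.Agent.Lib.H65F

open Subgroup Pool.Agent.H69

variable {Y : Type} [Group Y] [Finite Y]

theorem k2b_union {α β : Type*} {A : Set α} (hA : A.Finite) (F : α → Set β) (c : ℕ)
    (hF : ∀ a ∈ A, (F a).Finite ∧ (F a).ncard ≤ c) :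
    (⋃ a ∈ A, F a).Finite ∧ (⋃ a ∈ A, F a).ncard ≤ A.ncard * c := by
  classical
  refine ⟨hA.biUnion fun a ha => (hF a ha).1, ?_⟩
  induction A, hA using Set.Finite.induction_on with
  | empty => simp
  | @insert a s ha hs ih =>
    have h1 : (⋃ b ∈ insert a s, F b) = F a ∪ ⋃ b ∈ s, F b := Set.biUnion_insert a s F
    rw [h1, Set.ncard_insert_of_notMem ha hs, Nat.add_mul, one_mul, add_comm (s.ncard * c)]
    refine (Set.ncard_union_le _ _).trans ?_
    exact Nat.add_le_add (hF a (Set.mem_insert a s)).2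
      (ih fun b hb => hF b (Set.mem_insert_of_mem a hb))

theorem k2b_card_sub : Nat.card (Subgroup Y) ≤ 2 ^ Nat.card Y := by
  classical
  have := Fintype.ofFinite Y
  have h1 : Nat.card (Subgroup Y) ≤ Nat.card (Set Y) :=
    Nat.card_le_card_of_injective (fun N : Subgroup Y => (N : Set Y)) SetLike.coe_injective
  refine h1.trans (le_of_eq ?_)
  rw [Nat.card_eq_fintype_card, Nat.card_eq_fintype_card, Fintype.card_set]

/-- PROOF. Induction on `j`.  `j = 0`: one element.  Step: `ks Y Λ (j + 1)` is the union over `K₀ ∈ ks Y Λ j` and over the at most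
`2 ^ |Y|` subgroups `N` of `Y` (a subgroup is determined by its carrier) of the images under `pick` of
the families of `LSet_family_card`; use `Set.Finite.biUnion`, `Set.ncard_iUnion_le` or
finsets (`Finset.card_biUnion_le`).  `stepB y l = 2 ^ y * y ^ y * l`. -/
theorem ks_card (Λ : Finset ℕ) (j : ℕ) :
    (ks Y Λ j).Finite ∧ (ks Y Λ j).ncard ≤ stepB (Nat.card Y) Λ.card ^ j := by
  induction j with
  | zero =>
    change ({⊤} : Set (Subgroup Fr)).Finite ∧ ({⊤} : Set (Subgroup Fr)).ncard ≤ _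
    exact ⟨Set.finite_singleton _, by rw [Set.ncard_singleton, pow_zero]⟩
  | succ j ih =>
    obtain ⟨ih1, ih2⟩ := ih
    let A : Set (Subgroup Y × Subgroup Fr) := Set.univ ×ˢ ks Y Λ j
    have hA : A.Finite := Set.finite_univ.prod ih1
    let F : Subgroup Y × Subgroup Fr → Set (Subgroup Fr) := fun p =>
      pick '' {S : Set (Subgroup Fr) | ∃ β : Fr →* Y, β.range ⊔ up p.1 = ⊤ ∧
        (up p.1).comap β = p.2 ∧ ∃ z ∈ Λ, S = LSet p.1 β z}
    have hF : ∀ a ∈ A, (F a).Finite ∧ (F a).ncard ≤ Nat.card Y ^ Nat.card Y * Λ.card := by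
      intro a _
      obtain ⟨h1, h2⟩ := LSet_family_card a.1 a.2 Λ
      exact ⟨h1.image pick, (Set.ncard_image_le h1).trans h2⟩
    obtain ⟨hU1, hU2⟩ := k2b_union hA F _ hF
    have hsub : ks Y Λ (j + 1) ⊆ ⋃ a ∈ A, F a := by
      rintro K ⟨N, -, β, h1, h2, z, hz, rfl⟩
      rw [Set.mem_iUnion₂]
      refine ⟨(N, (up N).comap β), ⟨Set.mem_univ _, h2⟩, ?_⟩
      exact ⟨LSet N β z, ⟨β, h1, rfl, z, hz, rfl⟩, rfl⟩
    refine ⟨hU1.subset hsub, (Set.ncard_le_ncard hsub hU1).trans (hU2.trans ?_)⟩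
    have h3 : A.ncard = Nat.card (Subgroup Y) * (ks Y Λ j).ncard := by
      rw [Set.ncard_prod, Set.ncard_univ]
    rw [h3, pow_succ]
    calc Nat.card (Subgroup Y) * (ks Y Λ j).ncard * (Nat.card Y ^ Nat.card Y * Λ.card)
        ≤ 2 ^ Nat.card Y * stepB (Nat.card Y) Λ.card ^ j *
          (Nat.card Y ^ Nat.card Y * Λ.card) :=
          Nat.mul_le_mul (Nat.mul_le_mul k2b_card_sub ih2) le_rfl
      _ = stepB (Nat.card Y) Λ.card ^ j * stepB (Nat.card Y) Λ.card := by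
          unfold stepB; ring

/-- PROOF. Union over `j ≤ |Y|`; `kerB` is the sum of the bounds of `ks_card`. -/
theorem ks_union_card (Λ : Finset ℕ) :
    {K : Subgroup Fr | ∃ j ≤ Nat.card Y, K ∈ ks Y Λ j}.Finite ∧
    {K : Subgroup Fr | ∃ j ≤ Nat.card Y, K ∈ ks Y Λ j}.ncard ≤ kerB (Nat.card Y) Λ.card := by
  have key : ∀ m : ℕ, {K : Subgroup Fr | ∃ j < m, K ∈ ks Y Λ j}.Finite ∧
      {K : Subgroup Fr | ∃ j < m, K ∈ ks Y Λ j}.ncard ≤
        ∑ j ∈ Finset.range m, stepB (Nat.card Y) Λ.card ^ j := by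
    intro m
    induction m with
    | zero =>
      have h0 : {K : Subgroup Fr | ∃ j < 0, K ∈ ks Y Λ j} = ∅ := by
        rw [Set.eq_empty_iff_forall_notMem]
        rintro K ⟨j, hj, -⟩
        exact absurd hj (Nat.not_lt_zero j)
      rw [h0]
      exact ⟨Set.finite_empty, by simp⟩
    | succ m ih =>
      have h0 : {K : Subgroup Fr | ∃ j < m + 1, K ∈ ks Y Λ j} =
          {K : Subgroup Fr | ∃ j < m, K ∈ ks Y Λ j} ∪ ks Y Λ m := by
        ext K
        constructor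
        · rintro ⟨j, hj, hK⟩
          rcases Nat.lt_succ_iff_lt_or_eq.mp hj with h | h
          · exact Or.inl ⟨j, h, hK⟩
          · exact Or.inr (h ▸ hK)
        · rintro (⟨j, hj, hK⟩ | hK)
          · exact ⟨j, by omega, hK⟩
          · exact ⟨m, by omega, hK⟩
      rw [h0, Finset.sum_range_succ]
      refine ⟨ih.1.union (ks_card Λ m).1, ?_⟩
      exact (Set.ncard_union_le _ _).trans (Nat.add_le_add ih.2 (ks_card Λ m).2)
  have h := key (Nat.card Y + 1)
  have h1 : {K : Subgroup Fr | ∃ j < Nat.card Y + 1, K ∈ ks Y Λ j} =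
      {K : Subgroup Fr | ∃ j ≤ Nat.card Y, K ∈ ks Y Λ j} := by
    ext K
    simp only [Set.mem_setOf_eq, Nat.lt_succ_iff]
  rw [h1] at h
  exact h

/-- PROOF. Case `j = 0`: `K = ⊤`.  Case `j + 1`: `K = pick (LSet N β z)`; if `LSet N β z` is empty `K = ⊤` (`pick`), otherwise
`K ∈ LSet N β z` (`pick_mem`), so `K = N.comap ψ` with `ψ.range ⊔ N = ⊤`. -/
theorem ks_mem {Λ : Finset ℕ} {j : ℕ} {K : Subgroup Fr} (hK : K ∈ ks Y Λ j) :
    K = ⊤ ∨ ∃ N : Subgroup Y, UNode N ∧ ∃ ψ : Fr →* Y, ψ.range ⊔ N = ⊤ ∧ N.comap ψ = K := by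
  cases j with
  | zero => exact Or.inl hK
  | succ j =>
    obtain ⟨N, hN, β, -, -, z, -, rfl⟩ := hK
    by_cases h : (LSet N β z).Nonempty
    · obtain ⟨ψ, h1, h2, -, -⟩ := pick_mem h
      exact Or.inr ⟨N, hN, ψ, h1.surj, h2⟩
    · left
      rw [pick, dif_neg h]

end Pool.Agent.Lib.H65F
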