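import Pool.Agent.Lib.H65F.N3
import Pool.Agent.Lib.H65F.N3b

/-! Chunk N5: minimal normal subgroups and nodes. -/

set_option autoImplicit false

namespace Pool.Agent.Lib.H65F

open Subgroup Pool.Agent.H69

variable {X : Type} [Group X]

/-- PROOF. `C := centralizer B`, `B` normal, so `C` is normal.  `B ⊓ C = ⊥` (`IsMinNormal.inf_centralizer`).
If `M` is normal and `C < M` then `⁅M, B⁆ ≠ ⊥` (else `M ≤ C`, `commutator_eq_bot_iff_le_centralizer`),
`⁅M, B⁆ ≤ M ⊓ B` is normal, so `M ⊓ B ≠ ⊥`, `M ⊓ B = B` by minimality, `B ⊔ C ≤ M`.  `C < B ⊔ C` since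
`¬ B ≤ C`.  So `up C = B ⊔ C` (`up_eq`).  `⁅B, B⁆ = B` (`IsMinNormal.commutator_self`) is not contained in
`C`, so `¬ ⁅up C, up C⁆ ≤ C`. -/
theorem isNode_centralizer {B : Subgroup X} (hB : IsMinNormal B) (hna : ⁅B, B⁆ ≠ ⊥) :
    IsNode (centralizer (B : Set X)) ∧ up (centralizer (B : Set X)) = B ⊔ centralizer (B : Set X) := by
  have hBn := hB.1
  have hC : (centralizer (B : Set X)).Normal := inferInstance
  have hnle : ¬ B ≤ centralizer (B : Set X) := fun h =>
    hna (commutator_eq_bot_iff_le_centralizer.2 h)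
  have hlt : centralizer (B : Set X) < B ⊔ centralizer (B : Set X) :=
    lt_of_le_of_ne le_sup_right fun he => hnle (he ▸ le_sup_left)
  have hup : up (centralizer (B : Set X)) = B ⊔ centralizer (B : Set X) := by
    refine up_eq inferInstance hlt ?_
    intro M hM hCM
    have h1 : ⁅M, B⁆ ≠ ⊥ := by
      intro h
      exact hCM.not_ge (commutator_eq_bot_iff_le_centralizer.1 h)
    have h2 : M ⊓ B ≠ ⊥ := by
      intro h
      apply h1
      rw [eq_bot_iff, ← h]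
      exact commutator_le_inf M B
    have h3 : M ⊓ B = B := hB.2.2 _ inferInstance inf_le_right h2
    exact sup_le (inf_eq_right.1 h3) hCM.le
  refine ⟨⟨hC, ?_, ?_⟩, hup⟩
  · rw [hup]
    exact hlt
  · intro h
    apply hnle
    have h1 : B ≤ up (centralizer (B : Set X)) := by
      rw [hup]
      exact le_sup_left
    calc B = ⁅B, B⁆ := (hB.commutator_self hna).symm
      _ ≤ ⁅up (centralizer (B : Set X)), up (centralizer (B : Set X))⁆ := commutator_mono h1 h1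
      _ ≤ _ := h

/-- PROOF. `up ⊥` is normal, `≠ ⊥`; minimal: if `B` normal, `B ≤ up ⊥`, `B ≠ ⊥` then `⊥ < B` and
`up ⊥ ≤ B`.  Not abelian: `hN.nab` and `le_bot_iff`.  Every normal subgroup `≠ ⊥` contains `up ⊥`. -/
theorem IsNode.isMonolith (hN : IsNode (⊥ : Subgroup X)) :
    IsMonolith (up (⊥ : Subgroup X)) ∧ ⁅up (⊥ : Subgroup X), up (⊥ : Subgroup X)⁆ ≠ ⊥ := by
  have hlt := hN.lt_up
  refine ⟨⟨up_normal _, hlt.ne', ?_⟩, ?_⟩
  · intro B hB hB0
    exact up_le hB (bot_lt_iff_ne_bot.2 hB0)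
  · intro h
    exact hN.nab h.le

/-- PROOF. `up ⊥ = A` by `up_eq`; rest clear. -/
theorem isNode_bot_of_isMonolith {A : Subgroup X} (hA : IsMonolith A) (hna : ⁅A, A⁆ ≠ ⊥) :
    IsNode (⊥ : Subgroup X) ∧ up (⊥ : Subgroup X) = A := by
  have h1 : up (⊥ : Subgroup X) = A := by
    refine up_eq hA.1 (bot_lt_iff_ne_bot.2 hA.2.1) ?_
    intro M hM hlt
    exact hA.2.2 M hM (bot_lt_iff_ne_bot.1 hlt)
  refine ⟨⟨inferInstance, ?_, ?_⟩, h1⟩
  · rw [h1]
    exact bot_lt_iff_ne_bot.2 hA.2.1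
  · intro h
    rw [h1] at h
    exact hna (le_bot_iff.1 h)

end Pool.Agent.Lib.H65F
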