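import Pool.Agent.Lib.H65F.N3
import Pool.Agent.Lib.H65F.N3b
import Pool.Agent.Lib.H65F.N5

/-! Chunk N5b: minimal normal subgroups and nodes. -/

set_option autoImplicit false

namespace Pool.Agent.Lib.H65F

open Subgroup Pool.Agent.H69

variable {X : Type} [Group X]

/-- PROOF. `unode_comap_iff` / `isNode_comap_iff` for `ψ := QuotientGroup.mk' N` and the normal subgroup
`⊥` of `Γ ⧸ N`, `(⊥).comap (mk' N) = N` (`QuotientGroup.ker_mk'`, `MonoidHom.comap_bot`). -/
theorem isNode_iff_quotient (N : Subgroup X) [hN : N.Normal] :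
    (IsNode N ↔ IsNode (⊥ : Subgroup (X ⧸ N))) ∧ (UNode N ↔ UNode (⊥ : Subgroup (X ⧸ N))) := by
  have hr : (QuotientGroup.mk' N).range ⊔ (⊥ : Subgroup (X ⧸ N)) = ⊤ := by
    rw [sup_bot_eq]
    exact MonoidHom.range_eq_top.2 (QuotientGroup.mk'_surjective N)
  have hc : (⊥ : Subgroup (X ⧸ N)).comap (QuotientGroup.mk' N) = N := by
    rw [MonoidHom.comap_bot, QuotientGroup.ker_mk']
  have h1 := isNode_comap_iff (N := (⊥ : Subgroup (X ⧸ N))) inferInstance (QuotientGroup.mk' N) hr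
  have h2 := unode_comap_iff (N := (⊥ : Subgroup (X ⧸ N))) inferInstance (QuotientGroup.mk' N) hr
  rw [hc] at h1 h2
  exact ⟨h1, h2⟩

end Pool.Agent.Lib.H65F
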