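import Pool.Agent.Lib.H65F.K2
import Pool.Agent.Lib.H65F.K2b
import Pool.Agent.Lib.H65F.N5
import Pool.Agent.Lib.H65F.N5b

/-! Chunk K3: the group `Fr ⧸ RB Y Λ`. -/

set_option autoImplicit false

namespace Pool.Agent.Lib.H65F

open Subgroup Pool.Agent.H69

/-- A surjective homomorphism maps central elements to central elements. -/
theorem k3_center_map {A B : Type} [Group A] [Group B] (f : A →* B)
    (hf : Function.Surjective f) {x : A} (hx : x ∈ center A) : f x ∈ center B := by
  rw [mem_center_iff]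
  intro b
  obtain ⟨a, rfl⟩ := hf b
  rw [← map_mul, ← map_mul, mem_center_iff.mp hx a]

theorem k3_center_bot {A B : Type} [Group A] [Group B] (e : A ≃* B) (h : center B = ⊥) :
    center A = ⊥ := by
  rw [eq_bot_iff]
  intro x hx
  have h1 : e x ∈ center B := k3_center_map e.toMonoidHom e.surjective hx
  rw [h, mem_bot] at h1
  rw [mem_bot]
  exact e.injective (h1.trans (map_one e).symm)

/-- PROOF. `Fr ⧸ f.ker ≃* X` (`QuotientGroup.quotientKerEquivOfSurjective`), `F.iso`; the centre is transported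
(or: if `z` is central modulo `f.ker` then `f z` is central in `X`). -/
theorem goodQ_ker {F : Formation} {X : Type} [Group X] (hX : F.mem X) (hz : center X = ⊥)
    (f : Fr →* X) (hf : Function.Surjective f) : GoodQ F f.ker := by
  let e := QuotientGroup.quotientKerEquivOfSurjective f hf
  exact ⟨inferInstance, F.iso _ _ e.symm hX, k3_center_bot e hz⟩

theorem k3_node_center {X : Type} [Group X] (h : IsNode (⊥ : Subgroup X)) : center X = ⊥ := by
  by_contra hne
  have h1 : (⊥ : Subgroup X) < center X := bot_lt_iff_ne_bot.mpr hne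
  have h2 : up (⊥ : Subgroup X) ≤ center X := up_le inferInstance h1
  apply h.nab
  refine (commutator_mono h2 h2).trans ?_
  rw [commutator_le]
  intro a _ b hb
  rw [mem_bot, commutatorElement_eq_one_iff_mul_comm]
  exact mem_center_iff.mp hb a

/-- PROOF. `Fr ⧸ N.comap ψ` is isomorphic to `Y ⧸ N`: `(QuotientGroup.mk' N).comp ψ` is surjective with kernel `N.comap ψ`;
`Y ⧸ N ∈ F` (`F.quot`), and its centre is trivial: `⊥` is a node of `Y ⧸ N` (`isNode_iff_quotient`), if `z` central `≠ 1` the
normal subgroup `center` contains the monolith, which would be abelian.  Then `goodQ_ker`. -/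
theorem goodQ_comap {F : Formation} {Y : Type} [Group Y] (hY : F.mem Y) {N : Subgroup Y}
    (hN : UNode N) (ψ : Fr →* Y) (hψ : ψ.range ⊔ N = ⊤) : GoodQ F (N.comap ψ) := by
  have hn : N.Normal := hN.normal
  have h1 : Function.Surjective ((QuotientGroup.mk' N).comp ψ) := by
    intro q
    obtain ⟨y, rfl⟩ := QuotientGroup.mk'_surjective N q
    have hy : y ∈ ψ.range ⊔ N := by rw [hψ]; trivial
    rw [Subgroup.mem_sup_of_normal_right] at hy
    obtain ⟨a, ⟨f, rfl⟩, b, hb, rfl⟩ := hy
    refine ⟨f, ?_⟩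
    change (QuotientGroup.mk (ψ f) : Y ⧸ N) = QuotientGroup.mk (ψ f * b)
    rw [QuotientGroup.eq, ← mul_assoc, inv_mul_cancel, one_mul]
    exact hb
  have h2 : ((QuotientGroup.mk' N).comp ψ).ker = N.comap ψ := by
    rw [← MonoidHom.comap_ker, QuotientGroup.ker_mk']
  rw [← h2]
  exact goodQ_ker (F.quot Y N hY) (k3_node_center ((isNode_iff_quotient N).1.mp hN.isNode)) _ h1

/-- PROOF. `Fr ⧸ (A ⊓ B)` maps onto `Fr ⧸ A` and `Fr ⧸ B` with trivial intersection of kernels; it is finite (it embeds in the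
product of two finite groups), `Formation.mem_subdirect`.  An element central modulo `A ⊓ B` is central modulo `A` and modulo
`B` (surjections), so it is in `A` and in `B`. -/
theorem GoodQ.inf {F : Formation} {A B : Subgroup Fr} (hA : GoodQ F A) (hB : GoodQ F B) :
    GoodQ F (A ⊓ B) := by
  obtain ⟨nA, mA, cA⟩ := hA
  obtain ⟨nB, mB, cB⟩ := hB
  let f : Fr ⧸ (A ⊓ B) →* Fr ⧸ A :=
    QuotientGroup.map (A ⊓ B) A (MonoidHom.id Fr) (by rw [comap_id]; exact inf_le_left)
  let g : Fr ⧸ (A ⊓ B) →* Fr ⧸ B :=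
    QuotientGroup.map (A ⊓ B) B (MonoidHom.id Fr) (by rw [comap_id]; exact inf_le_right)
  have hf : Function.Surjective f := by
    intro q
    obtain ⟨x, rfl⟩ := QuotientGroup.mk_surjective q
    exact ⟨QuotientGroup.mk x, rfl⟩
  have hg : Function.Surjective g := by
    intro q
    obtain ⟨x, rfl⟩ := QuotientGroup.mk_surjective q
    exact ⟨QuotientGroup.mk x, rfl⟩
  have hfg : ∀ q, f q = 1 → g q = 1 → q = 1 := by
    intro q
    obtain ⟨x, rfl⟩ := QuotientGroup.mk_surjective q
    intro h1 h2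
    have h3 : x ∈ A := (QuotientGroup.eq_one_iff x).mp h1
    have h4 : x ∈ B := (QuotientGroup.eq_one_iff x).mp h2
    exact (QuotientGroup.eq_one_iff x).mpr ⟨h3, h4⟩
  have finA : Finite (Fr ⧸ A) := F.finite _ mA
  have finB : Finite (Fr ⧸ B) := F.finite _ mB
  have finQ : Finite (Fr ⧸ (A ⊓ B)) := by
    refine Finite.of_injective (f.prod g) ?_
    rw [injective_iff_map_eq_one]
    intro q hq
    exact hfg q (congrArg Prod.fst hq) (congrArg Prod.snd hq)
  refine ⟨inferInstance, ?_, ?_⟩
  · refine F.mem_subdirect f g hf hg ?_ mA mB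
    rw [eq_bot_iff]
    rintro q ⟨h1, h2⟩
    exact hfg q h1 h2
  · rw [eq_bot_iff]
    intro q hq
    have h1 := k3_center_map f hf hq
    have h2 := k3_center_map g hg hq
    rw [cA, mem_bot] at h1
    rw [cB, mem_bot] at h2
    rw [mem_bot]
    exact hfg q h1 h2

end Pool.Agent.Lib.H65F
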