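import Pool.Agent.Lib.H65F.K2
import Pool.Agent.Lib.H65F.K2b
import Pool.Agent.Lib.H65F.N5
import Pool.Agent.Lib.H65F.N5b
import Pool.Agent.Lib.H65F.K3

/-! Chunk K3b: the group `Fr ⧸ RB Y Λ`. -/

set_option autoImplicit false

namespace Pool.Agent.Lib.H65F

open Subgroup Pool.Agent.H69

/-- PROOF. `Fr ⧸ ⊤` is trivial; it is in `F` as an image of a member (`mem_of_surjective` with the trivial homomorphism). -/
theorem GoodQ.top {F : Formation} {X : Type} [Group X] (hX : F.mem X) :
    GoodQ F (⊤ : Subgroup Fr) := by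
  have hs : ∀ q : Fr ⧸ (⊤ : Subgroup Fr), q = 1 := by
    intro q
    obtain ⟨z, rfl⟩ := QuotientGroup.mk_surjective q
    exact (QuotientGroup.eq_one_iff z).mpr (Subgroup.mem_top z)
  refine ⟨inferInstance, ?_, ?_⟩
  · refine F.mem_of_surjective (1 : X →* (Fr ⧸ (⊤ : Subgroup Fr))) ?_ hX
    intro y
    exact ⟨1, (hs y).symm⟩
  · rw [eq_bot_iff]
    intro q _
    exact hs q

/-- PROOF. Induction on the finite set with `GoodQ.inf`, `GoodQ.top`; `sInf` of a finite set. -/
theorem GoodQ.sInf {F : Formation} {X : Type} [Group X] (hX : F.mem X)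
    {S : Set (Subgroup Fr)} (hS : S.Finite) (h : ∀ A ∈ S, GoodQ F A) : GoodQ F (sInf S) := by
  induction S, hS using Set.Finite.induction_on with
  | empty =>
    rw [sInf_empty]
    exact GoodQ.top hX
  | @insert a s ha hs ih =>
    rw [sInf_insert]
    exact (h a (Set.mem_insert a s)).inf (ih fun b hb => h b (Set.mem_insert_of_mem a hb))

/-- PROOF. `GoodQ.sInf`, `ks_union_card`, `ks_mem`, `goodQ_comap`. -/
theorem RB_goodQ {F : Formation} {Y : Type} [Group Y] [Finite Y] (hY : F.mem Y)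
    (Λ : Finset ℕ) : GoodQ F (RB Y Λ) := by
  unfold RB
  refine GoodQ.sInf hY (ks_union_card Λ).1 ?_
  rintro K ⟨j, -, hK⟩
  rcases ks_mem hK with rfl | ⟨N, hN, ψ, h1, rfl⟩
  · exact GoodQ.top hY
  · exact goodQ_comap hY hN ψ h1

theorem k3b_index {G : Type} [Group G] {S : Set (Subgroup G)} (hS : S.Finite) {y : ℕ}
    (h : ∀ A ∈ S, A.index ≠ 0 ∧ A.index ≤ y) :
    (sInf S).index ≠ 0 ∧ (sInf S).index ≤ y ^ S.ncard := by
  induction S, hS using Set.Finite.induction_on with
  | empty =>
    rw [sInf_empty, Set.ncard_empty, pow_zero, index_top]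
    exact ⟨one_ne_zero, le_rfl⟩
  | @insert a s ha hs ih =>
    obtain ⟨h1, h2⟩ := h a (Set.mem_insert a s)
    obtain ⟨h3, h4⟩ := ih fun b hb => h b (Set.mem_insert_of_mem a hb)
    rw [sInf_insert, Set.ncard_insert_of_notMem ha hs, pow_succ]
    refine ⟨index_inf_ne_zero h1 h3, ?_⟩
    refine (Subgroup.index_inf_le (H := a) (K := sInf s)).trans ?_
    rw [mul_comm]
    exact Nat.mul_le_mul h4 h2

/-- PROOF. The index of an intersection of `m` subgroups of index at most `y` is at most `y ^ m` (`Subgroup.index_inf_le`, induction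
over the finite set; the indices are positive).  Each `K` in the set has index at most `|Y|`: it is `⊤` or `N.comap ψ` with
`(N.comap ψ).index ∣ N.index` or equal (`Subgroup.index_comap`, or `≤`), `ks_mem`.  Number of elements: `ks_union_card`.  `quotB y l = y ^ kerB y l`
and `1 ≤ |Y|`. -/
theorem RB_index {Y : Type} [Group Y] [Finite Y] (Λ : Finset ℕ) :
    (RB Y Λ).index ≤ quotB (Nat.card Y) Λ.card := by
  have hpos : 0 < Nat.card Y := Nat.card_pos
  have h1 : ∀ A ∈ {K : Subgroup Fr | ∃ j ≤ Nat.card Y, K ∈ ks Y Λ j},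
      A.index ≠ 0 ∧ A.index ≤ Nat.card Y := by
    rintro K ⟨j, -, hK⟩
    rcases ks_mem hK with rfl | ⟨N, -, ψ, -, rfl⟩
    · rw [index_top]
      exact ⟨one_ne_zero, hpos⟩
    · rw [index_comap]
      have h2 : N.relIndex ψ.range ∣ Nat.card ψ.range := index_dvd_card _
      have h3 : 0 < Nat.card ψ.range := Nat.card_pos
      have h4 : Nat.card ψ.range ≤ Nat.card Y := card_le_card_group _
      refine ⟨?_, (Nat.le_of_dvd h3 h2).trans h4⟩
      intro h0
      rw [h0, zero_dvd_iff] at h2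
      exact h3.ne' h2
  have h2 := (k3b_index (ks_union_card (Y := Y) Λ).1 h1).2
  unfold quotB RB
  exact h2.trans (Nat.pow_le_pow_right hpos (ks_union_card (Y := Y) Λ).2)

end Pool.Agent.Lib.H65F
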