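import Pool.Agent.Lib.H65F.N2

/-! Chunk N4: the Chinese remainder theorem for a finite upward closed set of `UNode`s. -/

set_option autoImplicit false

namespace Pool.Agent.Lib.H65F

open Subgroup Pool.Agent.H69

variable {Γ : Type} [Group Γ]

theorem n4_infnormal (V : Finset (Subgroup Γ)) (hV : ∀ N ∈ V, N.Normal) :
    (⨅ N ∈ V, N : Subgroup Γ).Normal := by
  constructor
  intro x hx g
  simp only [Subgroup.mem_iInf] at hx ⊢
  intro N hN
  exact (hV N hN).conj_mem x (hx N hN) g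

/-- PROOF. Strong induction on `V.card`.  `V = ∅`: `γ := 1`.  Otherwise choose `N₀ ∈ V` minimal for
`≤` (`Finset.exists_minimal`), `V' := V.erase N₀` is again upward closed (if `N ∈ V'` and
`N ≤ M = N₀` then `N = N₀` by minimality).  Let `γ'` be given by induction for `V'`.
`K := ⨅ N ∈ V', N` is normal; `¬ K ≤ N₀`: otherwise `N ≤ N₀` for some `N ∈ V'` (`IsNode.prime_finset`
with `A := id`), so `N = N₀` by minimality, impossible.  So `N₀ < K ⊔ N₀` and `up N₀ ≤ K ⊔ N₀`.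
`γ'⁻¹ * x N₀ ∈ up N₀`: clear if `up N₀ = ⊤`; otherwise `up N₀ ∈ V` (upward closed, `N₀ < up N₀`), so
`up N₀ ∈ V'`, `γ'⁻¹ * x (up N₀) ∈ up N₀` and `(x N₀)⁻¹ * x (up N₀) ∈ up N₀`.
Hence `γ'⁻¹ * x N₀ = k * n` with `k ∈ K`, `n ∈ N₀` (`Subgroup.mem_sup_of_normal_right`), and
`γ := γ' * k` works: `γ⁻¹ * x N₀ = n`, and for `N ∈ V'`: `γ⁻¹ * x N = k⁻¹ * (γ'⁻¹ * x N) ∈ N`. -/
theorem crt (V : Finset (Subgroup Γ)) (hV : ∀ N ∈ V, UNode N)
    (hup : ∀ N ∈ V, ∀ M : Subgroup Γ, M.Normal → N ≤ M → M ≠ ⊤ → M ∈ V)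
    (x : Subgroup Γ → Γ) (hx : ∀ N ∈ V, ∀ M ∈ V, N ≤ M → (x N)⁻¹ * x M ∈ M) :
    ∃ γ : Γ, ∀ N ∈ V, γ⁻¹ * x N ∈ N := by
  classical
  induction hn : V.card using Nat.strong_induction_on generalizing V with
  | _ n ih =>
  by_cases hemp : V.Nonempty
  swap
  · rw [Finset.not_nonempty_iff_eq_empty] at hemp
    subst hemp
    exact ⟨1, fun N hN => absurd hN (Finset.notMem_empty N)⟩
  obtain ⟨N₀, hN₀, hmin⟩ := V.exists_minimal hemp
  have hmin' : ∀ N ∈ V, N ≤ N₀ → N = N₀ := fun N hN hle => le_antisymm hle (hmin hN hle)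
  have hcard : (V.erase N₀).card < n := by
    rw [← hn]; exact Finset.card_erase_lt_of_mem hN₀
  obtain ⟨γ', hγ'⟩ := ih _ hcard (V.erase N₀)
    (fun N hN => hV N (Finset.mem_of_mem_erase hN))
    (fun N hN M hM hNM hne => by
      refine Finset.mem_erase.mpr ⟨?_, hup N (Finset.mem_of_mem_erase hN) M hM hNM hne⟩
      rintro rfl
      exact (Finset.mem_erase.mp hN).1 (hmin' N (Finset.mem_of_mem_erase hN) hNM))
    (fun N hN M hM hNM => hx N (Finset.mem_of_mem_erase hN) M (Finset.mem_of_mem_erase hM) hNM)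
    rfl
  have hU := hV N₀ hN₀
  have hNode := hU.isNode
  have hnorm : ∀ N ∈ V.erase N₀, N.Normal := fun N hN => (hV N (Finset.mem_of_mem_erase hN)).normal
  set K : Subgroup Γ := ⨅ N ∈ V.erase N₀, N with hK
  have hKn : K.Normal := n4_infnormal _ hnorm
  have hN₀n : N₀.Normal := hU.normal
  have hKnot : ¬ K ≤ N₀ := by
    intro hle
    obtain ⟨N, hN, hNle⟩ := hNode.prime_finset (V.erase N₀) (fun N => N) hnorm hle
    exact (Finset.mem_erase.mp hN).1 (hmin' N (Finset.mem_of_mem_erase hN) hNle)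
  have hlt : N₀ < K ⊔ N₀ := lt_of_le_of_ne le_sup_right fun he => hKnot (he ▸ le_sup_left)
  have hsupn : (K ⊔ N₀).Normal := inferInstance
  have hupK : up N₀ ≤ K ⊔ N₀ := up_le hsupn hlt
  have hmem : γ'⁻¹ * x N₀ ∈ up N₀ := by
    by_cases ht : up N₀ = ⊤
    · rw [ht]; exact Subgroup.mem_top _
    · have hmemV : up N₀ ∈ V := hup N₀ hN₀ _ (up_normal N₀) (le_up N₀) ht
      have hne : up N₀ ≠ N₀ := fun he => hNode.lt_up.ne he.symm
      have h1 := hγ' (up N₀) (Finset.mem_erase.mpr ⟨hne, hmemV⟩)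
      have h2 := hx N₀ hN₀ (up N₀) hmemV (le_up N₀)
      have e : γ'⁻¹ * x N₀ = (γ'⁻¹ * x (up N₀)) * ((x N₀)⁻¹ * x (up N₀))⁻¹ := by group
      rw [e]
      exact mul_mem h1 (inv_mem h2)
  have h3 := hupK hmem
  rw [Subgroup.mem_sup_of_normal_right] at h3
  obtain ⟨k, hk, m, hm, hkm⟩ := h3
  refine ⟨γ' * k, fun N hN => ?_⟩
  by_cases hNN : N = N₀
  · subst hNN
    have e : (γ' * k)⁻¹ * x N = k⁻¹ * (γ'⁻¹ * x N) := by group
    rw [e, ← hkm, inv_mul_cancel_left]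
    exact hm
  · have hN' : N ∈ V.erase N₀ := Finset.mem_erase.mpr ⟨hNN, hN⟩
    have e : (γ' * k)⁻¹ * x N = k⁻¹ * (γ'⁻¹ * x N) := by group
    rw [e]
    have hkN : k ∈ N := by
      rw [hK] at hk
      simp only [Subgroup.mem_iInf] at hk
      exact hk N hN'
    exact mul_mem (inv_mem hkN) (hγ' N hN')

end Pool.Agent.Lib.H65F
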