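import Pool.Agent.Lib.H65F.L4
import Pool.Agent.Lib.H65F.N4

/-! Chunk L5: the homomorphism `hh g`. -/

set_option autoImplicit false

namespace Pool.Agent.Lib.H65F

open Subgroup Pool.Agent.H69

variable {X : Type} [Group X] [Finite X]

theorem l5_ex (hX : Sep X) (g : Subgroup X → ℕ) :
    ∃ u : Fr →* X, ∀ C : Subgroup X, UNode C → ∀ f : Fr, (u f)⁻¹ * hs g C f ∈ C := by
  classical
  letI := Fintype.ofFinite (Subgroup X)
  have h1 : ∀ f : Fr, ∃ γ : X, ∀ N ∈ Finset.univ.filter (fun C : Subgroup X => UNode C),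
      γ⁻¹ * hs g N f ∈ N := by
    intro f
    refine crt _ (fun N hN => (Finset.mem_filter.mp hN).2)
      (fun N hN M hM hNM hne => Finset.mem_filter.mpr
        ⟨Finset.mem_univ _, ((Finset.mem_filter.mp hN).2).mono hM hNM hne⟩)
      (fun N => hs g N f) (fun N hN M hM hNM => ?_)
    have h2 := hs_compat g (Finset.mem_filter.mp hN).2 ((Finset.mem_filter.mp hM).2).normal hNM f
    have h3 := inv_mem h2
    rw [mul_inv_rev, inv_inv] at h3
    exact h3
  choose γ hγ using h1
  have hγ' : ∀ C, UNode C → ∀ f, (γ f)⁻¹ * hs g C f ∈ C := fun C hC f =>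
    hγ f C (Finset.mem_filter.mpr ⟨Finset.mem_univ _, hC⟩)
  have hmul : ∀ f f', γ (f * f') = γ f * γ f' := by
    intro f f'
    have h4 : (γ (f * f'))⁻¹ * (γ f * γ f') = 1 := by
      apply hX
      intro C hC
      have hCn := hC.normal
      have a := hγ' C hC (f * f')
      have b := hγ' C hC f
      have c := hγ' C hC f'
      rw [map_mul] at a
      have d : (γ f * γ f')⁻¹ * (hs g C f * hs g C f') ∈ C := by
        have e : (γ f * γ f')⁻¹ * (hs g C f * hs g C f') =
            ((γ f')⁻¹ * ((γ f)⁻¹ * hs g C f) * (γ f')⁻¹⁻¹) * ((γ f')⁻¹ * hs g C f') := by group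
        rw [e]
        exact mul_mem (hCn.conj_mem _ b _) c
      have e : (γ (f * f'))⁻¹ * (γ f * γ f') = ((γ (f * f'))⁻¹ * (hs g C f * hs g C f')) *
          ((γ f * γ f')⁻¹ * (hs g C f * hs g C f'))⁻¹ := by group
      rw [e]
      exact mul_mem a (inv_mem d)
    rw [inv_mul_eq_one] at h4
    exact h4
  exact ⟨MonoidHom.mk' γ hmul, hγ'⟩

/-- PROOF. For each `f : Fr` apply `crt` in `X` to the finite set of all `UNode`s and `x C := hs g C f`: compatibility is
`hs_compat` (`(hs g M f)⁻¹ * hs g N f ∈ M`, take the inverse).  So there is `γ f` with `(γ f)⁻¹ * hs g C f ∈ C` for all `UNode`s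
`C`.  By `Sep X` it is unique: two such elements differ by an element of all `UNode`s.  `f ↦ γ f` is a homomorphism:
`γ f * γ f'` has the defining property for `f * f'` (each `C` is normal).  So the `∃` in the definition of `hh` holds;
`dif_pos`. -/
theorem hh_spec (hX : Sep X) (g : Subgroup X → ℕ) {C : Subgroup X} (hC : UNode C) (f : Fr) :
    (hh g f)⁻¹ * hs g C f ∈ C := by
  rw [hh, dif_pos (l5_ex hX g)]
  exact (l5_ex hX g).choose_spec C hC f

/-- PROOF. `comap_eq_of_agree` with `hh_spec`. -/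
theorem comap_hh_eq (hX : Sep X) (g : Subgroup X → ℕ) {C : Subgroup X} (hC : UNode C) :
    C.comap (hh g) = C.comap (hs g C) :=
  comap_eq_of_agree (hh g) (hs g C) (fun f => hh_spec hX g hC f) le_rfl

end Pool.Agent.Lib.H65F
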