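import Pool.Agent.Lib.H65F.L4
import Pool.Agent.Lib.H65F.N4
import Pool.Agent.Lib.H65F.L5

/-! Chunk L5b: the homomorphism `hh g`. -/

set_option autoImplicit false

namespace Pool.Agent.Lib.H65F

open Subgroup Pool.Agent.H69

variable {X : Type} [Group X] [Finite X]

/-- PROOF. Let `t : X`.  Apply `crt` in `Fr` to the finite set `V` of all `C.comap (hs g C)`, `C` a `UNode` of `X`: they are
`UNode`s (`unode_comap_hs`), `V` is upward closed (`exists_of_comap_hs_le`).  For a `UNode` `C` choose `f_C : Fr` with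
`(hs g C f_C)⁻¹ * t ∈ C` (`hs_spec`: `IsLift.surj`, `C` normal).  By `hs_ker_inj` there is a function `x : Subgroup Fr → Fr` with
`x (C.comap (hs g C)) = f_C`.  Compatibility: if `C.comap (hs g C) ≤ C'.comap (hs g C')` then `C ≤ C'` (`le_of_comap_hs_le`), and
`f_C⁻¹ * f_{C'} ∈ C'.comap (hs g C')`, since `hs g C' f_{C'} ≡ t` and `hs g C' f_C ≡ hs g C f_C ≡ t` modulo `C'` (`hs_compat`).
So there is `γ : Fr` with `γ⁻¹ * f_C ∈ C.comap (hs g C)` for all `C`, that is `hs g C γ ≡ t` modulo `C`; with `hh_spec`,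
`(hh g γ)⁻¹ * t` lies in all `UNode`s, so `hh g γ = t` by `Sep X`. -/
theorem hh_surj (hX : Sep X) {g : Subgroup X → ℕ} (hg : Function.Injective g) :
    Function.Surjective (hh g) := by
  classical
  intro t
  letI := Fintype.ofFinite (Subgroup X)
  have hf : ∀ C : Subgroup X, UNode C → ∃ f : Fr, (hs g C f)⁻¹ * t ∈ C := by
    intro C hC
    have h1 := (hs_spec g hC).1.surj
    have h2 : t ∈ (hs g C).range ⊔ C := h1 ▸ mem_top t
    haveI := hC.normal
    obtain ⟨a, ha, c, hc, hac⟩ := Subgroup.mem_sup_of_normal_right.1 h2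
    obtain ⟨f, rfl⟩ := ha
    refine ⟨f, ?_⟩
    rw [← hac, inv_mul_cancel_left]
    exact hc
  choose! fC hfC using hf
  let V : Finset (Subgroup Fr) :=
    (Finset.univ.filter fun C : Subgroup X => UNode C).image fun C => C.comap (hs g C)
  have hV : ∀ K, K ∈ V ↔ ∃ C : Subgroup X, UNode C ∧ C.comap (hs g C) = K := by
    intro K
    simp only [V, Finset.mem_image, Finset.mem_filter, Finset.mem_univ, true_and]
  let x : Subgroup Fr → Fr := fun K =>
    if h : ∃ C : Subgroup X, UNode C ∧ C.comap (hs g C) = K then fC h.choose else 1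
  have hx : ∀ C : Subgroup X, UNode C → x (C.comap (hs g C)) = fC C := by
    intro C hC
    have hex : ∃ C' : Subgroup X, UNode C' ∧ C'.comap (hs g C') = C.comap (hs g C) := ⟨C, hC, rfl⟩
    have h1 : x (C.comap (hs g C)) = fC hex.choose := dif_pos hex
    rw [h1, hs_ker_inj hg hex.choose_spec.1 hC hex.choose_spec.2]
  obtain ⟨γ, hγ⟩ := crt V (by
      intro K hK
      obtain ⟨C, hC, rfl⟩ := (hV K).1 hK
      exact unode_comap_hs g hC) (by
      intro K hK M hM hle hne
      obtain ⟨C, hC, rfl⟩ := (hV K).1 hK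
      obtain ⟨C', hC', -, he⟩ := exists_of_comap_hs_le g hC hM hle hne
      exact (hV M).2 ⟨C', hC', he⟩) x (by
      intro K hK M hM hle
      obtain ⟨C, hC, rfl⟩ := (hV K).1 hK
      obtain ⟨C', hC', rfl⟩ := (hV M).1 hM
      rw [hx C hC, hx C' hC']
      have h1 : C ≤ C' := le_of_comap_hs_le hg hC hC' hle
      have h2 := hs_compat g hC hC'.normal h1 (fC C)
      have h3 := h1 (hfC C hC)
      have h4 := hfC C' hC'
      rw [mem_comap, map_mul, map_inv]
      have h5 : (hs g C' (fC C))⁻¹ * hs g C' (fC C') =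
          ((hs g C' (fC C))⁻¹ * hs g C (fC C)) * ((hs g C (fC C))⁻¹ * t) *
            ((hs g C' (fC C'))⁻¹ * t)⁻¹ := by group
      rw [h5]
      exact mul_mem (mul_mem h2 h3) (inv_mem h4))
  refine ⟨γ, ?_⟩
  have key : (hh g γ)⁻¹ * t = 1 := by
    refine hX _ fun C hC => ?_
    have h1 := hh_spec hX g hC γ
    have h2 := hγ (C.comap (hs g C)) ((hV _).2 ⟨C, hC, rfl⟩)
    rw [hx C hC, mem_comap, map_mul, map_inv] at h2
    have h3 := hfC C hC
    have h4 : (hh g γ)⁻¹ * t = ((hh g γ)⁻¹ * hs g C γ) * ((hs g C γ)⁻¹ * hs g C (fC C)) *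
        ((hs g C (fC C))⁻¹ * t) := by group
    rw [h4]
    exact mul_mem (mul_mem h1 h2) h3
  exact inv_mul_eq_one.1 key

end Pool.Agent.Lib.H65F
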