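import Pool.Agent.Lib.H65F.L5
import Pool.Agent.Lib.H65F.L5b

/-! Chunk L6: locality of `hh g`. -/

set_option autoImplicit false

namespace Pool.Agent.Lib.H65F

open Subgroup Pool.Agent.H69

variable {X X₁ : Type} [Group X] [Finite X] [Group X₁]

/-- PROOF. Let `N` be a `UNode` of `X₁`, `C := N.comap f`, a `UNode` of `X` (`unode_comap_iff`) with `f.ker ≤ C`.  For `M ≥ C`
a `UNode` of `X`, `f.ker ≤ M`, so `g M = g' M`; hence `hs g C = hs g' C` (`hs_congr`).  `hh g x ≡ hs g C x = hs g' C x ≡ hh g' x` modulo `C`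
(`hh_spec`), so `(f (hh g x))⁻¹ * f (hh g' x) ∈ N`.  This for all `N`; `Sep X₁`. -/
theorem hh_local (hX : Sep X) (hX₁ : Sep X₁) (f : X →* X₁) (hf : Function.Surjective f)
    {g g' : Subgroup X → ℕ} (h : ∀ M : Subgroup X, UNode M → f.ker ≤ M → g M = g' M) (x : Fr) :
    f (hh g x) = f (hh g' x) := by
  have key : (f (hh g x))⁻¹ * f (hh g' x) = 1 := by
    refine hX₁ _ fun N hN => ?_
    have hr : f.range ⊔ N = ⊤ := by
      rw [MonoidHom.range_eq_top.2 hf]
      exact top_sup_eq N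
    have hC : UNode (N.comap f) := (unode_comap_iff hN.normal f hr).2 hN
    have hk : f.ker ≤ N.comap f := by
      intro a ha
      rw [mem_comap, (MonoidHom.mem_ker).1 ha]
      exact one_mem N
    have hs : hs g (N.comap f) = hs g' (N.comap f) :=
      hs_congr g g' hC fun M hM hle => h M hM (hk.trans hle)
    have h1 := hh_spec hX g hC x
    have h2 := hh_spec hX g' hC x
    rw [← hs] at h2
    have h3 : (hh g x)⁻¹ * hh g' x ∈ N.comap f := by
      have e : (hh g x)⁻¹ * hh g' x = ((hh g x)⁻¹ * Pool.Agent.Lib.H65F.hs g (N.comap f) x) *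
          ((hh g' x)⁻¹ * Pool.Agent.Lib.H65F.hs g (N.comap f) x)⁻¹ := by group
      rw [e]
      exact mul_mem h1 (inv_mem h2)
    rw [mem_comap, map_mul, map_inv] at h3
    exact h3
  exact inv_mul_eq_one.1 key

/-- PROOF. `(N.comap f).comap (hh g) = (N.comap f).comap (hs g (N.comap f))` (`comap_hh_eq`). -/
theorem comap_comp_hh (hX : Sep X) (f : X →* X₁) (hf : Function.Surjective f)
    (g : Subgroup X → ℕ) {N : Subgroup X₁} (hN : UNode N) :
    UNode (N.comap f) ∧ f.ker ≤ N.comap f ∧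
      N.comap (f.comp (hh g)) = (N.comap f).comap (hs g (N.comap f)) := by
  have hr : f.range ⊔ N = ⊤ := by
    rw [MonoidHom.range_eq_top.2 hf]
    exact top_sup_eq N
  have hC : UNode (N.comap f) := (unode_comap_iff hN.normal f hr).2 hN
  refine ⟨hC, ?_, ?_⟩
  · intro a ha
    rw [mem_comap, (MonoidHom.mem_ker).1 ha]
    exact one_mem N
  · rw [← comap_comap]
    exact comap_hh_eq hX g hC

/-- PROOF. If `f (hh g x)` lies in all `UNode`s of `X₁` it is `1`. -/
theorem ker_comp_hh (hX₁ : Sep X₁) (f : X →* X₁) (g : Subgroup X → ℕ) {K : Subgroup Fr}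
    (h : ∀ N : Subgroup X₁, UNode N → K ≤ N.comap (f.comp (hh g))) :
    K ≤ (f.comp (hh g)).ker := by
  intro a ha
  rw [MonoidHom.mem_ker]
  exact hX₁ _ fun N hN => h N hN ha

end Pool.Agent.Lib.H65F
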