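import Pool.Agent.Lib.H65F.L2
import Pool.Agent.Lib.H65F.L2b
import Pool.Agent.Lib.H65F.L6

/-! Chunk L7: the kernels lie in the bounded sets `ks`. -/

set_option autoImplicit false

namespace Pool.Agent.Lib.H65F

open Subgroup Pool.Agent.H69

variable {X Y : Type} [Group X] [Finite X] [Group Y] [Finite Y]

/-- PROOF. Well-founded induction on `C` upwards.  Let `N`, `T`, `u`, `v` be given by `hlab C hC` (`u.ker = C`,
`v.ker = N`); `subst`.  `φ := hs g (up C)`, `β : Fr →* Y` with `v (β f) = u (φ f)` (`exists_transfer_hom`).  Then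
`LSet C φ z = LSet N β z` (`LSet_transfer`, the hypothesis holds since `(u (φ f))⁻¹ * v (β f) = 1`).
`(up N).comap β = (up C).comap φ` (`up_ker`: both are `{f | u (φ f) ∈ up ⊥}`).  `β.range ⊔ up N = ⊤`: given `t : Y` choose
`x : X` with `u x = v t`, `x = φ f * c` with `c ∈ up C` (`φ.range ⊔ up C = ⊤` by `hs_spec` for `up C`, or trivially if `up C = ⊤`),
so `(v (β f))⁻¹ * v t = u c ∈ up ⊥`, `(β f)⁻¹ * t ∈ up N`.  If `up C = ⊤`: `(up N).comap β = ⊤ ∈ ks Y Λ 0`, so
`C.comap (hs g C) = pick (LSet N β (g C)) ∈ ks Y Λ 1`, `j := 1`, `2 ≤ C.index` as `C ≠ ⊤`.  Otherwise by induction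
`(up C).comap φ ∈ ks Y Λ j` with `2 ^ j ≤ (up C).index`, and `C.comap (hs g C) ∈ ks Y Λ (j + 1)`,
`C.index = (up C).index * C.relIndex (up C) ≥ 2 * (up C).index` (`Subgroup.relIndex_mul_index`). -/
theorem hs_mem_ks (hlab : Lab X Y) (Λ : Finset ℕ) (g : Subgroup X → ℕ) {C : Subgroup X}
    (hC : UNode C) (hg : ∀ M : Subgroup X, UNode M → C ≤ M → g M ∈ Λ) :
    ∃ j : ℕ, 2 ^ j ≤ C.index ∧ C.comap (hs g C) ∈ ks Y Λ j := by
  induction hn : C.index using Nat.strong_induction_on generalizing C with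
  | _ n ih =>
  obtain ⟨N, hN, T, iT, u, v, hu, hv, rfl, rfl⟩ := hlab C hC
  have hCn : u.ker.Normal := hC.normal
  have hNn : v.ker.Normal := hN.normal
  have hlt : u.ker < up u.ker := hC.isNode.lt_up
  have hCfi : u.ker.index ≠ 0 := Subgroup.index_ne_zero_of_finite
  have hspec := hs_spec g hC
  obtain ⟨β, hβ⟩ := exists_transfer_hom u v hv (hs g (up u.ker))
  have hL : LSet u.ker (hs g (up u.ker)) (g u.ker) = LSet v.ker β (g u.ker) := by
    refine LSet_transfer u v hu hv _ β ?_ _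
    intro f
    rw [hβ, inv_mul_cancel]
    exact one_mem _
  have hcom : (up v.ker).comap β = (up u.ker).comap (hs g (up u.ker)) := by
    have e1 := up_ker u hu
    have e2 := up_ker v hv
    ext f
    rw [mem_comap, mem_comap]
    generalize hs g (up u.ker) = φ at hβ ⊢
    rw [e1, e2, mem_comap, mem_comap, hβ]
  have hrange : (hs g (up u.ker)).range ⊔ up u.ker = ⊤ := by
    by_cases ht : up u.ker = ⊤
    · rw [ht]
      exact sup_top_eq _
    · have h1 := (hs_spec g (hC.up_unode ht)).1.surj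
      exact h1
  have hβr : β.range ⊔ up v.ker = ⊤ := by
    rw [eq_top_iff]
    intro t _
    obtain ⟨x, hx⟩ := hu (v t)
    have hx' : x ∈ (hs g (up u.ker)).range ⊔ up u.ker := hrange ▸ mem_top x
    have hupn : (up u.ker).Normal := up_normal _
    have hupn' : (up v.ker).Normal := up_normal _
    obtain ⟨a, ⟨f, rfl⟩, c, hc, hac⟩ := Subgroup.mem_sup_of_normal_right.1 hx'
    refine Subgroup.mem_sup_of_normal_right.2 ⟨β f, ⟨f, rfl⟩, (β f)⁻¹ * t, ?_, by group⟩
    rw [up_ker v hv, mem_comap, map_mul, map_inv, hβ, ← hx, ← hac, map_mul, inv_mul_cancel_left]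
    rw [up_ker u hu] at hc
    exact hc
  have hg0 : g u.ker ∈ Λ := hg _ hC le_rfl
  have hpick : u.ker.comap (hs g u.ker) = pick (LSet v.ker β (g u.ker)) := by
    rw [← hL]
    exact hspec.2.1
  by_cases ht : up u.ker = ⊤
  · refine ⟨1, ?_, ?_⟩
    · have h1 : u.ker.index ≠ 1 := fun h => hC.ne_top (Subgroup.index_eq_one.1 h)
      omega
    · refine ⟨v.ker, hN, β, hβr, ?_, g u.ker, hg0, hpick⟩
      rw [hcom, ht]
      exact comap_top _
  · have hU := hC.up_unode ht
    have hrel : u.ker.relIndex (up u.ker) * (up u.ker).index = u.ker.index :=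
      Subgroup.relIndex_mul_index hlt.le
    have hrel2 : 2 ≤ u.ker.relIndex (up u.ker) := by
      have h0 : u.ker.relIndex (up u.ker) ≠ 0 := by
        intro h
        rw [h, zero_mul] at hrel
        exact hCfi hrel.symm
      have h1 : u.ker.relIndex (up u.ker) ≠ 1 := by
        intro h
        exact hlt.not_ge (Subgroup.relIndex_eq_one.1 h)
      omega
    have hidx : 2 * (up u.ker).index ≤ u.ker.index := by
      rw [← hrel]
      exact Nat.mul_le_mul_right _ hrel2
    have hupos : 0 < (up u.ker).index := Nat.pos_of_ne_zero Subgroup.index_ne_zero_of_finite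
    obtain ⟨j, hj1, hj2⟩ := ih (up u.ker).index (by omega) hU
      (fun M hM hle' => hg M hM (hlt.le.trans hle')) rfl
    refine ⟨j + 1, ?_, ?_⟩
    · rw [pow_succ]
      omega
    · refine ⟨v.ker, hN, β, hβr, ?_, g u.ker, hg0, hpick⟩
      rw [hcom]
      exact hj2

end Pool.Agent.Lib.H65F
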