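import Pool.Agent.Lib.H65F.L2
import Pool.Agent.Lib.H65F.L2b
import Pool.Agent.Lib.H65F.L6
import Pool.Agent.Lib.H65F.L7

/-! Chunk L7b: the kernels lie in the bounded sets `ks`. -/

set_option autoImplicit false

namespace Pool.Agent.Lib.H65F

open Subgroup Pool.Agent.H69

variable {X Y : Type} [Group X] [Finite X] [Group Y] [Finite Y]

/-- PROOF. Let `N` be a `UNode` of `X₁`; `C := N.comap f` (`comap_comp_hh`), `N.comap (f.comp (hh g)) = C.comap (hs g C) ∈ ks Y Λ j`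
with `2 ^ j ≤ C.index` (`hs_mem_ks`).  `C.index ≤ Nat.card Y`: with `T`, `u`, `v` from `hlab`, `C.index = |T| ≤ |Y|`.  So
`j ≤ |Y|` (`Nat.lt_two_pow_self`) and `RB Y Λ ≤ C.comap (hs g C)` (`sInf_le`).  Conclude with `ker_comp_hh`. -/
theorem RB_le_ker {X₁ : Type} [Group X₁] (hX : Sep X) (hX₁ : Sep X₁) (hlab : Lab X Y)
    (f : X →* X₁) (hf : Function.Surjective f) (Λ : Finset ℕ) (g : Subgroup X → ℕ)
    (hg : ∀ M : Subgroup X, UNode M → f.ker ≤ M → g M ∈ Λ) :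
    RB Y Λ ≤ (f.comp (hh g)).ker := by
  refine ker_comp_hh hX₁ f g ?_
  intro N hN
  obtain ⟨hC, hk, he⟩ := comap_comp_hh hX f hf g hN
  rw [he]
  obtain ⟨j, hj1, hj2⟩ := hs_mem_ks hlab Λ g hC fun M hM hle => hg M hM (hk.trans hle)
  obtain ⟨N', hN', T, iT, u, v, hu, hv, hu', hv'⟩ := hlab _ hC
  have h1 : (N.comap f).index ≤ Nat.card Y := by
    rw [← hu', Subgroup.index_ker, MonoidHom.range_eq_top.2 hu, Subgroup.card_top]
    exact Nat.card_le_card_of_surjective v hv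
  have h2 : j < 2 ^ j := Nat.lt_two_pow_self
  exact sInf_le ⟨j, by omega, hj2⟩

end Pool.Agent.Lib.H65F
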