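import Pool.Agent.Lib.H65F.D0

/-! Chunk N2: primality of nodes. -/

set_option autoImplicit false

namespace Pool.Agent.Lib.H65F

open Subgroup Pool.Agent.H69

variable {Γ : Type} [Group Γ]

theorem n2_comm {N A B : Subgroup Γ} (hN : N.Normal) (hA : A.Normal) (hB : B.Normal)
    (h : A ⊓ B ≤ N) : ⁅A ⊔ N, B ⊔ N⁆ ≤ N := by
  have h1 : ⁅A, B⁆ ≤ N := (commutator_le_inf A B).trans h
  rw [commutator_le]
  intro x hx y hy
  obtain ⟨a, ha, n, hn, rfl⟩ := Subgroup.mem_sup_of_normal_right.mp hx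
  obtain ⟨b, hb, m, hm, rfl⟩ := Subgroup.mem_sup_of_normal_right.mp hy
  have hc : a * b * a⁻¹ * b⁻¹ ∈ N := h1 (commutator_mem_commutator ha hb)
  change (a * n) * (b * m) * (a * n)⁻¹ * (b * m)⁻¹ ∈ N
  rw [← QuotientGroup.eq_one_iff] at hn hm hc ⊢
  simp only [QuotientGroup.mk_mul, QuotientGroup.mk_inv, hn, hm, mul_one] at hc ⊢
  exact hc

/-- PROOF. Suppose `¬ A ≤ N` and `¬ B ≤ N`.  `A ⊔ N` is normal and `N < A ⊔ N`, so
`up N ≤ A ⊔ N` (`up_le`); in the same way `up N ≤ B ⊔ N`.  Hence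
`⁅up N, up N⁆ ≤ ⁅A ⊔ N, B ⊔ N⁆ ≤ ⁅A, B⁆ ⊔ N` (normal subgroups: `Subgroup.commutator_mono`;
for the second step use generators `Subgroup.commutator_le` and compute modulo `N`: if
`x = a n`, `y = b m` then `⁅x, y⁆ ≡ ⁅a, b⁆` modulo `N`, e.g. with the map
`QuotientGroup.mk' N`).  And `⁅A, B⁆ ≤ A ⊓ B ≤ N` (`Subgroup.commutator_le_inf`).  So
`⁅up N, up N⁆ ≤ N`, contradicting `hN.nab`. -/
theorem IsNode.prime {N A B : Subgroup Γ} (hN : IsNode N) (hA : A.Normal) (hB : B.Normal)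
    (h : A ⊓ B ≤ N) : A ≤ N ∨ B ≤ N := by
  by_contra hcon
  push Not at hcon
  obtain ⟨h1, h2⟩ := hcon
  have hNn := hN.normal
  have e1 : up N ≤ A ⊔ N := up_le inferInstance
    (lt_of_le_of_ne le_sup_right fun he => h1 (he ▸ le_sup_left))
  have e2 : up N ≤ B ⊔ N := up_le inferInstance
    (lt_of_le_of_ne le_sup_right fun he => h2 (he ▸ le_sup_left))
  exact hN.nab ((commutator_mono e1 e2).trans (n2_comm hNn hA hB h))

/-- PROOF. Induction on the finite set `s` (`Finset.induction_on`).  Empty: the infimum is `⊤`, so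
`N = ⊤`, impossible (`IsNode.ne_top`).  Step: `⨅ i ∈ insert j s, A i = A j ⊓ ⨅ i ∈ s, A i`
(`Finset.iInf_insert`), an infimum of normal subgroups is normal; use `IsNode.prime`. -/
theorem IsNode.prime_finset {ι : Type} {N : Subgroup Γ} (hN : IsNode N) (s : Finset ι)
    (A : ι → Subgroup Γ) (hA : ∀ i ∈ s, (A i).Normal) (h : (⨅ i ∈ s, A i) ≤ N) :
    ∃ i ∈ s, A i ≤ N := by
  classical
  induction s using Finset.induction_on with
  | empty =>
    exfalso
    simp only [Finset.notMem_empty, iInf_false, iInf_top] at h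
    exact hN.ne_top (top_le_iff.mp h)
  | insert j s hj ih =>
    rw [Finset.iInf_insert] at h
    have hn : (⨅ i ∈ s, A i).Normal := by
      constructor
      intro x hx g
      simp only [mem_iInf] at hx ⊢
      intro i hi
      exact (hA i (Finset.mem_insert_of_mem hi)).conj_mem x (hx i hi) g
    rcases hN.prime (hA j (Finset.mem_insert_self j s)) hn h with h1 | h1
    · exact ⟨j, Finset.mem_insert_self j s, h1⟩
    · obtain ⟨i, hi, hi2⟩ := ih (fun i hi => hA i (Finset.mem_insert_of_mem hi)) h1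
      exact ⟨i, Finset.mem_insert_of_mem hi, hi2⟩

/-- PROOF. Use `IsNode.prime_finset` with `Finset.univ` (`Fintype.ofFinite`). -/
theorem IsNode.prime_finite {ι : Type} [Finite ι] {N : Subgroup Γ} (hN : IsNode N)
    (A : ι → Subgroup Γ) (hA : ∀ i, (A i).Normal) (h : (⨅ i, A i) ≤ N) : ∃ i, A i ≤ N := by
  have := Fintype.ofFinite ι
  obtain ⟨i, -, hi⟩ := hN.prime_finset Finset.univ A (fun i _ => hA i) (by simpa using h)
  exact ⟨i, hi⟩

end Pool.Agent.Lib.H65F
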