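import Pool.Agent.Lib.H65F.N5
import Pool.Agent.Lib.H65F.N5b

/-! Chunk U0: the tower property and nodes. -/

set_option autoImplicit false

namespace Pool.Agent.Lib.H65F

open Subgroup Pool.Agent.H69

theorem u0_min {A B : Type} [Group A] [Group B] (e : A ≃* B) {K : Subgroup A}
    (h : IsMinNormal K) : IsMinNormal (K.map e.toMonoidHom) := by
  refine ⟨h.1.map _ e.surjective, ?_, ?_⟩
  · intro h0
    exact h.2.1 ((Subgroup.map_eq_bot_iff_of_injective K (f := e.toMonoidHom) e.injective).mp h0)
  · intro C hC hCK hC0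
    have h1 : (C.comap e.toMonoidHom).Normal := hC.comap _
    have h2 : C.comap e.toMonoidHom ≤ K := by
      intro y hy
      obtain ⟨z, hz, hze⟩ := hCK hy
      have h3 : z = y := e.injective hze
      rwa [← h3]
    have h3 : C.comap e.toMonoidHom ≠ ⊥ := by
      intro h0
      apply hC0
      rw [eq_bot_iff]
      intro y hy
      have h4 : e.symm y ∈ C.comap e.toMonoidHom := by
        rw [Subgroup.mem_comap]
        have : e.toMonoidHom (e.symm y) = y := e.apply_symm_apply y
        rwa [this]
      rw [h0, mem_bot] at h4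
      rw [mem_bot, ← e.apply_symm_apply y, h4, map_one]
    have h4 := h.2.2 _ h1 h2 h3
    rw [← h4]
    exact (Subgroup.map_comap_eq_self_of_surjective (f := e.toMonoidHom) e.surjective C).symm

/-- PROOF. Let `e : P ≃* Q`.  For `M` normal in `Q` and `K : Subgroup M` minimal normal in `M` put
`M₁ := M.comap e` (normal in `P`), `e₁ : M₁ ≃* M` the restriction of `e`
(e.g. `e.subgroupMap`, or `M₁ := M.map e.symm`), `K₁ := K.comap e₁`, minimal normal in `M₁`
(`IsMinNormal` is invariant under isomorphisms).  There is a surjection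
`P →* ModCentralizer K₁`; compose `Q ≃* P`, this surjection, and the isomorphism
`M₁ ⧸ centralizer K₁ ≃* M ⧸ centralizer K` (`QuotientGroup.congr`, the image of the centralizer of
`K₁` under `e₁` is the centralizer of `K`). -/
theorem isTower_of_equiv {P Q : Type} [Group P] [Group Q] (e : P ≃* Q) (h : IsTower P) :
    IsTower Q := by
  intro M hM K hKn hK
  let M₁ : Subgroup P := M.map (e.symm : Q →* P)
  have hM₁ : M₁.Normal := hM.map _ e.symm.surjective
  let e₁ : M ≃* M₁ := e.symm.subgroupMap M
  let K₁ : Subgroup M₁ := K.map e₁.toMonoidHom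
  have hK₁n : K₁.Normal := hKn.map _ e₁.surjective
  have hK₁ : IsMinNormal K₁ := u0_min e₁ hK
  obtain ⟨f, hf⟩ := h M₁ hM₁ K₁ hK₁
  have hle : centralizer (K₁ : Set M₁) ≤ (centralizer (K : Set M)).comap e₁.symm.toMonoidHom := by
    intro z hz
    rw [Subgroup.mem_comap, mem_centralizer_iff]
    intro y hy
    have h1 := (mem_centralizer_iff.mp hz) (e₁ y) ⟨y, hy, rfl⟩
    have h2 := congrArg e₁.symm h1
    rw [map_mul, map_mul, e₁.symm_apply_apply] at h2
    exact h2
  let g : (M₁ ⧸ centralizer (K₁ : Set M₁)) →* (M ⧸ centralizer (K : Set M)) :=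
    QuotientGroup.map _ _ e₁.symm.toMonoidHom hle
  have hg : Function.Surjective g := by
    intro y
    obtain ⟨m, rfl⟩ := QuotientGroup.mk'_surjective _ y
    refine ⟨QuotientGroup.mk' _ (e₁ m), ?_⟩
    show QuotientGroup.map _ _ e₁.symm.toMonoidHom hle (QuotientGroup.mk' _ (e₁ m)) = _
    rw [QuotientGroup.mk'_apply, QuotientGroup.map_mk]
    have : e₁.symm.toMonoidHom (e₁ m) = m := e₁.symm_apply_apply m
    rw [this]
    rfl
  let f' : P →* (M₁ ⧸ centralizer (K₁ : Set M₁)) := f
  have hf' : Function.Surjective f' := hf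
  exact ⟨(g.comp f').comp e.symm.toMonoidHom, (hg.comp hf').comp e.symm.surjective⟩

end Pool.Agent.Lib.H65F
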