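import Pool.Agent.Lib.H65F.N5
import Pool.Agent.Lib.H65F.N5b
import Pool.Agent.Lib.H65F.U0

/-! Chunk U0b: the tower property and nodes. -/

set_option autoImplicit false

namespace Pool.Agent.Lib.H65F

open Subgroup Pool.Agent.H69

/-- PROOF. Let `B := up ⊥`: it is a monolith of `P`, not abelian (`IsNode.isMonolith`), so
`centralizer B = ⊥` (`centralizer_monolith_eq_bot`, library H69).  `h2` (unfold `CondTower'`, it
is `CondTower F`, see `condTower_iff`) for `G := P`, `A := B` says
`IsTower (P ⧸ centralizer B)`, and `P ⧸ centralizer B ≃* P ⧸ ⊥ ≃* P` (`QuotientGroup.quotientMulEquivOfEq`,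
`QuotientGroup.quotientBot`); use `isTower_of_equiv`. -/
theorem isTower_of_node {F : Formation} (h2 : CondTower' F) {P : Type} [Group P] (hP : F.mem P)
    (hn : IsNode (⊥ : Subgroup P)) : IsTower P := by
  obtain ⟨hm, hna⟩ := hn.isMonolith
  have hB : (up (⊥ : Subgroup P)).Normal := up_normal _
  have hc : centralizer ((up (⊥ : Subgroup P) : Subgroup P) : Set P) = ⊥ :=
    centralizer_monolith_eq_bot hm hna
  have h3 : IsTower (ModCentralizer (up (⊥ : Subgroup P))) :=
    ((condTower_iff F).mpr h2) P hP (up ⊥) hm.minNormal ((not_comm_iff _).mpr hna)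
  let e : (P ⧸ centralizer ((up (⊥ : Subgroup P) : Subgroup P) : Set P)) ≃* P :=
    (QuotientGroup.quotientMulEquivOfEq hc).trans QuotientGroup.quotientBot
  exact isTower_of_equiv (P := P ⧸ centralizer ((up (⊥ : Subgroup P) : Subgroup P) : Set P)) e h3

/-- PROOF. (⇒) For `G` in `F` and `C` a node of `G`: `G ⧸ C` is in `F` and `⊥` is a node of it
(`isNode_iff_quotient`); `isTower_of_node`.  (⇐) For `G` in `F`, `A` minimal normal nonabelian,
`C := centralizer A` is a node (`isNode_centralizer`), and `IsTower (G ⧸ C)` is what `CondTower'` asks. -/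
theorem condTower_iff_nodes (F : Formation) : CondTower' F ↔
    ∀ (G : Type) [Group G], F.mem G → ∀ (C : Subgroup G) [C.Normal], IsNode C → IsTower (G ⧸ C) := by
  constructor
  · intro h2 G _ hG C hC hn
    exact isTower_of_node h2 (F.quot G C hG) ((isNode_iff_quotient C).1.mp hn)
  · intro h G _ hG A _ hA hna
    have hn := (isNode_centralizer hA ((not_comm_iff A).mp hna)).1
    have h1 : IsTower (G ⧸ centralizer (A : Set G)) := h G hG (centralizer (A : Set G)) hn
    exact h1

end Pool.Agent.Lib.H65F
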