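import Pool.Agent.Lib.H65F.N5
import Pool.Agent.Lib.H65F.N5b

/-! Chunk U1: the inner lemma.  `RelN M K` (H69): `K ≤ M` and `M` normalises `K`. -/

set_option autoImplicit false

namespace Pool.Agent.Lib.H65F

open Subgroup Pool.Agent.H69

theorem u1_rel {P : Type} [Group P] {M K : Subgroup P} (hM : M.Normal) (h : RelN M K) (x : P) :
    RelN M (cj x K) := by
  refine ⟨?_, ?_⟩
  · intro y hy
    rw [mem_cj] at hy
    have := hM.conj_mem _ (h.1 hy) x
    have e : x * (x⁻¹ * y * x) * x⁻¹ = y := by group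
    rwa [e] at this
  · intro n hn k hk
    rw [mem_cj] at hk ⊢
    have h3 := h.2 (x⁻¹ * n * x) (by
      have := hM.conj_mem n hn x⁻¹
      rwa [inv_inv] at this) _ hk
    have e : x⁻¹ * n * x * (x⁻¹ * k * x) * (x⁻¹ * n * x)⁻¹ = x⁻¹ * (n * k * n⁻¹) * x := by
      group
    rwa [e] at h3

theorem u1_cj_mem {P : Type} [Group P] {K : Subgroup P} {k : P} (hk : k ∈ K) (x : P) :
    x * k * x⁻¹ ∈ cj x K := by
  rw [mem_cj]
  have e : x⁻¹ * (x * k * x⁻¹) * x = k := by group
  rwa [e]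

theorem u1_cent {P : Type} [Group P] {K : Subgroup P} {c : P}
    (hc : c ∈ centralizer (K : Set P)) (x : P) :
    x * c * x⁻¹ ∈ centralizer ((cj x K : Subgroup P) : Set P) := by
  rw [mem_centralizer_iff]
  intro y hy
  rw [SetLike.mem_coe, mem_cj] at hy
  have h1 := (mem_centralizer_iff.mp hc) _ hy
  have e1 : y * (x * c * x⁻¹) = x * (x⁻¹ * y * x * c) * x⁻¹ := by group
  have e2 : x * c * x⁻¹ * y = x * (c * (x⁻¹ * y * x)) * x⁻¹ := by group
  rw [e1, e2, h1]

theorem u1_rel_sup {P : Type} [Group P] {M L K : Subgroup P} (hL : RelN M L) (hK : RelN M K) :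
    RelN M (L ⊔ K) := by
  refine ⟨sup_le hL.1 hK.1, fun n hn k hk => ?_⟩
  have h1 : cj n (L ⊔ K) ≤ L ⊔ K := by
    unfold cj
    rw [Subgroup.map_sup]
    refine sup_le_sup ?_ ?_
    · rintro _ ⟨y, hy, rfl⟩
      exact hL.2 n hn y hy
    · rintro _ ⟨y, hy, rfl⟩
      exact hK.2 n hn y hy
  exact h1 (u1_cj_mem hk n)

theorem u1_cent_sup {P : Type} [Group P] {L K : Subgroup P} {z : P}
    (h1 : z ∈ centralizer (L : Set P)) (h2 : z ∈ centralizer (K : Set P)) :
    z ∈ centralizer ((L ⊔ K : Subgroup P) : Set P) := by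
  rw [← zpowers_le] at h1 h2 ⊢
  rw [le_centralizer_iff] at h1 h2 ⊢
  exact sup_le h1 h2

/-- `cj x K` (H69) is the conjugate `x K x⁻¹`.
PROOF of the lemma.  The set `𝓛` of `L ≤ B` with `RelN M L` and `N ≤ L ⊔ centralizer L` contains `⊥`
(`centralizer ⊥ = ⊤`); let `L` be a maximal element (`P` is finite).  Claim: `cj x K ≤ L` for all
`x : P`.  As `N`, `M`, `B` are normal in `P`, the conjugate `K' := cj x K` has the same properties as
`K`: `K' ≤ B`, `RelN M K'`, minimality, `N ≤ K' ⊔ centralizer K'`.  If `¬ K' ≤ L` then `K' ⊓ L = ⊥`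
(`RelN M (K' ⊓ L)` and minimality of `K'`), so `K'` and `L` commute elementwise (for `k ∈ K'`, `l ∈ L`
the commutator lies in `K' ⊓ L` as both are normalised by `M ⊇ K', L`; H69: `RelN.comm_of_inf`).  Then
`L ⊔ K'` is in `𝓛`: for `m ∈ N` write `m = l c = k c'` with `l ∈ L`, `c ∈ centralizer L`, `k ∈ K'`,
`c' ∈ centralizer K'`; then `(l k)⁻¹ m` commutes with `L` (on `L`, conjugation by `m` is conjugation by `l`,
and `k` acts trivially) and with `K'` (conjugation by `m` is conjugation by `k`, and `l` acts trivially), so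
`m = (l k) ((l k)⁻¹ m)` lies in `(L ⊔ K') ⊔ centralizer (L ⊔ K')`.  This contradicts maximality.  So `L`
contains the subgroup generated by all `cj x K`, which is normal in `P`, `≠ ⊥`, `≤ B`, hence equal to
`B` (`hB.2.2`).  So `L = B` and `N ≤ B ⊔ centralizer B = B`. -/
theorem inner_lemma {P : Type} [Group P] [Finite P] {B M N K : Subgroup P} (hB : IsMinNormal B)
    (hBc : centralizer (B : Set P) = ⊥) (hM : M.Normal) (hN : N.Normal) (hBM : B ≤ M)
    (hNM : N ≤ M) (hKB : K ≤ B) (hK0 : K ≠ ⊥) (hKM : RelN M K)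
    (hmin : ∀ L : Subgroup P, RelN M L → L ≤ K → L ≠ ⊥ → L = K)
    (hNK : N ≤ K ⊔ centralizer (K : Set P)) : N ≤ B := by
  let S : Set (Subgroup P) := {L | L ≤ B ∧ RelN M L ∧ N ≤ L ⊔ centralizer (L : Set P)}
  have hbot : (⊥ : Subgroup P) ∈ S := by
    refine ⟨bot_le, ⟨bot_le, fun n _ k hk => ?_⟩, ?_⟩
    · rw [mem_bot] at hk ⊢
      rw [hk]
      group
    · intro y _
      refine (le_sup_right : centralizer ((⊥ : Subgroup P) : Set P) ≤ _) ?_
      rw [mem_centralizer_iff]
      intro z hz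
      rw [SetLike.mem_coe, mem_bot] at hz
      rw [hz, one_mul, mul_one]
  obtain ⟨L, hL⟩ := (Set.toFinite S).exists_maximal ⟨⊥, hbot⟩
  obtain ⟨hLB, hLM, hNL⟩ := hL.prop
  have hBn := hB.1
  have hle : ∀ x : P, cj x K ≤ L := by
    intro x
    by_contra hx
    have hK'M : RelN M (cj x K) := u1_rel hM hKM x
    have hK'B : cj x K ≤ B := by
      intro y hy
      rw [mem_cj] at hy
      have := hBn.conj_mem _ (hKB hy) x
      have e : x * (x⁻¹ * y * x) * x⁻¹ = y := by group
      rwa [e] at this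
    have hinf : cj x K ⊓ L = ⊥ := by
      by_contra h0
      have h1 : RelN M (cj x⁻¹ (cj x K ⊓ L)) := u1_rel hM (hK'M.inf hLM) _
      have h2 : cj x⁻¹ (cj x K ⊓ L) ≤ K := by
        intro y hy
        rw [mem_cj] at hy
        have h3 : x⁻¹⁻¹ * y * x⁻¹ ∈ cj x K := (mem_inf.mp hy).1
        rw [mem_cj] at h3
        have e : x⁻¹ * (x⁻¹⁻¹ * y * x⁻¹) * x = y := by group
        rwa [e] at h3
      have h3 : cj x⁻¹ (cj x K ⊓ L) ≠ ⊥ := by
        intro h4
        apply h0
        rw [eq_bot_iff] at h4 ⊢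
        intro y hy
        have h5 := h4 (u1_cj_mem hy x⁻¹)
        rw [mem_bot] at h5 ⊢
        have e : y = x * (x⁻¹ * y * x⁻¹⁻¹) * x⁻¹ := by group
        rw [e, h5]
        group
      have h4 := hmin _ h1 h2 h3
      apply hx
      intro y hy
      rw [mem_cj, ← h4, mem_cj] at hy
      have e : x⁻¹⁻¹ * (x⁻¹ * y * x) * x⁻¹ = y := by group
      rw [e] at hy
      exact (mem_inf.mp hy).2
    have hKL : cj x K ≤ centralizer (L : Set P) := hK'M.comm_of_inf hLM hinf
    have hLK : L ≤ centralizer ((cj x K : Subgroup P) : Set P) := le_centralizer_iff.mp hKL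
    have hmem : L ⊔ cj x K ∈ S := by
      refine ⟨sup_le hLB hK'B, u1_rel_sup hLM hK'M, ?_⟩
      intro m hm
      obtain ⟨l, hl, c, hc, rfl⟩ := (mem_sup_centralizer L m).mp (hNL hm)
      have hm' : x⁻¹ * (l * c) * x ∈ N := by
        have := hN.conj_mem _ hm x⁻¹
        rwa [inv_inv] at this
      obtain ⟨k, hk, c', hc', hkc⟩ := (mem_sup_centralizer K _).mp (hNK hm')
      have hk' := u1_cj_mem hk x
      have hc'' := u1_cent hc' x
      have hkc' : (x * k * x⁻¹) * (x * c' * x⁻¹) = l * c := by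
        have e : (x * k * x⁻¹) * (x * c' * x⁻¹) = x * (k * c') * x⁻¹ := by group
        rw [e, hkc]
        group
      generalize x * k * x⁻¹ = k1 at hk' hkc'
      generalize x * c' * x⁻¹ = c1 at hc'' hkc'
      have hcomm : l * k1 = k1 * l := (mem_centralizer_iff.mp (hKL hk')) l hl
      rw [mem_sup_centralizer]
      refine ⟨l * k1, mul_mem (le_sup_left (a := L) hl) (le_sup_right (b := cj x K) hk'),
        (l * k1)⁻¹ * (l * c), u1_cent_sup ?_ ?_, by group⟩
      · have e : (l * k1)⁻¹ * (l * c) = k1⁻¹ * c := by group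
        rw [e]
        exact mul_mem (inv_mem (hKL hk')) hc
      · have e : (l * k1)⁻¹ * (l * c) = l⁻¹ * c1 := by
          rw [hcomm, ← hkc']
          group
        rw [e]
        exact mul_mem (inv_mem (hLK hl)) hc''
    exact hx (le_sup_right.trans (hL.le_of_ge hmem le_sup_left))
  have hcl : normalClosure (K : Set P) ≤ L := by
    unfold normalClosure
    rw [closure_le]
    intro y hy
    rw [Group.mem_conjugatesOfSet_iff] at hy
    obtain ⟨a, ha, hay⟩ := hy
    obtain ⟨x, rfl⟩ := isConj_iff.mp hay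
    exact hle x (u1_cj_mem ha x)
  have hKcl : K ≤ normalClosure (K : Set P) := subset_normalClosure
  have hclB : normalClosure (K : Set P) = B := by
    refine hB.2.2 _ inferInstance (hcl.trans hLB) fun h0 => hK0 ?_
    rw [h0] at hKcl
    exact le_bot_iff.mp hKcl
  have hLB' : L = B := le_antisymm hLB (hclB ▸ hcl)
  rw [hLB', hBc, sup_bot_eq] at hNL
  exact hNL

end Pool.Agent.Lib.H65F
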