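import Pool.Agent.Lib.H65F.N5
import Pool.Agent.Lib.H65F.N5b

/-! Chunk U2: the quotient `M ⧸ centralizer K` for `K` minimal normal in `M ≥ B`, where `B = up ⊥` is
the monolith of `P`. -/

set_option autoImplicit false

namespace Pool.Agent.Lib.H65F

open Subgroup Pool.Agent.H69

variable {P : Type} [Group P] [Finite P]

/-- PROOF. `K` is not abelian (H69: `nonabelian_of_monolith`).  `IsMinNormal.monolith_quotient` for
`K` in the group `M`, and `isNode_bot_of_isMonolith`. -/
theorem isNode_quot_centralizer (hn : IsNode (⊥ : Subgroup P)) {M : Subgroup P} (hM : M.Normal)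
    {K : Subgroup M} [K.Normal] (hK : IsMinNormal K) :
    IsNode (⊥ : Subgroup (M ⧸ centralizer (K : Set M))) ∧
      up (⊥ : Subgroup (M ⧸ centralizer (K : Set M))) =
        K.map (QuotientGroup.mk' (centralizer (K : Set M))) := by
  obtain ⟨hm, hna⟩ := hn.isMonolith
  have hna' := nonabelian_of_monolith hm hna hM hK
  obtain ⟨m1, m2⟩ := hK.monolith_quotient hna'
  exact isNode_bot_of_isMonolith m1 (by rw [m2]; exact m1.2.1)

omit [Finite P] in
theorem u2_rel {M : Subgroup P} {K : Subgroup M} (hK : K.Normal) :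
    RelN M (K.map M.subtype) := by
  refine ⟨?_, ?_⟩
  · rintro _ ⟨y, -, rfl⟩
    exact y.2
  · rintro m hm _ ⟨k, hk, rfl⟩
    exact ⟨⟨m, hm⟩ * k * ⟨m, hm⟩⁻¹, hK.conj_mem k hk _, rfl⟩

omit [Finite P] in
theorem u2_min {M : Subgroup P} {K : Subgroup M} (hK : IsMinNormal K) {L : Subgroup P}
    (hL : RelN M L) (hLK : L ≤ K.map M.subtype) (h0 : L ≠ ⊥) : L = K.map M.subtype := by
  have h1 : (L.subgroupOf M).Normal := by
    constructor
    intro n hn g
    rw [mem_subgroupOf] at hn ⊢
    exact hL.2 g g.2 n hn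
  have h2 : L.subgroupOf M ≤ K := by
    intro y hy
    rw [mem_subgroupOf] at hy
    obtain ⟨z, hz, hzy⟩ := hLK hy
    have h3 : z = y := Subtype.ext hzy
    rwa [← h3]
  have h3 : L.subgroupOf M ≠ ⊥ := by
    intro h4
    rw [subgroupOf_eq_bot] at h4
    apply h0
    have h5 := h4.eq_bot
    rwa [inf_eq_left.mpr hL.1] at h5
  have h4 := hK.2.2 _ h1 h2 h3
  rw [← h4, subgroupOf_map_subtype, inf_eq_left.mpr hL.1]

/-- PROOF. `K` is a minimal normal subgroup of `M`, `B := up ⊥ ≤ M`, `B' := B.subgroupOf M` is normal in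
`M` and not `⊥`.  `K ⊓ B' = ⊥` is impossible: then `K` and `B'` commute elementwise, so `K.map M.subtype`
centralises `B`; but `centralizer B = ⊥`
(`centralizer_monolith_eq_bot`), so `K = ⊥`.  So `K ⊓ B' = K`, `K.map M.subtype ≤ B`.
`RelN M (K.map M.subtype)` and minimality are translations of `IsMinNormal K`. -/
theorem map_le_up_bot (hn : IsNode (⊥ : Subgroup P)) {M : Subgroup P} (hM : M.Normal)
    {K : Subgroup M} [K.Normal] (hK : IsMinNormal K) :
    K.map M.subtype ≤ up (⊥ : Subgroup P) ∧ K.map M.subtype ≠ ⊥ ∧ RelN M (K.map M.subtype) ∧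
      ∀ L : Subgroup P, RelN M L → L ≤ K.map M.subtype → L ≠ ⊥ → L = K.map M.subtype := by
  obtain ⟨hm, hna⟩ := hn.isMonolith
  have hc := centralizer_monolith_eq_bot hm hna
  have hBn := hm.1
  have hne : K.map M.subtype ≠ ⊥ := fun h =>
    hK.2.1 ((Subgroup.map_eq_bot_iff_of_injective K M.subtype_injective).mp h)
  have hrel : RelN M (K.map M.subtype) := u2_rel hK.1
  have hM0 : M ≠ ⊥ := by
    intro h
    apply hne
    exact le_bot_iff.mp (hrel.1.trans h.le)
  have hBM : up (⊥ : Subgroup P) ≤ M := hm.2.2 M hM hM0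
  have hrelB : RelN M (up (⊥ : Subgroup P)) := RelN.of_normal hBM hBn
  refine ⟨?_, hne, hrel, fun L hL hLK h0 => u2_min hK hL hLK h0⟩
  by_cases h : K.map M.subtype ⊓ up (⊥ : Subgroup P) = ⊥
  · exfalso
    have h1 := hrel.comm_of_inf hrelB h
    rw [hc] at h1
    exact hne (le_bot_iff.mp h1)
  · have h1 := u2_min hK (hrel.inf hrelB) inf_le_left h
    rw [← h1]
    exact inf_le_right

end Pool.Agent.Lib.H65F
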