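import Pool.Agent.Lib.H65F.N5
import Pool.Agent.Lib.H65F.N5b
import Pool.Agent.Lib.H65F.U2

/-! Chunk U2b: the quotient `M ⧸ centralizer K` for `K` minimal normal in `M ≥ B`, where `B = up ⊥` is
the monolith of `P`. -/

set_option autoImplicit false

namespace Pool.Agent.Lib.H65F

open Subgroup Pool.Agent.H69

variable {P : Type} [Group P] [Finite P]

/-- The subgroup `B = up ⊥` lies in `K C_M(K)`.
PROOF. `B` is a minimal normal subgroup of `P`, nonabelian.  `B' := B.subgroupOf M` is normal in `M`.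
We show `B' ≤ K ⊔ centralizer K` in `M`: `B` is a minimal normal subgroup of `P`, `K₁ := K.map M.subtype`
satisfies `K₁ ≤ B` and `RelN B K₁`
(from `map_le_up_bot`, `B ≤ M`).  H69: `IsMinNormal.le_sup_centralizer` gives `B ≤ K₁ ⊔ centralizer K₁`
(check its statement in MinNormal.lean); an element
`b = k c` of `B ≤ M` with `k ∈ K₁ ≤ M` has `c = k⁻¹ b ∈ M`. -/
theorem up_bot_le_sup_centralizer (hn : IsNode (⊥ : Subgroup P)) {M : Subgroup P} (hM : M.Normal)
    {K : Subgroup M} [K.Normal] (hK : IsMinNormal K) :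
    (up (⊥ : Subgroup P)).subgroupOf M ≤ K ⊔ centralizer (K : Set M) := by
  obtain ⟨hm, hna⟩ := hn.isMonolith
  obtain ⟨h1, h2, h3, -⟩ := map_le_up_bot hn hM hK
  have hM0 : M ≠ ⊥ := by
    intro h
    apply h2
    exact le_bot_iff.mp (h3.1.trans h.le)
  have hBM : up (⊥ : Subgroup P) ≤ M := hm.2.2 M hM hM0
  have hrel : RelN (up (⊥ : Subgroup P)) (K.map M.subtype) :=
    ⟨h1, fun n hn' k hk => h3.2 n (hBM hn') k hk⟩
  have h4 := hm.minNormal.le_sup_centralizer hrel
  intro m hmB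
  rw [mem_subgroupOf] at hmB
  obtain ⟨k, hk, c, hc, hkc⟩ := (mem_sup_centralizer _ _).mp (h4 hmB)
  obtain ⟨k', hk', rfl⟩ := hk
  rw [mem_sup_centralizer]
  refine ⟨k', hk', k'⁻¹ * m, ?_, by group⟩
  rw [mem_centralizer_iff]
  intro y hy
  have h5 := (mem_centralizer_iff.mp hc) (M.subtype y) ⟨y, hy, rfl⟩
  apply Subtype.ext
  have h6 : ((k'⁻¹ * m : M) : P) = c := by
    rw [Subgroup.coe_mul, Subgroup.coe_inv, ← hkc]
    show (k' : P)⁻¹ * ((k' : P) * c) = c
    group
  show (y : P) * ((k'⁻¹ * m : M) : P) = ((k'⁻¹ * m : M) : P) * (y : P)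
  rw [h6]
  exact h5

/-- PROOF. If `⊤ = K.map (mk' ..)` in `M ⧸ centralizer K`, then `M = K ⊔ centralizer K` (as subgroups of
`M`: comap of the equation), so for a subgroup `N ≤ M` of `P`, every element of `N` is `k c` with
`k ∈ K`, `c ∈ centralizer K`; hence `N ≤ K₁ ⊔ centralizer K₁` with `K₁ := K.map M.subtype`.  Apply
`inner_lemma`-hypothesis form: this theorem is only the translation.  More generally: for a subgroup
`N ≤ M` of `P` with `(N.subgroupOf M).map (mk' _) ≤ K.map (mk' _)`. -/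
theorem le_sup_centralizer_of_map_le {M : Subgroup P} {K : Subgroup M} [K.Normal]
    {N : Subgroup P} (hNM : N ≤ M)
    (h : (N.subgroupOf M).map (QuotientGroup.mk' (centralizer (K : Set M))) ≤
      K.map (QuotientGroup.mk' (centralizer (K : Set M)))) :
    N ≤ K.map M.subtype ⊔ centralizer ((K.map M.subtype : Subgroup P) : Set P) := by
  intro n hn
  obtain ⟨k, hk, hkn⟩ := h ⟨⟨n, hNM hn⟩, mem_subgroupOf.mpr hn, rfl⟩
  rw [QuotientGroup.mk'_apply, QuotientGroup.mk'_apply, QuotientGroup.eq] at hkn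
  rw [mem_sup_centralizer]
  refine ⟨(k : P), ⟨k, hk, rfl⟩, (k : P)⁻¹ * n, ?_, by group⟩
  rw [mem_centralizer_iff]
  rintro _ ⟨y, hy, rfl⟩
  exact congrArg Subtype.val ((mem_centralizer_iff.mp hkn) y hy)

end Pool.Agent.Lib.H65F
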