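import Pool.Agent.Lib.H65F.U0
import Pool.Agent.Lib.H65F.U0b
import Pool.Agent.Lib.H65F.U1
import Pool.Agent.Lib.H65F.U2
import Pool.Agent.Lib.H65F.U2b

/-! Chunk U4: two minimal layers above the monolith which generate the group. -/

set_option autoImplicit false

namespace Pool.Agent.Lib.H65F

open Subgroup Pool.Agent.H69

/-- `M₁`, `M₂` are two distinct minimal elements among the normal subgroups strictly above `B = up ⊥`, and
`M₁ ⊔ M₂ = ⊤`: impossible.
PROOF. `M₁ ⊓ M₂` is normal and `≥ B`, `≤ M₁`; if it is not `B` it equals `M₁` (minimality) and also `M₂`, so `M₁ = M₂`.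
So `M₁ ⊓ M₂ = B` and `⁅M₁, M₂⁆ ≤ B`.  `M₁ ≠ ⊤` (otherwise `M₂ ≤ M₁`, so `M₂ = M₁`... by minimality of `M₁`).  Let `K` be a
minimal normal subgroup of the group `M₁` (`exists_minNormal`), `C := centralizer K` in `M₁`, `Q := M₁ ⧸ C`,
`K~ := K.map (mk' C)`; `⊥` is a node of `Q` with `up ⊥ = K~` (`isNode_quot_centralizer`).  `IsTower P` gives a surjection
`φ : P →* Q`; `|Q| ≤ |M₁| < |P|`, so `φ.ker ≠ ⊥` and `B ≤ φ.ker`.  `φ(M₁)`, `φ(M₂)` commute elementwise (`⁅M₁, M₂⁆ ≤ B ≤ φ.ker`) and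
`φ(M₁) ⊔ φ(M₂) = ⊤`, both normal.  If both are `≠ ⊥` both contain `K~`, so `⁅K~, K~⁆ = ⊥`, contradiction with the node property.
So `φ(M_j) = ⊥` and `φ(M_i) = ⊤` for `{i, j} = {1, 2}`.  Claim: the only normal subgroups of `Q` are `⊥` and `⊤`.  Let `N'` be
normal in `Q` and `N := M_i ⊓ N'.comap φ`, normal in `P`, `B ≤ N ≤ M_i`; so `N = B` or `N = M_i` (minimality).  As `φ(M_i) = ⊤` we have
`N' = φ(N)` (for `q ∈ N'` take `m ∈ M_i` with `φ m = q`), so `N' = φ(B) = ⊥` or `N' = ⊤`.  Hence `K~ = ⊤`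
(`K~ ≠ ⊥`).  Then `M₁ ≤ K₁ ⊔ centralizer K₁` (`le_sup_centralizer_of_map_le` with `N := M₁`), and `inner_lemma` with
`M := M₁`, `N := M₁` gives `M₁ ≤ B`, contradiction. -/
theorem two_layers_top {F : Formation} (h2 : CondTower' F) {P : Type} [Group P] [Finite P]
    (hP : F.mem P) (hn : IsNode (⊥ : Subgroup P)) {M₁ M₂ : Subgroup P} (hM₁ : M₁.Normal)
    (hM₂ : M₂.Normal) (h₁ : up (⊥ : Subgroup P) < M₁) (h₂ : up (⊥ : Subgroup P) < M₂)
    (hm₁ : ∀ M : Subgroup P, M.Normal → up (⊥ : Subgroup P) < M → M ≤ M₁ → M = M₁)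
    (hm₂ : ∀ M : Subgroup P, M.Normal → up (⊥ : Subgroup P) < M → M ≤ M₂ → M = M₂)
    (hne : M₁ ≠ M₂) (htop : M₁ ⊔ M₂ = ⊤) : False := by
  obtain ⟨hBmon, hBna⟩ := hn.isMonolith
  have hBc := centralizer_monolith_eq_bot hBmon hBna
  have hBn : (up (⊥ : Subgroup P)).Normal := up_normal _
  have h12 : M₁ ⊓ M₂ = up (⊥ : Subgroup P) := by
    by_contra hcon
    have hlt : up (⊥ : Subgroup P) < M₁ ⊓ M₂ :=
      lt_of_le_of_ne (le_inf h₁.le h₂.le) (Ne.symm hcon)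
    have e1 := hm₁ _ inferInstance hlt inf_le_left
    have e2 := hm₂ _ inferInstance hlt inf_le_right
    exact hne (e1.symm.trans e2)
  have hne1 : M₁ ≠ ⊤ := by
    intro ht
    exact hne (hm₁ M₂ hM₂ h₂ (ht ▸ le_top)).symm
  have hM0 : M₁ ≠ ⊥ := ne_bot_of_gt h₁
  have hMt : (⊤ : Subgroup M₁) ≠ ⊥ := by
    intro h
    apply hM0
    refine (Subgroup.eq_bot_iff_forall M₁).mpr fun x hx => ?_
    have h5 : (⟨x, hx⟩ : M₁) ∈ (⊥ : Subgroup M₁) := by rw [← h]; trivial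
    exact congrArg Subtype.val (mem_bot.mp h5)
  obtain ⟨K, hK, -⟩ := exists_minNormal (⊤ : Subgroup M₁) inferInstance hMt
  have hKn := hK.1
  obtain ⟨hnQ, hupQ⟩ := isNode_quot_centralizer hn hM₁ hK
  obtain ⟨φ, hφ⟩ : ∃ φ : P →* (M₁ ⧸ centralizer (K : Set M₁)), Function.Surjective φ :=
    isTower_of_node h2 hP hn M₁ hM₁ K hK
  obtain ⟨hTmon, hTna⟩ := hnQ.isMonolith
  have hker : φ.ker ≠ ⊥ := by
    intro hker
    have hinj : Function.Injective φ := (MonoidHom.ker_eq_bot_iff φ).mp hker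
    have hc1 : Nat.card P ≤ Nat.card (M₁ ⧸ centralizer (K : Set M₁)) :=
      Nat.card_le_card_of_injective φ hinj
    have hc2 : Nat.card (M₁ ⧸ centralizer (K : Set M₁)) ≤ Nat.card M₁ :=
      Nat.card_le_card_of_surjective _ (QuotientGroup.mk'_surjective (centralizer (K : Set M₁)))
    exact hne1 (Subgroup.eq_top_of_le_card _ (hc1.trans hc2))
  have hBker : up (⊥ : Subgroup P) ≤ φ.ker := hBmon.2.2 _ inferInstance hker
  have hcomm : ⁅M₁.map φ, M₂.map φ⁆ = ⊥ := by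
    rw [← map_commutator, Subgroup.map_eq_bot_iff]
    exact (le_inf (commutator_le_left M₁ M₂) (commutator_le_right M₁ M₂)).trans
      (h12.le.trans hBker)
  have hsup : M₁.map φ ⊔ M₂.map φ = ⊤ := by
    rw [← Subgroup.map_sup, htop, ← MonoidHom.range_eq_map]
    exact MonoidHom.range_eq_top.mpr hφ
  have hn1 : (M₁.map φ).Normal := hM₁.map _ hφ
  have hn2 : (M₂.map φ).Normal := hM₂.map _ hφ
  -- the only normal subgroups of `Q` are `⊥` and `⊤`
  have key : ∀ M : Subgroup P, M.Normal → up (⊥ : Subgroup P) < M →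
      (∀ N : Subgroup P, N.Normal → up (⊥ : Subgroup P) < N → N ≤ M → N = M) →
      M.map φ = ⊤ →
      up (⊥ : Subgroup (M₁ ⧸ centralizer (K : Set M₁))) = ⊤ := by
    intro M hMn hMlt hMm hMtop
    have hNn : (M ⊓ (up (⊥ : Subgroup (M₁ ⧸ centralizer (K : Set M₁)))).comap φ).Normal := by
      have : ((up (⊥ : Subgroup (M₁ ⧸ centralizer (K : Set M₁)))).comap φ).Normal :=
        (up_normal _).comap φ
      infer_instance
    have hBN : up (⊥ : Subgroup P) ≤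
        M ⊓ (up (⊥ : Subgroup (M₁ ⧸ centralizer (K : Set M₁)))).comap φ := by
      refine le_inf hMlt.le ?_
      intro b hb
      rw [Subgroup.mem_comap, (MonoidHom.mem_ker).mp (hBker hb)]
      exact one_mem _
    by_cases hN : M ⊓ (up (⊥ : Subgroup (M₁ ⧸ centralizer (K : Set M₁)))).comap φ =
        up (⊥ : Subgroup P)
    · exfalso
      apply hTmon.2.1
      rw [eq_bot_iff]
      intro q hq
      obtain ⟨m, hm, rfl⟩ : q ∈ M.map φ := by rw [hMtop]; trivial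
      have h5 : m ∈ up (⊥ : Subgroup P) := by
        rw [← hN]
        exact ⟨hm, hq⟩
      rw [mem_bot]
      exact (MonoidHom.mem_ker).mp (hBker h5)
    · have h5 := hMm _ hNn (lt_of_le_of_ne hBN (Ne.symm hN)) inf_le_left
      rw [eq_top_iff]
      intro q _
      obtain ⟨m, hm, rfl⟩ : q ∈ M.map φ := by rw [hMtop]; trivial
      rw [← h5] at hm
      exact hm.2
  have hTtop : up (⊥ : Subgroup (M₁ ⧸ centralizer (K : Set M₁))) = ⊤ := by
    by_cases h1 : M₁.map φ = ⊥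
    · rw [h1, bot_sup_eq] at hsup
      exact key M₂ hM₂ h₂ hm₂ hsup
    · by_cases h3 : M₂.map φ = ⊥
      · rw [h3, sup_bot_eq] at hsup
        exact key M₁ hM₁ h₁ hm₁ hsup
      · exfalso
        apply hTna
        exact eq_bot_iff.mpr
          ((commutator_mono (hTmon.2.2 _ hn1 h1) (hTmon.2.2 _ hn2 h3)).trans hcomm.le)
  have h7 : M₁ ≤ K.map M₁.subtype ⊔ centralizer ((K.map M₁.subtype : Subgroup P) : Set P) := by
    apply le_sup_centralizer_of_map_le le_rfl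
    rw [← hupQ, hTtop]
    exact le_top
  obtain ⟨k1, k2, k3, k4⟩ := map_le_up_bot hn hM₁ hK
  exact h₁.not_ge (inner_lemma hBmon.minNormal hBc hM₁ hM₁ h₁.le le_rfl k1 k2 k3 k4 h7)

end Pool.Agent.Lib.H65F
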