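import Pool.Agent.Lib.H65F.U0
import Pool.Agent.Lib.H65F.U0b
import Pool.Agent.Lib.H65F.U1
import Pool.Agent.Lib.H65F.U2
import Pool.Agent.Lib.H65F.U2b

/-! Chunk U5: two minimal layers above the monolith which do not generate the group. -/

set_option autoImplicit false

namespace Pool.Agent.Lib.H65F

open Subgroup Pool.Agent.H69

theorem u5_comm {Q : Type} [Group Q] {A B K : Subgroup Q} [hK : K.Normal] (h : ⁅A, B⁆ ≤ K) :
    ⁅A ⊔ K, B ⊔ K⁆ ≤ K := by
  have h1 : ∀ A : Subgroup Q, (A ⊔ K).map (QuotientGroup.mk' K) = A.map (QuotientGroup.mk' K) := by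
    intro A
    have h0 : K.map (QuotientGroup.mk' K) = ⊥ := by
      rw [Subgroup.map_eq_bot_iff, QuotientGroup.ker_mk']
    rw [Subgroup.map_sup, h0, sup_bot_eq]
  have h2 : (⁅A ⊔ K, B ⊔ K⁆).map (QuotientGroup.mk' K) = ⊥ := by
    rw [map_commutator, h1, h1, ← map_commutator, Subgroup.map_eq_bot_iff, QuotientGroup.ker_mk']
    exact h
  rwa [Subgroup.map_eq_bot_iff, QuotientGroup.ker_mk'] at h2

/-- `M₁`, `M₂` are two distinct minimal elements among the normal subgroups strictly above `B = up ⊥`, and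
`M₁ ⊔ M₂ ≠ ⊤`.  `ih` is the induction hypothesis of Theorem U for smaller groups.
PROOF. `M₁ ⊓ M₂ = B` and `⁅M₁, M₂⁆ ≤ B` as in U4.  `M := M₁ ⊔ M₂`, normal.  Let `K` be a minimal normal subgroup of the
group `M` (`exists_minNormal`), `C := centralizer K` in `M`, `Q := M ⧸ C`, `K~ := K.map (mk' C)`; `⊥` is a node of `Q`
with `up ⊥ = K~` (`isNode_quot_centralizer`).  `IsTower P` gives a surjection `P →* Q`, so `Q ∈ F`
(`mem_of_surjective`), and `|Q| ≤ |M| < |P|`.  By `ih`, `⊥` is a `UNode` of `Q`; so either `K~ = ⊤` or `K~` is a node of `Q`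
(`UNode.node`).  Let `N_i` be the image of `M_i.subgroupOf M` in `Q`.  Claim: `N_i ≤ K~` for `i = 1` or `i = 2`.  Clear if
`K~ = ⊤`.  Otherwise `N_1 ⊔ K~`, `N_2 ⊔ K~` are normal, and `⁅N_1, N_2⁆ ≤ K~`, since `⁅M₁, M₂⁆ ≤ B` and the image of
`B.subgroupOf M` in `Q` lies in `K~` (`up_bot_le_sup_centralizer`).  If both `N_i ⊔ K~ ≠ K~` then `up K~ ≤ N_i ⊔ K~` for both
`i` and `⁅up K~, up K~⁆ ≤ ⁅N_1 ⊔ K~, N_2 ⊔ K~⁆ ≤ K~`, contradiction to the node property.  So `M_i ≤ K₁ ⊔ centralizer K₁`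
(`le_sup_centralizer_of_map_le`), and `inner_lemma` with `N := M_i` gives `M_i ≤ B`, contradiction to `h₁`, `h₂`. -/
theorem two_layers_ne_top {F : Formation} (h2 : CondTower' F) {P : Type} [Group P] [Finite P]
    (hP : F.mem P) (hn : IsNode (⊥ : Subgroup P))
    (ih : ∀ (Q : Type) [Group Q], F.mem Q → Nat.card Q < Nat.card P →
      IsNode (⊥ : Subgroup Q) → UNode (⊥ : Subgroup Q))
    {M₁ M₂ : Subgroup P} (hM₁ : M₁.Normal)
    (hM₂ : M₂.Normal) (h₁ : up (⊥ : Subgroup P) < M₁) (h₂ : up (⊥ : Subgroup P) < M₂)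
    (hm₁ : ∀ M : Subgroup P, M.Normal → up (⊥ : Subgroup P) < M → M ≤ M₁ → M = M₁)
    (hm₂ : ∀ M : Subgroup P, M.Normal → up (⊥ : Subgroup P) < M → M ≤ M₂ → M = M₂)
    (hne : M₁ ≠ M₂) (htop : M₁ ⊔ M₂ ≠ ⊤) : False := by
  obtain ⟨hm, hna⟩ := hn.isMonolith
  have hc := centralizer_monolith_eq_bot hm hna
  have hBmin := hm.minNormal
  have hcomm : ⁅M₁, M₂⁆ ≤ up (⊥ : Subgroup P) := by
    refine (commutator_le_inf M₁ M₂).trans ?_
    by_contra h
    have hlt : up (⊥ : Subgroup P) < M₁ ⊓ M₂ :=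
      lt_of_le_of_ne (le_inf h₁.le h₂.le) fun he => h he.ge
    have e1 := hm₁ (M₁ ⊓ M₂) inferInstance hlt inf_le_left
    have e2 := hm₂ (M₁ ⊓ M₂) inferInstance hlt inf_le_right
    exact hne (e1.symm.trans e2)
  have hMn : (M₁ ⊔ M₂).Normal := inferInstance
  have hM1le : M₁ ≤ M₁ ⊔ M₂ := le_sup_left
  have hM2le : M₂ ≤ M₁ ⊔ M₂ := le_sup_right
  generalize M₁ ⊔ M₂ = M at htop hMn hM1le hM2le
  have hBM : up (⊥ : Subgroup P) ≤ M := h₁.le.trans hM1le
  have hM0 : M ≠ ⊥ := by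
    intro h
    rw [h] at hBM
    exact hm.2.1 (le_bot_iff.mp hBM)
  have htb : (⊤ : Subgroup M) ≠ ⊥ := by
    intro h
    apply hM0
    rw [eq_bot_iff]
    intro x hx
    have h3 : (⟨x, hx⟩ : M) ∈ (⊤ : Subgroup M) := mem_top _
    rw [h, mem_bot] at h3
    exact congrArg Subtype.val h3
  obtain ⟨K, hK, -⟩ := exists_minNormal (⊤ : Subgroup M) inferInstance htb
  haveI hKn := hK.1
  obtain ⟨hQ, -⟩ := isNode_quot_centralizer hn hMn hK
  obtain ⟨f, hf⟩ := isTower_of_node h2 hP hn M hMn K hK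
  have hQm : F.mem (M ⧸ centralizer (K : Set M)) := F.mem_of_surjective f hf hP
  have hcard : Nat.card (M ⧸ centralizer (K : Set M)) < Nat.card P := by
    refine lt_of_le_of_lt (Nat.card_le_card_of_surjective
      (QuotientGroup.mk' (centralizer (K : Set M))) (QuotientGroup.mk'_surjective _)) ?_
    exact lt_of_le_of_ne M.card_le_card_group fun h => htop (eq_top_of_card_eq M h)
  have hU := ih _ hQm hcard hQ
  obtain ⟨k1, k2, k3, k4⟩ := map_le_up_bot hn hMn hK
  have hfin : ∀ N : Subgroup P, N.Normal → N ≤ M →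
      (N.subgroupOf M).map (QuotientGroup.mk' (centralizer (K : Set M))) ≤
        K.map (QuotientGroup.mk' (centralizer (K : Set M))) → N ≤ up (⊥ : Subgroup P) :=
    fun N hN hNM h => inner_lemma hBmin hc hMn hN hBM hNM k1 k2 k3 k4
      (le_sup_centralizer_of_map_le hNM h)
  by_cases hc1 : (M₁.subgroupOf M).map (QuotientGroup.mk' (centralizer (K : Set M))) ≤
        K.map (QuotientGroup.mk' (centralizer (K : Set M)))
  · exact h₁.not_ge (hfin M₁ hM₁ hM1le hc1)
  by_cases hc2 : (M₂.subgroupOf M).map (QuotientGroup.mk' (centralizer (K : Set M))) ≤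
        K.map (QuotientGroup.mk' (centralizer (K : Set M)))
  · exact h₂.not_ge (hfin M₂ hM₂ hM2le hc2)
  have hs1 : (M₁.subgroupOf M).Normal := hM₁.subgroupOf M
  have hs2 : (M₂.subgroupOf M).Normal := hM₂.subgroupOf M
  have hsur := QuotientGroup.mk'_surjective (centralizer (K : Set M))
  haveI hn1 := hs1.map _ hsur
  haveI hn2 := hs2.map _ hsur
  haveI hnK := hKn.map _ hsur
  have hcc : ⁅(M₁.subgroupOf M).map (QuotientGroup.mk' (centralizer (K : Set M))),
      (M₂.subgroupOf M).map (QuotientGroup.mk' (centralizer (K : Set M)))⁆ ≤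
      K.map (QuotientGroup.mk' (centralizer (K : Set M))) := by
    rw [← map_commutator]
    have h3 : ⁅M₁.subgroupOf M, M₂.subgroupOf M⁆ ≤ (up (⊥ : Subgroup P)).subgroupOf M := by
      rw [commutator_le]
      intro a ha b hb
      rw [mem_subgroupOf] at ha hb ⊢
      exact hcomm (commutator_mem_commutator ha hb)
    refine (Subgroup.map_mono (h3.trans (up_bot_le_sup_centralizer hn hMn hK))).trans ?_
    have h0 : (centralizer (K : Set M)).map (QuotientGroup.mk' (centralizer (K : Set M))) = ⊥ := by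
      rw [Subgroup.map_eq_bot_iff, QuotientGroup.ker_mk']
    rw [Subgroup.map_sup, h0, sup_bot_eq]
  generalize (M₁.subgroupOf M).map (QuotientGroup.mk' (centralizer (K : Set M))) = N1 at *
  generalize (M₂.subgroupOf M).map (QuotientGroup.mk' (centralizer (K : Set M))) = N2 at *
  generalize K.map (QuotientGroup.mk' (centralizer (K : Set M))) = K1 at *
  have hK1 : K1 ≠ ⊤ := by
    rintro rfl
    exact hc1 le_top
  have hnode := hU.node K1 hnK bot_le hK1
  have hu1 : up K1 ≤ N1 ⊔ K1 :=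
    up_le inferInstance (lt_of_le_of_ne le_sup_right fun he => hc1 (le_sup_left.trans he.ge))
  have hu2 : up K1 ≤ N2 ⊔ K1 :=
    up_le inferInstance (lt_of_le_of_ne le_sup_right fun he => hc2 (le_sup_left.trans he.ge))
  exact hnode.nab ((commutator_mono hu1 hu2).trans (u5_comm hcc))

end Pool.Agent.Lib.H65F
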