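import Pool.Agent.Lib.H65F.U3
import Pool.Agent.Lib.H65F.U4
import Pool.Agent.Lib.H65F.U5

/-! Chunk U6: Theorem U. -/

set_option autoImplicit false

namespace Pool.Agent.Lib.H65F

open Subgroup Pool.Agent.H69

/-- Theorem U.
PROOF. Strong induction on `Nat.card P` (`Formation.finite`).  `B := up ⊥`.  If `B = ⊤`: a normal
subgroup `M ≠ ⊤` is `⊥` (otherwise `B ≤ M`), a node.  If `B ≠ ⊤`: claim `IsNode B`.  The finite set of normal `M` with
`B < M` contains `⊤`; let `M₁` be a minimal element.  Every normal `M > B` contains `M₁`: otherwise let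
`M₂ ≤ M` be a minimal element below `M`; `M₂ ≠ M₁`, and `two_layers_top` or `two_layers_ne_top` gives a contradiction.
So `up B = M₁` (`up_eq`), `B < up B`, and `¬ ⁅M₁, M₁⁆ ≤ B` by `no_abelian_layer`.  Now `P ⧸ B` is in `F`, smaller
(`card_quot_lt`, H69), `⊥` is a node of it (`isNode_iff_quotient`), so by induction a `UNode`, so `B` is a `UNode` of `P`
(`isNode_iff_quotient`).  Then `⊥` is a `UNode`: a normal `M ≠ ⊤` is `⊥` (a node) or contains `B` (so it is a node
as `B` is a `UNode`); `⊥ ≠ ⊤` by `IsNode.ne_top`. -/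
theorem unode_bot {F : Formation} (h2 : CondTower' F) (P : Type) [Group P] (hP : F.mem P)
    (hn : IsNode (⊥ : Subgroup P)) : UNode (⊥ : Subgroup P) := by
  induction hcard : Nat.card P using Nat.strong_induction_on generalizing P with
  | _ n ih =>
  have hfin : Finite P := F.finite P hP
  have hBn : (up (⊥ : Subgroup P)).Normal := up_normal _
  have hBle : ∀ M : Subgroup P, M.Normal → M ≠ ⊥ → up (⊥ : Subgroup P) ≤ M := fun M hM h0 =>
    up_le hM (bot_lt_iff_ne_bot.mpr h0)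
  have hB0 : up (⊥ : Subgroup P) ≠ ⊥ := hn.lt_up.ne'
  have ih' : ∀ (Q : Type) [Group Q], F.mem Q → Nat.card Q < Nat.card P →
      IsNode (⊥ : Subgroup Q) → UNode (⊥ : Subgroup Q) := fun Q _ hQ hlt hnQ =>
    ih (Nat.card Q) (hcard ▸ hlt) Q hQ hnQ rfl
  have key : ∀ M : Subgroup P, M.Normal → up (⊥ : Subgroup P) ≤ M → M ≠ ⊤ → IsNode M := by
    intro M hM hBM hMt
    have hBt : up (⊥ : Subgroup P) ≠ ⊤ := fun h => hMt (top_le_iff.mp (h ▸ hBM))
    -- minimal elements above `B`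
    have hex : ∀ M : Subgroup P, M.Normal → up (⊥ : Subgroup P) < M →
        ∃ M₁ : Subgroup P, M₁.Normal ∧ up (⊥ : Subgroup P) < M₁ ∧ M₁ ≤ M ∧
          ∀ M' : Subgroup P, M'.Normal → up (⊥ : Subgroup P) < M' → M' ≤ M₁ → M' = M₁ := by
      intro M hM hlt
      let S : Set (Subgroup P) := {M' | M'.Normal ∧ up (⊥ : Subgroup P) < M' ∧ M' ≤ M}
      have hS : S.Nonempty := ⟨M, hM, hlt, le_rfl⟩
      obtain ⟨M₁, hM₁⟩ := (Set.toFinite S).exists_minimal hS
      obtain ⟨a1, a2, a3⟩ := hM₁.prop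
      refine ⟨M₁, a1, a2, a3, ?_⟩
      intro M' b1 b2 b3
      exact le_antisymm b3 (hM₁.le_of_le ⟨b1, b2, b3.trans a3⟩ b3)
    obtain ⟨M₁, c1, c2, -, c4⟩ := hex ⊤ inferInstance (lt_top_iff_ne_top.mpr hBt)
    have hall : ∀ M' : Subgroup P, M'.Normal → up (⊥ : Subgroup P) < M' → M₁ ≤ M' := by
      intro M' hM' hlt
      by_contra hnot
      obtain ⟨M₂, d1, d2, d3, d4⟩ := hex M' hM' hlt
      have hne : M₁ ≠ M₂ := by
        rintro rfl
        exact hnot d3
      by_cases ht : M₁ ⊔ M₂ = ⊤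
      · exact two_layers_top h2 hP hn c1 d1 c2 d2 c4 d4 hne ht
      · exact two_layers_ne_top h2 hP hn ih' c1 d1 c2 d2 c4 d4 hne ht
    have hupB : up (up (⊥ : Subgroup P)) = M₁ := up_eq c1 c2 hall
    have hBnode : IsNode (up (⊥ : Subgroup P)) := by
      refine ⟨hBn, by rw [hupB]; exact c2, ?_⟩
      intro hab
      rw [hupB] at hab
      exact c2.not_ge (no_abelian_layer h2 hP hn c1 hab)
    have hq := isNode_iff_quotient (up (⊥ : Subgroup P))
    have hlt : Nat.card (P ⧸ up (⊥ : Subgroup P)) < Nat.card P := card_quot_lt hB0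
    have hU : UNode (⊥ : Subgroup (P ⧸ up (⊥ : Subgroup P))) :=
      ih' _ (F.quot P _ hP) hlt (hq.1.mp hBnode)
    exact (hq.2.mpr hU).node M hM hBM hMt
  refine ⟨inferInstance, hn.ne_top, ?_⟩
  intro M hM _ hMt
  by_cases h0 : M = ⊥
  · rw [h0]; exact hn
  · exact key M hM (hBle M hM h0) hMt

end Pool.Agent.Lib.H65F
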