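import Pool.Agent.Lib.H65F.U3
import Pool.Agent.Lib.H65F.U4
import Pool.Agent.Lib.H65F.U5
import Pool.Agent.Lib.H65F.U6

/-! Chunk U6b: Theorem U. -/

set_option autoImplicit false

namespace Pool.Agent.Lib.H65F

open Subgroup Pool.Agent.H69

/-- PROOF. `unode_bot` for `Γ ⧸ N` and `isNode_iff_quotient`. -/
theorem unode_of_isNode {F : Formation} (h2 : CondTower' F) {Γ : Type} [Group Γ]
    {N : Subgroup Γ} [N.Normal] (hF : F.mem (Γ ⧸ N)) (hn : IsNode N) : UNode N :=
  (isNode_iff_quotient N).2.mpr (unode_bot h2 (Γ ⧸ N) hF ((isNode_iff_quotient N).1.mp hn))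

/-- PROOF (1.6 of PROOF.md). Suppose `x ≠ 1` lies in all `UNode`s; let `I` be the intersection of all `UNode`s of `X`
(normal, `≠ ⊥`, `X` finite), `B ≤ I` a minimal normal subgroup (`exists_minNormal`).  If `⁅B, B⁆ = ⊥`, then `B ≤ center X = ⊥`
by `h1` (`comm_bot_iff`), contradiction.  Otherwise `C := centralizer B` is a node
(`isNode_centralizer`), `F.mem (X ⧸ C)`, so a `UNode` (`unode_of_isNode`); so `B ≤ I ≤ C`, contradiction with `⁅B, B⁆ ≠ ⊥`. -/
theorem sep_of_centerless {F : Formation} (h1 : CondAbelian F) (h2 : CondTower' F) {X : Type}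
    [Group X] (hX : F.mem X) (hz : center X = ⊥) : Sep X := by
  intro x hx
  by_contra hx1
  have hfin : Finite X := F.finite X hX
  let I : Subgroup X := sInf {C : Subgroup X | UNode C}
  have hI : I.Normal := by
    constructor
    intro y hy g
    rw [mem_sInf] at hy ⊢
    intro C hC
    exact hC.normal.conj_mem y (hy C hC) g
  have hI0 : I ≠ ⊥ := by
    intro h
    have h3 : x ∈ I := mem_sInf.mpr fun C hC => hx C hC
    rw [h, mem_bot] at h3
    exact hx1 h3
  obtain ⟨B, hB, hBI⟩ := exists_minNormal I hI hI0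
  have hBn := hB.1
  by_cases hab : ⁅B, B⁆ = ⊥
  · have h3 := h1 X hX B hB ((comm_bot_iff B B).mp hab)
    rw [hz, le_bot_iff] at h3
    exact hB.2.1 h3
  · have hC := (isNode_centralizer hB hab).1
    have hCn := hC.normal
    have hU : UNode (centralizer (B : Set X)) := unode_of_isNode h2 (F.quot X _ hX) hC
    have h4 : B ≤ centralizer (B : Set X) := hBI.trans (sInf_le hU)
    exact hab (commutator_eq_bot_iff_le_centralizer.mpr h4)

end Pool.Agent.Lib.H65F
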