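import Pool.Agent.Lib.H65F.U6
import Pool.Agent.Lib.H65F.U6b
import Pool.Agent.Lib.H65F.K3
import Pool.Agent.Lib.H65F.K3b
import Pool.Agent.Lib.H65F.L7
import Pool.Agent.Lib.H65F.L7b
import Pool.Agent.Lib.H65F.N2
import Pool.Agent.Lib.H65F.N3b

/-! Chunk C3: first consequences of a `BSys`. -/

set_option autoImplicit false

namespace Pool.Agent.Lib.H65F

open Subgroup Pool.Agent.H69

variable {F : Formation} (S : BSys F)

/-- PROOF. `sep_of_centerless`. -/
theorem BSys.sepY : Sep S.Y := sep_of_centerless S.h1 S.h2 S.mY S.zY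

theorem BSys.sepD : Sep S.D' := sep_of_centerless S.h1 S.h2 S.mD' S.zD'

theorem BSys.sepG : Sep S.G' := sep_of_centerless S.h1 S.h2 S.mG' S.zG'

/-- PROOF. `⨅ i, (S.π' i).ker = ⊥ ≤ C` (`S.inj'`), `IsNode.prime_finite`. -/
theorem BSys.exists_ker_le {C : Subgroup S.D'} (hC : UNode C) : ∃ i, (S.π' i).ker ≤ C := by
  refine hC.isNode.prime_finite (fun i => (S.π' i).ker) (fun i => inferInstance) ?_
  intro x hx
  rw [mem_iInf] at hx
  rw [S.inj' x (fun i => hx i)]
  exact one_mem _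

/-- PROOF. `exists_ker_le` gives `i`; `N := C.map (S.π' i)` is a `UNode` of `Y` with `N.comap (S.π' i) = C`
(`UNode.map_of_surjective`).  `T := Y ⧸ N`, `v := mk' N`, `u := v.comp (S.π' i)`, kernel `N.comap (S.π' i) = C`. -/
theorem BSys.lab : Lab S.D' S.Y := by
  intro C hC
  obtain ⟨i, hi⟩ := S.exists_ker_le hC
  obtain ⟨h1, h2⟩ := UNode.map_of_surjective hC (S.π' i) (S.hπ' i) hi
  have hn := h1.normal
  refine ⟨C.map (S.π' i), h1, S.Y ⧸ (C.map (S.π' i)), inferInstance,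
    (QuotientGroup.mk' _).comp (S.π' i), QuotientGroup.mk' _,
    (QuotientGroup.mk'_surjective _).comp (S.hπ' i), QuotientGroup.mk'_surjective _, ?_,
    QuotientGroup.ker_mk' _⟩
  rw [← MonoidHom.comap_ker, QuotientGroup.ker_mk', h2]

end Pool.Agent.Lib.H65F
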