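import Pool.Agent.Lib.H65F.U6
import Pool.Agent.Lib.H65F.U6b
import Pool.Agent.Lib.H65F.K3
import Pool.Agent.Lib.H65F.K3b
import Pool.Agent.Lib.H65F.L7
import Pool.Agent.Lib.H65F.L7b
import Pool.Agent.Lib.H65F.L5b
import Pool.Agent.Lib.H65F.C3

/-! Chunk C3b: first consequences of a `BSys`. -/

set_option autoImplicit false

namespace Pool.Agent.Lib.H65F

open Subgroup Pool.Agent.H69

variable {F : Formation} (S : BSys F)

open Classical in
/-- Number of `UNode`s above a kernel.
PROOF. `M ↦ M.map f` is injective on the subgroups `M ≥ f.ker` (`Subgroup.comap_map_eq`), and `X₁` has at most `2 ^ |X₁|`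
subgroups (a subgroup is determined by its carrier). -/
theorem card_unodes_above {X X₁ : Type} [Group X] [Finite X] [Group X₁] [Finite X₁] (f : X →* X₁)
    (hf : Function.Surjective f) (B : Finset (Subgroup X))
    (hB : ∀ M ∈ B, f.ker ≤ M) : B.card ≤ 2 ^ Nat.card X₁ := by
  have hinj : Set.InjOn (fun M : Subgroup X => ((M.map f : Subgroup X₁) : Set X₁)) B := by
    intro M hM M' hM' h
    have h1 : M.map f = M'.map f := SetLike.coe_injective h
    have h2 := congrArg (comap f) h1
    rw [comap_map_eq, comap_map_eq, sup_eq_left.2 (hB M hM), sup_eq_left.2 (hB M' hM')] at h2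
    exact h2
  have hfin := Fintype.ofFinite X₁
  calc B.card = (B.image (fun M : Subgroup X => ((M.map f : Subgroup X₁) : Set X₁))).card :=
        (Finset.card_image_of_injOn hinj).symm
    _ ≤ Fintype.card (Set X₁) := Finset.card_le_univ _
    _ = 2 ^ Nat.card X₁ := by rw [Fintype.card_set, Nat.card_eq_fintype_card]

/-- PROOF. `hh_surj` and composition of surjections. -/
theorem BSys.surj (i : S.I) {g : Subgroup S.D' → ℕ} (hg : Function.Injective g) :
    Function.Surjective ((S.π' i).comp (hh g)) ∧ Function.Surjective (S.p'.comp (hh g)) ∧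
      Function.Surjective (hh g) := by
  have h := hh_surj S.sepD hg
  exact ⟨(S.hπ' i).comp h, S.hp'.comp h, h⟩

/-- PROOF. `hh_local` with `f := S.π' i` resp. `f := S.p'` (`MonoidHom.ext`). -/
theorem BSys.local (g g' : Subgroup S.D' → ℕ) :
    (∀ i, (∀ M : Subgroup S.D', UNode M → (S.π' i).ker ≤ M → g M = g' M) →
      (S.π' i).comp (hh g) = (S.π' i).comp (hh g')) ∧
    ((∀ M : Subgroup S.D', UNode M → S.p'.ker ≤ M → g M = g' M) →
      S.p'.comp (hh g) = S.p'.comp (hh g')) :=
  ⟨fun i h => MonoidHom.ext fun x => hh_local S.sepD S.sepY (S.π' i) (S.hπ' i) h x,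
    fun h => MonoidHom.ext fun x => hh_local S.sepD S.sepG S.p' S.hp' h x⟩

/-- PROOF. `RB_le_ker` with `X := D'`, `X₁ := Y`, `f := S.π' i`. -/
theorem BSys.RB_le (i : S.I) (Λ : Finset ℕ) (g : Subgroup S.D' → ℕ)
    (hg : ∀ M : Subgroup S.D', UNode M → (S.π' i).ker ≤ M → g M ∈ Λ) :
    RB S.Y Λ ≤ ((S.π' i).comp (hh g)).ker :=
  RB_le_ker S.sepD S.sepY S.lab (S.π' i) (S.hπ' i) Λ g hg

end Pool.Agent.Lib.H65F
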