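import Pool.Agent.Lib.H65F.U6
import Pool.Agent.Lib.H65F.U6b
import Pool.Agent.Lib.H65F.K3
import Pool.Agent.Lib.H65F.K3b
import Pool.Agent.Lib.H65F.L7
import Pool.Agent.Lib.H65F.L7b
import Pool.Agent.Lib.H65F.L5b
import Pool.Agent.Lib.H65F.C3
import Pool.Agent.Lib.H65F.C3b

/-! Chunk C3c: first consequences of a `BSys`. -/

set_option autoImplicit false

namespace Pool.Agent.Lib.H65F

open Subgroup Pool.Agent.H69

variable {F : Formation} (S : BSys F)

/-- PROOF. `GoodQ.inf`, `goodQ_ker` (`hh g` surjective for injective `g`), induction over the finite set; for `s = ∅` use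
`R`. -/
theorem BSys.goodQ_inf {R : Subgroup Fr} (hR : GoodQ F R) (s : Finset (Subgroup S.D' → ℕ))
    (hs : ∀ g ∈ s, Function.Injective g) : GoodQ F (R ⊓ ⨅ g ∈ s, (hh g : Fr →* S.D').ker) := by
  classical
  induction s using Finset.induction_on with
  | empty => simpa using hR
  | insert g s _ ih =>
    rw [Finset.iInf_insert, inf_left_comm, inf_comm]
    exact (ih fun g' hg' => hs g' (Finset.mem_insert_of_mem hg')).inf
      (goodQ_ker S.mD' S.zD' (hh g) (hh_surj S.sepD (hs g (Finset.mem_insert_self g s))))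

/-- The same for the kernels of the homomorphisms to `G'`. -/
theorem BSys.goodQ_inf' {R : Subgroup Fr} (hR : GoodQ F R) (s : Finset (Subgroup S.D' → ℕ))
    (hs : ∀ g ∈ s, Function.Injective g) :
    GoodQ F (R ⊓ ⨅ g ∈ s, (S.p'.comp (hh g)).ker) := by
  classical
  induction s using Finset.induction_on with
  | empty => simpa using hR
  | insert g s _ ih =>
    rw [Finset.iInf_insert, inf_left_comm, inf_comm]
    exact (ih fun g' hg' => hs g' (Finset.mem_insert_of_mem hg')).inf
      (goodQ_ker S.mG' S.zG' (S.p'.comp (hh g))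
        (S.hp'.comp (hh_surj S.sepD (hs g (Finset.mem_insert_self g s)))))

end Pool.Agent.Lib.H65F
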