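import Pool.Agent.Lib.H69.Formation.Quasi

/-!
Definitions for the project H65F (MP_518fb6_al).  Complete paper proof: PROOF.md.

`up N` is the intersection of all normal subgroups strictly above `N`; `IsNode N` says that
`up N` is strictly above `N` and nonabelian modulo `N` (so `N` is the kernel of a quotient with a
nonabelian monolith); `UNode N` says that every normal subgroup `≠ ⊤` above `N` is a node.
-/

set_option autoImplicit false

namespace Pool.Agent.Lib.H65F

open Subgroup Pool.Agent.H69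

section Nodes

variable {Γ : Type} [Group Γ]

/-- The intersection of all normal subgroups strictly above `N`. -/
def up (N : Subgroup Γ) : Subgroup Γ := sInf {M : Subgroup Γ | M.Normal ∧ N < M}

/-- `N` is the kernel of a quotient with a nonabelian monolith. -/
structure IsNode (N : Subgroup Γ) : Prop where
  normal : N.Normal
  lt_up : N < up N
  nab : ¬ ⁅up N, up N⁆ ≤ N

/-- Every normal subgroup `≠ ⊤` above `N` is a node. -/
structure UNode (N : Subgroup Γ) : Prop where
  normal : N.Normal
  ne_top : N ≠ ⊤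
  node : ∀ M : Subgroup Γ, M.Normal → N ≤ M → M ≠ ⊤ → IsNode M

theorem up_normal (N : Subgroup Γ) : (up N).Normal := by
  constructor
  intro x hx g
  rw [up, mem_sInf] at hx ⊢
  intro M hM
  exact hM.1.conj_mem x (hx M hM) g

theorem le_up (N : Subgroup Γ) : N ≤ up N := le_sInf fun _ hM => hM.2.le

theorem up_le {N M : Subgroup Γ} (hM : M.Normal) (h : N < M) : up N ≤ M := sInf_le ⟨hM, h⟩

theorem up_eq {N M : Subgroup Γ} (hM : M.Normal) (h : N < M)
    (hmin : ∀ M' : Subgroup Γ, M'.Normal → N < M' → M ≤ M') : up N = M :=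
  le_antisymm (up_le hM h) (le_sInf fun _ hM' => hmin _ hM'.1 hM'.2)

theorem IsNode.ne_top {N : Subgroup Γ} (h : IsNode N) : N ≠ ⊤ := by
  rintro rfl
  exact h.lt_up.not_ge le_top

theorem UNode.isNode {N : Subgroup Γ} (h : UNode N) : IsNode N :=
  h.node N h.normal le_rfl h.ne_top

theorem UNode.mono {N M : Subgroup Γ} (h : UNode N) (hM : M.Normal) (hNM : N ≤ M)
    (ht : M ≠ ⊤) : UNode M :=
  ⟨hM, ht, fun M' hM' hle hne => h.node M' hM' (hNM.trans hle) hne⟩

theorem UNode.up_unode {N : Subgroup Γ} (h : UNode N) (ht : up N ≠ ⊤) : UNode (up N) :=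
  h.mono (up_normal N) (le_up N) ht

/-- Normal subgroups above a `UNode` form a chain. -/
theorem UNode.chain {N : Subgroup Γ} (h : UNode N) {A B : Subgroup Γ} (hA : A.Normal)
    (hB : B.Normal) (hNA : N ≤ A) (hNB : N ≤ B) : A ≤ B ∨ B ≤ A := by
  by_contra hcon
  push Not at hcon
  obtain ⟨h1, h2⟩ := hcon
  have hn : (A ⊓ B).Normal := inferInstance
  have hne : A ⊓ B ≠ ⊤ := by
    intro ht
    rw [inf_eq_top_iff] at ht
    exact h1 (ht.2 ▸ le_top)
  have hnode := h.node (A ⊓ B) hn (le_inf hNA hNB) hne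
  have hltA : A ⊓ B < A := lt_of_le_of_ne inf_le_left fun he => h1 (inf_eq_left.mp he)
  have hltB : A ⊓ B < B := lt_of_le_of_ne inf_le_right fun he => h2 (inf_eq_right.mp he)
  exact hnode.lt_up.not_ge (le_inf (up_le hA hltA) (up_le hB hltB))

/-- The intersection of all `UNode`s is trivial. -/
def Sep (X : Type) [Group X] : Prop := ∀ x : X, (∀ C : Subgroup X, UNode C → x ∈ C) → x = 1

/-- `C` and `N` are kernels of surjections onto the same group. -/
def SameQuot {X Y : Type} [Group X] [Group Y] (C : Subgroup X) (N : Subgroup Y) : Prop :=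
  ∃ (T : Type) (_ : Group T) (u : X →* T) (v : Y →* T),
    Function.Surjective u ∧ Function.Surjective v ∧ u.ker = C ∧ v.ker = N

/-- Every quotient of `X` by a `UNode` is isomorphic to a quotient of `Y` by a `UNode`. -/
def Lab (X Y : Type) [Group X] [Group Y] : Prop :=
  ∀ C : Subgroup X, UNode C → ∃ N : Subgroup Y, UNode N ∧ SameQuot C N

end Nodes

section Free

/-- The free group of countable rank. -/
abbrev Fr : Type := FreeGroup ℕ

/-- Almost all generators lie in `K`. -/
def FS (K : Subgroup Fr) : Prop := ∃ n : ℕ, ∀ i : ℕ, n ≤ i → FreeGroup.of i ∈ K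

/-- The least `n` such that all generators `x_i`, `i ≥ n`, lie in `K`. -/
noncomputable def n0 (K : Subgroup Fr) : ℕ := sInf {n : ℕ | ∀ i : ℕ, n ≤ i → FreeGroup.of i ∈ K}

/-- The least `i` with `x_i ∈ K₀`, `x_i ∉ K`. -/
noncomputable def pos (K₀ K : Subgroup Fr) : ℕ :=
  sInf {i : ℕ | FreeGroup.of i ∈ K₀ ∧ FreeGroup.of i ∉ K}

/-- `ψ` is onto modulo `C` and agrees with `φ` modulo `up C`. -/
structure IsLift {X : Type} [Group X] (C : Subgroup X) (φ ψ : Fr →* X) : Prop where
  surj : ψ.range ⊔ C = ⊤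
  ovr : ∀ f : Fr, (φ f)⁻¹ * ψ f ∈ up C

/-- The kernels (modulo `C`) of the lifts of `φ` with letter `z`. -/
def LSet {X : Type} [Group X] (C : Subgroup X) (φ : Fr →* X) (z : ℕ) : Set (Subgroup Fr) :=
  {K | ∃ ψ : Fr →* X, IsLift C φ ψ ∧ C.comap ψ = K ∧ FS K ∧
    pos ((up C).comap φ) K = n0 ((up C).comap φ) + z}

open Classical in
/-- A chosen element of a nonempty set of subgroups. -/
noncomputable def pick (S : Set (Subgroup Fr)) : Subgroup Fr :=
  if h : S.Nonempty then h.some else ⊤

theorem pick_mem {S : Set (Subgroup Fr)} (h : S.Nonempty) : pick S ∈ S := by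
  rw [pick, dif_pos h]
  exact h.some_mem

open Classical in
/-- A chosen lift of `φ` with kernel `pick (LSet C φ z)` modulo `C`. -/
noncomputable def ext {X : Type} [Group X] (C : Subgroup X) (φ : Fr →* X) (z : ℕ) : Fr →* X :=
  if h : ∃ ψ : Fr →* X, IsLift C φ ψ ∧ C.comap ψ = pick (LSet C φ z) then h.choose else 1

theorem ext_spec {X : Type} [Group X] {C : Subgroup X} {φ : Fr →* X} {z : ℕ}
    (h : (LSet C φ z).Nonempty) :
    IsLift C φ (ext C φ z) ∧ C.comap (ext C φ z) = pick (LSet C φ z) := by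
  obtain ⟨ψ, h1, h2, -, -⟩ := pick_mem h
  have hex : ∃ ψ : Fr →* X, IsLift C φ ψ ∧ C.comap ψ = pick (LSet C φ z) := ⟨ψ, h1, h2⟩
  rw [ext, dif_pos hex]
  exact hex.choose_spec

open Classical in
/-- The homomorphisms modulo `C`, by recursion from the top; `g` is the letter function. -/
noncomputable def hs {X : Type} [Group X] [Finite X] (g : Subgroup X → ℕ) :
    Subgroup X → (Fr →* X) :=
  (wellFounded_gt (α := Subgroup X)).fix fun C rec =>
    if h : C < up C then ext C (rec (up C) h) (g C) else 1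

theorem hs_eq {X : Type} [Group X] [Finite X] (g : Subgroup X → ℕ) {C : Subgroup X}
    (h : C < up C) : hs g C = ext C (hs g (up C)) (g C) := by
  rw [hs, WellFounded.fix_eq, dif_pos h]

open Classical in
/-- The homomorphism `Fr → X` which agrees with `hs g C` modulo every `UNode` `C`. -/
noncomputable def hh {X : Type} [Group X] [Finite X] (g : Subgroup X → ℕ) : Fr →* X :=
  if h : ∃ u : Fr →* X, ∀ C : Subgroup X, UNode C → ∀ f : Fr, (u f)⁻¹ * hs g C f ∈ C
  then h.choose else 1

/-- The bounded sets of kernels: letters in `Λ`, quotients of `Y`. -/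
def ks (Y : Type) [Group Y] (Λ : Finset ℕ) : ℕ → Set (Subgroup Fr)
  | 0 => {⊤}
  | j + 1 => {K | ∃ N : Subgroup Y, UNode N ∧ ∃ β : Fr →* Y, β.range ⊔ up N = ⊤ ∧
      (up N).comap β ∈ ks Y Λ j ∧ ∃ z ∈ Λ, K = pick (LSet N β z)}

/-- The intersection of all kernels in `ks Y Λ j`, `j ≤ |Y|`. -/
def RB (Y : Type) [Group Y] (Λ : Finset ℕ) : Subgroup Fr :=
  sInf {K | ∃ j ≤ Nat.card Y, K ∈ ks Y Λ j}

end Free

section Quotients

/-- `A` is normal in the free group and `Fr ⧸ A` is a centreless member of `F`. -/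
def GoodQ (F : Formation) (A : Subgroup Fr) : Prop :=
  ∃ _ : A.Normal, F.mem (Fr ⧸ A) ∧ center (Fr ⧸ A) = ⊥

end Quotients

/-- The situation of Theorems A and B: `G₀, D, G` with centreless quotients `Y, D', G'` in `F`. -/
structure BSys (F : Formation) where
  (G₀ D G Y D' G' I : Type)
  [gG₀ : Group G₀] [gD : Group D] [gG : Group G] [gY : Group Y] [gD' : Group D'] [gG' : Group G']
  [fG₀ : Finite G₀] [fD : Finite D] [fG : Finite G] [fY : Finite Y] [fD' : Finite D']
  [fG' : Finite G'] [fI : Finite I]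
  π : I → D →* G₀
  π' : I → D' →* Y
  p : D →* G
  p' : D' →* G'
  a₀ : G₀ →* Y
  aD : D →* D'
  aG : G →* G'
  hπ : ∀ i, Function.Surjective (π i)
  hπ' : ∀ i, Function.Surjective (π' i)
  hp : Function.Surjective p
  hp' : Function.Surjective p'
  ha₀ : Function.Surjective a₀
  haD : Function.Surjective aD
  haG : Function.Surjective aG
  sqπ : ∀ i d, a₀ (π i d) = π' i (aD d)
  sqp : ∀ d, aG (p d) = p' (aD d)
  k₀ : a₀.ker ≤ center G₀
  kD : aD.ker ≤ center D
  kG : aG.ker ≤ center G
  inj : ∀ d, (∀ i, π i d = 1) → d = 1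
  inj' : ∀ d, (∀ i, π' i d = 1) → d = 1
  pG₀ : _root_.commutator G₀ = ⊤
  pG : _root_.commutator G = ⊤
  h1 : CondAbelian F
  h2 : CondTower' F
  mY : F.mem Y
  mD' : F.mem D'
  mG' : F.mem G'
  zY : center Y = ⊥
  zD' : center D' = ⊥
  zG' : center G' = ⊥

attribute [instance] BSys.gG₀ BSys.gD BSys.gG BSys.gY BSys.gD' BSys.gG' BSys.fG₀ BSys.fD BSys.fG
  BSys.fY BSys.fD' BSys.fG' BSys.fI

/-- A chosen lift of a homomorphism from the free group along a surjection. -/
noncomputable def lf {A B : Type} [Group A] [Group B] (a : A →* B) (ha : Function.Surjective a)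
    (β : Fr →* B) : Fr →* A := FreeGroup.lift fun i => (ha (β (FreeGroup.of i))).choose

theorem lf_spec {A B : Type} [Group A] [Group B] (a : A →* B) (ha : Function.Surjective a)
    (β : Fr →* B) (f : Fr) : a (lf a ha β f) = β f := by
  have h : a.comp (lf a ha β) = β := by
    apply FreeGroup.ext_hom
    intro i
    rw [MonoidHom.comp_apply, lf, FreeGroup.lift_apply_of]
    exact (ha (β (FreeGroup.of i))).choose_spec
  exact DFunLike.congr_fun h f

/-- The centre is a commutative group. -/
instance cenComm (G : Type) [Group G] : CommGroup (center G) :=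
  { (inferInstance : Group (center G)) with
    mul_comm := fun a b => Subtype.ext (mem_center_iff.mp b.2 a) }

/-- A central element as an element of the centre (`1` if it is not central). -/
noncomputable def cz {G : Type} [Group G] (x : G) : center G :=
  open Classical in if h : x ∈ center G then ⟨x, h⟩ else 1

theorem cz_coe {G : Type} [Group G] {x : G} (h : x ∈ center G) : (cz x : G) = x := by
  rw [cz, dif_pos h]

end Pool.Agent.Lib.H65F
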