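import Pool.Agent.Lib.H65F.K0

/-! Chunk K1: monotonicity of the bounds. -/

set_option autoImplicit false

namespace Pool.Agent.Lib.H65F

open Subgroup Pool.Agent.H69

theorem k1_pow {a a' b b' : ℕ} (h0 : 1 ≤ a') (ha : a ≤ a') (hb : b ≤ b') : a ^ b ≤ a' ^ b' :=
  (Nat.pow_le_pow_left ha b).trans (Nat.pow_le_pow_right h0 hb)

/-- PROOF. `Nat.pow_le_pow`, `Nat.mul_le_mul`; `y ^ y ≤ y' ^ y'` for `1 ≤ y ≤ y'`. -/
theorem stepB_mono {y y' l l' : ℕ} (h0 : 1 ≤ y) (hy : y ≤ y') (hl : l ≤ l') :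
    stepB y l ≤ stepB y' l' := by
  unfold stepB
  exact Nat.mul_le_mul (Nat.mul_le_mul (k1_pow (by norm_num) le_rfl hy)
    (k1_pow (h0.trans hy) hy hy)) hl

/-- PROOF. Each term grows (`Nat.pow_le_pow_left`) and there are more terms
(`Finset.sum_le_sum_of_subset`). -/
theorem kerB_mono {y y' l l' : ℕ} (h0 : 1 ≤ y) (hy : y ≤ y') (hl : l ≤ l') :
    kerB y l ≤ kerB y' l' := by
  unfold kerB
  refine (Finset.sum_le_sum fun j _ => Nat.pow_le_pow_left (stepB_mono h0 hy hl) j).trans ?_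
  exact Finset.sum_le_sum_of_subset (Finset.range_mono (by omega))

theorem quotB_mono {y y' l l' : ℕ} (h0 : 1 ≤ y) (hy : y ≤ y') (hl : l ≤ l') :
    quotB y l ≤ quotB y' l' := by
  unfold quotB
  exact k1_pow (h0.trans hy) hy (kerB_mono h0 hy hl)

theorem powB_mono {y y' e e' : ℕ} (h0 : 1 ≤ y) (hy : y ≤ y') (he : e ≤ e') :
    powB y e ≤ powB y' e' := by
  unfold powB
  refine k1_pow (h0.trans hy) hy (quotB_mono h0 hy ?_)
  refine Nat.add_le_add (Nat.pow_le_pow_left (Nat.add_le_add_right ?_ 1) 2) ?_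
  · exact k1_pow (by norm_num) le_rfl hy
  · exact k1_pow (by norm_num) le_rfl he

/-- PROOF. `Subgroup.cardCommutatorBound n = (n ^ (2 * n)) ^ (n ^ (2 * n + 1) + 1)`. -/
theorem schurB_mono {b b' : ℕ} (h0 : 1 ≤ b) (hb : b ≤ b') : schurB b ≤ schurB b' := by
  unfold schurB Subgroup.cardCommutatorBound
  have h1 : b ^ 2 ≤ b' ^ 2 := Nat.pow_le_pow_left hb 2
  have h2 : 1 ≤ b' ^ 2 := Nat.one_le_pow _ _ (h0.trans hb)
  refine k1_pow ?_ ?_ ?_
  · exact Nat.one_le_pow _ _ h2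
  · exact k1_pow h2 h1 (by omega)
  · exact Nat.add_le_add_right (k1_pow h2 h1 (by omega)) 1

theorem ordB_mono {y y' : ℕ} (h0 : 1 ≤ y) (hy : y ≤ y') : ordB y ≤ ordB y' := by
  unfold ordB
  refine Nat.add_le_add hy (schurB_mono ?_ (quotB_mono h0 hy ?_))
  · unfold quotB
    exact Nat.one_le_pow _ _ h0
  · refine Nat.add_le_add (Nat.pow_le_pow_left (Nat.add_le_add_right ?_ 1) 2) ?_
    · exact k1_pow (by norm_num) le_rfl hy
    · exact Nat.mul_le_mul le_rfl (k1_pow (by norm_num) le_rfl hy)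

end Pool.Agent.Lib.H65F
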