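import Pool.Agent.Lib.H65F.K0
import Pool.Agent.Lib.H65F.K1

/-! Chunk K1b: monotonicity of the bounds. -/

set_option autoImplicit false

namespace Pool.Agent.Lib.H65F

open Subgroup Pool.Agent.H69

theorem ImageOfSubdirectPowerLE.mono {m m' : ℕ} (h : m ≤ m') {G X : Type} [Group G] [Group X]
    (hi : ImageOfSubdirectPowerLE m G X) : ImageOfSubdirectPowerLE m' G X := by
  obtain ⟨r, hr, rest⟩ := hi
  exact ⟨r, hr.trans h, rest⟩

theorem ImageOfSubdirectPowerLE.toImage {m : ℕ} {G X : Type} [Group G] [Group X]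
    (hi : ImageOfSubdirectPowerLE m G X) : ImageOfSubdirectPower G X := by
  obtain ⟨r, -, rest⟩ := hi
  exact ⟨r, rest⟩

/-- Index by a finite type instead of `Fin r`.
PROOF. `r := Nat.card ι`, `e : ι ≃ Fin r` (`Finite.equivFin`), map `Y` under the
reindexing isomorphism `(ι → G) ≃* (Fin r → G)`. -/
theorem ImageOfSubdirectPowerLE.of_index {m : ℕ} {G X : Type} [Group G] [Group X] {ι : Type}
    [Finite ι] (hm : Nat.card ι ≤ m) (Y : Subgroup (ι → G)) (hY : ∀ i g, ∃ y ∈ Y, y i = g)
    (θ : Y →* X) (hθ : Function.Surjective θ) : ImageOfSubdirectPowerLE m G X := by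
  have e : ι ≃ Fin (Nat.card ι) := Finite.equivFin ι
  -- precomposition with `e`
  let R : (Fin (Nat.card ι) → G) →* (ι → G) :=
    { toFun := fun f i => f (e i)
      map_one' := rfl
      map_mul' := fun _ _ => rfl }
  let Y' : Subgroup (Fin (Nat.card ι) → G) := Y.comap R
  let R' : Y' →* Y := R.subgroupComap Y
  refine ⟨Nat.card ι, hm, Y', ?_, θ.comp R', ?_⟩
  · intro i g
    obtain ⟨y, hy, hyg⟩ := hY (e.symm i) g
    refine ⟨fun j => y (e.symm j), ?_, hyg⟩
    change R _ ∈ Y
    have h1 : R (fun j => y (e.symm j)) = y := by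
      funext j
      change y (e.symm (e j)) = y j
      rw [e.symm_apply_apply]
    rw [h1]
    exact hy
  · intro x
    obtain ⟨y, rfl⟩ := hθ x
    have h1 : R (fun j => (y : ι → G) (e.symm j)) = y := by
      funext j
      change (y : ι → G) (e.symm (e j)) = (y : ι → G) j
      rw [e.symm_apply_apply]
    have h2 : (fun j => (y : ι → G) (e.symm j)) ∈ Y' := by
      change R _ ∈ Y
      rw [h1]
      exact y.2
    refine ⟨⟨_, h2⟩, ?_⟩
    change θ (R' _) = θ y
    congr 1
    exact Subtype.ext h1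

end Pool.Agent.Lib.H65F
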