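import Pool.Agent.Lib.H65F.K0
import Pool.Agent.Lib.H65F.K1
import Pool.Agent.Lib.H65F.K1b

/-! Chunk K1c: monotonicity of the bounds. -/

set_option autoImplicit false

namespace Pool.Agent.Lib.H65F

open Subgroup Pool.Agent.H69
open scoped commutatorElement

theorem k1c_comm {Q : Type} [Group Q] (x y : Q) :
    ⁅((x : Q ⧸ center Q)).out, ((y : Q ⧸ center Q)).out⁆ = ⁅x, y⁆ := by
  obtain ⟨c, hc⟩ := QuotientGroup.mk_out_eq_mul (center Q) x
  obtain ⟨d, hd⟩ := QuotientGroup.mk_out_eq_mul (center Q) y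
  rw [hc, hd]
  have h1 : ∀ g : Q, g * (c : Q) = c * g := fun g => mem_center_iff.mp c.2 g
  have h2 : ∀ g : Q, g * (d : Q) = d * g := fun g => mem_center_iff.mp d.2 g
  rw [commutatorElement_def, commutatorElement_def, mul_inv_rev, mul_inv_rev]
  calc x * (c : Q) * (y * d) * ((c : Q)⁻¹ * x⁻¹) * ((d : Q)⁻¹ * y⁻¹)
      = x * ((c : Q) * (y * d)) * (c : Q)⁻¹ * x⁻¹ * ((d : Q)⁻¹ * y⁻¹) := by group
    _ = x * ((y * d) * (c : Q)) * (c : Q)⁻¹ * x⁻¹ * ((d : Q)⁻¹ * y⁻¹) := by rw [← h1]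
    _ = x * y * ((d : Q) * x⁻¹) * (d : Q)⁻¹ * y⁻¹ := by group
    _ = x * y * (x⁻¹ * (d : Q)) * (d : Q)⁻¹ * y⁻¹ := by rw [← h2]
    _ = x * y * x⁻¹ * y⁻¹ := by group

/-- Perfect groups with a large centre.
PROOF. Put `Q' := Q ⧸ center Q`, `|Q'| ≤ b`: `(center Q).index ≤ Z.index` (`Subgroup.index_antitone`-like: `Z ≤ center Q`, `Subgroup.index_le_of_le`), `Z.index ≤ b`.
The set of commutators of `Q` has at most `|Q'| ^ 2 ≤ b ^ 2` elements, since `⁅x, y⁆` depends only on the classes of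
`x`, `y` modulo the centre.  `Subgroup.card_commutator_le_of_finite_commutatorSet` (check the name:
`Nat.card (commutator G) ≤ cardCommutatorBound (Nat.card (commutatorSet G))`) and
monotonicity of `Subgroup.cardCommutatorBound` give `|Q| = |commutator Q| ≤ schurB b`. -/
theorem card_le_schurB {Q : Type} [Group Q] [Finite Q] (hQ : _root_.commutator Q = ⊤)
    {Z : Subgroup Q} (hZ : Z ≤ center Q) {b : ℕ} (hb : Z.index ≤ b) :
    Nat.card Q ≤ schurB b := by
  have h1 : (center Q).index ≤ b := by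
    refine le_trans ?_ hb
    exact Nat.le_of_dvd (Nat.pos_of_ne_zero FiniteIndex.index_ne_zero) (index_dvd_of_le hZ)
  have h2 : Nat.card (commutatorSet Q) ≤ b ^ 2 := by
    let F : (Q ⧸ center Q) × (Q ⧸ center Q) → Q := fun p => ⁅p.1.out, p.2.out⁆
    have h3 : commutatorSet Q ⊆ Set.range F := by
      rintro _ ⟨x, y, rfl⟩
      exact ⟨((x : Q ⧸ center Q), (y : Q ⧸ center Q)), k1c_comm x y⟩
    have h4 : Nat.card (commutatorSet Q) ≤ Nat.card (Set.range F) :=
      Nat.card_mono (Set.toFinite _) h3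
    have h5 : Nat.card (Set.range F) ≤ Nat.card ((Q ⧸ center Q) × (Q ⧸ center Q)) :=
      Finite.card_range_le F
    rw [Nat.card_prod] at h5
    have h6 : Nat.card (Q ⧸ center Q) ≤ b := h1
    calc Nat.card (commutatorSet Q) ≤ Nat.card (Q ⧸ center Q) * Nat.card (Q ⧸ center Q) :=
          h4.trans h5
      _ ≤ b * b := Nat.mul_le_mul h6 h6
      _ = b ^ 2 := (sq b).symm
  have h3 : Nat.card Q = Nat.card (_root_.commutator Q) := by
    rw [hQ]
    exact (Nat.card_congr Subgroup.topEquiv.toEquiv).symm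
  have h4 := Subgroup.card_commutator_le_of_finite_commutatorSet (G := Q)
  rw [h3]
  refine h4.trans ?_
  unfold schurB Subgroup.cardCommutatorBound
  have h0 : 1 ≤ Nat.card (commutatorSet Q) := by
    have : Nonempty (commutatorSet Q) := ⟨⟨1, 1, 1, by simp⟩⟩
    exact Nat.card_pos
  have h5 : 1 ≤ b ^ 2 := h0.trans h2
  refine k1_pow ?_ ?_ ?_
  · exact Nat.one_le_pow _ _ h5
  · exact k1_pow h5 h2 (by omega)
  · exact Nat.add_le_add_right (k1_pow h5 h2 (by omega)) 1

end Pool.Agent.Lib.H65F
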