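import Mathlib

/-!
Signed measures: definitions.  `Ω` is a finite set, a letter function is `g : Ω → ℕ`.
-/

set_option autoImplicit false

namespace Pool.Agent.Lib.H65F

/-- Pairing of a finitely supported integer measure on functions with an integer function. -/
noncomputable def pr1 {Ω : Type} (c : (Ω → ℕ) →₀ ℤ) (f : (Ω → ℕ) → ℤ) : ℤ :=
  c.sum fun g n => n * f g

/-- `f` does not depend on the coordinate `v`. -/
def Indep {Ω T : Type} (f : (Ω → ℕ) → T) (v : Ω) : Prop :=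
  ∀ g g' : Ω → ℕ, (∀ u, u ≠ v → g u = g' u) → f g = f g'

/-- `f` depends only on the coordinates in `B`. -/
def DepOn {Ω T : Type} (f : (Ω → ℕ) → T) (B : Finset Ω) : Prop :=
  ∀ g g' : Ω → ℕ, (∀ u ∈ B, g u = g' u) → f g = f g'

/-- A measure `ν A` for each finite set `A`: total mass one, consistent, and (for `|A| ≤ d`)
supported on injective functions outside `Z` with letters in `Λ` on `A`. -/
structure NuFam (Ω : Type) [DecidableEq Ω] (d : ℕ) (Z Λ : Finset ℕ)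
    (ν : Finset Ω → ((Ω → ℕ) →₀ ℤ)) : Prop where
  mass : pr1 (ν ∅) (fun _ => 1) = 1
  supp : ∀ A : Finset Ω, A.card ≤ d → ∀ g ∈ (ν A).support,
    Function.Injective g ∧ (∀ v, g v ∉ Z) ∧ ∀ v ∈ A, g v ∈ Λ
  cons : ∀ A : Finset Ω, ∀ v ∈ A, ∀ f : (Ω → ℕ) → ℤ, Indep f v →
    pr1 (ν A) f = pr1 (ν (A.erase v)) f

open Classical in
/-- The properties of the signed measure used in Theorems A and B. -/
structure Meas (Ω : Type) (d : ℕ) (Z Λ : Finset ℕ) (c : (Ω → ℕ) →₀ ℤ) : Prop where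
  mass : ∑ g ∈ c.support, c g = 1
  supp : ∀ g ∈ c.support, Function.Injective g ∧ ∀ v, g v ∉ Z
  ex : ∀ B : Finset Ω, B.card ≤ d → ∃ g : Ω → ℕ, Function.Injective g ∧ (∀ v, g v ∉ Z) ∧
    ∀ v ∈ B, g v ∈ Λ
  marg : ∀ B : Finset Ω, B.card ≤ d → ∀ (T : Type) (F : (Ω → ℕ) → T), DepOn F B → ∀ t : T,
    (∀ g : Ω → ℕ, Function.Injective g → (∀ v, g v ∉ Z) → (∀ v ∈ B, g v ∈ Λ) → F g ≠ t) →
    ∑ g ∈ c.support with F g = t, c g = 0

open Classical in
/-- `g₁` on the finite set `A`, `g` elsewhere. -/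
noncomputable def cmb {Ω : Type} (A : Finset Ω) (g₁ g : Ω → ℕ) : Ω → ℕ :=
  fun v => if v ∈ A then g₁ v else g v

theorem cmb_of_mem {Ω : Type} {A : Finset Ω} (g₁ g : Ω → ℕ) {v : Ω} (h : v ∈ A) :
    cmb A g₁ g v = g₁ v := by rw [cmb, if_pos h]

theorem cmb_of_notMem {Ω : Type} {A : Finset Ω} (g₁ g : Ω → ℕ) {v : Ω} (h : v ∉ A) :
    cmb A g₁ g v = g v := by rw [cmb, if_neg h]

open Classical in
/-- The alternating sum over the subsets `T` of `A` of the point masses at `g` changed to `z'` on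
`T`. -/
noncomputable def dl {Ω : Type} (A : Finset Ω) (g z' : Ω → ℕ) : (Ω → ℕ) →₀ ℤ :=
  ∑ T ∈ A.powerset, ((-1 : ℤ) ^ T.card) • Finsupp.single (cmb T z' g) 1

open Classical in
/-- The mass of `y` on the fibre `F = t`. -/
noncomputable def coef {Ω T : Type} (y : (Ω → ℕ) →₀ ℤ) (F : (Ω → ℕ) → T) (t : T) : ℤ :=
  ∑ g ∈ y.support with F g = t, y g

end Pool.Agent.Lib.H65F
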