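import Pool.Agent.Lib.H65F.C1
import Pool.Agent.Lib.H65F.C1b
import Pool.Agent.Lib.H65F.C2
import Pool.Agent.Lib.H65F.C3
import Pool.Agent.Lib.H65F.C3b
import Pool.Agent.Lib.H65F.C3c
import Pool.Agent.Lib.H65F.S0
import Pool.Agent.Lib.H65F.K1
import Pool.Agent.Lib.H65F.K1b
import Pool.Agent.Lib.H65F.K1c

/-!
Definitions for Theorems A and B.
-/

set_option autoImplicit false

namespace Pool.Agent.Lib.H65F

open Subgroup Pool.Agent.H69

variable {F : Formation} (S : BSys F)

/-- Letter functions. -/
abbrev LFn : Type := Subgroup S.D' → ℕ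

/-- The bounded tests. -/
def tests (Λ : Finset ℕ) : Set (Fr →* S.Y) :=
  {β | Function.Surjective β ∧ RB S.Y Λ ≤ β.ker}

/-- The intersection of the kernels of the tests. -/
def tker (Λ : Finset ℕ) : Subgroup Fr := sInf {K | ∃ β ∈ tests S Λ, K = β.ker}

open Classical in
/-- The `UNode`s of `D'` above the kernel of `p'`, as a finite set. -/
noncomputable def sigP : Finset (Subgroup S.D') :=
  letI := Fintype.ofFinite (Subgroup S.D')
  Finset.univ.filter fun M => UNode M ∧ S.p'.ker ≤ M

open Classical in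
/-- The `UNode`s of `D'` above the kernel of `π' i`, as a finite set. -/
noncomputable def sigI (i : S.I) : Finset (Subgroup S.D') :=
  letI := Fintype.ofFinite (Subgroup S.D')
  Finset.univ.filter fun M => UNode M ∧ (S.π' i).ker ≤ M

theorem mem_sigP (M : Subgroup S.D') : M ∈ sigP S ↔ UNode M ∧ S.p'.ker ≤ M := by
  simp [sigP]

theorem mem_sigI (i : S.I) (M : Subgroup S.D') : M ∈ sigI S i ↔ UNode M ∧ (S.π' i).ker ≤ M := by
  simp [sigI]

/-- The homomorphism `Fr → G'` of the letter function `g`. -/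
noncomputable def bt (g : LFn S) : Fr →* S.G' := S.p'.comp (hh g)

/-- A lift of `bt g` to `G`. -/
noncomputable def bl (g : LFn S) : Fr →* S.G := lf S.aG S.haG (bt S g)

theorem bl_spec (g : LFn S) (f : Fr) : S.aG (bl S g f) = bt S g f := lf_spec _ _ _ _

/-- The product of the central elements `bl g ρ ^ y g`. -/
noncomputable def kap (y : LFn S →₀ ℤ) (ρ : Fr) : center S.G :=
  y.prod fun g n => (cz (bl S g ρ)) ^ n

/-- Some quotient `T ∈ H` of the commutator subgroup of `Fr` has the property that on its kernel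
all `bt g` (`g` in the support) and `kap y` vanish. -/
def AA (H : Formation) (y : LFn S →₀ ℤ) : Prop :=
  ∃ (T : Type) (_ : Group T) (u : ↥(_root_.commutator Fr) →* T), Function.Surjective u ∧
    H.mem T ∧ ∀ ρ : ↥(_root_.commutator Fr), u ρ = 1 →
      (∀ g ∈ y.support, bt S g ρ = 1) ∧ kap S y ρ = 1

end Pool.Agent.Lib.H65F
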