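import Pool.Agent.Lib.H69.Formation.Quasi

/-!
Explicit bounds (definitions) and the tests of the final theorem.
-/

set_option autoImplicit false

namespace Pool.Agent.Lib.H65F

open Subgroup Pool.Agent.H69

/-- Bound for the number of sets `LSet N β z` over one kernel, `y = |Y|`, `l` letters. -/
def stepB (y l : ℕ) : ℕ := 2 ^ y * y ^ y * l

/-- Bound for the number of kernels. -/
def kerB (y l : ℕ) : ℕ := ∑ j ∈ Finset.range (y + 1), stepB y l ^ j

/-- Bound for the order of `Fr ⧸ RB Y Λ`. -/
def quotB (y l : ℕ) : ℕ := y ^ kerB y l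

/-- The bound for the power in Theorem B: `y = |G₀|`, `e = |E|`. -/
def powB (y e : ℕ) : ℕ := y ^ quotB y ((2 ^ y + 1) ^ 2 + 2 ^ e)

/-- Schur bound: order of a perfect group with a central subgroup of index at most `b`. -/
def schurB (b : ℕ) : ℕ := Subgroup.cardCommutatorBound (b ^ 2)

/-- The bound for the order in Theorem A. -/
def ordB (y : ℕ) : ℕ := y + schurB (quotB y ((2 ^ y + 1) ^ 2 + 2 * 2 ^ y))

/-- `X` is a homomorphic image of a subdirect subgroup of `G ^ r` for some `r ≤ m`. -/
def ImageOfSubdirectPowerLE (m : ℕ) (G X : Type) [Group G] [Group X] : Prop :=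
  ∃ r ≤ m, ∃ Y : Subgroup (Fin r → G), (∀ i g, ∃ y ∈ Y, y i = g) ∧
    ∃ θ : Y →* X, Function.Surjective θ

/-- Test (a) for one group: abelian minimal normal subgroups are central. -/
def TestAbelian (G : Type) [Group G] : Prop :=
  ∀ A : Subgroup G, IsMinNormal A → (∀ a ∈ A, ∀ b ∈ A, a * b = b * a) → A ≤ center G

/-- Test (b) for one group. -/
def TestTower (G : Type) [Group G] : Prop :=
  ∀ (A : Subgroup G) [A.Normal], IsMinNormal A →
    (¬ ∀ a ∈ A, ∀ b ∈ A, a * b = b * a) → IsTower (ModCentralizer A)

/-- Test (P) for one group: if `G` is perfect with a unique minimal normal subgroup and this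
is central, then each perfect normal subgroup of `G` is an image of a subdirect subgroup of
`G ^ r` with `r ≤ powB |G| |G|`. -/
def TestPerfect (G : Type) [Group G] : Prop :=
  _root_.commutator G = ⊤ → ∀ C : Subgroup G, IsMinNormal C →
    (∀ B : Subgroup G, IsMinNormal B → B = C) → C ≤ center G →
    ∀ E : Subgroup G, E.Normal → _root_.commutator E = ⊤ →
      ImageOfSubdirectPowerLE (powB (Nat.card G) (Nat.card G)) G E

/-- The perfect residual of a finite group: the intersection of the derived series. -/
def pr (G : Type) [Group G] : Subgroup G := ⨅ n : ℕ, derivedSeries G n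

end Pool.Agent.Lib.H65F
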