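import Pool.Agent.Lib.H65F.D0

/-! Chunk L0: homomorphisms from the free group modulo a normal subgroup. -/

set_option autoImplicit false

namespace Pool.Agent.Lib.H65F

open Subgroup Pool.Agent.H69

variable {X : Type} [Group X]

/-- PROOF. The homomorphisms `(QuotientGroup.mk' N).comp u` and `(QuotientGroup.mk' N).comp v` agree on the
generators (`QuotientGroup.eq`), so they are equal (`FreeGroup.ext_hom`). -/
theorem agree_of_gen {N : Subgroup X} (hN : N.Normal) (u v : Fr →* X)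
    (h : ∀ i : ℕ, (u (FreeGroup.of i))⁻¹ * v (FreeGroup.of i) ∈ N) (f : Fr) :
    (u f)⁻¹ * v f ∈ N := by
  have he : (QuotientGroup.mk' N).comp u = (QuotientGroup.mk' N).comp v := by
    apply FreeGroup.ext_hom
    intro i
    exact QuotientGroup.eq.mpr (h i)
  exact QuotientGroup.eq.mp (DFunLike.congr_fun he f)

/-- PROOF. `(u f)⁻¹ * v f ∈ N`; `u f ∈ M` iff `v f ∈ M` for `N ≤ M`. -/
theorem comap_eq_of_agree {N M : Subgroup X} (u v : Fr →* X)
    (h : ∀ f, (u f)⁻¹ * v f ∈ N) (hNM : N ≤ M) : M.comap u = M.comap v := by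
  ext f
  rw [mem_comap, mem_comap]
  have h1 : (u f)⁻¹ * v f ∈ M := hNM (h f)
  constructor
  · intro hu
    have := M.mul_mem hu h1
    rwa [mul_inv_cancel_left] at this
  · intro hv
    have h2 := M.mul_mem hv (M.inv_mem h1)
    rwa [mul_inv_rev, inv_inv, mul_inv_cancel_left] at h2

/-- PROOF. An element `u f * n` is `v f * ((v f)⁻¹ * u f * n)`, where `(v f)⁻¹ * u f = ((u f)⁻¹ * v f)⁻¹ ∈ N`
(`N` normal, `Subgroup.mem_sup_of_normal_right`). -/
theorem range_sup_of_agree {N M : Subgroup X} (hM : M.Normal) (u v : Fr →* X)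
    (h : ∀ f, (u f)⁻¹ * v f ∈ N) (hNM : N ≤ M) (hu : u.range ⊔ M = ⊤) : v.range ⊔ M = ⊤ := by
  rw [eq_top_iff, ← hu, sup_le_iff]
  refine ⟨?_, le_sup_right⟩
  rintro _ ⟨f, rfl⟩
  have h1 : (v f)⁻¹ * u f ∈ M := by
    have := M.inv_mem (hNM (h f))
    rwa [mul_inv_rev, inv_inv] at this
  have h2 : v f * ((v f)⁻¹ * u f) ∈ v.range ⊔ M :=
    mul_mem_sup ⟨f, rfl⟩ h1
  rwa [mul_inv_cancel_left] at h2

/-- PROOF. `(φ f)⁻¹ * ψ f ∈ up C ↔ (φ' f)⁻¹ * ψ f ∈ up C` (product with `(φ f)⁻¹ * φ' f ∈ up C` or its inverse), and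
`(up C).comap φ = (up C).comap φ'`. -/
theorem LSet_congr {C : Subgroup X} {φ φ' : Fr →* X} (h : ∀ f, (φ f)⁻¹ * φ' f ∈ up C) (z : ℕ) :
    LSet C φ z = LSet C φ' z := by
  have hc : (up C).comap φ = (up C).comap φ' := comap_eq_of_agree φ φ' h le_rfl
  have hiff : ∀ ψ : Fr →* X, IsLift C φ ψ ↔ IsLift C φ' ψ := by
    intro ψ
    constructor
    · intro hl
      refine ⟨hl.surj, fun f => ?_⟩
      have := (up C).mul_mem ((up C).inv_mem (h f)) (hl.ovr f)
      rwa [mul_inv_rev, inv_inv, mul_assoc, mul_inv_cancel_left] at this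
    · intro hl
      refine ⟨hl.surj, fun f => ?_⟩
      have := (up C).mul_mem (h f) (hl.ovr f)
      rwa [mul_assoc, mul_inv_cancel_left] at this
  ext K
  simp only [LSet, Set.mem_setOf_eq, hc, hiff]

/-- PROOF. `hs g C` is `ext C (hs g (up C)) (g C)` if `C < up C` (`hs_eq`) and `1` otherwise. -/
theorem hs_top [Finite X] (g : Subgroup X → ℕ) : hs g (⊤ : Subgroup X) = 1 := by
  rw [hs, WellFounded.fix_eq, dif_neg]
  exact fun h => h.not_ge le_top

end Pool.Agent.Lib.H65F
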