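import Pool.Agent.Lib.H65F.L1
import Pool.Agent.Lib.H65F.N3
import Pool.Agent.Lib.H65F.N3b

/-! Chunk L3: basic properties of the homomorphisms `hs g C`. -/

set_option autoImplicit false

namespace Pool.Agent.Lib.H65F

open Subgroup Pool.Agent.H69

variable {X : Type} [Group X] [Finite X]

/-- PROOF. Well-founded induction on `C` with respect to `>` (`Subgroup X` is finite; or strong
induction on `C.index`).  Put `φ := hs g (up C)`.  `C < up C` (`UNode.isNode`).  If `up C = ⊤` then
`φ.range ⊔ up C = ⊤` is clear and `(up C).comap φ = ⊤`, `FS ⊤`.  If `up C ≠ ⊤` then `up C` is a `UNode`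
(`UNode.up_unode`) and by induction `φ.range ⊔ up C = ⊤` and `FS ((up C).comap φ)` (third part for
`up C`).  In both cases `LSet C φ (g C)` is nonempty (`LSet_nonempty`), `hs g C = ext C φ (g C)` (`hs_eq`),
`ext_spec` gives the first two claims with `pick_mem`, and the third is contained in membership in `LSet`. -/
theorem hs_spec (g : Subgroup X → ℕ) {C : Subgroup X} (hC : UNode C) :
    IsLift C (hs g (up C)) (hs g C) ∧
      C.comap (hs g C) = pick (LSet C (hs g (up C)) (g C)) ∧
      C.comap (hs g C) ∈ LSet C (hs g (up C)) (g C) ∧ FS (C.comap (hs g C)) := by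
  induction C using (wellFounded_gt (α := Subgroup X)).induction with
  | _ C ih =>
    have hlt : C < up C := hC.isNode.lt_up
    have hkey : (hs g (up C)).range ⊔ up C = ⊤ ∧ FS ((up C).comap (hs g (up C))) := by
      by_cases ht : up C = ⊤
      · rw [ht]
        refine ⟨sup_top_eq _, 0, fun i _ => ?_⟩
        rw [comap_top]
        exact mem_top _
      · obtain ⟨h1, -, -, h4⟩ := ih (up C) hlt (hC.up_unode ht)
        exact ⟨h1.surj, h4⟩
    have hne : (LSet C (hs g (up C)) (g C)).Nonempty :=
      LSet_nonempty hC.normal hlt _ hkey.1 hkey.2 _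
    obtain ⟨h1, h2⟩ := ext_spec hne
    have hmem : C.comap (hs g C) ∈ LSet C (hs g (up C)) (g C) := by
      rw [hs_eq g hlt, h2]
      exact pick_mem hne
    refine ⟨?_, ?_, hmem, ?_⟩
    · rw [hs_eq g hlt]; exact h1
    · rw [hs_eq g hlt]; exact h2
    · obtain ⟨ψ, -, -, h, -⟩ := hmem
      exact h

end Pool.Agent.Lib.H65F
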