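import Pool.Agent.Lib.H65F.L1
import Pool.Agent.Lib.H65F.N3
import Pool.Agent.Lib.H65F.N3b
import Pool.Agent.Lib.H65F.L3

/-! Chunk L3b: basic properties of the homomorphisms `hs g C`. -/

set_option autoImplicit false

namespace Pool.Agent.Lib.H65F

open Subgroup Pool.Agent.H69

variable {X : Type} [Group X] [Finite X]

/-- PROOF. Well-founded induction on `C` upwards (for all `M`).  `M = C`: trivial.  Otherwise `C < M`, `up C ≤ M`
(`up_le`).  `(hs g (up C) f)⁻¹ * hs g C f ∈ up C ≤ M` (`hs_spec`, `IsLift.ovr`).  If `up C = ⊤`, then `M = ⊤`, trivial.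
Otherwise `up C` is a `UNode` and induction gives `(hs g M f)⁻¹ * hs g (up C) f ∈ M`; multiply. -/
theorem hs_compat (g : Subgroup X → ℕ) {C : Subgroup X} (hC : UNode C) {M : Subgroup X}
    (hM : M.Normal) (h : C ≤ M) (f : Fr) : (hs g M f)⁻¹ * hs g C f ∈ M := by
  induction C using (wellFounded_gt (α := Subgroup X)).induction with
  | _ C ih =>
    rcases eq_or_lt_of_le h with he | hlt
    · rw [he, inv_mul_cancel]; exact one_mem _
    · have hle : up C ≤ M := up_le hM hlt
      have h1 : (hs g (up C) f)⁻¹ * hs g C f ∈ M := hle ((hs_spec g hC).1.ovr f)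
      by_cases ht : up C = ⊤
      · rw [ht, top_le_iff] at hle
        rw [hle]; exact mem_top _
      · have h2 := ih (up C) hC.isNode.lt_up (hC.up_unode ht) hle
        have := mul_mem h2 h1
        rwa [mul_assoc, mul_inv_cancel_left] at this

/-- PROOF. Well-founded induction on `C` upwards: `hs g C = ext C (hs g (up C)) (g C)` (`hs_eq`); `g C = g' C`; if
`up C = ⊤` then `hs g ⊤ = 1 = hs g' ⊤` (`hs_top`); otherwise `up C` is a `UNode` and every `M ≥ up C` is `≥ C`. -/
theorem hs_congr (g g' : Subgroup X → ℕ) {C : Subgroup X} (hC : UNode C)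
    (h : ∀ M : Subgroup X, UNode M → C ≤ M → g M = g' M) : hs g C = hs g' C := by
  induction C using (wellFounded_gt (α := Subgroup X)).induction with
  | _ C ih =>
    have hlt : C < up C := hC.isNode.lt_up
    have hup : hs g (up C) = hs g' (up C) := by
      by_cases ht : up C = ⊤
      · rw [ht, hs_top, hs_top]
      · exact ih (up C) hlt (hC.up_unode ht) fun M hM hle => h M hM (hlt.le.trans hle)
    rw [hs_eq g hlt, hs_eq g' hlt, hup, h C hC le_rfl]

/-- PROOF. `hs g M = hs g C` modulo `M` (`hs_compat`), so `M.comap (hs g M) = M.comap (hs g C)`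
(`comap_eq_of_agree` with `N := M`), for `C ≤ M` normal. -/
theorem comap_hs_eq (g : Subgroup X → ℕ) {C : Subgroup X} (hC : UNode C) {M : Subgroup X}
    (hM : M.Normal) (h : C ≤ M) : M.comap (hs g M) = M.comap (hs g C) :=
  comap_eq_of_agree _ _ (fun f => hs_compat g hC hM h f) le_rfl

/-- PROOF. `unode_comap_iff` with `ψ := hs g C`, onto modulo `C` by `hs_spec`. -/
theorem unode_comap_hs (g : Subgroup X → ℕ) {C : Subgroup X} (hC : UNode C) :
    UNode (C.comap (hs g C)) :=
  (unode_comap_iff hC.normal (hs g C) (hs_spec g hC).1.surj).mpr hC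

/-- Normal subgroups of the free group above a kernel are kernels (or `⊤`).
PROOF. `exists_eq_comap` with `ψ := hs g C`: `K = M.comap (hs g C)` with `C ≤ M` normal, `M ≠ ⊤`, so `M` is a `UNode`
(`UNode.mono`); `comap_hs_eq`. -/
theorem exists_of_comap_hs_le (g : Subgroup X → ℕ) {C : Subgroup X} (hC : UNode C)
    {K : Subgroup Fr} (hK : K.Normal) (hle : C.comap (hs g C) ≤ K) (hne : K ≠ ⊤) :
    ∃ M : Subgroup X, UNode M ∧ C ≤ M ∧ M.comap (hs g M) = K := by
  obtain ⟨M, hM, hCM, hMK⟩ :=
    exists_eq_comap hC.normal (hs g C) (hs_spec g hC).1.surj hK hle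
  have hMt : M ≠ ⊤ := by
    rintro rfl
    rw [comap_top] at hMK
    exact hne hMK.symm
  refine ⟨M, hC.mono hM hCM hMt, hCM, ?_⟩
  rw [comap_hs_eq g hC hM hCM, hMK]

end Pool.Agent.Lib.H65F
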