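import Pool.Agent.Lib.H65F.L3
import Pool.Agent.Lib.H65F.L3b

/-! Chunk L4: the kernels are distinct for injective letter functions. -/

set_option autoImplicit false

namespace Pool.Agent.Lib.H65F

open Subgroup Pool.Agent.H69

variable {X : Type} [Group X] [Finite X]

/-- PROOF. Well-founded induction on `C` upwards, for all `C'`.  Let `K := C.comap (hs g C) = C'.comap (hs g C')`.  By
`up_comap` (with `ψ := hs g C`, onto modulo `C`) `up K = (up C).comap (hs g C) = (up C).comap (hs g (up C))`
(`comap_hs_eq`), in the same way `up K = (up C').comap (hs g (up C'))`.  If `up C = ⊤` then `up K = ⊤`, so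
`(up C').comap (hs g C') = ⊤` and `up C' = ⊤` (`comap_eq_top_iff_of_range`).  If `up C ≠ ⊤` then `up K ≠ ⊤`, so `up C' ≠ ⊤`, both are
`UNode`s and `up C = up C'` by induction.  In all cases `up C = up C'`.  By `hs_spec` (membership in `LSet`):
`pos (up K) K = n0 (up K) + g C` and `pos (up K) K = n0 (up K) + g C'` (here
`(up C).comap (hs g (up C)) = up K`).  So `g C = g C'`, `C = C'`. -/
theorem hs_ker_inj {g : Subgroup X → ℕ} (hg : Function.Injective g) {C C' : Subgroup X}
    (hC : UNode C) (hC' : UNode C') (h : C.comap (hs g C) = C'.comap (hs g C')) : C = C' := by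
  induction C using (wellFounded_gt (α := Subgroup X)).induction generalizing C' with
  | _ C ih =>
  obtain ⟨s1, -, s3, -⟩ := hs_spec g hC
  obtain ⟨t1, -, t3, -⟩ := hs_spec g hC'
  have e1 : up (C.comap (hs g C)) = (up C).comap (hs g C) := up_comap hC.normal _ s1.surj
  have e1' : up (C'.comap (hs g C')) = (up C').comap (hs g C') := up_comap hC'.normal _ t1.surj
  have e2 : (up C).comap (hs g (up C)) = (up C).comap (hs g C) :=
    comap_hs_eq g hC (up_normal C) (le_up C)
  have e2' : (up C').comap (hs g (up C')) = (up C').comap (hs g C') :=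
    comap_hs_eq g hC' (up_normal C') (le_up C')
  have e3 : (up C).comap (hs g (up C)) = (up C').comap (hs g (up C')) := by
    rw [e2, e2', ← e1, ← e1', h]
  have q1 : (up C).comap (hs g C) = ⊤ ↔ up C = ⊤ :=
    comap_eq_top_iff_of_range hC.normal _ s1.surj (le_up C)
  have q2 : (up C').comap (hs g C') = ⊤ ↔ up C' = ⊤ :=
    comap_eq_top_iff_of_range hC'.normal _ t1.surj (le_up C')
  have hup : up C = up C' := by
    by_cases htop : up C = ⊤
    · rw [htop]
      symm
      rw [← q2, ← e1', ← h, e1, q1]
      exact htop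
    · have htop' : up C' ≠ ⊤ := by
        intro h'
        apply htop
        rw [← q1, ← e1, h, e1', q2]
        exact h'
      exact ih (up C) hC.isNode.lt_up (hC.up_unode htop) (hC'.up_unode htop') e3
  obtain ⟨ψ, -, -, -, p1⟩ := s3
  obtain ⟨ψ', -, -, -, p2⟩ := t3
  rw [← h, ← e3] at p2
  exact hg (Nat.add_left_cancel (p1.symm.trans p2))

/-- PROOF. If `C.comap (hs g C) ≤ C'.comap (hs g C')`, then by `exists_of_comap_hs_le` (with `K := C'.comap (hs g C')`, normal,
`≠ ⊤` as it is a `UNode`) there is a `UNode` `M ≥ C` with `M.comap (hs g M) = C'.comap (hs g C')`; `hs_ker_inj` gives `M = C'`. -/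
theorem le_of_comap_hs_le {g : Subgroup X → ℕ} (hg : Function.Injective g) {C C' : Subgroup X}
    (hC : UNode C) (hC' : UNode C') (h : C.comap (hs g C) ≤ C'.comap (hs g C')) : C ≤ C' := by
  have hu := unode_comap_hs g hC'
  obtain ⟨M, hM, hCM, hMe⟩ := exists_of_comap_hs_le g hC hu.normal h hu.ne_top
  rw [← hs_ker_inj hg hM hC' hMe]
  exact hCM

end Pool.Agent.Lib.H65F
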