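import Pool.Agent.Lib.H65F.K0
import Pool.Agent.Lib.H65F.D0

/-! Chunk R1: the perfect residual and centre quotients of perfect groups. -/

set_option autoImplicit false

namespace Pool.Agent.Lib.H65F

open Subgroup Pool.Agent.H69

/-- PROOF. The derived series is antitone (`derivedSeries_antitone`), the set of subgroups is finite, so it is constant from some
`n` on. -/
theorem exists_pr_eq (G : Type) [Group G] [Finite G] :
    ∃ n : ℕ, ∀ m : ℕ, n ≤ m → derivedSeries G m = pr G := by
  let a : ℕ →o (Subgroup G)ᵒᵈ :=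
    ⟨fun n => OrderDual.toDual (derivedSeries G n), fun x y h => derivedSeries_antitone G h⟩
  obtain ⟨n, hn⟩ := WellFoundedGT.monotone_chain_condition a
  have h1 : ∀ m, n ≤ m → derivedSeries G n = derivedSeries G m := fun m hm => hn m hm
  refine ⟨n, fun m hm => ?_⟩
  rw [← h1 m hm]
  refine le_antisymm (le_iInf fun j => ?_) (iInf_le _ n)
  rcases le_total n j with h | h
  · exact (h1 j h).le
  · exact derivedSeries_antitone G h

/-- PROOF. Infimum of normal subgroups. -/
theorem pr_normal (G : Type) [Group G] : (pr G).Normal :=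
  Subgroup.normal_iInf_normal fun n => derivedSeries_normal G n

/-- PROOF. `exists_pr_eq`, `derivedSeries G (n + 1) = ⁅derivedSeries G n, derivedSeries G n⁆`. -/
theorem pr_perfect (G : Type) [Group G] [Finite G] :
    ⁅pr G, pr G⁆ = pr G ∧ _root_.commutator ↥(pr G) = ⊤ := by
  have h : ⁅pr G, pr G⁆ = pr G := by
    obtain ⟨n, hn⟩ := exists_pr_eq G
    have h1 := hn (n + 1) (Nat.le_succ n)
    rw [derivedSeries_succ, hn n le_rfl] at h1
    exact h1
  exact ⟨h, (commutator_coe_eq_top_iff (pr G)).mpr h⟩

/-- PROOF. Induction: `E ≤ derivedSeries G n` for all `n`, since `E = ⁅E, E⁆`. -/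
theorem le_pr {G : Type} [Group G] {E : Subgroup G} (hE : ⁅E, E⁆ = E) : E ≤ pr G := by
  refine le_iInf fun n => ?_
  induction n with
  | zero => exact le_top
  | succ n ih =>
    rw [derivedSeries_succ]
    exact hE.symm.le.trans (commutator_mono ih ih)

/-- PROOF. `derivedSeries G n = ⊤` for all `n`. -/
theorem pr_eq_top {G : Type} [Group G] (hG : _root_.commutator G = ⊤) : pr G = ⊤ :=
  top_le_iff.mp (le_pr (by rw [← _root_.commutator_def]; exact hG))

/-- PROOF. `map_derivedSeries_eq` and `exists_pr_eq` for both groups. -/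
theorem map_pr {A B : Type} [Group A] [Finite A] [Group B] [Finite B] (f : A →* B)
    (hf : Function.Surjective f) : (pr A).map f = pr B := by
  obtain ⟨n, hn⟩ := exists_pr_eq A
  obtain ⟨m, hm⟩ := exists_pr_eq B
  rw [← hn (max n m) (le_max_left _ _), ← hm (max n m) (le_max_right _ _)]
  exact map_derivedSeries_eq hf _

variable {D G₀ I : Type} [Group D] [Group G₀]

end Pool.Agent.Lib.H65F
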