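import Pool.Agent.Lib.H65F.K0
import Pool.Agent.Lib.H65F.D0
import Pool.Agent.Lib.H65F.R1

/-! Chunk R1b: the perfect residual and centre quotients of perfect groups. -/

set_option autoImplicit false

namespace Pool.Agent.Lib.H65F

open Subgroup Pool.Agent.H69
open scoped commutatorElement

/-- PROOF. For `b : B`, `b = f a'`, and `a` commutes with `a'`. -/
theorem center_le_comap {A B : Type} [Group A] [Group B] (f : A →* B)
    (hf : Function.Surjective f) : center A ≤ (center B).comap f := by
  intro a ha
  rw [mem_comap, mem_center_iff]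
  intro b
  obtain ⟨a', rfl⟩ := hf b
  rw [← map_mul, ← map_mul, mem_center_iff.mp ha a']

/-- The induced map of the centre quotients. -/
def cqMap {A B : Type} [Group A] [Group B] (f : A →* B) (hf : Function.Surjective f) :
    (A ⧸ center A) →* (B ⧸ center B) :=
  QuotientGroup.map (center A) (center B) f (center_le_comap f hf)

theorem cqMap_mk {A B : Type} [Group A] [Group B] (f : A →* B) (hf : Function.Surjective f)
    (a : A) : cqMap f hf (QuotientGroup.mk' (center A) a) = QuotientGroup.mk' (center B) (f a) :=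
  rfl

theorem cqMap_surjective {A B : Type} [Group A] [Group B] (f : A →* B)
    (hf : Function.Surjective f) : Function.Surjective (cqMap f hf) := by
  intro q
  obtain ⟨b, rfl⟩ := QuotientGroup.mk'_surjective (center B) q
  obtain ⟨a, rfl⟩ := hf b
  exact ⟨QuotientGroup.mk' (center A) a, cqMap_mk f hf a⟩

/-- Gruen's lemma.
PROOF. Let `z` be central modulo the centre.  `x ↦ ⁅z, x⁆` is a homomorphism from `A` to the abelian group `center A`
(`⁅z, x y⁆ = ⁅z, x⁆ * (x ⁅z, y⁆ x⁻¹) = ⁅z, x⁆ ⁅z, y⁆`), so it is trivial on `commutator A = ⊤`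
(`Abelianization.lift`, or: its kernel contains all commutators). -/
theorem grun {A : Type} [Group A] (hA : _root_.commutator A = ⊤) :
    center (A ⧸ center A) = ⊥ := by
  rw [eq_bot_iff]
  intro q hq
  obtain ⟨z, rfl⟩ := QuotientGroup.mk'_surjective (center A) q
  rw [mem_bot, QuotientGroup.mk'_apply, QuotientGroup.eq_one_iff]
  have h1 : ∀ x : A, ⁅z, x⁆ ∈ center A := by
    intro x
    rw [← QuotientGroup.eq_one_iff, ← QuotientGroup.mk'_apply, map_commutatorElement,
      commutatorElement_eq_one_iff_mul_comm]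
    exact (mem_center_iff.mp hq _).symm
  have h2 : ∀ x y : A, ⁅z, x * y⁆ = ⁅z, x⁆ * ⁅z, y⁆ := by
    intro x y
    have h3 := mem_center_iff.mp (h1 y) x
    have h4 : ⁅z, x * y⁆ = ⁅z, x⁆ * (x * ⁅z, y⁆ * x⁻¹) := by
      rw [commutatorElement_def, commutatorElement_def, commutatorElement_def]
      group
    rw [h4, h3, mul_inv_cancel_right]
  let f : A →* A := MonoidHom.mk' (fun x => ⁅z, x⁆) h2
  have h5 : _root_.commutator A ≤ f.ker := by
    rw [_root_.commutator_def, commutator_le]
    intro x _ y _
    rw [MonoidHom.mem_ker, map_commutatorElement, commutatorElement_eq_one_iff_mul_comm]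
    exact (mem_center_iff.mp (h1 x) _).symm
  rw [hA] at h5
  rw [mem_center_iff]
  intro x
  have h6 : ⁅z, x⁆ = 1 := h5 (mem_top x)
  rw [commutatorElement_eq_one_iff_mul_comm] at h6
  exact h6.symm

variable {D G₀ I : Type} [Group D] [Group G₀]

end Pool.Agent.Lib.H65F
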