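import Pool.Agent.Lib.H65F.K0
import Pool.Agent.Lib.H65F.D0
import Pool.Agent.Lib.H65F.R1
import Pool.Agent.Lib.H65F.R1b

/-! Chunk R1c: the perfect residual and centre quotients of perfect groups. -/

set_option autoImplicit false

namespace Pool.Agent.Lib.H65F

open Subgroup Pool.Agent.H69
open scoped commutatorElement

variable {D G₀ I : Type} [Group D] [Group G₀]

/-- PROOF. If `cqMap (π i) _ d = 1` for all `i`, `d = mk x`, then `π i x` is central for all `i`, so for `y : D`
`π i ⁅x, y⁆ = 1` for all `i`, so `⁅x, y⁆ = 1`, `x` central. -/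
theorem cq_inj (π : I → D →* G₀) (hπ : ∀ i, Function.Surjective (π i))
    (inj : ∀ d, (∀ i, π i d = 1) → d = 1) (d : D ⧸ center D)
    (h : ∀ i, cqMap (π i) (hπ i) d = 1) : d = 1 := by
  obtain ⟨x, rfl⟩ := QuotientGroup.mk'_surjective (center D) d
  rw [QuotientGroup.mk'_apply, QuotientGroup.eq_one_iff, mem_center_iff]
  intro y
  have h1 : ⁅x, y⁆ = 1 := by
    apply inj
    intro i
    have h2 : π i x ∈ center G₀ := by
      rw [← QuotientGroup.eq_one_iff, ← QuotientGroup.mk'_apply, ← cqMap_mk (π i) (hπ i)]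
      exact h i
    rw [map_commutatorElement, commutatorElement_eq_one_iff_mul_comm]
    exact (mem_center_iff.mp h2 _).symm
  rw [commutatorElement_eq_one_iff_mul_comm] at h1
  exact h1.symm

/-- PROOF. `mem_of_family` with `cqMap (π i)` and `cq_inj`, `hX := hY`; `D` is finite. -/
theorem cq_mem {F : Formation} [Finite D] (π : I → D →* G₀)
    (hπ : ∀ i, Function.Surjective (π i)) (inj : ∀ d, (∀ i, π i d = 1) → d = 1)
    (hY : F.mem (G₀ ⧸ center G₀)) : F.mem (D ⧸ center D) :=
  F.mem_of_family hY (fun _ : I => G₀ ⧸ center G₀) (fun i => cqMap (π i) (hπ i))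
    (fun i => cqMap_surjective (π i) (hπ i)) (fun _ => hY) (cq_inj π hπ inj)

/-- PROOF. The surjections `cqMap (π i)` map central elements to central elements, that is to `1` (`grun`); `cq_inj`. -/
theorem cq_center (π : I → D →* G₀) (hπ : ∀ i, Function.Surjective (π i))
    (inj : ∀ d, (∀ i, π i d = 1) → d = 1) (hG₀ : _root_.commutator G₀ = ⊤) :
    center (D ⧸ center D) = ⊥ := by
  rw [eq_bot_iff]
  intro q hq
  rw [mem_bot]
  refine cq_inj π hπ inj q fun i => ?_
  have h1 : cqMap (π i) (hπ i) q ∈ center (G₀ ⧸ center G₀) :=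
    center_le_comap (cqMap (π i) (hπ i)) (cqMap_surjective (π i) (hπ i)) hq
  rw [grun hG₀, mem_bot] at h1
  exact h1

end Pool.Agent.Lib.H65F
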