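import Pool.Agent.Lib.H65F.R1
import Pool.Agent.Lib.H65F.R1b
import Pool.Agent.Lib.H65F.R1c

/-! Chunk R2: from membership in `form(G₀)` to the situation of Theorems A and B. -/

set_option autoImplicit false

namespace Pool.Agent.Lib.H65F

open Subgroup Pool.Agent.H69
open scoped commutatorElement

/-- PROOF. `exists_hypercenter`: `Z := upperCentralSeries G₀ n` with `center (G₀ ⧸ Z) = ⊥`.  `G₀ ⧸ Z ∈ F` is centreless, so all its normal subgroups
are perfect (`perfect_of_noCP`, `noCP_of_center_eq_bot`), in particular `G₀ ⧸ Z` is perfect, `pr (G₀ ⧸ Z) = ⊤`, and `pr G₀ ⊔ Z = ⊤`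
(`map_pr` for `mk' Z`).  `R := pr G₀` is perfect and commutes elementwise with `Z` (`upper_commutes`), so `Z ⊓ R` is central in
`R`; the composition `R → G₀ → G₀ ⧸ Z` is surjective with kernel `Z ⊓ R` (as a subgroup of `R`).  If `r ∈ center R` then its image is central
in `G₀ ⧸ Z`, so trivial, `r ∈ Z`.  So the kernel is `center R` and `R ⧸ center R ≃* G₀ ⧸ Z`; `F.iso`. -/
theorem pr_quot_mem {F : Formation} (h1 : CondAbelian F) (h2 : CondTower' F) {G₀ : Type}
    [Group G₀] (hG₀ : F.mem G₀) : F.mem (↥(pr G₀) ⧸ center ↥(pr G₀)) := by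
  have hfin := F.finite G₀ hG₀
  obtain ⟨n, hn⟩ := exists_hypercenter G₀
  have hQ : F.mem (G₀ ⧸ Subgroup.upperCentralSeries G₀ n) :=
    F.quot G₀ (Subgroup.upperCentralSeries G₀ n) hG₀
  have hperf : ⁅(⊤ : Subgroup (G₀ ⧸ Subgroup.upperCentralSeries G₀ n)), ⊤⁆ = ⊤ :=
    perfect_of_noCP h1 _ hQ (fun p hp => noCP_of_center_eq_bot h1 h2 _ hQ hn hp) ⊤ inferInstance
  have htop : pr (G₀ ⧸ Subgroup.upperCentralSeries G₀ n) = ⊤ := pr_eq_top hperf
  have hmap : (pr G₀).map (QuotientGroup.mk' (Subgroup.upperCentralSeries G₀ n)) = ⊤ := by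
    rw [map_pr _ (QuotientGroup.mk'_surjective _), htop]
  have hcomm : ⁅Subgroup.upperCentralSeries G₀ n, pr G₀⁆ = ⊥ :=
    upper_commutes (pr G₀) (pr_perfect G₀).1 n
  let f : ↥(pr G₀) →* G₀ ⧸ Subgroup.upperCentralSeries G₀ n :=
    (QuotientGroup.mk' (Subgroup.upperCentralSeries G₀ n)).comp (pr G₀).subtype
  have hf : Function.Surjective f := by
    intro q
    have h3 : q ∈ (pr G₀).map (QuotientGroup.mk' (Subgroup.upperCentralSeries G₀ n)) := by
      rw [hmap]
      exact mem_top q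
    obtain ⟨r, hr, rfl⟩ := h3
    exact ⟨⟨r, hr⟩, rfl⟩
  have hker : f.ker = center ↥(pr G₀) := by
    ext r
    constructor
    · intro hr
      have hr' : (r : G₀) ∈ Subgroup.upperCentralSeries G₀ n := (QuotientGroup.eq_one_iff _).mp hr
      rw [mem_center_iff]
      intro g
      apply Subtype.ext
      have h4 : ⁅(r : G₀), (g : G₀)⁆ ∈ ⁅Subgroup.upperCentralSeries G₀ n, pr G₀⁆ :=
        commutator_mem_commutator hr' g.2
      rw [hcomm, mem_bot, commutatorElement_eq_one_iff_mul_comm] at h4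
      exact h4.symm
    · intro hr
      have h3 : f r ∈ center (G₀ ⧸ Subgroup.upperCentralSeries G₀ n) := center_le_comap f hf hr
      rw [hn, mem_bot] at h3
      exact h3
  exact F.iso _ _ ((QuotientGroup.quotientKerEquivOfSurjective f hf).symm.trans
    (QuotientGroup.quotientMulEquivOfEq hker)) hQ

end Pool.Agent.Lib.H65F
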