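import Pool.Agent.Lib.H65F.R1
import Pool.Agent.Lib.H65F.R1b
import Pool.Agent.Lib.H65F.R1c
import Pool.Agent.Lib.H65F.R2

/-! Chunk R2b: from membership in `form(G₀)` to the situation of Theorems A and B. -/

set_option autoImplicit false

namespace Pool.Agent.Lib.H65F

open Subgroup Pool.Agent.H69

/-- PROOF. `qr_of_inForm`: `ι`, `Y`, `ψ i : Y →* G₀`, `θ : Y →* E`, `θ y = 1` if all `ψ i y = 1`.  `Ψ : Y →* (ι → G₀)`, `Ψ y i = ψ i y`.
`D := (pr Y).map Ψ` (a finite group), `π i : D →* pr G₀` the `i`-th coordinate (it lies in `pr G₀` and is onto by `map_pr` for `ψ i`), jointly injective.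
`θ` is trivial on `Ψ.ker`, so there is `p : D →* E` with `p (Ψ y) = θ y` for `y ∈ pr Y`; it is onto since `(pr Y).map θ = pr E = ⊤` (`map_pr`, `pr_eq_top`). -/
theorem exists_data {G₀ E : Type} [Group G₀] [Finite G₀] [Group E]
    (hE : _root_.commutator E = ⊤) (h : InForm G₀ E) :
    ∃ (D : Type) (_ : Group D) (_ : Finite D) (I : Type) (_ : Finite I)
      (π : I → D →* ↥(pr G₀)) (p : D →* E), (∀ i, Function.Surjective (π i)) ∧
      (∀ d, (∀ i, π i d = 1) → d = 1) ∧ Function.Surjective p := by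
  obtain ⟨hfE, ι, hι, Y, gY, fY, ψ, θ, hψ, hθ, hinj⟩ := qr_of_inForm h
  let Ψ : Y →* (ι → G₀) := MonoidHom.mk' (fun y i => ψ i y) fun a b => funext fun i => map_mul (ψ i) a b
  have hΨ : ∀ y i, Ψ y i = ψ i y := fun _ _ => rfl
  have hmem : ∀ (d : ↥((pr Y).map Ψ)) (i : ι), d.1 i ∈ pr G₀ := by
    rintro ⟨_, y, hy, rfl⟩ i
    rw [← map_pr (ψ i) (hψ i)]
    exact ⟨y, hy, rfl⟩
  let π : ι → ↥((pr Y).map Ψ) →* ↥(pr G₀) := fun i =>
    MonoidHom.mk' (fun d => ⟨d.1 i, hmem d i⟩) fun _ _ => rfl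
  have hwd : ∀ y y', Ψ y = Ψ y' → θ y = θ y' := by
    intro y y' e
    have h1 : θ (y⁻¹ * y') = 1 := by
      refine hinj _ fun i => ?_
      have h2 : ψ i y = ψ i y' := congrFun e i
      rw [map_mul, map_inv, h2, inv_mul_cancel]
    rw [map_mul, map_inv, inv_mul_eq_one] at h1
    exact h1
  have hch : ∀ d : ↥((pr Y).map Ψ), ∃ y, Ψ y = d.1 := fun d => by
    obtain ⟨y, -, hy⟩ := d.2
    exact ⟨y, hy⟩
  choose c hc using hch
  let p : ↥((pr Y).map Ψ) →* E := MonoidHom.mk' (fun d => θ (c d)) (by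
    intro a b
    rw [← map_mul]
    apply hwd
    rw [map_mul, hc, hc, hc]
    rfl)
  refine ⟨↥((pr Y).map Ψ), inferInstance, inferInstance, ι, hι, π, p, fun i x => ?_, fun d hd => ?_,
    fun x => ?_⟩
  · have h3 : x.1 ∈ (pr Y).map (ψ i) := by
      rw [map_pr (ψ i) (hψ i)]
      exact x.2
    obtain ⟨y, hy, e⟩ := h3
    exact ⟨⟨Ψ y, y, hy, rfl⟩, Subtype.ext e⟩
  · apply Subtype.ext
    funext i
    exact congrArg Subtype.val (hd i)
  · have h3 : x ∈ (pr Y).map θ := by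
      rw [map_pr θ hθ, pr_eq_top hE]
      exact mem_top x
    obtain ⟨y, hy, e⟩ := h3
    refine ⟨⟨Ψ y, y, hy, rfl⟩, ?_⟩
    rw [← e]
    exact hwd _ _ (hc _)

end Pool.Agent.Lib.H65F
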