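import Pool.Agent.Lib.H65F.R2
import Pool.Agent.Lib.H65F.R2b
import Pool.Agent.Lib.H65F.B3
import Pool.Agent.Lib.H65F.A6
import Pool.Agent.Lib.H65F.A6b
import Pool.Agent.Lib.H65F.A6c
import Pool.Agent.Lib.H65F.A6d

/-! Chunk R3: Theorems A and B in terms of `form(G₀)`. -/

set_option autoImplicit false

namespace Pool.Agent.Lib.H65F

open Subgroup Pool.Agent.H69

/-- The `BSys` with the centre quotients. -/
noncomputable def mkSys {F : Formation} (h1 : CondAbelian F) (h2 : CondTower' F) {G₀ D G I : Type}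
    [Group G₀] [Finite G₀] [Group D] [Finite D] [Group G] [Finite G] [Finite I]
    (pG₀ : _root_.commutator G₀ = ⊤) (pG : _root_.commutator G = ⊤)
    (hY : F.mem (G₀ ⧸ center G₀)) (π : I → D →* G₀) (hπ : ∀ i, Function.Surjective (π i))
    (inj : ∀ d, (∀ i, π i d = 1) → d = 1) (p : D →* G) (hp : Function.Surjective p) :
    BSys F where
  G₀ := G₀
  D := D
  G := G
  Y := G₀ ⧸ center G₀
  D' := D ⧸ center D
  G' := G ⧸ center G
  I := I
  π := π
  π' := fun i => cqMap (π i) (hπ i)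
  p := p
  p' := cqMap p hp
  a₀ := QuotientGroup.mk' _
  aD := QuotientGroup.mk' _
  aG := QuotientGroup.mk' _
  hπ := hπ
  hπ' := fun i => cqMap_surjective _ _
  hp := hp
  hp' := cqMap_surjective _ _
  ha₀ := QuotientGroup.mk'_surjective _
  haD := QuotientGroup.mk'_surjective _
  haG := QuotientGroup.mk'_surjective _
  sqπ := fun _ _ => rfl
  sqp := fun _ => rfl
  k₀ := (QuotientGroup.ker_mk' _).le
  kD := (QuotientGroup.ker_mk' _).le
  kG := (QuotientGroup.ker_mk' _).le
  inj := inj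
  inj' := cq_inj π hπ inj
  pG₀ := pG₀
  pG := pG
  h1 := h1
  h2 := h2
  mY := hY
  mD' := cq_mem π hπ inj hY
  mG' := F.mem_of_surjective (cqMap p hp) (cqMap_surjective _ _) (cq_mem π hπ inj hY)
  zY := grun pG₀
  zD' := cq_center π hπ inj pG₀
  zG' := grun pG

/-- Theorem B.
PROOF. `exists_data`, `pr_perfect`, `pr_quot_mem`, `mkSys`, `thmB_sys`.  (`F.finite` gives `Finite G₀`; `E` is finite by `qr_of_inForm`.) -/
theorem thmB {F : Formation} (h1 : CondAbelian F) (h2 : CondTower' F) {G₀ E : Type} [Group G₀]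
    [Group E] (hG₀ : F.mem G₀) (hE : _root_.commutator E = ⊤) (h : InForm G₀ E) :
    ImageOfSubdirectPowerLE (powB (Nat.card ↥(pr G₀)) (Nat.card E)) ↥(pr G₀) E := by
  have := F.finite G₀ hG₀
  obtain ⟨D, _, _, I, _, π, p, hπ, inj, hp⟩ := exists_data hE h
  have : Finite E := Finite.of_surjective p hp
  exact thmB_sys (mkSys h1 h2 (pr_perfect G₀).2 hE (pr_quot_mem h1 h2 hG₀) π hπ inj p hp)

/-- Theorem A.
PROOF. The same with `thmA_sys`. -/
theorem thmA {F : Formation} (h1 : CondAbelian F) (h2 : CondTower' F) {G₀ G : Type} [Group G₀]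
    [Group G] (hG₀ : F.mem G₀) (hG : _root_.commutator G = ⊤) (h : InForm G₀ G) (H : Formation)
    (hH : ∀ (Q : Type) [Group Q] [Finite Q], InForm G Q → _root_.commutator Q = ⊤ →
      Nat.card Q ≤ ordB (Nat.card ↥(pr G₀)) → H.mem Q) : H.mem G := by
  have := F.finite G₀ hG₀
  obtain ⟨D, _, _, I, _, π, p, hπ, inj, hp⟩ := exists_data hG h
  have : Finite G := Finite.of_surjective p hp
  exact thmA_sys (mkSys h1 h2 (pr_perfect G₀).2 hG (pr_quot_mem h1 h2 hG₀) π hπ inj p hp) hH

end Pool.Agent.Lib.H65F
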