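import Pool.Agent.Lib.H65F.R2
import Pool.Agent.Lib.H65F.R2b
import Pool.Agent.Lib.H65F.B3
import Pool.Agent.Lib.H65F.A6
import Pool.Agent.Lib.H65F.A6b
import Pool.Agent.Lib.H65F.A6c
import Pool.Agent.Lib.H65F.A6d
import Pool.Agent.Lib.H65F.R3

/-! Chunk R3b: Theorems A and B in terms of `form(G₀)`. -/

set_option autoImplicit false

namespace Pool.Agent.Lib.H65F

open Subgroup Pool.Agent.H69

theorem r3b_tr {A B X : Type} [Group A] [Group B] [Group X] {m : ℕ} (e : A ≃* B)
    (h : ImageOfSubdirectPowerLE m A X) : ImageOfSubdirectPowerLE m B X := by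
  obtain ⟨r, hr, Y, h1, θ, h2⟩ := h
  let Ψ : (Fin r → A) ≃* (Fin r → B) := MulEquiv.piCongrRight fun _ => e
  let e' : Y ≃* Y.map (Ψ : (Fin r → A) →* (Fin r → B)) := Ψ.subgroupMap Y
  refine ⟨r, hr, Y.map (Ψ : (Fin r → A) →* (Fin r → B)), ?_, θ.comp e'.symm.toMonoidHom,
    h2.comp e'.symm.surjective⟩
  intro i b
  obtain ⟨y, hy, hyi⟩ := h1 i (e.symm b)
  refine ⟨Ψ y, ⟨y, hy, rfl⟩, ?_⟩
  show e (y i) = b
  rw [hyi, e.apply_symm_apply]

/-- MAIN 1.
PROOF. (⇒) `all_sub_normallyClosed_iff`, `condAbelian_of_prop0`, `condTower_of_prop0` give (a), (b) (`TestAbelian`, `TestTower` for each member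
by unfolding; `condTower_iff`).  `TestPerfect G`: `E` normal perfect in `G`, `InForm G E` by goodness, `thmB` with `G₀ := G`, `pr G = ⊤` (`pr_eq_top`), so
`↥(pr G) ≃* G` (`Subgroup.topEquiv`): transport `ImageOfSubdirectPowerLE` along this isomorphism (coordinatewise), `Nat.card E ≤ Nat.card G`, `powB_mono`,
`ImageOfSubdirectPowerLE.mono`.  (⇐) `classification` (H69 Suff3): `CondPerfect` from `TestPerfect` by `ImageOfSubdirectPowerLE.toImage`,
`inForm_iff_image`, `commutator_coe_eq_top_iff`. -/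
theorem main1 (F : Formation) : (∀ H : Formation, H.Sub F → H.NormallyClosed) ↔
    ∀ (G : Type) [Group G], F.mem G → TestAbelian G ∧ TestTower G ∧ TestPerfect G := by
  constructor
  · intro h
    have h0 : Prop0 F := (all_sub_normallyClosed_iff F).mp h
    have h1 : CondAbelian F := condAbelian_of_prop0 h0
    have h2 : CondTower F := condTower_of_prop0 h0
    intro G _ hG
    have := F.finite G hG
    refine ⟨h1 G hG, h2 G hG, ?_⟩
    intro hp C _ _ _ E hE hEp
    have hB := thmB h1 ((condTower_iff F).mp h2) hG hEp (h0 G E hE hG)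
    have e : ↥(pr G) ≃* G := (MulEquiv.subgroupCongr (pr_eq_top hp)).trans topEquiv
    exact (r3b_tr e hB).mono (powB_mono Nat.card_pos (pr G).card_le_card_group
      E.card_le_card_group)
  · intro h
    rw [classification]
    refine ⟨fun G _ hG => (h G hG).1, fun G _ hG => (h G hG).2.1, ?_⟩
    intro G _ hG hp C hC hCu hCc E hE hEE
    have := F.finite G hG
    exact inForm_iff_image.mpr ((h G hG).2.2 hp C hC hCu hCc E hE
      ((commutator_coe_eq_top_iff E).mpr hEE)).toImage

end Pool.Agent.Lib.H65F
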