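import Pool.Agent.Lib.H65F.K0
import Pool.Agent.Lib.H65F.U0
import Pool.Agent.Lib.H65F.U0b
import Pool.Agent.Lib.H65F.N2

/-! Chunk R4: conditions (a) and (b) for one-generated formations. -/

set_option autoImplicit false

namespace Pool.Agent.Lib.H65F

open Subgroup Pool.Agent.H69
open scoped commutatorElement

/-- All abelian chief factors are central.
Statement in terms of pairs `M < A` of normal subgroups of `X` with nothing normal between. -/
def AbCen (X : Type) [Group X] : Prop :=
  ∀ M A : Subgroup X, M.Normal → A.Normal → M < A →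
    (∀ B : Subgroup X, B.Normal → M ≤ B → B ≤ A → B = M ∨ B = A) → ⁅A, A⁆ ≤ M → ⁅A, (⊤ : Subgroup X)⁆ ≤ M

/-- PROOF. Minimal normal subgroups of `X ⧸ M` are the images of such `A`; abelian means `⁅A, A⁆ ≤ M`, central means `⁅A, ⊤⁆ ≤ M`.
Correspondence `Subgroup.comap (mk' M)`. -/
theorem abCen_iff (X : Type) [Group X] :
    AbCen X ↔ ∀ (M : Subgroup X) [M.Normal], TestAbelian (X ⧸ M) := by
  constructor
  · intro h M hM A' hA' hcomm
    have hsurj := QuotientGroup.mk'_surjective M
    have hker : (QuotientGroup.mk' M).ker = M := QuotientGroup.ker_mk' M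
    have hA'n : A'.Normal := hA'.1
    have hMA : M ≤ A'.comap (QuotientGroup.mk' M) := by
      conv_lhs => rw [← hker]
      exact MonoidHom.ker_le_comap _ _
    have hne : M ≠ A'.comap (QuotientGroup.mk' M) := by
      intro he
      apply hA'.2.1
      have e1 : (A'.comap (QuotientGroup.mk' M)).map (QuotientGroup.mk' M) = A' :=
        map_comap_eq_self_of_surjective hsurj A'
      rw [← e1, ← he, Subgroup.map_eq_bot_iff, hker]
    have key := h M (A'.comap (QuotientGroup.mk' M)) hM (hA'n.comap _)
      (lt_of_le_of_ne hMA hne) (by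
        intro B hB hMB hBA
        have hBn : (B.map (QuotientGroup.mk' M)).Normal := hB.map _ hsurj
        have hBk : (B.map (QuotientGroup.mk' M)).comap (QuotientGroup.mk' M) = B := by
          rw [comap_map_eq, hker, sup_eq_left.mpr hMB]
        have hBA' : B.map (QuotientGroup.mk' M) ≤ A' := by
          rw [map_le_iff_le_comap]
          exact hBA
        by_cases hb0 : B.map (QuotientGroup.mk' M) = ⊥
        · left
          rw [Subgroup.map_eq_bot_iff, hker] at hb0
          exact le_antisymm hb0 hMB
        · right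
          have := hA'.2.2 _ hBn hBA' hb0
          rw [← hBk, this])
      (by
        rw [commutator_le]
        intro a ha b hb
        rw [← QuotientGroup.eq_one_iff]
        have := hcomm (a : X ⧸ M) ha (b : X ⧸ M) hb
        have e1 : ((⁅a, b⁆ : X) : X ⧸ M) = ⁅(a : X ⧸ M), (b : X ⧸ M)⁆ := rfl
        rw [e1, commutatorElement_eq_one_iff_mul_comm]
        exact this)
    intro a' ha'
    rw [mem_center_iff]
    intro g'
    obtain ⟨a, rfl⟩ := hsurj a'
    obtain ⟨g, rfl⟩ := hsurj g'
    have h1 : (⁅a, g⁆ : X) ∈ M := key (commutator_mem_commutator ha' (mem_top g))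
    rw [← QuotientGroup.eq_one_iff] at h1
    have e1 : ((⁅a, g⁆ : X) : X ⧸ M) = ⁅(a : X ⧸ M), (g : X ⧸ M)⁆ := rfl
    rw [e1, commutatorElement_eq_one_iff_mul_comm] at h1
    exact h1.symm
  · intro h M A hM hA hlt hb hc
    have := hM
    have hsurj := QuotientGroup.mk'_surjective M
    have hker : (QuotientGroup.mk' M).ker = M := QuotientGroup.ker_mk' M
    have hAk : (A.map (QuotientGroup.mk' M)).comap (QuotientGroup.mk' M) = A := by
      rw [comap_map_eq, hker, sup_eq_left.mpr hlt.le]
    have hmin : IsMinNormal (A.map (QuotientGroup.mk' M)) := by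
      refine ⟨hA.map _ hsurj, ?_, ?_⟩
      · intro h0
        rw [Subgroup.map_eq_bot_iff, hker] at h0
        exact hlt.not_ge h0
      · intro B' hB' hBA hB0
        have hcm : (B'.comap (QuotientGroup.mk' M)).map (QuotientGroup.mk' M) = B' :=
          map_comap_eq_self_of_surjective hsurj B'
        have h1 : M ≤ B'.comap (QuotientGroup.mk' M) := by
          conv_lhs => rw [← hker]
          exact MonoidHom.ker_le_comap _ _
        have h2 : B'.comap (QuotientGroup.mk' M) ≤ A := by
          rw [← hAk]
          exact comap_mono hBA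
        rcases hb _ (hB'.comap _) h1 h2 with h3 | h3
        · exfalso
          apply hB0
          rw [← hcm, h3, Subgroup.map_eq_bot_iff, hker]
        · rw [← hcm, h3]
    have hab : ∀ a ∈ A.map (QuotientGroup.mk' M), ∀ b ∈ A.map (QuotientGroup.mk' M),
        a * b = b * a := by
      rintro _ ⟨a, ha, rfl⟩ _ ⟨b, hb', rfl⟩
      have h1 : (⁅a, b⁆ : X) ∈ M := hc (commutator_mem_commutator ha hb')
      rw [← QuotientGroup.eq_one_iff] at h1
      have e1 : ((⁅a, b⁆ : X) : X ⧸ M) = ⁅(a : X ⧸ M), (b : X ⧸ M)⁆ := rfl
      rw [e1, commutatorElement_eq_one_iff_mul_comm] at h1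
      exact h1
    have hcen := h M _ hmin hab
    rw [commutator_le]
    intro a ha g _
    have h1 := mem_center_iff.mp (hcen (mem_map_of_mem (QuotientGroup.mk' M) ha)) (g : X ⧸ M)
    rw [← QuotientGroup.eq_one_iff]
    have e1 : ((⁅a, g⁆ : X) : X ⧸ M) = ⁅(a : X ⧸ M), (g : X ⧸ M)⁆ := rfl
    rw [e1, commutatorElement_eq_one_iff_mul_comm]
    exact h1.symm

/-- PROOF. Preimages of `M`, `A` under `f` are again such a pair (`f` surjective). -/
theorem AbCen.of_surjective {X X' : Type} [Group X] [Group X'] (f : X →* X')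
    (hf : Function.Surjective f) (h : AbCen X) : AbCen X' := by
  intro M' A' hM' hA' hlt hb hc
  have hlt' : M'.comap f < A'.comap f := by
    refine lt_of_le_of_ne (comap_mono hlt.le) ?_
    intro he
    exact hlt.ne (comap_injective hf he)
  have hkM : f.ker ≤ M'.comap f := MonoidHom.ker_le_comap _ _
  have key := h (M'.comap f) (A'.comap f) (hM'.comap f) (hA'.comap f) hlt' (by
    intro B hB hMB hBA
    have hBn : (B.map f).Normal := hB.map f hf
    have hBk : (B.map f).comap f = B := by
      rw [comap_map_eq, sup_eq_left.mpr (hkM.trans hMB)]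
    have h1 : M' ≤ B.map f := by
      have := map_mono (f := f) hMB
      rwa [map_comap_eq_self_of_surjective hf] at this
    have h2 : B.map f ≤ A' := by
      rw [map_le_iff_le_comap]
      exact hBA
    rcases hb _ hBn h1 h2 with h3 | h3
    · left
      rw [← hBk, h3]
    · right
      rw [← hBk, h3])
    (by
      rw [commutator_le]
      intro a ha b hb'
      have : f ⁅a, b⁆ ∈ M' := by
        rw [map_commutatorElement]
        exact hc (commutator_mem_commutator ha hb')
      exact this)
  rw [commutator_le]
  intro a' ha' g' _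
  obtain ⟨a, rfl⟩ := hf a'
  obtain ⟨g, rfl⟩ := hf g'
  have h1 : (⁅a, g⁆ : X) ∈ M'.comap f := key (commutator_mem_commutator ha' (mem_top g))
  rw [mem_comap, map_commutatorElement] at h1
  exact h1

end Pool.Agent.Lib.H65F
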