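import Pool.Agent.Lib.H65F.K0
import Pool.Agent.Lib.H65F.U0
import Pool.Agent.Lib.H65F.U0b
import Pool.Agent.Lib.H65F.N2
import Pool.Agent.Lib.H65F.R4

/-! Chunk R4b: conditions (a) and (b) for one-generated formations. -/

set_option autoImplicit false

namespace Pool.Agent.Lib.H65F

open Subgroup Pool.Agent.H69
open scoped commutatorElement

theorem r4b_mem_sup {X : Type} [Group X] {A N : Subgroup X} [N.Normal] {x : X}
    (h : x ∈ A ⊔ N) : ∃ a ∈ A, ∃ n ∈ N, a * n = x := by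
  rw [← SetLike.mem_coe, mul_normal] at h
  obtain ⟨a, ha, n, hn, rfl⟩ := h
  exact ⟨a, ha, n, hn, rfl⟩

theorem r4b_lift {X : Type} [Group X] (N : Subgroup X) [N.Normal] (h : AbCen (X ⧸ N))
    {M A : Subgroup X} (hM : M.Normal) (hA : A.Normal) (hNM : N ≤ M) (hlt : M < A)
    (hb : ∀ B : Subgroup X, B.Normal → M ≤ B → B ≤ A → B = M ∨ B = A) (hc : ⁅A, A⁆ ≤ M) :
    ⁅A, (⊤ : Subgroup X)⁆ ≤ M := by
  have hsurj := QuotientGroup.mk'_surjective N
  have hker : (QuotientGroup.mk' N).ker = N := QuotientGroup.ker_mk' N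
  have hMk : (M.map (QuotientGroup.mk' N)).comap (QuotientGroup.mk' N) = M := by
    rw [comap_map_eq, hker, sup_eq_left.mpr hNM]
  have hAk : (A.map (QuotientGroup.mk' N)).comap (QuotientGroup.mk' N) = A := by
    rw [comap_map_eq, hker, sup_eq_left.mpr (hNM.trans hlt.le)]
  have key := h (M.map (QuotientGroup.mk' N)) (A.map (QuotientGroup.mk' N)) (hM.map _ hsurj)
    (hA.map _ hsurj) (lt_of_le_of_ne (map_mono hlt.le) (by
      intro he
      apply hlt.ne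
      rw [← hMk, he, hAk]))
    (by
      intro B' hB' h1 h2
      have hcm : (B'.comap (QuotientGroup.mk' N)).map (QuotientGroup.mk' N) = B' :=
        map_comap_eq_self_of_surjective hsurj B'
      have h3 : M ≤ B'.comap (QuotientGroup.mk' N) := by
        rw [← map_le_iff_le_comap]
        exact h1
      have h4 : B'.comap (QuotientGroup.mk' N) ≤ A := by
        rw [← hAk]
        exact comap_mono h2
      rcases hb _ (hB'.comap _) h3 h4 with h5 | h5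
      · left
        rw [← hcm, h5]
      · right
        rw [← hcm, h5])
    (by
      rw [← map_commutator]
      exact map_mono hc)
  have h1 : (⁅A, (⊤ : Subgroup X)⁆).map (QuotientGroup.mk' N) ≤ M.map (QuotientGroup.mk' N) := by
    rw [map_commutator]
    refine le_trans (commutator_mono le_rfl le_top) key
  rw [map_le_iff_le_comap, hMk] at h1
  exact h1

theorem r4b_one {X : Type} [Group X] (N : Subgroup X) [N.Normal] (h : AbCen (X ⧸ N))
    {M A : Subgroup X} (hM : M.Normal) (hA : A.Normal) (hlt : M < A)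
    (hb : ∀ B : Subgroup X, B.Normal → M ≤ B → B ≤ A → B = M ∨ B = A) (hc : ⁅A, A⁆ ≤ M)
    (hn : ¬ A ≤ M ⊔ N) : ⁅A, (⊤ : Subgroup X)⁆ ≤ M := by
  have hMN : (M ⊔ N).Normal := sup_normal M N
  have hAN : (A ⊔ N).Normal := sup_normal A N
  have hlt' : M ⊔ N < A ⊔ N := by
    refine lt_of_le_of_ne (sup_le_sup_right hlt.le N) ?_
    intro he
    apply hn
    rw [he]
    exact le_sup_left
  have hbet : ∀ B : Subgroup X, B.Normal → M ⊔ N ≤ B → B ≤ A ⊔ N → B = M ⊔ N ∨ B = A ⊔ N := by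
    intro B hB h1 h2
    have hBA : (B ⊓ A).Normal := inferInstance
    rcases hb (B ⊓ A) hBA (le_inf (le_sup_left.trans h1) hlt.le) inf_le_right with h3 | h3
    · left
      refine le_antisymm ?_ h1
      intro b hbB
      obtain ⟨a, ha, n, hn', rfl⟩ := r4b_mem_sup (h2 hbB)
      have hnB : n ∈ B := h1 (le_sup_right (a := M) hn')
      have haB : a ∈ B := by
        have := mul_mem hbB (inv_mem hnB)
        rwa [mul_inv_cancel_right] at this
      have haM : a ∈ M := by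
        rw [← h3]
        exact ⟨haB, ha⟩
      exact mul_mem (le_sup_left (b := N) haM) (le_sup_right (a := M) hn')
    · right
      refine le_antisymm h2 (sup_le ?_ (le_sup_right.trans h1))
      rw [← h3]
      exact inf_le_left
  have hcc : ⁅A ⊔ N, A ⊔ N⁆ ≤ M ⊔ N := by
    rw [commutator_le]
    intro x hx y hy
    obtain ⟨a, ha, n, hn', rfl⟩ := r4b_mem_sup hx
    obtain ⟨b, hb', m, hm', rfl⟩ := r4b_mem_sup hy
    rw [← QuotientGroup.eq_one_iff]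
    have e1 : ((⁅a * n, b * m⁆ : X) : X ⧸ (M ⊔ N)) = ⁅((a * n : X) : X ⧸ (M ⊔ N)), ((b * m : X) : X ⧸ (M ⊔ N))⁆ := rfl
    have e2 : ((a * n : X) : X ⧸ (M ⊔ N)) = (a : X ⧸ (M ⊔ N)) := by
      rw [QuotientGroup.mk_mul, (QuotientGroup.eq_one_iff n).mpr (le_sup_right (a := M) hn'), mul_one]
    have e3 : ((b * m : X) : X ⧸ (M ⊔ N)) = (b : X ⧸ (M ⊔ N)) := by
      rw [QuotientGroup.mk_mul, (QuotientGroup.eq_one_iff m).mpr (le_sup_right (a := M) hm'), mul_one]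
    rw [e1, e2, e3]
    have e4 : ((⁅a, b⁆ : X) : X ⧸ (M ⊔ N)) = ⁅(a : X ⧸ (M ⊔ N)), (b : X ⧸ (M ⊔ N))⁆ := rfl
    rw [← e4, QuotientGroup.eq_one_iff]
    exact le_sup_left (b := N) (hc (commutator_mem_commutator ha hb'))
  have key := r4b_lift N h hMN hAN le_sup_right hlt' hbet hcc
  have h1 : ⁅A, (⊤ : Subgroup X)⁆ ≤ (M ⊔ N) ⊓ A :=
    le_inf ((commutator_mono le_sup_left le_rfl).trans key) (commutator_le_left A ⊤)
  have hn2 : ((M ⊔ N) ⊓ A).Normal := inferInstance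
  rcases hb ((M ⊔ N) ⊓ A) hn2 (le_inf le_sup_left hlt.le) inf_le_right with h3 | h3
  · rw [← h3]
    exact h1
  · exfalso
    apply hn
    rw [← h3]
    exact inf_le_left

/-- PROOF. Let `M < A` be as in `AbCen X`, `⁅A, A⁆ ≤ M`.  Case 1: `A ⊔ N₁ ≠ M ⊔ N₁`.  The pair `M ⊔ N₁ < A ⊔ N₁` of normal subgroups above `N₁` corresponds
to a pair in `X ⧸ N₁`; nothing normal between: if `M ⊔ N₁ ≤ B ≤ A ⊔ N₁` then `B ⊓ A` is `M` or `A`; if `A` then `B = A ⊔ N₁`; if `B ⊓ A = M` then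
`B = (B ⊓ A) ⊔ N₁ = M ⊔ N₁` (modular law).  It is abelian.  So `⁅A ⊔ N₁, ⊤⁆ ≤ M ⊔ N₁`, and `⁅A, ⊤⁆ ≤ A ⊓ (M ⊔ N₁) = M` (it is `M` or `A`; if it were `A` then
`A ≤ M ⊔ N₁`).  Case 2: `A ≤ M ⊔ N₁`.  Put `A' := A ⊓ N₁`, `M' := M ⊓ N₁`; `A = M ⊔ A'` (modular law).  Consider `M' ⊔ N₂ ≤ A' ⊔ N₂` in `X ⧸ N₂`: since
`N₁ ⊓ N₂ = ⊥`, `A' ⊓ (M' ⊔ N₂) = M'` (modular law).  Nothing normal between `M'` and `A'` (if `M' ≤ B ≤ A'` then `B ⊔ M` is
`M` or `A`, and `B = (B ⊔ M) ⊓ A'`-type argument), hence nothing between `M' ⊔ N₂` and `A' ⊔ N₂`; `M' ≠ A'`.  It is abelian (`⁅A', A'⁆ ≤ ⁅A, A⁆ ⊓ N₁ ≤ M'`).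
So `⁅A', ⊤⁆ ≤ (M' ⊔ N₂) ⊓ A' = M'` and `⁅A, ⊤⁆ ≤ M ⊔ ⁅A', ⊤⁆ ≤ M`. -/
theorem AbCen.of_inf {X : Type} [Group X] (N₁ N₂ : Subgroup X) [N₁.Normal] [N₂.Normal]
    (h : N₁ ⊓ N₂ = ⊥) (h1 : AbCen (X ⧸ N₁)) (h2 : AbCen (X ⧸ N₂)) : AbCen X := by
  intro M A hM hA hlt hb hc
  by_cases hn : A ≤ M ⊔ N₁
  swap
  · exact r4b_one N₁ h1 hM hA hlt hb hc hn
  have hdec : ∀ a ∈ A, ∃ m ∈ M, ∃ n ∈ A ⊓ N₁, m * n = a := by
    intro a ha
    obtain ⟨m, hm, n, hn', rfl⟩ := r4b_mem_sup (hn ha)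
    refine ⟨m, hm, n, ⟨?_, hn'⟩, rfl⟩
    have := mul_mem (inv_mem (hlt.le hm)) ha
    rwa [inv_mul_cancel_left] at this
  have hM' : (M ⊓ N₁).Normal := inferInstance
  have hA' : (A ⊓ N₁).Normal := inferInstance
  have hnle : ¬ A ⊓ N₁ ≤ M ⊓ N₁ := by
    intro hle
    apply hlt.not_ge
    intro a ha
    obtain ⟨m, hm, n, hn', rfl⟩ := hdec a ha
    exact mul_mem hm (hle hn').1
  have hlt' : M ⊓ N₁ < A ⊓ N₁ := by
    refine lt_of_le_of_ne (inf_le_inf_right N₁ hlt.le) ?_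
    intro he
    exact hnle he.ge
  have hn2 : ¬ A ⊓ N₁ ≤ (M ⊓ N₁) ⊔ N₂ := by
    intro hle
    apply hnle
    intro x hx
    obtain ⟨m, hm, n, hn', rfl⟩ := r4b_mem_sup (hle hx)
    have h3 : n ∈ N₁ := by
      have hm2 : m ∈ N₁ := hm.2
      have hx2 : m * n ∈ N₁ := hx.2
      have := mul_mem (inv_mem hm2) hx2
      rwa [inv_mul_cancel_left] at this
    have h4 : n ∈ N₁ ⊓ N₂ := ⟨h3, hn'⟩
    rw [h, mem_bot] at h4
    rw [h4, mul_one]
    exact hm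
  have hbet : ∀ B : Subgroup X, B.Normal → M ⊓ N₁ ≤ B → B ≤ A ⊓ N₁ →
      B = M ⊓ N₁ ∨ B = A ⊓ N₁ := by
    intro B hB h3 h4
    have hBM : (B ⊔ M).Normal := sup_normal B M
    rcases hb (B ⊔ M) hBM le_sup_right (sup_le (h4.trans inf_le_left) hlt.le) with h5 | h5
    · left
      refine le_antisymm (le_inf ?_ (h4.trans inf_le_right)) h3
      rw [← h5]
      exact le_sup_left
    · right
      refine le_antisymm h4 ?_
      intro x hx
      have hx' : x ∈ B ⊔ M := by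
        rw [h5]
        exact hx.1
      obtain ⟨b, hb', m, hm, rfl⟩ := r4b_mem_sup hx'
      have h6 : m ∈ N₁ := by
        have hb2 : b ∈ N₁ := (h4 hb').2
        have hx2 : b * m ∈ N₁ := hx.2
        have := mul_mem (inv_mem hb2) hx2
        rwa [inv_mul_cancel_left] at this
      exact mul_mem hb' (h3 ⟨hm, h6⟩)
  have hcc : ⁅A ⊓ N₁, A ⊓ N₁⁆ ≤ M ⊓ N₁ := by
    refine le_inf ((commutator_mono inf_le_left inf_le_left).trans hc) ?_
    exact (commutator_mono inf_le_right inf_le_right).trans (commutator_le_left N₁ N₁)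
  have key := r4b_one N₂ h2 hM' hA' hlt' hbet hcc hn2
  rw [commutator_le]
  intro a ha g _
  obtain ⟨m, hm, n, hn', rfl⟩ := hdec a ha
  rw [← QuotientGroup.eq_one_iff]
  have e1 : ((⁅m * n, g⁆ : X) : X ⧸ M) = ⁅((m * n : X) : X ⧸ M), (g : X ⧸ M)⁆ := rfl
  have e2 : ((m * n : X) : X ⧸ M) = (n : X ⧸ M) := by
    rw [QuotientGroup.mk_mul, (QuotientGroup.eq_one_iff m).mpr hm, one_mul]
  rw [e1, e2]
  have e4 : ((⁅n, g⁆ : X) : X ⧸ M) = ⁅(n : X ⧸ M), (g : X ⧸ M)⁆ := rfl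
  rw [← e4, QuotientGroup.eq_one_iff]
  exact (key (commutator_mem_commutator hn' (mem_top g))).1

end Pool.Agent.Lib.H65F
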