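import Pool.Agent.Lib.H65F.K0
import Pool.Agent.Lib.H65F.U0
import Pool.Agent.Lib.H65F.U0b
import Pool.Agent.Lib.H65F.N2
import Pool.Agent.Lib.H65F.R4
import Pool.Agent.Lib.H65F.R4b

/-! Chunk R4c: conditions (a) and (b) for one-generated formations. -/

set_option autoImplicit false

namespace Pool.Agent.Lib.H65F

open Subgroup Pool.Agent.H69

/-- PROOF. `Formation.ofHom` with the class of finite groups with `AbCen` is a formation; it contains `G₀` (`abCen_iff`), so it contains every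
member of `gen G₀` (definition of `InForm`); `abCen_iff` with `M := ⊥`, or directly `M := ⊥` in `AbCen`: for `A` minimal normal abelian,
`⁅A, ⊤⁆ ≤ ⊥` says `A ≤ center`. -/
theorem condAbelian_gen (G₀ : Type) [Group G₀] [Finite G₀]
    (h : ∀ (M : Subgroup G₀) [M.Normal], TestAbelian (G₀ ⧸ M)) :
    CondAbelian (Formation.gen G₀) := by
  intro G _ hG A hA hab
  let H : Formation := Formation.ofHom (fun X _ => Finite X ∧ AbCen X) (fun _ _ h => h.1)
    (fun X Y _ _ f hf h => ⟨@Finite.of_surjective _ _ h.1 f hf, h.2.of_surjective f hf⟩)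
    (fun X _ _ N₁ N₂ _ _ h h1 h2 => ⟨inferInstance, AbCen.of_inf N₁ N₂ h h1.2 h2.2⟩)
  have hH0 : H.mem G₀ := (⟨inferInstance, (abCen_iff G₀).2 h⟩ : Finite G₀ ∧ AbCen G₀)
  have hGH : Finite G ∧ AbCen G := hG H hH0
  have h1 : ⁅A, (⊤ : Subgroup G)⁆ ≤ ⊥ := by
    refine hGH.2 ⊥ A inferInstance hA.1 (bot_lt_iff_ne_bot.2 hA.2.1) ?_ ?_
    · intro B hB _ hBA
      by_cases hB0 : B = ⊥
      · exact Or.inl hB0
      · exact Or.inr (hA.2.2 B hB hBA hB0)
    · exact ((comm_bot_iff A A).2 hab).le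
  have h2 := (comm_bot_iff A ⊤).1 (le_bot_iff.1 h1)
  intro a ha
  rw [Subgroup.mem_center_iff]
  intro g
  exact (h2 a ha g (Subgroup.mem_top g)).symm

end Pool.Agent.Lib.H65F
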