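import Pool.Agent.Lib.H65F.K0
import Pool.Agent.Lib.H65F.U0
import Pool.Agent.Lib.H65F.U0b
import Pool.Agent.Lib.H65F.N2
import Pool.Agent.Lib.H65F.R4
import Pool.Agent.Lib.H65F.R4b
import Pool.Agent.Lib.H65F.R4c

/-! Chunk R4d: conditions (a) and (b) for one-generated formations. -/

set_option autoImplicit false

namespace Pool.Agent.Lib.H65F

open Subgroup Pool.Agent.H69

/-- All node quotients are towers. -/
def NodeTow (X : Type) [Group X] : Prop :=
  ∀ (C : Subgroup X) [C.Normal], IsNode C → IsTower (X ⧸ C)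

/-- PROOF. For a node `C` of `X'` the preimage `C.comap f` is a node of `X` (`isNode_comap_iff`), `X ⧸ C.comap f ≃* X' ⧸ C`;
`isTower_of_equiv`. -/
theorem NodeTow.of_surjective {X X' : Type} [Group X] [Group X'] (f : X →* X')
    (hf : Function.Surjective f) (h : NodeTow X) : NodeTow X' := by
  intro C hCn hC
  have hr : f.range ⊔ C = ⊤ := by rw [MonoidHom.range_eq_top.2 hf, top_sup_eq]
  have hnode : IsNode (C.comap f) := (isNode_comap_iff hCn f hr).2 hC
  have hT := h (C.comap f) hnode
  have hs : Function.Surjective ((QuotientGroup.mk' C).comp f) :=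
    (QuotientGroup.mk'_surjective C).comp hf
  have hk : C.comap f = ((QuotientGroup.mk' C).comp f).ker := by
    rw [← MonoidHom.comap_ker, QuotientGroup.ker_mk']
  exact isTower_of_equiv ((QuotientGroup.quotientMulEquivOfEq hk).trans
    (QuotientGroup.quotientKerEquivOfSurjective _ hs)) hT

/-- The step for one of the two normal subgroups. -/
theorem r4d_step {X : Type} [Group X] (N C : Subgroup X) [N.Normal] [C.Normal] (hNC : N ≤ C)
    (hC : IsNode C) (h1 : NodeTow (X ⧸ N)) : IsTower (X ⧸ C) := by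
  have hs : Function.Surjective (QuotientGroup.mk' N) := QuotientGroup.mk'_surjective N
  have hn : (C.map (QuotientGroup.mk' N)).Normal := Subgroup.Normal.map inferInstance _ hs
  have hcm : (C.map (QuotientGroup.mk' N)).comap (QuotientGroup.mk' N) = C := by
    rw [Subgroup.comap_map_eq, QuotientGroup.ker_mk', sup_eq_left.2 hNC]
  have hr : (QuotientGroup.mk' N).range ⊔ C.map (QuotientGroup.mk' N) = ⊤ := by
    rw [MonoidHom.range_eq_top.2 hs, top_sup_eq]
  have hnode : IsNode (C.map (QuotientGroup.mk' N)) := by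
    rw [← isNode_comap_iff hn (QuotientGroup.mk' N) hr, hcm]
    exact hC
  exact isTower_of_equiv (QuotientGroup.quotientQuotientEquivQuotient N C hNC)
    (h1 (C.map (QuotientGroup.mk' N)) hnode)

/-- PROOF. A node `C` contains `N₁` or `N₂` (`IsNode.prime`), say `N₁`; `C.map (mk' N₁)` is a node of `X ⧸ N₁` (`isNode_comap_iff`), and
`(X ⧸ N₁) ⧸ C.map _ ≃* X ⧸ C` (`QuotientGroup.quotientQuotientEquivQuotient`); `isTower_of_equiv`. -/
theorem NodeTow.of_inf {X : Type} [Group X] (N₁ N₂ : Subgroup X) [N₁.Normal] [N₂.Normal]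
    (h : N₁ ⊓ N₂ = ⊥) (h1 : NodeTow (X ⧸ N₁)) (h2 : NodeTow (X ⧸ N₂)) : NodeTow X := by
  intro C _ hC
  rcases hC.prime (A := N₁) (B := N₂) inferInstance inferInstance (h.le.trans bot_le) with h3 | h3
  · exact r4d_step N₁ C h3 hC h1
  · exact r4d_step N₂ C h3 hC h2

end Pool.Agent.Lib.H65F
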