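import Pool.Agent.Lib.H65F.K0
import Pool.Agent.Lib.H65F.U0
import Pool.Agent.Lib.H65F.U0b
import Pool.Agent.Lib.H65F.N2
import Pool.Agent.Lib.H65F.R4
import Pool.Agent.Lib.H65F.R4b
import Pool.Agent.Lib.H65F.R4c
import Pool.Agent.Lib.H65F.R4d

/-! Chunk R4e: conditions (a) and (b) for one-generated formations. -/

set_option autoImplicit false

namespace Pool.Agent.Lib.H65F

open Subgroup Pool.Agent.H69

/-- PROOF. Let `C` be a node of `X`; `⊥` is a node of `Q := X ⧸ C` (`isNode_iff_quotient`), `B := up ⊥` is a nonabelian monolith with trivial centralizer; `TestTower Q` for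
`A := B` gives `IsTower (Q ⧸ centralizer B)`, and `Q ⧸ centralizer B ≃* Q` (`centralizer_monolith_eq_bot`). -/
theorem nodeTow_of_test {X : Type} [Group X]
    (h : ∀ (M : Subgroup X) [M.Normal], TestTower (X ⧸ M)) : NodeTow X := by
  intro C _ hC
  have hbot : IsNode (⊥ : Subgroup (X ⧸ C)) := (isNode_iff_quotient C).1.1 hC
  obtain ⟨hm, hna⟩ := hbot.isMonolith
  have hn : (up (⊥ : Subgroup (X ⧸ C))).Normal := hm.1
  have hT : IsTower (ModCentralizer (up (⊥ : Subgroup (X ⧸ C)))) :=
    h C (up ⊥) hm.minNormal (fun hab => hna ((comm_bot_iff _ _).2 hab))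
  have hc := centralizer_monolith_eq_bot hm hna
  exact isTower_of_equiv ((QuotientGroup.quotientMulEquivOfEq hc).trans
    (QuotientGroup.quotientBot (G := X ⧸ C))) hT

/-- PROOF. As `condAbelian_gen`: the class of finite groups with `NodeTow` is a formation (`Formation.ofHom`); `condTower_iff_nodes`. -/
theorem condTower_gen (G₀ : Type) [Group G₀] [Finite G₀]
    (h : ∀ (M : Subgroup G₀) [M.Normal], TestTower (G₀ ⧸ M)) :
    CondTower' (Formation.gen G₀) := by
  rw [condTower_iff_nodes]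
  intro G _ hG C _ hC
  let H : Formation := Formation.ofHom (fun X _ => Finite X ∧ NodeTow X) (fun _ _ h => h.1)
    (fun X Y _ _ f hf h => ⟨@Finite.of_surjective _ _ h.1 f hf, h.2.of_surjective f hf⟩)
    (fun X _ _ N₁ N₂ _ _ h h1 h2 => ⟨inferInstance, NodeTow.of_inf N₁ N₂ h h1.2 h2.2⟩)
  have hH0 : H.mem G₀ := (⟨inferInstance, nodeTow_of_test h⟩ : Finite G₀ ∧ NodeTow G₀)
  have hGH : Finite G ∧ NodeTow G := hG H hH0
  exact hGH.2 C hC

end Pool.Agent.Lib.H65F
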