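import Pool.Agent.Lib.H65F.R3
import Pool.Agent.Lib.H65F.R3b
import Pool.Agent.Lib.H65F.R4
import Pool.Agent.Lib.H65F.R4b
import Pool.Agent.Lib.H65F.R4c
import Pool.Agent.Lib.H65F.R4d
import Pool.Agent.Lib.H65F.R4e

/-! Chunk R5: MAIN 2. -/

set_option autoImplicit false

namespace Pool.Agent.Lib.H65F

open Subgroup Pool.Agent.H69

/-- All perfect normal subgroups of `X` lie in `form(G)`. -/
def PNIn (G X : Type) [Group G] [Group X] : Prop :=
  ∀ E : Subgroup X, E.Normal → ⁅E, E⁆ = E → InForm G E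

/-- The perfect residual is characteristic. -/
theorem r5_pr_char (G : Type) [Group G] : (pr G).Characteristic := by
  rw [Subgroup.characteristic_iff_comap_eq]
  intro φ
  unfold pr
  rw [Subgroup.comap_iInf]
  refine iInf_congr fun n => ?_
  exact Subgroup.characteristic_iff_comap_eq.1 inferInstance φ

/-- PROOF. Let `E'` be perfect normal in `X'`, `P := E'.comap f`, `E := (pr ↥P).map P.subtype`: perfect, normal in `X` (`pr` is characteristic:
all terms of the derived series are characteristic), and `E.map f = E'` (`map_pr` for the surjection `P → E'`, `pr_eq_top`).  So `E'` is an image of `E`;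
`InForm.of_surjective`. -/
theorem PNIn.of_surjective {G X X' : Type} [Group G] [Group X] [Finite X] [Group X'] (f : X →* X')
    (hf : Function.Surjective f) (h : PNIn G X) : PNIn G X' := by
  intro E' hE' hE'c
  have : Finite X' := Finite.of_surjective f hf
  have hPn : (E'.comap f).Normal := hE'.comap f
  have hchar := r5_pr_char ↥(E'.comap f)
  have hEn : ((pr ↥(E'.comap f)).map (E'.comap f).subtype).Normal := inferInstance
  have hEc : ⁅(pr ↥(E'.comap f)).map (E'.comap f).subtype,
      (pr ↥(E'.comap f)).map (E'.comap f).subtype⁆ =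
      (pr ↥(E'.comap f)).map (E'.comap f).subtype := by
    rw [← Subgroup.map_commutator, (pr_perfect ↥(E'.comap f)).1]
  have hin := h _ hEn hEc
  have hcomm : _root_.commutator ↥E' = ⊤ := by
    apply Subgroup.map_injective (Subgroup.subtype_injective E')
    rw [Subgroup.map_subtype_commutator, hE'c, ← MonoidHom.range_eq_map, Subgroup.range_subtype]
  have hg : Function.Surjective (f.subgroupComap E') :=
    f.subgroupComap_surjective_of_surjective E' hf
  have htop := (map_pr (f.subgroupComap E') hg).trans (pr_eq_top hcomm)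
  refine hin.of_surjective ((f.comp (Subgroup.subtype _)).codRestrict E' ?_) ?_
  · rintro ⟨x, p, hp, rfl⟩
    exact p.2
  · rintro ⟨y, hy⟩
    have : (⟨y, hy⟩ : E') ∈ (pr ↥(E'.comap f)).map (f.subgroupComap E') := by
      rw [htop]; exact Subgroup.mem_top _
    obtain ⟨p, hp, hpy⟩ := this
    refine ⟨⟨p.1, p, hp, rfl⟩, ?_⟩
    apply Subtype.ext
    exact congrArg Subtype.val hpy

/-- PROOF. `E` perfect normal in `X`; its images `E₁`, `E₂` in `X ⧸ N₁`, `X ⧸ N₂` are perfect normal, so in `form(G)`; `E` maps onto both and the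
kernels intersect trivially; `mem_subdirect` for every formation containing `G`. -/
theorem PNIn.of_inf {G X : Type} [Group G] [Group X] [Finite X] (N₁ N₂ : Subgroup X)
    [N₁.Normal] [N₂.Normal]
    (h : N₁ ⊓ N₂ = ⊥) (h1 : PNIn G (X ⧸ N₁)) (h2 : PNIn G (X ⧸ N₂)) : PNIn G X := by
  intro E hE hEc F hF
  have hn1 : (E.map (QuotientGroup.mk' N₁)).Normal :=
    hE.map _ (QuotientGroup.mk'_surjective N₁)
  have hn2 : (E.map (QuotientGroup.mk' N₂)).Normal :=
    hE.map _ (QuotientGroup.mk'_surjective N₂)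
  have hc1 : ⁅E.map (QuotientGroup.mk' N₁), E.map (QuotientGroup.mk' N₁)⁆ =
      E.map (QuotientGroup.mk' N₁) := by rw [← Subgroup.map_commutator, hEc]
  have hc2 : ⁅E.map (QuotientGroup.mk' N₂), E.map (QuotientGroup.mk' N₂)⁆ =
      E.map (QuotientGroup.mk' N₂) := by rw [← Subgroup.map_commutator, hEc]
  refine F.mem_subdirect ((QuotientGroup.mk' N₁).subgroupMap E)
    ((QuotientGroup.mk' N₂).subgroupMap E)
    (MonoidHom.subgroupMap_surjective _ _) (MonoidHom.subgroupMap_surjective _ _) ?_
    (h1 _ hn1 hc1 F hF) (h2 _ hn2 hc2 F hF)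
  rw [eq_bot_iff]
  rintro ⟨x, hx⟩ ⟨hx1, hx2⟩
  have e1 : QuotientGroup.mk' N₁ x = 1 := congrArg Subtype.val (MonoidHom.mem_ker.1 hx1)
  have e2 : QuotientGroup.mk' N₂ x = 1 := congrArg Subtype.val (MonoidHom.mem_ker.1 hx2)
  have m1 : x ∈ N₁ := (QuotientGroup.eq_one_iff x).1 e1
  have m2 : x ∈ N₂ := (QuotientGroup.eq_one_iff x).1 e2
  have : x ∈ N₁ ⊓ N₂ := ⟨m1, m2⟩
  rw [h, Subgroup.mem_bot] at this
  rw [Subgroup.mem_bot]
  exact Subtype.ext this

end Pool.Agent.Lib.H65F
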