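import Pool.Agent.Lib.H65F.R3
import Pool.Agent.Lib.H65F.R3b
import Pool.Agent.Lib.H65F.R4
import Pool.Agent.Lib.H65F.R4b
import Pool.Agent.Lib.H65F.R4c
import Pool.Agent.Lib.H65F.R4d
import Pool.Agent.Lib.H65F.R4e
import Pool.Agent.Lib.H65F.R5

/-! Chunk R5b: MAIN 2. -/

set_option autoImplicit false

namespace Pool.Agent.Lib.H65F

open Subgroup Pool.Agent.H69

/-- The formation of finite groups with `PNIn G`.
PROOF of the fields: `Formation.ofHom`. -/
theorem exists_pnForm (G : Type) [Group G] : ∃ H : Formation, ∀ (X : Type) [Group X],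
    H.mem X ↔ Finite X ∧ PNIn G X := by
  refine ⟨Formation.ofHom (fun X _ => Finite X ∧ PNIn G X) (fun _ _ h => h.1) ?_ ?_, ?_⟩
  · intro X Y _ _ f hf h
    have := h.1
    exact ⟨Finite.of_surjective f hf, h.2.of_surjective f hf⟩
  · intro X _ _ N₁ N₂ _ _ h h1 h2
    exact ⟨inferInstance, PNIn.of_inf N₁ N₂ h h1.2 h2.2⟩
  · intro X _
    exact Iff.rfl

/-- A finite group is a subdirect product of monolithic quotients.
PROOF. For `x ≠ 1` choose `M` maximal among the normal subgroups not containing `x`; every normal subgroup strictly above `M` contains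
`x`; let `A` be the intersection of all normal subgroups strictly above `M` (`up M`), it contains `x`, so `M < up M`, and its image in `X ⧸ M` is the
unique minimal normal subgroup. -/
theorem exists_monolithic {X : Type} [Group X] [Finite X] {x : X} (hx : x ≠ 1) :
    ∃ (M : Subgroup X) (_ : M.Normal), x ∉ M ∧ ∃ A : Subgroup (X ⧸ M), IsMonolith A := by
  have hfin : Set.Finite {M : Subgroup X | M.Normal ∧ x ∉ M} := Set.toFinite _
  have hne : Set.Nonempty {M : Subgroup X | M.Normal ∧ x ∉ M} :=
    ⟨⊥, inferInstance, fun h => hx (Subgroup.mem_bot.1 h)⟩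
  obtain ⟨M, hM⟩ := hfin.exists_maximal hne
  obtain ⟨hMn, hxM⟩ := hM.prop
  refine ⟨M, hMn, hxM, (up M).map (QuotientGroup.mk' M), ?_, ?_, ?_⟩
  · have : (up M).Normal := by
      refine ⟨fun n hn g => ?_⟩
      rw [up, Subgroup.mem_sInf] at hn ⊢
      intro K hK
      exact hK.1.conj_mem n (hn K hK) g
    exact this.map _ (QuotientGroup.mk'_surjective M)
  · intro h
    have hxu : x ∈ up M := by
      rw [up, Subgroup.mem_sInf]
      rintro K ⟨hKn, hK⟩
      by_contra hxK
      exact hK.not_ge (hM.le_of_ge ⟨hKn, hxK⟩ hK.le)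
    have : QuotientGroup.mk' M x ∈ (up M).map (QuotientGroup.mk' M) := Subgroup.mem_map_of_mem _ hxu
    rw [h, Subgroup.mem_bot] at this
    exact hxM ((QuotientGroup.eq_one_iff x).1 this)
  · intro B hB hB0
    have hlt : M < B.comap (QuotientGroup.mk' M) := by
      refine lt_of_le_of_ne ?_ ?_
      · intro m hm
        have h1 : QuotientGroup.mk' M m = 1 := (QuotientGroup.eq_one_iff m).2 hm
        rw [Subgroup.mem_comap, h1]
        exact B.one_mem
      · intro he
        apply hB0
        rw [eq_bot_iff]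
        intro b hb
        obtain ⟨y, rfl⟩ := QuotientGroup.mk'_surjective M b
        have : y ∈ B.comap (QuotientGroup.mk' M) := hb
        rw [← he] at this
        exact Subgroup.mem_bot.2 ((QuotientGroup.eq_one_iff y).2 this)
    have hup : up M ≤ B.comap (QuotientGroup.mk' M) := sInf_le ⟨hB.comap _, hlt⟩
    exact Subgroup.map_le_iff_le_comap.2 hup

end Pool.Agent.Lib.H65F
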