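import Pool.Agent.Lib.H65F.R3
import Pool.Agent.Lib.H65F.R3b
import Pool.Agent.Lib.H65F.R4
import Pool.Agent.Lib.H65F.R4b
import Pool.Agent.Lib.H65F.R4c
import Pool.Agent.Lib.H65F.R4d
import Pool.Agent.Lib.H65F.R4e
import Pool.Agent.Lib.H65F.R5
import Pool.Agent.Lib.H65F.R5b

/-! Chunk R5c: MAIN 2. -/

set_option autoImplicit false

namespace Pool.Agent.Lib.H65F

open Subgroup Pool.Agent.H69

/-- Perfect monolithic members of `F` which pass the test.
PROOF. If `⁅A, A⁆ ≠ ⊥`: `inForm_of_nonabelian_monolith` (H69 Suff3).  If `⁅A, A⁆ = ⊥`: `A ≤ center Q` (`h1`, `comm_bot_iff`), every minimal normal subgroup equals `A`; `hT` gives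
`ImageOfSubdirectPowerLE`, so `InForm Q E` (`toImage`, `inForm_iff_image`, `commutator_coe_eq_top_iff`). -/
theorem inForm_of_test {F : Formation} (h1 : CondAbelian F) (h2 : CondTower' F) {Q : Type}
    [Group Q] (hQ : F.mem Q) (hp : _root_.commutator Q = ⊤) {A : Subgroup Q} (hA : IsMonolith A)
    (hT : TestPerfect Q) (E : Subgroup Q) (hE : E.Normal) (hEE : ⁅E, E⁆ = E) : InForm Q E := by
  have hfin : Finite Q := F.finite Q hQ
  by_cases hab : ⁅A, A⁆ = ⊥
  · have hAc : A ≤ center Q := h1 Q hQ A hA.minNormal ((comm_bot_iff A A).1 hab)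
    have huniq : ∀ B : Subgroup Q, IsMinNormal B → B = A := fun B hB =>
      (hB.2.2 A hA.1 (hA.2.2 B hB.1 hB.2.1) hA.2.1).symm
    have := hT hp A hA.minNormal huniq hAc E hE ((commutator_coe_eq_top_iff E).2 hEE)
    exact inForm_iff_image.2 this.toImage
  · exact inForm_of_nonabelian_monolith h2 hQ hA hab E hE

/-- Quotients of perfect groups are perfect. -/
theorem r5c_comm {Q : Type} [Group Q] (hp : _root_.commutator Q = ⊤) (M : Subgroup Q)
    [M.Normal] : _root_.commutator (Q ⧸ M) = ⊤ := by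
  have hs : Function.Surjective (QuotientGroup.mk' M) := QuotientGroup.mk'_surjective _
  have h1 := Subgroup.map_commutator (⊤ : Subgroup Q) ⊤ (QuotientGroup.mk' M)
  rw [Subgroup.map_top_of_surjective _ hs, ← _root_.commutator_def, ← _root_.commutator_def,
    hp, Subgroup.map_top_of_surjective _ hs] at h1
  exact h1.symm

/-- PROOF. Let `E` be perfect normal in `Q`.  `E` is a subdirect product of its images `E_M` in the monolithic quotients `Q ⧸ M` (`exists_monolithic` for `x ∈ E`, `x ≠ 1`;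
`mem_of_family` for every formation containing `G`), so it is enough that `InForm G E_M`.  `Q ⧸ M` is perfect, in `F`, of order at most that of `Q`, and `InForm G (Q ⧸ M)`; `hT` gives
`TestPerfect (Q ⧸ M)`; `inForm_of_test` and `InForm.trans`. -/
theorem pnIn_of_tests {F : Formation} (h1 : CondAbelian F) (h2 : CondTower' F) {G Q : Type}
    [Group G] [Group Q] (hQ : F.mem Q) (hGQ : InForm G Q) (hp : _root_.commutator Q = ⊤)
    (hT : ∀ (M : Subgroup Q) [M.Normal], TestPerfect (Q ⧸ M)) : PNIn G Q := by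
  intro E hE hEE H hH
  have hfin : Finite Q := F.finite Q hQ
  have key : ∀ (M : Subgroup Q) [M.Normal], (∃ A : Subgroup (Q ⧸ M), IsMonolith A) →
      H.mem ↥(E.map (QuotientGroup.mk' M)) := by
    intro M _ hA
    obtain ⟨A, hA⟩ := hA
    have hn : (E.map (QuotientGroup.mk' M)).Normal := hE.map _ (QuotientGroup.mk'_surjective M)
    have hc : ⁅E.map (QuotientGroup.mk' M), E.map (QuotientGroup.mk' M)⁆ =
        E.map (QuotientGroup.mk' M) := by rw [← Subgroup.map_commutator, hEE]
    have h3 : InForm (Q ⧸ M) ↥(E.map (QuotientGroup.mk' M)) :=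
      inForm_of_test h1 h2 (F.quot Q M hQ) (r5c_comm hp M) hA (hT M) _ hn hc
    have h4 : InForm G (Q ⧸ M) :=
      hGQ.of_surjective (QuotientGroup.mk' M) (QuotientGroup.mk'_surjective M)
    exact (h4.trans h3) H hH
  let ι : Type := {M : Subgroup Q // M.Normal ∧
    ∀ h : M.Normal, ∃ A : Subgroup (Q ⧸ M), IsMonolith A}
  have hι : ∀ i : ι, i.1.Normal := fun i => i.2.1
  let Z : ι → Type := fun i => haveI := hι i; ↥(E.map (QuotientGroup.mk' i.1))
  let gZ : ∀ i, Group (Z i) := fun i =>
    haveI := hι i; inferInstanceAs (Group ↥(E.map (QuotientGroup.mk' i.1)))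
  refine H.mem_of_family hH Z
    (fun i => haveI := hι i; (QuotientGroup.mk' i.1).subgroupMap E) ?_ ?_ ?_
  · intro i
    haveI := hι i
    exact MonoidHom.subgroupMap_surjective (QuotientGroup.mk' i.1) E
  · intro i
    haveI := hι i
    exact key i.1 (i.2.2 (hι i))
  · intro g hg
    by_contra hg1
    have hx : (g : Q) ≠ 1 := fun h => hg1 (Subtype.ext h)
    obtain ⟨M, hMn, hxM, A, hA⟩ := exists_monolithic hx
    have := hg ⟨M, hMn, fun _ => ⟨A, hA⟩⟩
    have e1 : QuotientGroup.mk' M (g : Q) = 1 := congrArg Subtype.val this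
    exact hxM ((QuotientGroup.eq_one_iff _).1 e1)

end Pool.Agent.Lib.H65F
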