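import Pool.Agent.Lib.H65F.R3
import Pool.Agent.Lib.H65F.R3b
import Pool.Agent.Lib.H65F.R4
import Pool.Agent.Lib.H65F.R4b
import Pool.Agent.Lib.H65F.R4c
import Pool.Agent.Lib.H65F.R4d
import Pool.Agent.Lib.H65F.R4e
import Pool.Agent.Lib.H65F.R5
import Pool.Agent.Lib.H65F.R5b
import Pool.Agent.Lib.H65F.R5c

/-! Chunk R5d: MAIN 2. -/

set_option autoImplicit false

namespace Pool.Agent.Lib.H65F

open Subgroup Pool.Agent.H69

theorem r5d_perf {Q : Type} [Group Q] (h : _root_.commutator Q = ⊤) (M : Subgroup Q) [M.Normal] :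
    _root_.commutator (Q ⧸ M) = ⊤ := by
  have hs := QuotientGroup.mk'_surjective M
  have h1 : (_root_.commutator Q).map (QuotientGroup.mk' M) = _root_.commutator (Q ⧸ M) := by
    rw [_root_.commutator_def, _root_.commutator_def, map_commutator,
      Subgroup.map_top_of_surjective _ hs]
  rw [← h1, h, Subgroup.map_top_of_surjective _ hs]

/-- MAIN 2.
PROOF. (⇒) Let `F := gen G₀` be good.  `main1`: all members pass the tests; quotients of `G₀` are members.  `pr G₀` is normal in `G₀`, so a member (`F.NormallyClosed` for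
`H := F`).  If `G` is an image of a subdirect subgroup of a power of `pr G₀`, it is a member (`ImageOfSubdirectPowerLE.toImage`, `inForm_iff_image`), so
`TestPerfect G`.
(⇐) `F := gen G₀`; `condAbelian_gen`, `condTower_gen`.  By `classification` it is enough to show `CondPerfect F`.  Let `G ∈ F` be perfect, `E` perfect normal in `G`.  Let `H` be the formation
of `exists_pnForm G`.  Claim `H.mem G`: `thmA` (with `G₀`, `gen_mem_self`; `InForm G₀ G` is `F.mem G`): let `Q` be finite, `InForm G Q`, perfect, `|Q| ≤ ordB |pr G₀|`.  `F.mem Q`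
(`InForm.trans`).  For `M` normal in `Q` the group `Q ⧸ M` is perfect, in `F`, of order at most `|Q|`; by `thmB` it is an image of a subdirect subgroup of
`(pr G₀) ^ r`, `r ≤ powB |pr G₀| |Q ⧸ M| ≤ powB |G₀| (ordB |G₀|)` (`powB_mono`, `ordB_mono`), so `TestPerfect (Q ⧸ M)` by hypothesis.  `pnIn_of_tests` gives `PNIn G Q`.  So
`PNIn G G` and `InForm G E`. -/
theorem main2 (G₀ : Type) [Group G₀] [Finite G₀] :
    (∀ H : Formation, H.Sub (Formation.gen G₀) → H.NormallyClosed) ↔
      (∀ (M : Subgroup G₀) [M.Normal], TestAbelian (G₀ ⧸ M) ∧ TestTower (G₀ ⧸ M)) ∧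
      ∀ (G : Type) [Group G], _root_.commutator G = ⊤ →
        Nat.card G ≤ ordB (Nat.card G₀) →
        ImageOfSubdirectPowerLE (powB (Nat.card G₀) (ordB (Nat.card G₀))) ↥(pr G₀) G →
        TestPerfect G := by
  have hself := Formation.gen_mem_self G₀
  have hprle : Nat.card ↥(pr G₀) ≤ Nat.card G₀ := Subgroup.card_le_card_group _
  have hpr1 : 1 ≤ Nat.card ↥(pr G₀) := Nat.card_pos
  have hG1 : 1 ≤ Nat.card G₀ := Nat.card_pos
  constructor
  · intro hgood
    have h1 := (main1 (Formation.gen G₀)).1 hgood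
    refine ⟨fun M _ => ?_, fun G _ hG _ hI => ?_⟩
    · have h2 := h1 (G₀ ⧸ M) ((Formation.gen G₀).quot G₀ M hself)
      exact ⟨h2.1, h2.2.1⟩
    · have hpr : (Formation.gen G₀).mem ↥(pr G₀) :=
        hgood (Formation.gen G₀) (fun _ _ h => h) G₀ (pr G₀) (pr_normal G₀) hself
      have hin : InForm ↥(pr G₀) G := inForm_iff_image.2 hI.toImage
      exact (h1 G (hin _ hpr)).2.2
  · rintro ⟨hAT, hP⟩
    have h1 : CondAbelian (Formation.gen G₀) := condAbelian_gen G₀ fun M _ => (hAT M).1
    have h2 : CondTower' (Formation.gen G₀) := condTower_gen G₀ fun M _ => (hAT M).2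
    refine (classification (Formation.gen G₀)).2 ⟨h1, (condTower_iff _).2 h2, ?_⟩
    intro G _ hG hp C _ _ _ E hE hEE
    obtain ⟨H, hH⟩ := exists_pnForm G
    have hmem : H.mem G := by
      refine thmA h1 h2 hself hp hG H ?_
      intro Q _ _ hGQ hpQ hcard
      have hFQ : (Formation.gen G₀).mem Q := hGQ _ hG
      refine (hH Q).2 ⟨inferInstance, pnIn_of_tests h1 h2 hFQ hGQ hpQ ?_⟩
      intro M _
      have hpM := r5d_perf hpQ M
      have hcM : Nat.card (Q ⧸ M) ≤ Nat.card Q := Nat.card_le_card_of_surjective _ (QuotientGroup.mk'_surjective M)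
      have hc2 : Nat.card (Q ⧸ M) ≤ ordB (Nat.card G₀) :=
        hcM.trans (hcard.trans (ordB_mono hpr1 hprle))
      have hQM : InForm G₀ (Q ⧸ M) := (Formation.gen G₀).quot Q M hFQ
      exact hP (Q ⧸ M) hpM hc2 ((thmB h1 h2 hself hpM hQM).mono (powB_mono hpr1 hprle hc2))
    exact ((hH G).1 hmem).2 E hE hEE

end Pool.Agent.Lib.H65F
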