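import Pool.Agent.Lib.H65F.S0

/-! Chunk S1: simple properties of the pairing. -/

set_option autoImplicit false

namespace Pool.Agent.Lib.H65F

variable {Ω : Type}

theorem s1_lc (c : (Ω → ℕ) →₀ ℤ) (f : (Ω → ℕ) → ℤ) :
    pr1 c f = Finsupp.linearCombination ℤ f c := by
  rw [Finsupp.linearCombination_apply]
  rfl

theorem pr1_add (c c' : (Ω → ℕ) →₀ ℤ) (f : (Ω → ℕ) → ℤ) :
    pr1 (c + c') f = pr1 c f + pr1 c' f := by
  rw [s1_lc, s1_lc, s1_lc, map_add]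

theorem pr1_smul (n : ℤ) (c : (Ω → ℕ) →₀ ℤ) (f : (Ω → ℕ) → ℤ) :
    pr1 (n • c) f = n * pr1 c f := by
  rw [s1_lc, s1_lc, map_smul, smul_eq_mul]

theorem pr1_sum {ι : Type} (s : Finset ι) (c : ι → ((Ω → ℕ) →₀ ℤ)) (f : (Ω → ℕ) → ℤ) :
    pr1 (∑ i ∈ s, c i) f = ∑ i ∈ s, pr1 (c i) f := by
  rw [s1_lc, map_sum]
  exact Finset.sum_congr rfl fun i _ => (s1_lc _ _).symm

theorem pr1_single (g : Ω → ℕ) (n : ℤ) (f : (Ω → ℕ) → ℤ) :
    pr1 (Finsupp.single g n) f = n * f g := by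
  rw [s1_lc, Finsupp.linearCombination_single, smul_eq_mul]

/-- PROOF. `Finsupp.sum_mapDomain_index`. -/
theorem pr1_mapDomain (c : (Ω → ℕ) →₀ ℤ) (F : (Ω → ℕ) → (Ω → ℕ)) (f : (Ω → ℕ) → ℤ) :
    pr1 (c.mapDomain F) f = pr1 c (fun g => f (F g)) := by
  rw [s1_lc, s1_lc, Finsupp.linearCombination_mapDomain]
  rfl

theorem pr1_congr (c : (Ω → ℕ) →₀ ℤ) {f f' : (Ω → ℕ) → ℤ} (h : ∀ g ∈ c.support, f g = f' g) :
    pr1 c f = pr1 c f' := by
  unfold pr1 Finsupp.sum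
  refine Finset.sum_congr rfl fun g hg => ?_
  show c g * f g = c g * f' g
  rw [h g hg]

/-- PROOF. The pairing with the indicator function of `F g = t`. -/
theorem pr1_indicator {T : Type} (c : (Ω → ℕ) →₀ ℤ) (F : (Ω → ℕ) → T) (t : T)
    [DecidableEq T] :
    pr1 c (fun g => if F g = t then 1 else 0) = ∑ g ∈ c.support with F g = t, c g := by
  unfold pr1 Finsupp.sum
  rw [Finset.sum_filter]
  refine Finset.sum_congr rfl fun g _ => ?_
  show c g * (if F g = t then 1 else 0) = if F g = t then c g else 0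
  split_ifs
  · rw [mul_one]
  · rw [mul_zero]

end Pool.Agent.Lib.H65F
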