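import Pool.Agent.Lib.H69.Formation.Defs

/-!
The definitions used in the statement of `MP_518fb6_al.FiniteTest`: explicit bounds and the three
finite tests.  `Formation`, `Formation.Sub`, `Formation.NormallyClosed`, `IsMinNormal` and
`InForm` (membership in the formation generated by one group) are in
`Pool/Agent/Lib/H69/Formation/Defs.lean`.
-/

set_option autoImplicit false

namespace Pool.Agent.H65T

open Subgroup Pool.Agent.H69

/-- First auxiliary bound. -/
def stepB (y l : ℕ) : ℕ := 2 ^ y * y ^ y * l

/-- Second auxiliary bound. -/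
def kerB (y l : ℕ) : ℕ := ∑ j ∈ Finset.range (y + 1), stepB y l ^ j

/-- Third auxiliary bound. -/
def quotB (y l : ℕ) : ℕ := y ^ kerB y l

/-- The bound for powers. -/
def powB (y e : ℕ) : ℕ := y ^ quotB y ((2 ^ y + 1) ^ 2 + 2 ^ e)

/-- Fourth auxiliary bound (a bound of Schur type, `n = b ^ 2`). -/
def schurB (b : ℕ) : ℕ := ((b ^ 2) ^ (2 * b ^ 2)) ^ ((b ^ 2) ^ (2 * b ^ 2 + 1) + 1)

/-- The bound for orders. -/
def ordB (y : ℕ) : ℕ := y + schurB (quotB y ((2 ^ y + 1) ^ 2 + 2 * 2 ^ y))

/-- `X` is a homomorphic image of a subdirect subgroup `Y` of `G ^ r` for some `r ≤ m`. -/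
def ImageOfSubdirectPower (m : ℕ) (G X : Type) [Group G] [Group X] : Prop :=
  ∃ r ≤ m, ∃ Y : Subgroup (Fin r → G), (∀ i g, ∃ y ∈ Y, y i = g) ∧
    ∃ θ : Y →* X, Function.Surjective θ

/-- Test (a): abelian minimal normal subgroups of `G` are central. -/
def TestAbelian (G : Type) [Group G] : Prop :=
  ∀ A : Subgroup G, IsMinNormal A → (∀ a ∈ A, ∀ b ∈ A, a * b = b * a) → A ≤ center G

/-- Every group `M ⧸ C_M(K)`, where `M` is a normal subgroup of `P` and `K` is a minimal normal
subgroup of `M`, is a homomorphic image of `P`. -/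
def IsTower (P : Type) [Group P] : Prop :=
  ∀ M : Subgroup P, M.Normal → ∀ (K : Subgroup M) [K.Normal], IsMinNormal K →
    ∃ f : P →* M ⧸ centralizer (K : Set M), Function.Surjective f

/-- Test (b): for each nonabelian minimal normal subgroup `A` of `G` the group `G ⧸ C_G(A)` has
the property `IsTower`. -/
def TestTower (G : Type) [Group G] : Prop :=
  ∀ (A : Subgroup G) [A.Normal], IsMinNormal A →
    (¬ ∀ a ∈ A, ∀ b ∈ A, a * b = b * a) → IsTower (G ⧸ centralizer (A : Set G))

/-- Test (c): if `G` is perfect with a unique minimal normal subgroup `C` and `C` is central, then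
each perfect normal subgroup `E` of `G` is a homomorphic image of a subdirect subgroup of `G ^ r`
for some `r ≤ powB |G| |G|`. -/
def TestPerfect (G : Type) [Group G] : Prop :=
  _root_.commutator G = ⊤ → ∀ C : Subgroup G, IsMinNormal C →
    (∀ B : Subgroup G, IsMinNormal B → B = C) → C ≤ center G →
    ∀ E : Subgroup G, E.Normal → _root_.commutator E = ⊤ →
      ImageOfSubdirectPower (powB (Nat.card G) (Nat.card G)) G E

/-- The perfect residual of a finite group: the intersection of the derived series. -/
def perfectResidual (G : Type) [Group G] : Subgroup G := ⨅ n : ℕ, derivedSeries G n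

end Pool.Agent.H65T
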