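import Pool.Agent.Lib.H65F.U0
import Pool.Agent.Lib.H65F.U0b
import Pool.Agent.Lib.H65F.U1
import Pool.Agent.Lib.H65F.U2
import Pool.Agent.Lib.H65F.U2b

/-! Chunk U3: no abelian layer above the monolith. -/

set_option autoImplicit false

namespace Pool.Agent.Lib.H65F

open Subgroup Pool.Agent.H69

theorem u3_top_ne {X : Type} [Group X] {T : Subgroup X} (hT : T ≠ ⊥) :
    (⊤ : Subgroup T) ≠ ⊥ := by
  intro h
  apply hT
  refine (Subgroup.eq_bot_iff_forall T).mpr fun x hx => ?_
  have h5 : (⟨x, hx⟩ : T) ∈ (⊥ : Subgroup T) := by rw [← h]; trivial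
  exact congrArg Subtype.val (mem_bot.mp h5)

/-- PROOF. `B := up ⊥`.  Suppose `⁅M, M⁆ ≤ B` and `¬ M ≤ B`.  `B` is a monolith and `centralizer B = ⊥`; `B ≤ M`
since `M ≠ ⊥`.  Choose `K : Subgroup M` minimal normal in `M` (`exists_minNormal (⊤ : Subgroup M)`), `C := centralizer K`
(in `M`), `Q := M ⧸ C`, `K~ := K.map (mk' C) = up ⊥` in `Q`, `⊥` is a node of `Q` (`isNode_quot_centralizer`).
`IsTower P` (`isTower_of_node`) gives a surjection `P →* Q`, so `Q ∈ F`, and `isTower_of_node` gives
`IsTower Q`.  Apply `IsTower Q` to the normal subgroup `K~` of `Q` and a minimal normal subgroup `K'` of `K~`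
(`K~ ≠ ⊥`): with `R := K~ ⧸ centralizer K'` there is a surjection `f : Q →* R`.  `R` is not commutative:
`⊥` is a node of `R` by `isNode_quot_centralizer` (for the group `Q`), so `R` has a nonabelian subgroup.
If `f.ker ≠ ⊥` then `K~ ≤ f.ker`, so `f` factors through `Q ⧸ K~`, which is commutative: for `a, b ∈ M` the
commutator `⁅a, b⁆` lies in `B.subgroupOf M ≤ K ⊔ C` (`up_bot_le_sup_centralizer`), so its image in `Q` lies in `K~`;
hence `R` would be commutative, contradiction.  So `f.ker = ⊥` and
`|Q| ≤ |R| ≤ |K~|`, `K~ = ⊤` (`Subgroup.eq_top_of_card_eq` or similar).  Then `M ≤ K₁ ⊔ centralizer K₁` with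
`K₁ := K.map M.subtype` (`le_sup_centralizer_of_map_le` with `N := M`), and `inner_lemma` (with `N := M`,
`map_le_up_bot`) gives `M ≤ B`, contradiction. -/
theorem no_abelian_layer {F : Formation} (h2 : CondTower' F) {P : Type} [Group P] [Finite P]
    (hP : F.mem P) (hn : IsNode (⊥ : Subgroup P)) {M : Subgroup P} (hM : M.Normal)
    (h : ⁅M, M⁆ ≤ up (⊥ : Subgroup P)) : M ≤ up (⊥ : Subgroup P) := by
  by_contra hMB
  obtain ⟨hBmon, hBna⟩ := hn.isMonolith
  have hBc := centralizer_monolith_eq_bot hBmon hBna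
  have hBn : (up (⊥ : Subgroup P)).Normal := up_normal _
  have hM0 : M ≠ ⊥ := by
    rintro rfl
    exact hMB bot_le
  have hBM : up (⊥ : Subgroup P) ≤ M := hBmon.2.2 M hM hM0
  obtain ⟨K, hK, -⟩ := exists_minNormal (⊤ : Subgroup M) inferInstance (u3_top_ne hM0)
  have hKn := hK.1
  obtain ⟨hnQ, hupQ⟩ := isNode_quot_centralizer hn hM hK
  obtain ⟨φ, hφ⟩ := isTower_of_node h2 hP hn M hM K hK
  have hQF : F.mem (M ⧸ centralizer (K : Set M)) := F.mem_of_surjective φ hφ hP
  have hTQ : IsTower (M ⧸ centralizer (K : Set M)) := isTower_of_node h2 hQF hnQ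
  have hTn : (K.map (QuotientGroup.mk' (centralizer (K : Set M)))).Normal :=
    hKn.map _ (QuotientGroup.mk'_surjective _)
  obtain ⟨hTmon, hTna⟩ := hnQ.isMonolith
  have hT0 : K.map (QuotientGroup.mk' (centralizer (K : Set M))) ≠ ⊥ := by
    rw [← hupQ]
    exact hTmon.2.1
  obtain ⟨K', hK', -⟩ := exists_minNormal
    (⊤ : Subgroup (K.map (QuotientGroup.mk' (centralizer (K : Set M))))) inferInstance
    (u3_top_ne hT0)
  have hKn' := hK'.1
  obtain ⟨hnR, -⟩ := isNode_quot_centralizer hnQ hTn hK'
  obtain ⟨f, hf⟩ := hTQ _ hTn K' hK'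
  -- the commutator subgroup of `M ⧸ C` lies in the monolith
  have hcomm : _root_.commutator (M ⧸ centralizer (K : Set M)) ≤
      K.map (QuotientGroup.mk' (centralizer (K : Set M))) := by
    have h3 : _root_.commutator M ≤ (up (⊥ : Subgroup P)).subgroupOf M := by
      rw [_root_.commutator_def, commutator_le]
      intro a _ b _
      rw [mem_subgroupOf]
      apply h
      exact commutator_mem_commutator (H₁ := M) (H₂ := M) a.2 b.2
    have h4 := h3.trans (up_bot_le_sup_centralizer hn hM hK)
    rw [_root_.commutator_def, ← MonoidHom.range_eq_top.mpr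
      (QuotientGroup.mk'_surjective (centralizer (K : Set M))), MonoidHom.range_eq_map,
      ← map_commutator]
    have h5 := Subgroup.map_mono (f := QuotientGroup.mk' (centralizer (K : Set M))) h4
    rw [_root_.commutator_def] at h5
    refine h5.trans ?_
    rw [Subgroup.map_sup]
    refine sup_le le_rfl ?_
    have h6 : (centralizer (K : Set M)).map (QuotientGroup.mk' (centralizer (K : Set M))) = ⊥ := by
      rw [Subgroup.map_eq_bot_iff, QuotientGroup.ker_mk']
    rw [h6]
    exact bot_le
  by_cases hker : f.ker = ⊥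
  · have hinj : Function.Injective f := (MonoidHom.ker_eq_bot_iff f).mp hker
    have hc1 : Nat.card (M ⧸ centralizer (K : Set M)) ≤
        Nat.card ((K.map (QuotientGroup.mk' (centralizer (K : Set M)))) ⧸
          centralizer (K' : Set (K.map (QuotientGroup.mk' (centralizer (K : Set M)))))) :=
      Nat.card_le_card_of_injective f hinj
    have hc2 : Nat.card ((K.map (QuotientGroup.mk' (centralizer (K : Set M)))) ⧸
          centralizer (K' : Set (K.map (QuotientGroup.mk' (centralizer (K : Set M)))))) ≤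
        Nat.card (K.map (QuotientGroup.mk' (centralizer (K : Set M)))) :=
      Nat.card_le_card_of_surjective _ (QuotientGroup.mk'_surjective _)
    have htop : K.map (QuotientGroup.mk' (centralizer (K : Set M))) = ⊤ :=
      Subgroup.eq_top_of_le_card _ (hc1.trans hc2)
    have h7 : M ≤ K.map M.subtype ⊔ centralizer ((K.map M.subtype : Subgroup P) : Set P) := by
      apply le_sup_centralizer_of_map_le le_rfl
      rw [htop]
      exact le_top
    obtain ⟨k1, k2, k3, k4⟩ := map_le_up_bot hn hM hK
    exact hMB (inner_lemma hBmon.minNormal hBc hM hM hBM le_rfl k1 k2 k3 k4 h7)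
  · have h5 : K.map (QuotientGroup.mk' (centralizer (K : Set M))) ≤ f.ker :=
      hupQ.symm.le.trans (hTmon.2.2 f.ker inferInstance hker)
    have h7 : _root_.commutator (ModCentralizer K') = ⊥ := by
      rw [_root_.commutator_def, ← MonoidHom.range_eq_top.mpr hf, MonoidHom.range_eq_map,
        ← map_commutator, Subgroup.map_eq_bot_iff]
      exact hcomm.trans h5
    obtain ⟨hRmon, hRna⟩ := hnR.isMonolith
    apply hRna
    rw [eq_bot_iff]
    refine (commutator_mono le_top le_top).trans ?_
    exact h7.le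

end Pool.Agent.Lib.H65F
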